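import Pool.Agent.Lib.RelComp.Basic
import Mathlib.Data.Nat.Factorial.Basic
import Mathlib.Computability.Halting

/-!
Computable majorants and further closure properties of the calculus `CI`, `CP`.
-/

namespace Pool.Agent.Work.MP_db9079_lc

open Pool.Agent.Lib.RelComp

variable {α β σ : Type} [Primcodable α] [Primcodable β] [Primcodable σ] {O : Set (ℕ →. ℕ)}

@[fun_prop] theorem ci_pow {f g : α → ℕ} (hf : CI O f) (hg : CI O g) :
    CI O (fun a => f a ^ g a) := by
  have := CI.of_rec (O := O) (F := fun a n => f a ^ n) (h := fun a _ x => x * f a)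
    (by simpa using CI.const _) (by fun_prop) (fun a n => pow_succ _ _)
  exact CI.comp _ (fun a => (a, g a)) this (by fun_prop)

@[fun_prop] theorem ci_factorial {f : α → ℕ} (hf : CI O f) : CI O (fun a => (f a).factorial) := by
  have := CI.of_rec (O := O) (F := fun (_ : α) n => n.factorial) (h := fun _ n x => (n + 1) * x)
    (by simpa using CI.const _) (by fun_prop) (fun a n => Nat.factorial_succ n)
  exact CI.comp _ (fun a => (a, f a)) this (by fun_prop)

theorem ci_iterate {F : α → σ → σ} {n : α → ℕ} {x : α → σ}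
    (hF : CI O (fun q : α × σ => F q.1 q.2)) (hn : CI O n) (hx : CI O x) :
    CI O (fun a => (F a)^[n a] (x a)) := by
  have := CI.of_rec (O := O) (F := fun a m => (F a)^[m] (x a)) (h := fun a _ y => F a y)
    (by simpa using hx) (CI.comp _ (fun p : α × ℕ × σ => (p.1, p.2.2)) hF (by fun_prop))
    (fun a m => Function.iterate_succ_apply' _ _ _)
  exact CI.comp _ (fun a => (a, n a)) this (by fun_prop)

theorem rcm_drop {l : α → List β} {n : α → ℕ} (hn : CI O n) (hl : CI O l) :
    CI O (fun a => (l a).drop (n a)) := by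
  refine (ci_iterate (F := fun _ => List.tail) (CI.pr1 Primrec.list_tail (by fun_prop))
    hn hl).congr fun a => ?_
  induction n a with
  | zero => rfl
  | succ k ih => rw [Function.iterate_succ_apply', ih, List.tail_drop]

theorem rcm_rec {β σ : Type} (l : List β) (b : β) (g : σ) (h : β → List β → σ → σ) (i : ℕ)
    (hi : i ≤ l.length) :
    Nat.rec (motive := fun _ => σ) g
      (fun y r => h (l.getD (l.length - (y + 1)) b) (l.drop (l.length - y)) r) i =
      List.rec (motive := fun _ => σ) g (fun b t r => h b t r) (l.drop (l.length - i)) := by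
  induction i with
  | zero => simp
  | succ i ih =>
    have h1 : l.length - (i + 1) < l.length := by omega
    have h2 : l.length - (i + 1) + 1 = l.length - i := by omega
    rw [List.drop_eq_getElem_cons h1, h2]
    have h3 : l.getD (l.length - (i + 1)) b = l[l.length - (i + 1)] := by
      rw [List.getD_eq_getElem?_getD, List.getElem?_eq_getElem h1, Option.getD_some]
    dsimp only
    rw [ih (by omega), h3]

theorem rcm_le_sum {l : List ℕ} {n : ℕ} (h : n ∈ l) : n ≤ l.sum := by
  induction l with
  | nil => simp at h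
  | cons b t ih =>
    rw [List.sum_cons]
    rcases List.mem_cons.1 h with rfl | h
    · omega
    · have := ih h
      omega

theorem ci_listRec {l : α → List β} {g : α → σ} {h : α → β → List β → σ → σ} (hl : CI O l)
    (hg : CI O g) (hh : CI O (fun q : α × β × List β × σ => h q.1 q.2.1 q.2.2.1 q.2.2.2)) :
    CI O (fun a => List.rec (motive := fun _ => σ) (g a) (fun b t r => h a b t r) (l a)) := by
  by_cases hb : Nonempty β
  · obtain ⟨b⟩ := hb
    have h1 : CI O (fun p : α × ℕ × σ => (l p.1).drop ((l p.1).length - p.2.1)) :=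
      rcm_drop (by fun_prop) (by fun_prop)
    have h2 := CI.natRec (O := O) (f := fun a => (l a).length) (g := g)
      (h := fun a i r => h a ((l a).getD ((l a).length - (i + 1)) b)
        ((l a).drop ((l a).length - i)) r) (by fun_prop) hg
      (CI.comp _ (fun p : α × ℕ × σ => (p.1, (l p.1).getD ((l p.1).length - (p.2.1 + 1)) b,
        (l p.1).drop ((l p.1).length - p.2.1), p.2.2)) hh (by fun_prop))
    refine h2.congr fun a => ?_
    have := rcm_rec (l a) b (g a) (h a) (l a).length le_rfl
    simpa using this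
  · refine hg.congr fun a => ?_
    cases l a with
    | nil => rfl
    | cons b _ => exact absurd ⟨b⟩ hb

theorem ci_foldr {l : α → List β} {g : α → σ} {h : α → β → σ → σ} (hl : CI O l)
    (hg : CI O g) (hh : CI O (fun q : α × β × σ => h q.1 q.2.1 q.2.2)) :
    CI O (fun a => (l a).foldr (h a) (g a)) := by
  refine (ci_listRec (h := fun a b _ r => h a b r) hl hg
    (CI.comp _ (fun q : α × β × List β × σ => (q.1, q.2.1, q.2.2.2)) hh (by fun_prop))).congr
    fun a => ?_
  induction l a with
  | nil => rfl
  | cons b t ih => simp only [List.foldr_cons, ← ih]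

@[fun_prop] theorem ci_sum {l : α → List ℕ} (hl : CI O l) : CI O (fun a => (l a).sum) := by
  refine (ci_foldr (h := fun _ b r => b + r) (g := fun _ => 0) hl (CI.const _)
    (by fun_prop)).congr fun a => ?_
  induction l a with
  | nil => rfl
  | cons b t ih => simp only [List.foldr_cons, List.sum_cons, ih]

@[fun_prop] theorem ci_tail {l : α → List β} (hl : CI O l) : CI O (fun a => (l a).tail) := by
  exact CI.pr1 Primrec.list_tail hl

@[fun_prop] theorem ci_drop {l : α → List β} {n : α → ℕ} (hn : CI O n) (hl : CI O l) :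
    CI O (fun a => (l a).drop (n a)) := by
  exact rcm_drop hn hl

@[fun_prop] theorem ci_headD {l : α → List β} {d : α → β} (hl : CI O l) (hd : CI O d) :
    CI O (fun a => (l a).headD (d a)) := by
  have : CI O (fun a => (l a).getD 0 (d a)) := by fun_prop
  exact this.congr fun a => by cases l a <;> rfl

@[fun_prop] theorem ci_replicate {n : α → ℕ} {d : α → β} (hn : CI O n) (hd : CI O d) :
    CI O (fun a => List.replicate (n a) (d a)) := by
  have := CI.mapRange (O := O) (g := fun a _ => d a) hn (by fun_prop)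
  exact this.congr fun a => by simp

open Classical in
/-- Filtering by a proposition. -/
noncomputable def filt (r : β → Prop) (l : List β) : List β := l.filter fun b => decide (r b)

omit [Primcodable β] in
@[simp] theorem mem_filt {r : β → Prop} {l : List β} {b : β} : b ∈ filt r l ↔ b ∈ l ∧ r b := by
  simp [filt]

theorem ci_filt {l : α → List β} {r : α → β → Prop} (hl : CI O l)
    (hr : CP O (fun q : α × β => r q.1 q.2)) : CI O (fun a => filt (r a) (l a)) := by
  classical
  have : CI O (fun a => (l a).flatMap fun b => if r a b then [b] else []) :=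
    CI.flatMap hl (CI.ite hr (by fun_prop) (by fun_prop))
  refine this.congr fun a => ?_
  induction l a with
  | nil => rfl
  | cons b t ih =>
    rw [List.flatMap_cons, ih]
    by_cases hb : r a b <;> simp [filt, hb]

theorem cp_allLt {n : α → ℕ} {r : α → ℕ → Prop} (hn : CI O n)
    (hr : CP O (fun x : α × ℕ => r x.1 x.2)) : CP O (fun a => ∀ b, b < n a → r a b) := by
  exact (CP.allMem (CI.range hn) hr).congr fun a => by simp

/-- All lists of length `n` over the alphabet `S`. -/
def allL {β : Type} (S : List β) : ℕ → List (List β)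
  | 0 => [[]]
  | n + 1 => S.flatMap fun b => (allL S n).map fun l => b :: l

theorem mem_allL {β : Type} {S : List β} {n : ℕ} {l : List β} :
    l ∈ allL S n ↔ l.length = n ∧ ∀ b ∈ l, b ∈ S := by
  induction n generalizing l with
  | zero =>
    simp only [allL, List.mem_singleton, List.length_eq_zero_iff]
    exact ⟨fun h => ⟨h, by simp [h]⟩, fun h => h.1⟩
  | succ n ih =>
    simp only [allL, List.mem_flatMap, List.mem_map, ih]
    constructor
    · rintro ⟨b, hb, t, ⟨h1, h2⟩, rfl⟩
      exact ⟨by simp [h1], by simpa using ⟨hb, h2⟩⟩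
    · rintro ⟨h1, h2⟩
      cases l with
      | nil => simp at h1
      | cons b t =>
        exact ⟨b, h2 b (by simp), t, ⟨by simpa using h1, fun c hc => h2 c (by simp [hc])⟩, rfl⟩

@[fun_prop] theorem ci_allL {S : α → List β} {n : α → ℕ} (hS : CI O S) (hn : CI O n) :
    CI O (fun a => allL (S a) (n a)) := by
  have := CI.of_rec (O := O) (F := fun a m => allL (S a) m)
    (h := fun a _ x => (S a).flatMap fun b => x.map fun l => b :: l)
    (CI.const _) (by fun_prop) (fun a m => rfl)
  exact CI.comp _ (fun a => (a, n a)) this (by fun_prop)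

theorem computablePred_of_cp {r : α → Prop} (h : CP ∅ r) : ComputablePred r := by
  classical
  have h1 : Computable fun a => decide (r a) := by
    have h2 : RecursiveIn ∅ fun a => Part.some (decide (r a)) := h
    exact recursiveIn_empty_iff.1 h2
  exact ComputablePred.computable_iff.2 ⟨_, h1, by simp⟩

/-- Computable, monotone and strictly inflationary. -/
structure Cm (f : ℕ → ℕ) : Prop where
  ci : CI ∅ f
  mono : Monotone f
  lt : ∀ s, s < f s

theorem Cm.le {f : ℕ → ℕ} (hf : Cm f) (s : ℕ) : s ≤ f s := (hf.lt s).le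

theorem Cm.pos {f : ℕ → ℕ} (hf : Cm f) (s : ℕ) : 0 < f s := Nat.zero_lt_of_lt (hf.lt s)

theorem Cm.comp {f g : ℕ → ℕ} (hf : Cm f) (hg : Cm g) : Cm (fun s => f (g s)) := by
  exact ⟨CI.comp f g hf.ci hg.ci, hf.mono.comp hg.mono, fun s => (hg.lt s).trans (hf.lt _)⟩

theorem Cm.le_iterate {f : ℕ → ℕ} (hf : Cm f) (k s : ℕ) : s ≤ f^[k] s := by
  induction k with
  | zero => exact le_rfl
  | succ k ih => rw [Function.iterate_succ_apply']; exact ih.trans (hf.le _)

theorem Cm.iterate_mono {f : ℕ → ℕ} (hf : Cm f) {k k' s s' : ℕ} (hk : k ≤ k') (hs : s ≤ s') :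
    f^[k] s ≤ f^[k'] s' := by
  obtain ⟨d, rfl⟩ := Nat.exists_eq_add_of_le' hk
  rw [Function.iterate_add_apply]
  exact (hf.mono.iterate k hs).trans (hf.le_iterate d _)

theorem exists_cm {g : ℕ → ℕ} (hg : CI ∅ g) : ∃ f, Cm f ∧ ∀ a x, a ≤ x → g a ≤ f x := by
  refine ⟨fun x => x + 1 + ((List.range (x + 1)).map g).sum, ⟨by fun_prop, ?_, fun s => by omega⟩,
    fun a x ha => ?_⟩
  · refine monotone_nat_of_le_succ fun n => ?_
    rw [List.range_succ (n := n + 1), List.map_append, List.sum_append]
    omega
  · have : g a ≤ ((List.range (x + 1)).map g).sum :=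
      rcm_le_sum
        (List.mem_map.2 ⟨a, List.mem_range.2 (by omega), rfl⟩)
    show g a ≤ x + 1 + _
    omega

theorem exists_cm2 {g : ℕ → ℕ → ℕ} (hg : CI ∅ (fun q : ℕ × ℕ => g q.1 q.2)) :
    ∃ f, Cm f ∧ ∀ a b x, a ≤ x → b ≤ x → g a b ≤ f x := by
  have h1 : CI ∅ (fun x : ℕ => ((List.range (x + 1)).map fun b =>
      ((List.range (x + 1)).map fun a => g a b).sum).sum) :=
    ci_sum (CI.map (by fun_prop) (ci_sum (CI.map (by fun_prop)
      (CI.comp _ (fun p : (ℕ × ℕ) × ℕ => (p.2, p.1.2)) hg (by fun_prop)))))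
  obtain ⟨f, hf, h2⟩ := exists_cm h1
  refine ⟨f, hf, fun a b x ha hb => le_trans ?_ (h2 x x le_rfl)⟩
  refine le_trans ?_ (rcm_le_sum
    (List.mem_map.2 ⟨b, List.mem_range.2 (by omega), rfl⟩))
  exact rcm_le_sum
    (List.mem_map.2 ⟨a, List.mem_range.2 (by omega), rfl⟩)

/-- A majorant of a list of computable functions. -/
theorem exists_cm_list (L : List (ℕ → ℕ)) (hL : ∀ g ∈ L, CI ∅ g) :
    ∃ f, Cm f ∧ ∀ g ∈ L, ∀ a x, a ≤ x → g a ≤ f x := by
  induction L with
  | nil =>
    obtain ⟨f, hf, -⟩ := exists_cm (g := fun _ => 0) (CI.const _)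
    exact ⟨f, hf, by simp⟩
  | cons g L ih =>
    obtain ⟨f, hf, h1⟩ := ih fun g hg => hL g (by simp [hg])
    obtain ⟨f', hf', h2⟩ := exists_cm (hL g (by simp))
    refine ⟨fun s => f (f' s), hf.comp hf', fun g' hg' a x ha => ?_⟩
    rcases List.mem_cons.1 hg' with rfl | hg'
    · exact (h2 a x ha).trans (hf.le _)
    · exact h1 g' hg' a _ (ha.trans (hf'.le x))

/-- Iterating a majorant a computable number of times. -/
theorem Cm.exists_iterate {u k : ℕ → ℕ} (hu : Cm u) (hk : CI ∅ k) :
    ∃ f, Cm f ∧ ∀ s, u^[k s] s ≤ f s := by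
  obtain ⟨f, hf, h1⟩ := exists_cm (g := fun s => u^[k s] s)
    (ci_iterate (F := fun _ => u) (CI.comp u _ hu.ci (by fun_prop)) hk CI.id')
  exact ⟨f, hf, fun s => h1 s s le_rfl⟩

end Pool.Agent.Work.MP_db9079_lc
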