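import Pool.Agent.Work.MP_db9079_lc.Calc
import Mathlib.Logic.Godel.GodelBetaFunction
import Mathlib.Computability.Halting

/-!
Graphs of recursive functions are arithmetical.
-/

namespace Pool.Agent.Work.MP_db9079_lc

open DC

variable {C : DC ℕ} {α : Type}

/-- Addition and multiplication belong to the class. -/
structure HasArith (C : DC ℕ) : Prop where
  add : C.D (fun v : Fin 3 → ℕ => v 0 + v 1 = v 2)
  mul : C.D (fun v : Fin 3 → ℕ => v 0 * v 1 = v 2)

namespace HasArith

theorem fadd (h : HasArith C) {f g : (α → ℕ) → ℕ} (hf : C.F f) (hg : C.F g) :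
    C.F (fun v => f v + g v) := op2 h.add hf hg

theorem fmul (h : HasArith C) {f g : (α → ℕ) → ℕ} (hf : C.F f) (hg : C.F g) :
    C.F (fun v => f v * g v) := op2 h.mul hf hg

theorem fzero (h : HasArith C) : C.F (fun _ : α → ℕ => 0) :=
  const (congr (eq (h.fadd (var 0) (var 0)) (var 0)) (fun v => by omega))

theorem fone (h : HasArith C) : C.F (fun _ : α → ℕ => 1) := by
  refine const (congr (C.and (eq (h.fmul (var 0) (var 0)) (var 0)) (ne (var 0) h.fzero))
    (fun v => ?_))
  constructor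
  · rintro ⟨h1, h2⟩
    exact (Nat.eq_of_mul_eq_mul_left (Nat.pos_of_ne_zero h2) (by rw [h1, mul_one])).symm
  · intro h1
    simp [← h1]

theorem lt (h : HasArith C) {f g : (α → ℕ) → ℕ} (hf : C.F f) (hg : C.F g) :
    C.D (fun v => f v < g v) := by
  refine app2 (R := fun a b => a < b) ?_ hf hg
  refine congr (ex (Q := fun (v : Fin 2 → ℕ) c => v 0 + c + 1 = v 1)
    (eq (h.fadd (h.fadd (var _) (var _)) h.fone) (var _))) (fun v => ?_)
  exact ⟨fun ⟨c, hc⟩ => by omega, fun hv => ⟨v 1 - v 0 - 1, by omega⟩⟩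

theorem fpair (h : HasArith C) {f g : (α → ℕ) → ℕ} (hf : C.F f) (hg : C.F g) :
    C.F (fun v => Nat.pair (f v) (g v)) := by
  refine op2 (op := Nat.pair) ?_ hf hg
  refine congr (DC.or (C.and (h.lt (var 0) (var 1))
      (eq (h.fadd (h.fmul (var 1) (var 1)) (var 0)) (var 2)))
    (C.and (C.not (h.lt (var 0) (var 1)))
      (eq (h.fadd (h.fadd (h.fmul (var 0) (var 0)) (var 0)) (var 1)) (var 2)))) (fun v => ?_)
  unfold Nat.pair
  by_cases hv : v 0 < v 1 <;> simp [hv]

theorem fleft (h : HasArith C) {f : (α → ℕ) → ℕ} (hf : C.F f) :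
    C.F (fun v => (f v).unpair.1) := by
  refine op1 (op := fun n => n.unpair.1) ?_ hf
  refine congr (ex (Q := fun (v : Fin 2 → ℕ) b => Nat.pair (v 1) b = v 0)
    (eq (h.fpair (var _) (var _)) (var _))) (fun v => ?_)
  constructor
  · rintro ⟨b, hb⟩
    simp [← hb]
  · intro hv
    exact ⟨(v 0).unpair.2, by rw [← hv, Nat.pair_unpair]⟩

theorem fright (h : HasArith C) {f : (α → ℕ) → ℕ} (hf : C.F f) :
    C.F (fun v => (f v).unpair.2) := by
  refine op1 (op := fun n => n.unpair.2) ?_ hf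
  refine congr (ex (Q := fun (v : Fin 2 → ℕ) b => Nat.pair b (v 1) = v 0)
    (eq (h.fpair (var _) (var _)) (var _))) (fun v => ?_)
  constructor
  · rintro ⟨b, hb⟩
    simp [← hb]
  · intro hv
    exact ⟨(v 0).unpair.1, by rw [← hv, Nat.pair_unpair]⟩

theorem fmod (h : HasArith C) {f g : (α → ℕ) → ℕ} (hf : C.F f) (hg : C.F g) :
    C.F (fun v => f v % (g v + 1)) := by
  refine op2 (op := fun a m => a % (m + 1)) ?_ hf hg
  refine congr (C.and (h.lt (var 2) (h.fadd (var 1) h.fone))
    (ex (Q := fun (v : Fin 3 → ℕ) q => v 0 = (v 1 + 1) * q + v 2)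
      (eq (var _) (h.fadd (h.fmul (h.fadd (var _) h.fone) (var _)) (var _))))) (fun v => ?_)
  constructor
  · rintro ⟨h1, q, hq⟩
    rw [hq, Nat.mul_add_mod, Nat.mod_eq_of_lt h1]
  · intro hv
    exact ⟨hv ▸ Nat.mod_lt _ (by omega), v 0 / (v 1 + 1), by rw [← hv, Nat.div_add_mod]⟩

theorem fbeta (h : HasArith C) {f g : (α → ℕ) → ℕ} (hf : C.F f) (hg : C.F g) :
    C.F (fun v => Nat.beta (f v) (g v)) :=
  h.fmod (h.fleft hf) (h.fmul (h.fadd hg h.fone) (h.fright hf))

end HasArith

theorem mem_prec (f g : ℕ →. ℕ) (a : ℕ) : ∀ (n y : ℕ),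
    y ∈ (n.rec (f a) (fun y IH => do let i ← IH; g (Nat.pair a (Nat.pair y i))) : Part ℕ) ↔
      ∃ s : ℕ → ℕ, s 0 ∈ f a ∧ (∀ i, i < n → s (i + 1) ∈ g (Nat.pair a (Nat.pair i (s i)))) ∧
        s n = y
  | 0, y => by
    constructor
    · intro h
      exact ⟨fun _ => y, h, fun i hi => absurd hi (by omega), rfl⟩
    · rintro ⟨s, h1, -, rfl⟩
      exact h1
  | n + 1, y => by
    simp only [Part.bind_eq_bind, Part.mem_bind_iff]
    constructor
    · rintro ⟨x, hx, hy⟩
      obtain ⟨s, h1, h2, h3⟩ := (mem_prec f g a n x).mp hx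
      refine ⟨fun i => if i = n + 1 then y else s i, by simpa using h1, fun i hi => ?_, by simp⟩
      by_cases hin : i = n
      · subst hin
        simpa [h3] using hy
      · have h4 : i + 1 ≠ n + 1 := by omega
        have h5 : i ≠ n + 1 := by omega
        simp only [h4, h5, if_false]
        exact h2 i (by omega)
    · rintro ⟨s, h1, h2, rfl⟩
      exact ⟨s n, (mem_prec f g a n _).mpr ⟨s, h1, fun i hi => h2 i (by omega), rfl⟩,
        h2 n (by omega)⟩

theorem exists_beta (s : ℕ → ℕ) (n : ℕ) : ∃ c, ∀ i, i ≤ n → Nat.beta c i = s i := by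
  refine ⟨Nat.unbeta ((List.range (n + 1)).map s), fun i hi => ?_⟩
  have := Nat.beta_unbeta_coe ((List.range (n + 1)).map s) ⟨i, by simp; omega⟩
  simpa using this

theorem graph_of_partrec (h : HasArith C) {f : ℕ →. ℕ} (hf : Nat.Partrec f) :
    C.D (fun v : Fin 2 → ℕ => v 1 ∈ f (v 0)) := by
  induction hf with
  | zero =>
    refine congr (eq (var 1) h.fzero) (fun v => ?_)
    change _ ↔ v 1 ∈ Part.some 0
    simp
  | succ =>
    refine congr (eq (var 1) (h.fadd (var 0) h.fone)) (fun v => ?_)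
    simp
  | left =>
    refine congr (eq (var 1) (h.fleft (var 0))) (fun v => ?_)
    simp
  | right =>
    refine congr (eq (var 1) (h.fright (var 0))) (fun v => ?_)
    simp
  | @pair f g _ _ ihf ihg =>
    refine congr (ex (Q := fun (v : Fin 2 → ℕ) a => ∃ b, a ∈ f (v 0) ∧ b ∈ g (v 0) ∧
      Nat.pair a b = v 1) (ex (C.and (app2 (R := fun x y => y ∈ f x) ihf (var _) (var _))
        (C.and (app2 (R := fun x y => y ∈ g x) ihg (var _) (var _))
          (eq (h.fpair (var _) (var _)) (var _)))))) (fun v => ?_)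
    simp [Seq.seq]
  | @comp f g _ _ ihf ihg =>
    refine congr (ex (Q := fun (v : Fin 2 → ℕ) a => a ∈ g (v 0) ∧ v 1 ∈ f a)
      (C.and (app2 (R := fun x y => y ∈ g x) ihg (var _) (var _))
        (app2 (R := fun x y => y ∈ f x) ihf (var _) (var _)))) (fun v => ?_)
    simp
  | @prec f g _ _ ihf ihg =>
    refine congr (ex (Q := fun (v : Fin 2 → ℕ) c => Nat.beta c 0 ∈ f (v 0).unpair.1 ∧
      (∀ i, i < (v 0).unpair.2 → Nat.beta c (i + 1) ∈
        g (Nat.pair (v 0).unpair.1 (Nat.pair i (Nat.beta c i)))) ∧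
      Nat.beta c (v 0).unpair.2 = v 1)
      (C.and (app2 (R := fun x y => y ∈ f x) ihf (h.fleft (var _)) (h.fbeta (var _) h.fzero))
        (C.and (all (imp (h.lt (var _) (h.fright (var _)))
          (app2 (R := fun x y => y ∈ g x) ihg
            (h.fpair (h.fleft (var _)) (h.fpair (var _) (h.fbeta (var _) (var _))))
            (h.fbeta (var _) (h.fadd (var _) h.fone)))))
          (eq (h.fbeta (var _) (h.fright (var _))) (var _))))) (fun v => ?_)
    simp only [Nat.unpaired]
    rw [mem_prec]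
    constructor
    · rintro ⟨c, h1, h2, h3⟩
      exact ⟨Nat.beta c, h1, h2, h3⟩
    · rintro ⟨s, h1, h2, h3⟩
      obtain ⟨c, hc⟩ := exists_beta s (v 0).unpair.2
      refine ⟨c, by rwa [hc 0 (by omega)], fun i hi => ?_, by rwa [hc _ le_rfl]⟩
      rw [hc i (by omega), hc (i + 1) (by omega)]
      exact h2 i hi
  | @rfind f _ ihf =>
    refine congr (C.and
      (app2 (R := fun x y => y ∈ f x) ihf (h.fpair (var 0) (var 1)) h.fzero)
      (all (Q := fun (v : Fin 2 → ℕ) m => m < v 1 → ∃ z, z ∈ f (Nat.pair (v 0) m) ∧ z ≠ 0)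
        (imp (h.lt (var _) (var _)) (ex (C.and
          (app2 (R := fun x y => y ∈ f x) ihf (h.fpair (var _) (var _)) (var _))
          (ne (var _) h.fzero)))))) (fun v => ?_)
    rw [Nat.mem_rfind]
    simp

open Nat.Partrec (Code) in
theorem exists_noncomputable (h : HasArith C) :
    ∃ P : ℕ → Prop, C.D (fun v : Fin 1 → ℕ => P (v 0)) ∧ ¬ ComputablePred P := by
  let f : ℕ →. ℕ := fun n => Code.eval (Denumerable.ofNat Code n) 0
  have hf : Nat.Partrec f := by
    rw [← Partrec.nat_iff]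
    exact Code.eval_part.comp (Computable.ofNat Code) (Computable.const 0)
  refine ⟨fun n => (f n).Dom, ?_, fun hc => ComputablePred.halting_problem 0 ?_⟩
  · refine congr (ex (Q := fun (v : Fin 1 → ℕ) y => y ∈ f (v 0))
      (app2 (R := fun x y => y ∈ f x) (graph_of_partrec h hf) (var _) (var _))) (fun v => ?_)
    exact Part.dom_iff_mem.symm
  · obtain ⟨inst, hc⟩ := hc
    have := hc.comp (Computable.encode (α := Code))
    refine ⟨Classical.decPred _, this.of_eq fun c => ?_⟩
    simp [f]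

end Pool.Agent.Work.MP_db9079_lc
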