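import Mathlib.Data.Fintype.Option
import Mathlib.Data.Fin.VecNotation
import Mathlib.Algebra.BigOperators.Group.Finset.Basic
import Mathlib.Tactic

/-!
A small calculus of definable predicates and functions over an abstract class of predicates that
is closed under the first-order operations.
-/

namespace Pool.Agent.Work.MP_db9079_lc

/-- A class of predicates on tuples closed under renaming, negation, conjunction and existential
quantification, and containing equality. -/
structure DC (M : Type) where
  D : ∀ {α : Type}, ((α → M) → Prop) → Prop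
  comp : ∀ {α β : Type} (f : α → β) {P : (α → M) → Prop}, D P →
    D (fun v : β → M => P (fun a => v (f a)))
  not : ∀ {α : Type} {P : (α → M) → Prop}, D P → D (fun v => ¬ P v)
  and : ∀ {α : Type} {P Q : (α → M) → Prop}, D P → D Q → D (fun v => P v ∧ Q v)
  exs' : ∀ {α β : Type} [Finite β] {P : (α ⊕ β → M) → Prop}, D P →
    D (fun v : α → M => ∃ u : β → M, P (Sum.elim v u))
  eq' : D (fun v : Fin 2 → M => v 0 = v 1)
  tru : ∀ {α : Type}, D (fun _ : α → M => True)

namespace DC

variable {M : Type} (C : DC M) {α β : Type}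

/-- Definable functions. -/
def F (f : (α → M) → M) : Prop :=
  C.D (fun v : Option α → M => f (fun a => v (some a)) = v none)

variable {C}

theorem congr {P Q : (α → M) → Prop} (h : C.D P) (e : ∀ v, P v ↔ Q v) : C.D Q := by
  have : P = Q := funext fun v => propext (e v)
  exact this ▸ h

theorem or {P Q : (α → M) → Prop} (hP : C.D P) (hQ : C.D Q) : C.D (fun v => P v ∨ Q v) :=
  congr (C.not (C.and (C.not hP) (C.not hQ))) (fun v => by tauto)

theorem imp {P Q : (α → M) → Prop} (hP : C.D P) (hQ : C.D Q) : C.D (fun v => P v → Q v) :=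
  congr (C.not (C.and hP (C.not hQ))) (fun v => by tauto)

theorem iff {P Q : (α → M) → Prop} (hP : C.D P) (hQ : C.D Q) : C.D (fun v => P v ↔ Q v) :=
  congr (C.and (imp hP hQ) (imp hQ hP)) (fun v => by tauto)

theorem exs [Finite β] {Q : (α → M) → (β → M) → Prop}
    (h : C.D (fun w : α ⊕ β → M => Q (fun a => w (Sum.inl a)) (fun b => w (Sum.inr b)))) :
    C.D (fun v => ∃ u, Q v u) :=
  congr (C.exs' h) (fun _ => Iff.rfl)

theorem alls [Finite β] {Q : (α → M) → (β → M) → Prop}
    (h : C.D (fun w : α ⊕ β → M => Q (fun a => w (Sum.inl a)) (fun b => w (Sum.inr b)))) :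
    C.D (fun v => ∀ u, Q v u) :=
  congr (C.not (exs (Q := fun v u => ¬ Q v u) (C.not h))) (fun v => by simp)

theorem ex {Q : (α → M) → M → Prop}
    (h : C.D (fun w : Option α → M => Q (fun a => w (some a)) (w none))) :
    C.D (fun v => ∃ x, Q v x) := by
  have h1 := C.comp (fun o : Option α => (o.elim (Sum.inr ()) Sum.inl : α ⊕ Unit)) h
  refine congr (exs (β := Unit) (Q := fun v u => Q v (u ())) h1) (fun v => ?_)
  exact ⟨fun ⟨u, hu⟩ => ⟨u (), hu⟩, fun ⟨x, hx⟩ => ⟨fun _ => x, hx⟩⟩

theorem all {Q : (α → M) → M → Prop}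
    (h : C.D (fun w : Option α → M => Q (fun a => w (some a)) (w none))) :
    C.D (fun v => ∀ x, Q v x) :=
  congr (C.not (ex (Q := fun v u => ¬ Q v u) (C.not h))) (fun v => by simp)

theorem eqVar (i j : α) : C.D (fun v : α → M => v i = v j) :=
  C.comp (fun k : Fin 2 => ![i, j] k) C.eq'

theorem var (i : α) : C.F (fun v : α → M => v i) := eqVar (some i) none

theorem F.comp {f : (α → M) → M} (h : C.F f) (g : α → β) :
    C.F (fun v : β → M => f (fun a => v (g a))) :=
  C.comp (Option.map g) h

theorem forall_fin {ι : Type} [Finite ι] {P : ι → (α → M) → Prop} (h : ∀ i, C.D (P i)) :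
    C.D (fun v => ∀ i, P i v) := by
  classical
  have := Fintype.ofFinite ι
  have key : ∀ s : Finset ι, C.D (fun v => ∀ i ∈ s, P i v) := by
    intro s
    induction s using Finset.induction_on with
    | empty => exact congr C.tru (by simp)
    | insert a s _ ih => exact congr (C.and (h a) ih) (by simp)
  exact congr (key Finset.univ) (by simp)

theorem exists_fin {ι : Type} [Finite ι] {P : ι → (α → M) → Prop} (h : ∀ i, C.D (P i)) :
    C.D (fun v => ∃ i, P i v) :=
  congr (C.not (forall_fin (P := fun i v => ¬ P i v) (fun i => C.not (h i)))) (fun v => by simp)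

theorem app [Finite β] {R : (β → M) → Prop} (hR : C.D R) {g : (α → M) → β → M}
    (hg : ∀ b, C.F (fun v => g v b)) : C.D (fun v => R (g v)) := by
  have h1 : C.D (fun w : α ⊕ β → M => (∀ b, g (fun a => w (Sum.inl a)) b = w (Sum.inr b)) ∧
      R (fun b => w (Sum.inr b))) := by
    refine C.and (forall_fin fun b => ?_) (C.comp Sum.inr hR)
    exact C.comp (fun o : Option α => (o.elim (Sum.inr b) Sum.inl : α ⊕ β)) (hg b)
  refine congr (exs (Q := fun v u => (∀ b, g v b = u b) ∧ R u) h1) (fun v => ?_)
  constructor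
  · rintro ⟨u, h2, h3⟩
    rwa [show g v = u from funext h2]
  · intro h
    exact ⟨g v, fun _ => rfl, h⟩

theorem eq {f g : (α → M) → M} (hf : C.F f) (hg : C.F g) : C.D (fun v => f v = g v) :=
  app C.eq' (g := fun v => ![f v, g v]) (fun b => by fin_cases b <;> assumption)

theorem ne {f g : (α → M) → M} (hf : C.F f) (hg : C.F g) : C.D (fun v => f v ≠ g v) :=
  C.not (eq hf hg)

theorem app1 {R : M → Prop} (hR : C.D (fun v : Fin 1 → M => R (v 0))) {f : (α → M) → M}
    (hf : C.F f) : C.D (fun v => R (f v)) :=
  app hR (g := fun v => ![f v]) (fun b => by fin_cases b; assumption)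

theorem app2 {R : M → M → Prop} (hR : C.D (fun v : Fin 2 → M => R (v 0) (v 1)))
    {f g : (α → M) → M} (hf : C.F f) (hg : C.F g) : C.D (fun v => R (f v) (g v)) :=
  app hR (g := fun v => ![f v, g v]) (fun b => by fin_cases b <;> assumption)

theorem app3 {R : M → M → M → Prop} (hR : C.D (fun v : Fin 3 → M => R (v 0) (v 1) (v 2)))
    {f g h : (α → M) → M} (hf : C.F f) (hg : C.F g) (hh : C.F h) :
    C.D (fun v => R (f v) (g v) (h v)) :=
  app hR (g := fun v => ![f v, g v, h v]) (fun b => by fin_cases b <;> assumption)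

theorem op1 {op : M → M} (hop : C.D (fun v : Fin 2 → M => op (v 0) = v 1))
    {f : (α → M) → M} (hf : C.F f) : C.F (fun v => op (f v)) :=
  app2 (R := fun a b => op a = b) hop (hf.comp some) (var none)

theorem op2 {op : M → M → M} (hop : C.D (fun v : Fin 3 → M => op (v 0) (v 1) = v 2))
    {f g : (α → M) → M} (hf : C.F f) (hg : C.F g) : C.F (fun v => op (f v) (g v)) :=
  app3 (R := fun a b c => op a b = c) hop (hf.comp some) (hg.comp some) (var none)

theorem const {c : M} (h : C.D (fun v : Fin 1 → M => c = v 0)) : C.F (fun _ : α → M => c) :=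
  app1 (R := fun a => c = a) h (var none)

end DC

end Pool.Agent.Work.MP_db9079_lc
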