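import Mathlib.ModelTheory.Encoding
import Mathlib.ModelTheory.Semantics
import Mathlib.Computability.Halting
import Mathlib.Tactic

/-!
A computable sequence of sentences that walks along a definable successor relation.
-/

namespace Pool.Agent.Work.MP_db9079_lc

open FirstOrder FirstOrder.Language

universe u v

variable {L : FirstOrder.Language.{u, v}} {α : Type}

/-- Placing the variables of a term at given positions. -/
def placeT (f : α → ℕ) (k d : ℕ) (h : ∀ a, k + f a < d) {n : ℕ} (t : L.Term (α ⊕ Fin n)) :
    L.Term (Empty ⊕ Fin (d + n)) :=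
  t.relabel (Sum.elim (fun a => Sum.inr ⟨k + f a, by have := h a; omega⟩)
    (fun j : Fin n => Sum.inr ⟨d + j, by have := j.2; omega⟩))

/-- Placing the free variables of a formula at given bound positions. -/
def place (f : α → ℕ) (k d : ℕ) (h : ∀ a, k + f a < d) :
    ∀ {n : ℕ}, L.BoundedFormula α n → L.BoundedFormula Empty (d + n)
  | _, BoundedFormula.falsum => BoundedFormula.falsum
  | _, BoundedFormula.equal t₁ t₂ => BoundedFormula.equal (placeT f k d h t₁) (placeT f k d h t₂)
  | _, BoundedFormula.rel R ts => BoundedFormula.rel R (fun i => placeT f k d h (ts i))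
  | _, BoundedFormula.imp φ ψ => BoundedFormula.imp (place f k d h φ) (place f k d h ψ)
  | _, BoundedFormula.all φ => BoundedFormula.all (place f k d h φ)

/-- A block of universal quantifiers. -/
def allN : ∀ (M : ℕ) {k : ℕ}, L.BoundedFormula Empty (k + M) → L.BoundedFormula Empty k
  | 0, _, φ => φ
  | M + 1, _, φ => allN M (BoundedFormula.all φ)

section Realize

variable {K : Type} [L.Structure K]

theorem snoc_lt {D : ℕ} (xs : Fin D → K) (x : K) (i : ℕ) (hi : i < D) (hi' : i < D + 1) :
    (Fin.snoc xs x : Fin (D + 1) → K) ⟨i, hi'⟩ = xs ⟨i, hi⟩ :=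
  Fin.snoc_castSucc (α := fun _ => K) x xs ⟨i, hi⟩

theorem snoc_eq {D : ℕ} (xs : Fin D → K) (x : K) (i : ℕ) (hi : i = D) (hi' : i < D + 1) :
    (Fin.snoc xs x : Fin (D + 1) → K) ⟨i, hi'⟩ = x := by
  subst hi
  exact Fin.snoc_last (α := fun _ => K) x xs

theorem realize_placeT (f : α → ℕ) (k d : ℕ) (h : ∀ a, k + f a < d) {n : ℕ}
    (t : L.Term (α ⊕ Fin n)) (e : Empty → K) (xs : Fin (d + n) → K) (va : α → K)
    (vb : Fin n → K) (h1 : ∀ a hh, xs ⟨k + f a, hh⟩ = va a) (h2 : ∀ (j : Fin n) hh, xs ⟨d + j, hh⟩ = vb j) :
    (placeT f k d h t).realize (Sum.elim e xs) = t.realize (Sum.elim va vb) := by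
  unfold placeT
  rw [Term.realize_relabel]
  congr 1
  funext x
  cases x with
  | inl a => exact h1 a _
  | inr j => exact h2 j _

theorem realize_place (f : α → ℕ) (k d : ℕ) (h : ∀ a, k + f a < d) (e : Empty → K) (va : α → K) :
    ∀ {n : ℕ} (φ : L.BoundedFormula α n) (xs : Fin (d + n) → K) (vb : Fin n → K),
      (∀ a hh, xs ⟨k + f a, hh⟩ = va a) → (∀ (j : Fin n) hh, xs ⟨d + j, hh⟩ = vb j) →
      ((place f k d h φ).Realize e xs ↔ φ.Realize va vb) := by
  intro n φ
  induction φ with
  | falsum => intro _ _ _ _; exact Iff.rfl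
  | equal t₁ t₂ =>
    intro xs vb h1 h2
    simp only [place, BoundedFormula.Realize]
    rw [realize_placeT f k d h t₁ e xs va vb h1 h2, realize_placeT f k d h t₂ e xs va vb h1 h2]
  | rel R ts =>
    intro xs vb h1 h2
    simp only [place, BoundedFormula.Realize]
    simp only [realize_placeT f k d h _ e xs va vb h1 h2]
  | imp φ ψ ih1 ih2 =>
    intro xs vb h1 h2
    simp only [place, BoundedFormula.Realize]
    rw [ih1 xs vb h1 h2, ih2 xs vb h1 h2]
  | @all n φ ih =>
    intro xs vb h1 h2
    simp only [place, BoundedFormula.Realize]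
    refine forall_congr' fun x => ih _ _ ?_ ?_
    · intro a hh
      have := h a
      exact (snoc_lt xs x _ (by omega) hh).trans (h1 a _)
    · intro j hh
      by_cases hj : (j : ℕ) < n
      · rw [snoc_lt xs x _ (by omega) hh, h2 ⟨j, hj⟩]
        exact (snoc_lt vb x j hj j.2).symm
      · have hj' : (j : ℕ) = n := by have := j.2; omega
        rw [snoc_eq xs x _ (by omega) hh]
        exact (snoc_eq vb x j hj' j.2).symm

theorem realize_allN (e : Empty → K) : ∀ (M : ℕ) {k : ℕ} (φ : L.BoundedFormula Empty (k + M))
    (xs : Fin k → K), (allN M φ).Realize e xs ↔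
      ∀ ys : Fin (k + M) → K, (∀ (i : Fin k) hh, ys ⟨i, hh⟩ = xs i) → φ.Realize e ys
  | 0, k, φ, xs => by
    constructor
    · intro h ys hys
      rwa [show ys = xs from funext fun i => hys i i.2]
    · intro h
      exact h xs (fun _ _ => rfl)
  | M + 1, k, φ, xs => by
    rw [allN, realize_allN e M]
    simp only [BoundedFormula.realize_all]
    constructor
    · intro h ys hys
      have := h (Fin.init ys) (fun i hh => hys i _) (ys (Fin.last (k + M)))
      have h2 := Fin.snoc_init_self (n := k + M) (α := fun _ => K) ys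
      exact h2 ▸ this
    · intro h ys hys x
      apply h
      intro i hh
      have := i.2
      exact (snoc_lt ys x _ (by omega) hh).trans (hys i _)

end Realize

section Chain

variable {M : ℕ} (ψ Z : L.Formula (Fin M)) (S : L.Formula (Fin M ⊕ Fin M))

/-- Offsets of two consecutive blocks of variables. -/
def off2 (M : ℕ) : Fin M ⊕ Fin M → ℕ := Sum.elim (fun i => i) (fun i => M + i)

theorem off2_lt (k : ℕ) : ∀ a, k + off2 M a < k + M + M := by
  rintro (i | i) <;> have := i.2 <;> simp only [off2, Sum.elim_inl, Sum.elim_inr] <;> omega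

theorem off1_lt (k : ℕ) : ∀ a : Fin M, k + (fun i : Fin M => (i : ℕ)) a < k + M := by
  intro a
  have := a.2
  simp only
  omega

/-- Walking `n` steps along the successor formula. -/
def chainF : (n k : ℕ) → L.BoundedFormula Empty (k + M)
  | 0, k => place (fun i : Fin M => (i : ℕ)) k (k + M) (off1_lt k) ψ
  | n + 1, k => allN M (BoundedFormula.imp (place (off2 M) k (k + M + M) (off2_lt k) S)
      (chainF n (k + M)))

/-- The sentence number `n`. -/
def sent (n : ℕ) : L.Sentence :=
  allN M (BoundedFormula.imp (place (fun i : Fin M => (i : ℕ)) 0 (0 + M) (off1_lt 0) Z)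
    (chainF ψ S n 0))

variable {K : Type} [L.Structure K] {N : (Fin M → K) → ℕ} {P : ℕ → Prop}

theorem exists_extend {k : ℕ} (xs : Fin k → K) (u : Fin M → K) :
    ∃ ys : Fin (k + M) → K, (∀ (i : Fin k) hh, ys ⟨i, hh⟩ = xs i) ∧
      ∀ (i : Fin M) hh, ys ⟨k + i, hh⟩ = u i :=
  ⟨Fin.append xs u, fun i _ => Fin.append_left xs u i, fun i _ => Fin.append_right xs u i⟩

theorem realize_chain (hN : Function.Surjective N) (hψ : ∀ u, ψ.Realize u ↔ P (N u))
    (hS : ∀ w, S.Realize w ↔ N (fun i => w (Sum.inr i)) = N (fun i => w (Sum.inl i)) + 1)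
    (e : Empty → K) : ∀ (n k : ℕ) (xs : Fin (k + M) → K) (u : Fin M → K),
      (∀ (i : Fin M) hh, xs ⟨k + i, hh⟩ = u i) → ((chainF ψ S n k).Realize e xs ↔ P (N u + n))
  | 0, k, xs, u, h => by
    rw [chainF]
    exact (realize_place _ k (k + M) (off1_lt k) e u ψ xs default h
      (fun j => j.elim0)).trans (hψ u)
  | n + 1, k, xs, u, h => by
    rw [chainF, realize_allN]
    have key : ∀ (ys : Fin (k + M + M) → K) (u' : Fin M → K),
        (∀ (i : Fin (k + M)) hh, ys ⟨i, hh⟩ = xs i) → (∀ (i : Fin M) hh, ys ⟨k + M + i, hh⟩ = u' i) →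
        ((BoundedFormula.imp (place (off2 M) k (k + M + M) (off2_lt k) S)
          (chainF ψ S n (k + M))).Realize e ys ↔ (N u' = N u + 1 → P (N u' + n))) := by
      intro ys u' h1 h2
      rw [BoundedFormula.realize_imp, realize_chain hN hψ hS e n (k + M) ys u' h2]
      have := realize_place (off2 M) k (k + M + M) (off2_lt k) e (Sum.elim u u') S ys default
        (by
          rintro (i | i) hh
          · have hi := i.2
            exact (h1 ⟨k + i, by omega⟩ hh).trans (h i _)
          · have hi := i.2
            rw [Sum.elim_inr, ← h2 i (by omega)]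
            congr 2
            simp only [off2, Sum.elim_inr]
            omega)
        (fun j => j.elim0)
      rw [this]
      exact imp_congr_left (hS _)
    constructor
    · intro H
      obtain ⟨u', hu'⟩ := hN (N u + 1)
      obtain ⟨ys, h1, h2⟩ := exists_extend xs u'
      have := (key ys u' h1 h2).mp (H ys h1) hu'
      rwa [hu', add_assoc, add_comm 1 n] at this
    · intro H ys h1
      refine (key ys (fun i => ys ⟨k + M + i, by have := i.2; omega⟩) h1 (fun _ _ => rfl)).mpr ?_
      intro h3
      rwa [h3, add_assoc, add_comm 1 n]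

theorem realize_sent (hN : Function.Surjective N) (hψ : ∀ u, ψ.Realize u ↔ P (N u))
    (hZ : ∀ u, Z.Realize u ↔ N u = 0)
    (hS : ∀ w, S.Realize w ↔ N (fun i => w (Sum.inr i)) = N (fun i => w (Sum.inl i)) + 1)
    (n : ℕ) : K ⊨ sent ψ Z S n ↔ P n := by
  unfold sent Sentence.Realize Formula.Realize
  rw [realize_allN]
  have key : ∀ (ys : Fin (0 + M) → K) (u : Fin M → K), (∀ (i : Fin M) hh, ys ⟨0 + i, hh⟩ = u i) →
      ((BoundedFormula.imp (place (fun i : Fin M => (i : ℕ)) 0 (0 + M) (off1_lt 0) Z)
        (chainF ψ S n 0)).Realize default ys ↔ (N u = 0 → P (N u + n))) := by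
    intro ys u h
    rw [BoundedFormula.realize_imp, realize_chain ψ S hN hψ hS default n 0 ys u h]
    exact imp_congr_left ((realize_place _ 0 (0 + M) (off1_lt 0) default u Z ys default h
      (fun j => j.elim0)).trans (hZ u))
  constructor
  · intro H
    obtain ⟨u, hu⟩ := hN 0
    obtain ⟨ys, h1, h2⟩ := exists_extend (default : Fin 0 → K) u
    have := (key ys u h2).mp (H ys h1) hu
    rwa [hu, zero_add] at this
  · intro H ys _
    refine (key ys (fun i => ys ⟨0 + i, by have := i.2; omega⟩) (fun _ _ => rfl)).mpr ?_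
    intro h3
    rwa [h3, zero_add]

end Chain

section Code

theorem encode_list_map {X : Type*} [Encodable X] (l : List X) :
    Encodable.encode l = Encodable.encode (l.map Encodable.encode) := by
  induction l with
  | nil => rfl
  | cons a l ih => simp [Encodable.encode_list_cons, ih]

theorem primrec_flatMap {ι : Type} (g : ι → ℕ → List ℕ) (hg : ∀ j, Primrec (g j)) (l : List ι) :
    Primrec (fun i => l.flatMap (fun j => g j i)) := by
  induction l with
  | nil => exact Primrec.const []
  | cons a l ih =>
    simp only [List.flatMap_cons]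
    exact Primrec.list_append.comp (hg a) ih

theorem primrec_map {ι : Type} (g : ι → ℕ → ℕ) (hg : ∀ j, Primrec (g j)) (l : List ι) :
    Primrec (fun i => l.map (fun j => g j i)) := by
  induction l with
  | nil => exact Primrec.const []
  | cons a l ih =>
    simp only [List.map_cons]
    exact Primrec.list_cons.comp (hg a) ih

variable [Encodable (Σ i, L.Functions i)] [Encodable (Σ i, L.Relations i)]

/-- The list of token codes of a formula. -/
def enc {n : ℕ} (φ : L.BoundedFormula Empty n) : List ℕ := φ.listEncode.map Encodable.encode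

theorem primrec_placeT (f : α → ℕ) {k d : ℕ → ℕ} (hk : Primrec k) (hd : Primrec d)
    (h : ∀ i a, k i + f a < d i) {n : ℕ} (t : L.Term (α ⊕ Fin n)) :
    Primrec (fun i => (placeT f (k i) (d i) (h i) t).listEncode.map Encodable.encode) := by
  induction t with
  | var x =>
    cases x with
    | inl a =>
      have : Primrec (fun i => [2 * (2 * (k i + f a) + 1)]) := by
        refine Primrec.list_cons.comp ?_ (Primrec.const [])
        exact Primrec.nat_mul.comp (Primrec.const 2) (Primrec.succ.comp
          (Primrec.nat_mul.comp (Primrec.const 2) (Primrec.nat_add.comp hk (Primrec.const _))))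
      exact this.of_eq fun i => rfl
    | inr j =>
      have : Primrec (fun i => [2 * (2 * (d i + j) + 1)]) := by
        refine Primrec.list_cons.comp ?_ (Primrec.const [])
        exact Primrec.nat_mul.comp (Primrec.const 2) (Primrec.succ.comp
          (Primrec.nat_mul.comp (Primrec.const 2) (Primrec.nat_add.comp hd (Primrec.const _))))
      exact this.of_eq fun i => rfl
  | @func l F ts ih =>
    have := Primrec.list_cons.comp
      (Primrec.const (2 * Encodable.encode (⟨l, F⟩ : Σ i, L.Functions i) + 1))
      (primrec_flatMap _ ih (List.finRange l))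
    refine this.of_eq fun i => ?_
    simp only [placeT, Term.relabel, Term.listEncode, List.map_cons, List.map_flatMap]
    rfl

theorem primrec_tok (f : α → ℕ) {k d : ℕ → ℕ} (hk : Primrec k) (hd : Primrec d)
    (h : ∀ i a, k i + f a < d i) {n : ℕ} (t : L.Term (α ⊕ Fin n)) :
    Primrec (fun i => Encodable.encode (Sum.inl ⟨d i + n, placeT f (k i) (d i) (h i) t⟩ :
      (Σ k, L.Term (Empty ⊕ Fin k)) ⊕ ((Σ n, L.Relations n) ⊕ ℕ))) := by
  have := Primrec.nat_mul.comp (Primrec.const 2) (Primrec₂.natPair.comp
    (Primrec.nat_add.comp hd (Primrec.const n))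
    (Primrec.encode.comp (primrec_placeT f hk hd h t)))
  refine this.of_eq fun i => ?_
  rw [← encode_list_map]
  rfl

theorem primrec_place (f : α → ℕ) {k d : ℕ → ℕ} (hk : Primrec k) (hd : Primrec d)
    (h : ∀ i a, k i + f a < d i) {n : ℕ} (φ : L.BoundedFormula α n) :
    Primrec (fun i => enc (place f (k i) (d i) (h i) φ)) := by
  induction φ with
  | @falsum n =>
    have : Primrec (fun i => [2 * (2 * (d i + n + 2) + 1) + 1]) := by
      refine Primrec.list_cons.comp ?_ (Primrec.const [])
      exact Primrec.succ.comp (Primrec.nat_mul.comp (Primrec.const 2) (Primrec.succ.comp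
        (Primrec.nat_mul.comp (Primrec.const 2) (Primrec.nat_add.comp
          (Primrec.nat_add.comp hd (Primrec.const _)) (Primrec.const _)))))
    exact this.of_eq fun i => rfl
  | equal t₁ t₂ =>
    have := Primrec.list_cons.comp (primrec_tok f hk hd h t₁)
      (Primrec.list_cons.comp (primrec_tok f hk hd h t₂) (Primrec.const []))
    exact this.of_eq fun i => rfl
  | @rel n l R ts =>
    have h1 : Primrec (fun i => 2 * (2 * (d i + n) + 1) + 1) :=
      Primrec.succ.comp (Primrec.nat_mul.comp (Primrec.const 2) (Primrec.succ.comp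
        (Primrec.nat_mul.comp (Primrec.const 2) (Primrec.nat_add.comp hd (Primrec.const _)))))
    have := Primrec.list_cons.comp
      (Primrec.const (2 * (2 * Encodable.encode (⟨l, R⟩ : Σ i, L.Relations i)) + 1))
      (Primrec.list_cons.comp h1
        (primrec_map _ (fun j => primrec_tok f hk hd h (ts j)) (List.finRange l)))
    refine this.of_eq fun i => ?_
    simp only [enc, place, BoundedFormula.listEncode, List.map_append, List.map_cons, List.map_map,
      List.map_nil, List.cons_append, List.nil_append]
    rfl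
  | imp φ ψ ih1 ih2 =>
    have := Primrec.list_cons.comp (Primrec.const 3) (Primrec.list_append.comp ih1 ih2)
    refine this.of_eq fun i => ?_
    simp only [enc, place, BoundedFormula.listEncode, List.map_append, List.map_cons,
      List.cons_append]
    rfl
  | all φ ih =>
    have := Primrec.list_cons.comp (Primrec.const 7) ih
    refine this.of_eq fun i => ?_
    simp only [enc, place, BoundedFormula.listEncode, List.map_cons]
    rfl

theorem enc_allN : ∀ (M : ℕ) {k : ℕ} (φ : L.BoundedFormula Empty (k + M)),
    enc (allN M φ) = List.replicate M 7 ++ enc φ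
  | 0, _, _ => rfl
  | M + 1, _, φ => by
    rw [allN, enc_allN M, List.replicate_succ', List.append_assoc]
    rfl

theorem enc_imp {k : ℕ} (φ ψ : L.BoundedFormula Empty k) :
    enc (BoundedFormula.imp φ ψ) = 3 :: (enc φ ++ enc ψ) := by
  simp only [enc, BoundedFormula.listEncode, List.map_append, List.map_cons, List.cons_append]
  rfl

variable {M : ℕ} (ψ Z : L.Formula (Fin M)) (S : L.Formula (Fin M ⊕ Fin M))

/-- The tokens of one step of the chainF. -/
def blk (i : ℕ) : List ℕ :=
  List.replicate M 7 ++ 3 :: enc (place (off2 M) (i * M) (i * M + M + M) (off2_lt _) S)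

/-- The tokens of the first steps of the chainF. -/
def blks : ℕ → List ℕ
  | 0 => []
  | n + 1 => blks n ++ blk S n

theorem enc_chain : ∀ (n j k t : ℕ), k = j * M → t = j + n → blks S j ++ enc (chainF ψ S n k) =
    blks S t ++ enc (place (fun i : Fin M => (i : ℕ)) (t * M) (t * M + M) (off1_lt _) ψ)
  | 0, j, k, t, h, h' => by
    subst h h'
    rfl
  | n + 1, j, k, t, h, h' => by
    subst h
    have := enc_chain n (j + 1) (j * M + M) t (by ring) (by omega)
    rw [← this, chainF, enc_allN, enc_imp, blks, blk]
    simp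

theorem computable_sent : Computable (fun n => Encodable.encode (sent ψ Z S n).listEncode) := by
  have hm : Primrec (fun i : ℕ => i * M) := Primrec.nat_mul.comp Primrec.id (Primrec.const M)
  have hm1 : Primrec (fun i : ℕ => i * M + M) := Primrec.nat_add.comp hm (Primrec.const M)
  have hm2 : Primrec (fun i : ℕ => i * M + M + M) := Primrec.nat_add.comp hm1 (Primrec.const M)
  have hblk : Primrec (blk S) :=
    Primrec.list_append.comp (Primrec.const _) (Primrec.list_cons.comp (Primrec.const 3)
      (primrec_place (off2 M) hm hm2 (fun i => off2_lt _) S))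
  have hblks : Primrec (blks S) := by
    have := Primrec.nat_rec₁ (f := fun n l => l ++ blk S n) ([] : List ℕ)
      (Primrec.list_append.comp Primrec.snd (hblk.comp Primrec.fst))
    refine this.of_eq fun n => ?_
    induction n with
    | zero => rfl
    | succ n ih => simp only [blks, ← ih]
  have hlast := primrec_place (fun i : Fin M => (i : ℕ)) hm hm1 (fun i => off1_lt _) ψ
  have := Primrec.encode.comp (Primrec.list_append.comp (Primrec.const (List.replicate M 7 ++
    3 :: enc (place (fun i : Fin M => (i : ℕ)) 0 (0 + M) (off1_lt 0) Z)))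
    (Primrec.list_append.comp hblks hlast))
  refine (this.of_eq fun n => ?_).to_comp
  rw [encode_list_map (sent ψ Z S n).listEncode]
  congr 1
  have h1 := enc_chain ψ S n 0 0 n (by simp) (by simp)
  simp only [blks, List.nil_append] at h1
  change _ = enc (sent ψ Z S n)
  rw [sent, enc_allN, enc_imp, h1]
  simp

theorem computable_of_chain {K : Type} [L.Structure K] {N : (Fin M → K) → ℕ} {P : ℕ → Prop}
    (hN : Function.Surjective N) (hψ : ∀ u, ψ.Realize u ↔ P (N u))
    (hZ : ∀ u, Z.Realize u ↔ N u = 0)
    (hS : ∀ w, S.Realize w ↔ N (fun i => w (Sum.inr i)) = N (fun i => w (Sum.inl i)) + 1)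
    {Q : ℕ → Prop} (hQ : ComputablePred Q)
    (hT : ∀ σ : L.Sentence, Q (Encodable.encode σ.listEncode) ↔ K ⊨ σ) : ComputablePred P := by
  obtain ⟨inst, hc⟩ := hQ
  refine ⟨Classical.decPred _, (hc.comp (computable_sent ψ Z S)).of_eq fun n => ?_⟩
  have := (hT (sent ψ Z S n)).trans (realize_sent ψ Z S hN hψ hZ hS n)
  simp [this]

end Code

end Pool.Agent.Work.MP_db9079_lc
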