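import Pool.Agent.Work.MP_db9079_lc.Arith
import Mathlib.Data.Set.Card
import Mathlib.Data.Set.Card.Arithmetic

/-!
Interpreting arithmetic from an unbounded family of finite sets on which all ternary relations are
coded.
-/

namespace Pool.Agent.Work.MP_db9079_lc

open DC

/-- The data that give an interpretation of arithmetic. -/
structure Coding {K : Type} (C : DC K) (B Z : Type) where
  E : (B → K) → Set K
  hE : C.D (fun w : Option B → K => w none ∈ E (fun b => w (some b)))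
  fin : ∀ b, (E b).Finite
  unb : ∀ n, ∃ b, n ≤ (E b).ncard
  R : (Z → K) → K → K → K → Prop
  hR : C.D (fun w : Z ⊕ Fin 3 → K =>
    R (fun z => w (Sum.inl z)) (w (Sum.inr 0)) (w (Sum.inr 1)) (w (Sum.inr 2)))
  code : ∀ A : Set K, A.Finite → ∀ T : K → K → K → Prop,
    ∃ z, ∀ d ∈ A, ∀ e ∈ A, ∀ f ∈ A, R z d e f ↔ T d e f

/-- `T` is the graph of a bijection from `A × B` onto `C`. -/
def BijRel {K : Type} (T : K → K → K → Prop) (A B C : Set K) : Prop :=
  (∀ d, d ∈ A → ∀ e, e ∈ B → ∃ f, f ∈ C ∧ T d e f) ∧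
  (∀ f, f ∈ C → ∃ d, d ∈ A ∧ ∃ e, e ∈ B ∧ T d e f) ∧
  (∀ d, d ∈ A → ∀ e, e ∈ B → ∀ f, f ∈ C → ∀ d', d' ∈ A → ∀ e', e' ∈ B → ∀ f', f' ∈ C →
    T d e f → T d' e' f' → ((d = d' ∧ e = e') ↔ f = f'))

theorem BijRel.card {K : Type} {T : K → K → K → Prop} {A B C : Set K} (h : BijRel T A B C) :
    A.ncard * B.ncard = C.ncard := by
  rw [← Set.ncard_prod]
  obtain ⟨h1, h2, h3⟩ := h
  have h4 : ∀ x ∈ A ×ˢ B, ∃ f, f ∈ C ∧ T x.1 x.2 f := fun x hx => h1 _ hx.1 _ hx.2
  choose g hg using h4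
  refine Set.ncard_congr g (fun x hx => (hg x hx).1) ?_ ?_
  · intro x y hx hy hxy
    have := (h3 _ hx.1 _ hx.2 _ (hg x hx).1 _ hy.1 _ hy.2 _ (hg y hy).1 (hg x hx).2
      (hg y hy).2).mpr hxy
    exact Prod.ext this.1 this.2
  · intro f hf
    obtain ⟨d, hd, e, he, hT⟩ := h2 f hf
    have hx : (d, e) ∈ A ×ˢ B := ⟨hd, he⟩
    exact ⟨(d, e), hx, (h3 _ hd _ he _ (hg _ hx).1 _ hd _ he _ hf (hg _ hx).2 hT).mp ⟨rfl, rfl⟩⟩

theorem exists_bijRel {K : Type} [Nonempty K] {A B C : Set K} (hA : A.Finite) (hB : B.Finite)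
    (hC : C.Finite) (h : A.ncard * B.ncard = C.ncard) : ∃ T, BijRel T A B C := by
  rw [← Set.ncard_prod] at h
  have h1 : (A ×ˢ B).encard = C.encard := by
    rw [← (hA.prod hB).cast_ncard_eq, ← hC.cast_ncard_eq, h]
  obtain ⟨g, hg⟩ := (hA.prod hB).exists_bijOn_of_encard_eq h1
  refine ⟨fun d e f => g (d, e) = f, fun d hd e he => ⟨_, hg.mapsTo ⟨hd, he⟩, rfl⟩, ?_, ?_⟩
  · intro f hf
    obtain ⟨x, hx, hxf⟩ := hg.surjOn hf
    exact ⟨x.1, hx.1, x.2, hx.2, hxf⟩
  · rintro d hd e he f - d' hd' e' he' f' - rfl rfl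
    constructor
    · rintro ⟨rfl, rfl⟩
      rfl
    · intro hh
      have := hg.injOn (show (d, e) ∈ A ×ˢ B from ⟨hd, he⟩) (show (d', e') ∈ A ×ˢ B from ⟨hd', he'⟩)
        hh
      exact Prod.mk.inj this

theorem BijRel.of_iff {K : Type} {T T' : K → K → K → Prop} {A B C : Set K} (h : BijRel T A B C)
    (e : ∀ d ∈ A, ∀ e ∈ B, ∀ f ∈ C, T' d e f ↔ T d e f) : BijRel T' A B C := by
  obtain ⟨h1, h2, h3⟩ := h
  refine ⟨fun d hd x hx => ?_, fun f hf => ?_, ?_⟩
  · obtain ⟨f, hf, hT⟩ := h1 d hd x hx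
    exact ⟨f, hf, (e d hd x hx f hf).mpr hT⟩
  · obtain ⟨d, hd, x, hx, hT⟩ := h2 f hf
    exact ⟨d, hd, x, hx, (e d hd x hx f hf).mpr hT⟩
  · intro d hd x hx f hf d' hd' x' hx' f' hf' t1 t2
    exact h3 d hd x hx f hf d' hd' x' hx' f' hf' ((e d hd x hx f hf).mp t1)
      ((e d' hd' x' hx' f' hf').mp t2)

namespace Coding

variable {K : Type} {C : DC K} {B Z : Type} (X : Coding C B Z) {α : Type}

/-- The finite set coded by a tuple. -/
def S (u : B ⊕ Z → K) : Set K :=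
  {d | d ∈ X.E (fun b => u (Sum.inl b)) ∧ X.R (fun z => u (Sum.inr z)) d d d}

/-- The number coded by a tuple. -/
noncomputable def N (u : B ⊕ Z → K) : ℕ := (X.S u).ncard

theorem S_fin (u : B ⊕ Z → K) : (X.S u).Finite := (X.fin _).subset (fun _ h => h.1)

theorem exists_S (b : B → K) {T : Set K} (hT : T ⊆ X.E b) : ∃ u, X.S u = T := by
  obtain ⟨z, hz⟩ := X.code (X.E b) (X.fin b) (fun d _ _ => d ∈ T)
  refine ⟨Sum.elim b z, ?_⟩
  ext d
  constructor
  · rintro ⟨h1, h2⟩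
    exact (hz d h1 d h1 d h1).mp h2
  · intro h
    exact ⟨hT h, (hz d (hT h) d (hT h) d (hT h)).mpr h⟩

theorem N_surj : Function.Surjective X.N := by
  intro n
  obtain ⟨b, hb⟩ := X.unb n
  obtain ⟨T, hT, hn⟩ := Set.exists_subset_card_eq hb
  obtain ⟨u, hu⟩ := X.exists_S b hT
  exact ⟨u, by rw [N, hu, hn]⟩

theorem dR [Finite Z] {z : (α → K) → Z → K} {d e f : (α → K) → K}
    (hz : ∀ j, C.F (fun v => z v j)) (hd : C.F d) (he : C.F e) (hf : C.F f) :
    C.D (fun v => X.R (z v) (d v) (e v) (f v)) :=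
  app X.hR (g := fun v => Sum.elim (z v) ![d v, e v, f v]) (by
    rintro (j | j)
    · exact hz j
    · fin_cases j <;> assumption)

theorem dE [Finite B] {b : (α → K) → B → K} {d : (α → K) → K}
    (hb : ∀ j, C.F (fun v => b v j)) (hd : C.F d) : C.D (fun v => d v ∈ X.E (b v)) :=
  app X.hE (g := fun v o => o.elim (d v) (b v)) (by
    rintro (_ | j)
    · exact hd
    · exact hb j)

theorem dS [Finite B] [Finite Z] {u : (α → K) → B ⊕ Z → K} {d : (α → K) → K}
    (hu : ∀ j, C.F (fun v => u v j)) (hd : C.F d) : C.D (fun v => d v ∈ X.S (u v)) :=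
  C.and (X.dE (fun j => hu _) hd) (X.dR (fun j => hu _) hd hd hd)

theorem mul_iff [Nonempty K] (u u' u'' : B ⊕ Z → K) :
    X.N u * X.N u' = X.N u'' ↔ ∃ z, BijRel (X.R z) (X.S u) (X.S u') (X.S u'') := by
  constructor
  · intro h
    obtain ⟨T, hT⟩ := exists_bijRel (X.S_fin u) (X.S_fin u') (X.S_fin u'') h
    obtain ⟨z, hz⟩ := X.code (X.S u ∪ X.S u' ∪ X.S u'')
      (((X.S_fin u).union (X.S_fin u')).union (X.S_fin u'')) T
    exact ⟨z, hT.of_iff fun d hd e he f hf =>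
      hz d (Or.inl (Or.inl hd)) e (Or.inl (Or.inr he)) f (Or.inr hf)⟩
  · rintro ⟨z, hz⟩
    exact hz.card

theorem dMul [Nonempty K] [Finite B] [Finite Z] {u u' u'' : (α → K) → B ⊕ Z → K}
    (hu : ∀ j, C.F (fun v => u v j)) (hu' : ∀ j, C.F (fun v => u' v j))
    (hu'' : ∀ j, C.F (fun v => u'' v j)) :
    C.D (fun v => X.N (u v) * X.N (u' v) = X.N (u'' v)) := by
  have h0 : C.D (fun w : Fin 3 × (B ⊕ Z) → K =>
      X.N (fun j => w (0, j)) * X.N (fun j => w (1, j)) = X.N (fun j => w (2, j))) := by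
    refine congr ?_ (fun v => (X.mul_iff _ _ _).symm)
    unfold BijRel
    repeat' first
      | exact var _
      | exact fun _ => var _
      | apply X.dS
      | apply X.dR
      | apply DC.eq
      | apply C.and
      | apply DC.iff
      | apply DC.exs
      | apply DC.ex
      | apply DC.imp
      | apply DC.all
  exact app h0 (g := fun v x => ![u v, u' v, u'' v] x.1 x.2) (by
    rintro ⟨i, j⟩
    fin_cases i
    · exact hu j
    · exact hu' j
    · exact hu'' j)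

theorem eq_iff (u u' : B ⊕ Z → K) : X.N u = X.N u' ↔
    ∃ u₁, (∃ d, ∀ e, e ∈ X.S u₁ ↔ e = d) ∧ X.N u * X.N u₁ = X.N u' := by
  constructor
  · intro h
    obtain ⟨u₁, h1⟩ := X.N_surj 1
    obtain ⟨d, hd⟩ := Set.ncard_eq_one.mp h1
    exact ⟨u₁, ⟨d, fun e => by rw [hd]; rfl⟩, by rw [h1, mul_one, h]⟩
  · rintro ⟨u₁, ⟨d, hd⟩, h⟩
    have : X.N u₁ = 1 := Set.ncard_eq_one.mpr ⟨d, Set.ext hd⟩
    rwa [this, mul_one] at h

theorem dEq [Nonempty K] [Finite B] [Finite Z] {u u' : (α → K) → B ⊕ Z → K}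
    (hu : ∀ j, C.F (fun v => u v j)) (hu' : ∀ j, C.F (fun v => u' v j)) :
    C.D (fun v => X.N (u v) = X.N (u' v)) := by
  refine congr ?_ (fun v => (X.eq_iff _ _).symm)
  refine exs (C.and (ex (all (iff (X.dS (fun _ => var _) (var _)) (eq (var _) (var _)))))
    (X.dMul (fun j => (hu j).comp Sum.inl) (fun _ => var _) (fun j => (hu' j).comp Sum.inl)))

theorem add_iff (u u' u'' : B ⊕ Z → K) : X.N u + X.N u' = X.N u'' ↔
    ∃ u₁ u₂, X.N u₁ = X.N u ∧ X.N u₂ = X.N u' ∧ (∀ d, d ∈ X.S u₁ → ¬ d ∈ X.S u₂) ∧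
      ∀ d, d ∈ X.S u'' ↔ (d ∈ X.S u₁ ∨ d ∈ X.S u₂) := by
  constructor
  · intro h
    obtain ⟨T, hT, hn⟩ := Set.exists_subset_card_eq (s := X.S u'') (n := X.N u)
      (by change _ ≤ X.N u''; omega)
    obtain ⟨u₁, h1⟩ := X.exists_S (fun b => u'' (Sum.inl b)) (T := T) (fun d hd => (hT hd).1)
    obtain ⟨u₂, h2⟩ := X.exists_S (fun b => u'' (Sum.inl b)) (T := X.S u'' \ T)
      (fun d hd => hd.1.1)
    refine ⟨u₁, u₂, by rw [N, h1, hn], ?_, ?_, ?_⟩
    · have := Set.ncard_sdiff_add_ncard_of_subset hT (X.S_fin u'')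
      rw [N, h2]
      unfold N at h hn ⊢
      omega
    · intro d hd hd'
      rw [h1] at hd
      rw [h2] at hd'
      exact hd'.2 hd
    · intro d
      rw [h1, h2]
      constructor
      · intro hd
        by_cases hdT : d ∈ T
        · exact Or.inl hdT
        · exact Or.inr ⟨hd, hdT⟩
      · rintro (hd | hd)
        · exact hT hd
        · exact hd.1
  · rintro ⟨u₁, u₂, h1, h2, h3, h4⟩
    have h5 : X.S u'' = X.S u₁ ∪ X.S u₂ := Set.ext h4
    rw [← h1, ← h2]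
    unfold N
    rw [h5, Set.ncard_union_eq (Set.disjoint_left.mpr h3) (X.S_fin _) (X.S_fin _)]

/-- The class of predicates on numbers whose pull-back to codes is definable. -/
def toDC [Nonempty K] [Finite B] [Finite Z] : DC ℕ where
  D := fun {α} P => C.D (fun w : α × (B ⊕ Z) → K => P (fun a => X.N (fun j => w (a, j))))
  comp := fun f _ h => C.comp (Prod.map f id) h
  not := fun h => C.not h
  and := fun h1 h2 => C.and h1 h2
  exs' := by
    intro α β _ P h
    have h1 := C.comp (fun x : (α ⊕ β) × (B ⊕ Z) =>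
      (x.1.elim (fun a => Sum.inl (a, x.2)) (fun b => Sum.inr (b, x.2)) :
        (α × (B ⊕ Z)) ⊕ (β × (B ⊕ Z)))) h
    refine congr (C.exs' h1) (fun w => ?_)
    constructor
    · rintro ⟨u, hu⟩
      refine ⟨fun b => X.N (fun j => u (b, j)), ?_⟩
      convert hu using 2 with x
      cases x <;> rfl
    · rintro ⟨n, hn⟩
      choose g hg using X.N_surj
      refine ⟨fun x => g (n x.1) x.2, ?_⟩
      convert hn using 2 with x
      cases x with
      | inl a => rfl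
      | inr b => exact hg (n b)
  eq' := X.dEq (fun _ => var _) (fun _ => var _)
  tru := C.tru

theorem hasArith [Nonempty K] [Finite B] [Finite Z] : HasArith X.toDC where
  mul := X.dMul (fun _ => var _) (fun _ => var _) (fun _ => var _)
  add := by
    change C.D (fun w : Fin 3 × (B ⊕ Z) → K =>
      X.N (fun j => w (0, j)) + X.N (fun j => w (1, j)) = X.N (fun j => w (2, j)))
    refine DC.congr ?_ (fun v => (X.add_iff _ _ _).symm)
    repeat' first
      | exact var _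
      | exact fun _ => var _
      | apply X.dS
      | apply X.dEq
      | apply C.and
      | apply DC.iff
      | apply DC.or
      | apply C.not
      | apply DC.exs
      | apply DC.imp
      | apply DC.all

end Coding

end Pool.Agent.Work.MP_db9079_lc
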