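import Mathlib.Algebra.Polynomial.Roots
import Mathlib.LinearAlgebra.Basis.VectorSpace
import Mathlib.LinearAlgebra.Pi
import Mathlib.Tactic

/-!
Coding subsets of a finite subset of a field by a linear functional over a finite subfield and the
Cauchy kernel.
-/

namespace Pool.Agent.Work.MP_db9079_lc

open Polynomial

variable {K : Type} [Field K]

theorem finite_bad (W : Finset K) (κ : K → K) (h : ∃ z ∈ W, κ z ≠ 0) :
    {a : K | a ∉ W ∧ ∑ z ∈ W, κ z * (a - z)⁻¹ = 0}.Finite := by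
  classical
  let Q : K[X] := ∑ z ∈ W, C (κ z) * ∏ z' ∈ W.erase z, (X - C z')
  have hQ : ∀ a, Q.eval a = ∑ z ∈ W, κ z * ∏ z' ∈ W.erase z, (a - z') := by
    intro a
    simp [Q, eval_finsetSum, eval_prod]
  have hQ0 : Q ≠ 0 := by
    obtain ⟨z₀, hz₀, hκ⟩ := h
    intro h0
    have h1 := hQ z₀
    rw [h0, eval_zero, Finset.sum_eq_single z₀] at h1
    · apply mul_ne_zero hκ _ h1.symm
      refine Finset.prod_ne_zero_iff.mpr fun z' hz' => sub_ne_zero.mpr ?_
      exact (Finset.ne_of_mem_erase hz').symm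
    · intro z _ hz
      apply mul_eq_zero_of_right
      exact Finset.prod_eq_zero (Finset.mem_erase.mpr ⟨hz.symm, hz₀⟩) (sub_self _)
    · intro h2
      exact absurd hz₀ h2
  refine (Q.roots.toFinset.finite_toSet).subset ?_
  rintro a ⟨ha, hs⟩
  simp only [Finset.mem_coe, Multiset.mem_toFinset, mem_roots hQ0, IsRoot.def]
  rw [hQ]
  have : ∑ z ∈ W, κ z * ∏ z' ∈ W.erase z, (a - z') =
      (∑ z ∈ W, κ z * (a - z)⁻¹) * ∏ z' ∈ W, (a - z') := by
    rw [Finset.sum_mul]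
    refine Finset.sum_congr rfl fun z hz => ?_
    have hne : a - z ≠ 0 := sub_ne_zero.mpr fun h => ha (h ▸ hz)
    rw [← Finset.mul_prod_erase W _ hz]
    field_simp
  rw [this, hs, zero_mul]

theorem code_subset [Infinite K] {F : Type} [Field F] [Finite F] [Algebra F K]
    (l : K →ₗ[F] F) (hl : l 1 ≠ 0) (W : Finset K) (T : K → Prop) :
    ∃ a x : K, a ∉ W ∧ ∀ z ∈ W, l (x * (a - z)⁻¹) = 0 ↔ T z := by
  classical
  let ext : (W → F) → K → K := fun c z => if h : z ∈ W then algebraMap F K (c ⟨z, h⟩) else 0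
  have hfin : ((W : Set K) ∪ ⋃ c ∈ {c : W → F | c ≠ 0},
      {a : K | a ∉ W ∧ ∑ z ∈ W, ext c z * (a - z)⁻¹ = 0}).Finite := by
    refine W.finite_toSet.union (Set.Finite.biUnion (Set.toFinite _) fun c hc => ?_)
    apply finite_bad
    obtain ⟨z, hz⟩ := Function.ne_iff.mp hc
    refine ⟨z, z.2, ?_⟩
    simp only [ext, z.2, dif_pos]
    exact (_root_.map_ne_zero _).mpr hz
  obtain ⟨a, ha⟩ := hfin.exists_notMem
  have haW : a ∉ W := fun h => ha (Or.inl h)
  have hind : ∀ c : W → F, c ≠ 0 → ∑ z : W, c z • (a - (z : K))⁻¹ ≠ 0 := by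
    intro c hc h0
    apply ha
    refine Or.inr (Set.mem_biUnion hc ⟨haW, ?_⟩)
    rw [← h0, ← Finset.sum_coe_sort W]
    refine Finset.sum_congr rfl fun z _ => ?_
    simp only [ext, z.2, dif_pos, Algebra.smul_def]
  let Φ : K →ₗ[F] (W → F) :=
    LinearMap.pi fun z : W => l ∘ₗ LinearMap.mulRight F (a - (z : K))⁻¹
  have hΦ : LinearMap.range Φ = ⊤ := by
    by_contra hne
    obtain ⟨f, hf0, hf⟩ := Submodule.exists_le_ker_of_lt_top _ (lt_top_iff_ne_top.mpr hne)
    let c : W → F := fun z => f (fun j => if z = j then 1 else 0)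
    have hc : c ≠ 0 := by
      intro h0
      apply hf0
      apply LinearMap.ext
      intro y
      rw [LinearMap.pi_apply_eq_sum_univ]
      refine Finset.sum_eq_zero fun z _ => ?_
      have : c z = 0 := congrFun h0 z
      simp only [c] at this
      rw [this, smul_zero]
    have hg := hind c hc
    set g := ∑ z : W, c z • (a - (z : K))⁻¹ with hgdef
    have h1 : f (Φ g⁻¹) = 0 := hf ⟨g⁻¹, rfl⟩
    rw [LinearMap.pi_apply_eq_sum_univ] at h1
    apply hl
    rw [← inv_mul_cancel₀ hg, ← h1]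
    conv_lhs => rw [hgdef, Finset.mul_sum, map_sum]
    refine Finset.sum_congr rfl fun z _ => ?_
    rw [mul_smul_comm, map_smul, smul_eq_mul, smul_eq_mul, mul_comm]
    rfl
  obtain ⟨x, hx⟩ := LinearMap.range_eq_top.mp hΦ (fun z => if T z then 0 else 1)
  refine ⟨a, x, haW, fun z hz => ?_⟩
  have : l (x * (a - z)⁻¹) = if T z then 0 else 1 := congrFun hx ⟨z, hz⟩
  rw [this]
  by_cases hT : T z <;> simp [hT]

theorem exists_pair_inj [Infinite K] {A B : Set K} (hA : A.Finite) (hB : B.Finite) :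
    ∃ c : K, ∀ d ∈ A, ∀ e ∈ B, ∀ d' ∈ A, ∀ e' ∈ B, d + c * e = d' + c * e' → d = d' ∧ e = e' := by
  have hfin : ((fun x : (K × K) × (K × K) => (x.1.1 - x.1.2) / (x.2.2 - x.2.1)) ''
      ((A ×ˢ A) ×ˢ (B ×ˢ B))).Finite := ((hA.prod hA).prod (hB.prod hB)).image _
  obtain ⟨c, hc⟩ := hfin.exists_notMem
  refine ⟨c, fun d hd e he d' hd' e' he' h => ?_⟩
  have hee : e = e' := by
    by_contra hne
    apply hc
    refine ⟨((d, d'), (e, e')), ⟨⟨hd, hd'⟩, ⟨he, he'⟩⟩, ?_⟩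
    have : e' - e ≠ 0 := sub_ne_zero.mpr (Ne.symm hne)
    simp only
    field_simp
    linear_combination h
  subst hee
  exact ⟨add_right_cancel h, rfl⟩

theorem code_ternary [Infinite K] {F : Type} [Field F] [Finite F] [Algebra F K]
    (l : K →ₗ[F] F) (hl : l 1 ≠ 0) {A : Set K} (hA : A.Finite) (T : K → K → K → Prop) :
    ∃ a c c' x : K, ∀ d ∈ A, ∀ e ∈ A, ∀ f ∈ A,
      (∃ w, w * a = x + w * (d + c * e + c' * f) ∧ l w = 0) ↔ T d e f := by
  classical
  obtain ⟨c, hc⟩ := exists_pair_inj hA hA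
  have hA2 : (Set.image2 (fun d e => d + c * e) A A).Finite := hA.image2 _ hA
  obtain ⟨c', hc'⟩ := exists_pair_inj hA2 hA
  have hA3 : (Set.image2 (fun g f => g + c' * f) (Set.image2 (fun d e => d + c * e) A A) A).Finite :=
    hA2.image2 _ hA
  obtain ⟨a, x, ha, hx⟩ := code_subset l hl hA3.toFinset
    (fun z => ∃ d ∈ A, ∃ e ∈ A, ∃ f ∈ A, z = d + c * e + c' * f ∧ T d e f)
  refine ⟨a, c, c', x, fun d hd e he f hf => ?_⟩
  have hm : d + c * e + c' * f ∈ hA3.toFinset :=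
    hA3.mem_toFinset.mpr ⟨_, ⟨d, hd, e, he, rfl⟩, f, hf, rfl⟩
  have hne : a - (d + c * e + c' * f) ≠ 0 := sub_ne_zero.mpr fun h => ha (h ▸ hm)
  have h1 := hx _ hm
  constructor
  · rintro ⟨w, hw, hl0⟩
    have : w = x * (a - (d + c * e + c' * f))⁻¹ := by
      field_simp
      linear_combination hw
    rw [this] at hl0
    obtain ⟨d', hd', e', he', f', hf', h2, hT⟩ := h1.mp hl0
    obtain ⟨h3, rfl⟩ := hc' _ ⟨d, hd, e, he, rfl⟩ f hf _ ⟨d', hd', e', he', rfl⟩ f' hf' h2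
    obtain ⟨rfl, rfl⟩ := hc d hd e he d' hd' e' he' h3
    exact hT
  · intro hT
    refine ⟨x * (a - (d + c * e + c' * f))⁻¹, ?_, h1.mpr ⟨d, hd, e, he, f, hf, rfl, hT⟩⟩
    field_simp
    ring

end Pool.Agent.Work.MP_db9079_lc
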