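import Mathlib.RingTheory.LaurentSeries
import Mathlib.Algebra.CharP.Lemmas
import Mathlib.Algebra.CharP.Algebra
import Mathlib.FieldTheory.Finite.Basic
import Mathlib.Tactic

/-!
The kernel of the constant coefficient of a Laurent series over a prime field.
-/

namespace Pool.Agent.Work.MP_db9079_lc

open HahnSeries

section General

variable {F : Type} [Field F]

/-- All coefficients below `D` vanish. -/
def Ge (D : ℤ) (x : LaurentSeries F) : Prop := ∀ n : ℤ, n < D → x.coeff n = 0

theorem Ge.mul {a b : ℤ} {x y : LaurentSeries F} (hx : Ge a x) (hy : Ge b y) :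
    Ge (a + b) (x * y) := by
  unfold Ge at *
  rw [← LaurentSeries.valuation_le_iff_coeff_lt_eq_zero] at *
  rw [map_mul, neg_add, WithZero.exp_add]
  exact mul_le_mul' hx hy

theorem Ge.mono {a b : ℤ} {x : LaurentSeries F} (hx : Ge a x) (h : b ≤ a) : Ge b x :=
  fun n hn => hx n (by omega)

theorem Ge.add {a : ℤ} {x y : LaurentSeries F} (hx : Ge a x) (hy : Ge a y) : Ge a (x + y) :=
  fun n hn => by rw [coeff_add, hx n hn, hy n hn, add_zero]

theorem ge_single (a : ℤ) (c : F) : Ge a (single a c) := fun n hn => by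
  rw [coeff_single, if_neg (by omega)]

theorem ge_zero (a : ℤ) : Ge a (0 : LaurentSeries F) := fun _ _ => rfl

theorem Ge.pow {a : ℤ} {x : LaurentSeries F} (hx : Ge a x) (n : ℕ) : Ge (n * a) (x ^ n) := by
  induction n with
  | zero => simpa using ge_single (0 : ℤ) (1 : F)
  | succ n ih =>
    rw [pow_succ]
    exact (ih.mul hx).mono (by push_cast; ring_nf; exact le_rfl)

theorem exists_ge (x : LaurentSeries F) : ∃ N : ℕ, Ge (-N) x :=
  ⟨x.order.natAbs, fun n hn => coeff_eq_zero_of_lt_order (by omega)⟩

theorem exists_div {s : LaurentSeries F} (hs : s ≠ 0) :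
    ∃ σ : ℤ, ∀ y, Ge σ y → ∃ o, Ge 0 o ∧ y = s * o := by
  obtain ⟨N, hN⟩ := exists_ge s⁻¹
  refine ⟨N, fun y hy => ⟨s⁻¹ * y, (hN.mul hy).mono (by omega), ?_⟩⟩
  rw [← mul_assoc, mul_inv_cancel₀ hs, one_mul]

theorem div_single {a : ℤ} {y : LaurentSeries F} (hy : Ge a y) :
    ∃ o, Ge 0 o ∧ y = single a 1 * o := by
  refine ⟨single (-a) 1 * y, ((ge_single (-a) 1).mul hy).mono (by omega), ?_⟩
  rw [← mul_assoc, single_mul_single]
  simp

theorem laurent_induction {P : LaurentSeries F → Prop} (hadd : ∀ x y, P x → P y → P (x + y))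
    (hpos : ∀ x, Ge 1 x → P x) (hsingle : ∀ (j : ℕ) (c : F), P (single (-(j : ℤ)) c)) :
    ∀ x, P x := by
  have key : ∀ (N : ℕ) (x : LaurentSeries F), Ge (1 - N) x → P x := by
    intro N
    induction N with
    | zero => intro x hx; exact hpos x (by simpa using hx)
    | succ N ih =>
      intro x hx
      have h1 : P (x - single (-(N : ℤ)) (x.coeff (-N))) := by
        apply ih
        intro n hn
        rw [coeff_sub, coeff_single]
        split_ifs with h
        · rw [h, sub_self]
        · rw [hx n (by push_cast; omega), sub_zero]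
      simpa using hadd _ _ h1 (hsingle N (x.coeff (-N)))
  intro x
  obtain ⟨N, hN⟩ := exists_ge x
  exact key (N + 1) x (hN.mono (by push_cast; omega))

end General

variable {p : ℕ} [hp : Fact p.Prime]

theorem charP_laurent : CharP (LaurentSeries (ZMod p)) p :=
  charP_of_injective_ringHom (f := (HahnSeries.C : ZMod p →+* LaurentSeries (ZMod p)))
    HahnSeries.C_injective p

theorem frob_add (x y : LaurentSeries (ZMod p)) : (x + y) ^ p = x ^ p + y ^ p := by
  have := charP_laurent (p := p)
  exact add_pow_char x y p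

theorem coeff_frob (y : LaurentSeries (ZMod p)) : (y ^ p).coeff 0 = y.coeff 0 := by
  have hp1 := hp.out.one_lt
  induction y using laurent_induction with
  | hadd x y hx hy => rw [frob_add, coeff_add, coeff_add, hx, hy]
  | hpos x hx => rw [hx 0 (by omega), hx.pow p 0 (by omega)]
  | hsingle j c =>
    rw [single_pow, ZMod.pow_card, coeff_single, coeff_single]
    by_cases hj : j = 0
    · simp [hj]
    · rw [if_neg, if_neg (by omega)]
      simp only [smul_neg, nsmul_eq_mul, zero_eq_neg, mul_eq_zero, Nat.cast_eq_zero]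
      omega

theorem coeff_frob_shift (i : ℕ) (hi : i + 1 < p) (y : LaurentSeries (ZMod p)) :
    ((single (1 : ℤ) (1 : ZMod p)) ^ (i + 1) * y ^ p).coeff 0 = 0 := by
  induction y using laurent_induction with
  | hadd x y hx hy => rw [frob_add, mul_add, coeff_add, hx, hy, add_zero]
  | hpos x hx =>
    exact (((ge_single (1 : ℤ) (1 : ZMod p)).pow (i + 1)).mul (hx.pow p)) 0 (by push_cast; omega)
  | hsingle j c =>
    rw [single_pow, single_pow, single_mul_single, coeff_single, if_neg]
    simp only [smul_neg, nsmul_eq_mul, mul_one]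
    intro h
    have h1 : (p : ℤ) ∣ ((i + 1 : ℕ) : ℤ) := ⟨j, by omega⟩
    have h2 := Nat.le_of_dvd (by omega) (Int.natCast_dvd_natCast.mp h1)
    omega

/-- A subgroup defined with the parameter `t`. -/
def Hs (t x : LaurentSeries (ZMod p)) : Prop :=
  ∃ o y, ∃ z : Fin (p - 1) → LaurentSeries (ZMod p),
    Ge 0 o ∧ x + y = t * o + y ^ p + ∑ i : Fin (p - 1), t ^ (i.1 + 1) * z i ^ p

theorem Hs.add {t x x' : LaurentSeries (ZMod p)} (h : Hs t x) (h' : Hs t x') : Hs t (x + x') := by
  obtain ⟨o, y, z, h1, h2⟩ := h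
  obtain ⟨o', y', z', h1', h2'⟩ := h'
  refine ⟨o + o', y + y', fun i => z i + z' i, h1.add h1', ?_⟩
  simp only [frob_add, mul_add, Finset.sum_add_distrib]
  linear_combination h2 + h2'

theorem hs_of_ge {x : LaurentSeries (ZMod p)} (hx : Ge 1 x) : Hs (single (1 : ℤ) 1) x := by
  obtain ⟨o, ho, h⟩ := div_single hx
  refine ⟨o, 0, fun _ => 0, ho, ?_⟩
  simp [zero_pow hp.out.ne_zero, ← h]

theorem hs_single (c : ZMod p) : ∀ j : ℕ, 0 < j → Hs (single (1 : ℤ) 1) (single (-(j : ℤ)) c) := by
  have hp1 := hp.out.one_lt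
  intro j
  induction j using Nat.strong_induction_on with
  | _ j ih =>
    intro hj
    by_cases hd : p ∣ j
    · obtain ⟨j', rfl⟩ := hd
      have hj' : 0 < j' := Nat.pos_of_mul_pos_left hj
      have h1 := ih j' (by nlinarith) hj'
      have h2 : Hs (single (1 : ℤ) (1 : ZMod p))
          (single (-((p * j' : ℕ) : ℤ)) c - single (-(j' : ℤ)) c) := by
        refine ⟨0, single (-(j' : ℤ)) c, fun _ => 0, ge_zero _, ?_⟩
        simp [zero_pow hp.out.ne_zero, single_pow]
      simpa using h2.add h1
    · have hr : 0 < j % p := Nat.pos_of_ne_zero fun h => hd (Nat.dvd_of_mod_eq_zero h)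
      have hr' : j % p < p := Nat.mod_lt _ (by omega)
      let i : Fin (p - 1) := ⟨p - j % p - 1, by omega⟩
      refine ⟨0, 0, Pi.single i (single (-((j / p + 1 : ℕ) : ℤ)) c), ge_zero _, ?_⟩
      rw [Finset.sum_eq_single i]
      · simp only [add_zero, mul_zero, zero_pow hp.out.ne_zero, zero_add, Pi.single_eq_same,
          single_pow, single_mul_single, one_pow, one_mul, ZMod.pow_card]
        congr 2
        have h3 := Nat.div_add_mod j p
        have h4 : ((i : ℕ) + 1 : ℕ) + j % p = p := by simp only [i]; omega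
        simp only [smul_neg, nsmul_eq_mul, mul_one]
        zify at h3 h4 ⊢
        linear_combination h3 - h4
      · intro b _ hb
        rw [Pi.single_eq_of_ne hb, zero_pow hp.out.ne_zero, mul_zero]
      · intro h
        exact absurd (Finset.mem_univ _) h

theorem hs_iff (x : LaurentSeries (ZMod p)) : Hs (single (1 : ℤ) 1) x ↔ x.coeff 0 = 0 := by
  constructor
  · rintro ⟨o, y, z, h1, h2⟩
    have h3 := congrArg (fun w : LaurentSeries (ZMod p) => w.coeff 0) h2
    simp only [coeff_add, coeff_frob, coeff_sum] at h3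
    rw [((ge_single (1 : ℤ) (1 : ZMod p)).mul h1) 0 (by omega), Finset.sum_eq_zero] at h3
    · simpa using h3
    · intro i _
      exact coeff_frob_shift i (by have := i.2; omega) _
  · intro h
    have key : ∀ x : LaurentSeries (ZMod p), Hs (single (1 : ℤ) 1) (x - single 0 (x.coeff 0)) := by
      intro x
      induction x using laurent_induction with
      | hadd x y hx hy =>
        have := hx.add hy
        rw [coeff_add, ← HahnSeries.C_apply, map_add, HahnSeries.C_apply, HahnSeries.C_apply]
        convert this using 1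
        ring
      | hpos x hx => simpa [hx 0 (by omega)] using hs_of_ge hx
      | hsingle j c =>
        by_cases hj : j = 0
        · simpa [hj] using hs_of_ge (ge_zero 1)
        · rw [coeff_single, if_neg (by omega)]
          simpa using hs_single c j (by omega)
    simpa [h] using key x

end Pool.Agent.Work.MP_db9079_lc
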