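import Pool.Agent.Work.MP_db9079_lc.Interp
import Pool.Agent.Work.MP_db9079_lc.Chain
import Pool.Agent.Work.MP_db9079_lc.Kernel
import Pool.Agent.Work.MP_db9079_lc.Laurent
import Mathlib.ModelTheory.Definability
import Mathlib.Algebra.Module.ZMod

/-!
Expansions of the valued field of Laurent series over a prime field with decidable theory have a
uniform bound on the number of isolated points of definable sets.
-/

namespace Pool.Agent.Work.MP_db9079_lc

open DC FirstOrder FirstOrder.Language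

universe u v

/-- The predicates definable without parameters. -/
def defDC (L : FirstOrder.Language.{u, v}) (K : Type) [L.Structure K] : DC K where
  D := fun P => (∅ : Set K).Definable L {w | P w}
  comp := fun f _ h => h.preimage_comp f
  not := fun h => h.compl
  and := fun h1 h2 => h1.inter h2
  exs' := fun h => h.exists_of_finite
  eq' := Set.Definable.diagonal L ∅
  tru := Set.definable_univ

theorem not_coding {L : FirstOrder.Language.{u, v}} [Encodable (Σ i, L.Functions i)]
    [Encodable (Σ i, L.Relations i)] {K : Type} [L.Structure K] [Nonempty K] {B Z : Type}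
    [Finite B] [Finite Z] (X : Coding (defDC L K) B Z) {Q : ℕ → Prop} (hQ : ComputablePred Q)
    (hT : ∀ σ : L.Sentence, Q (Encodable.encode σ.listEncode) ↔ K ⊨ σ) : False := by
  obtain ⟨P, hP, hnc⟩ := exists_noncomputable X.hasArith
  obtain ⟨M, ⟨e⟩⟩ := Finite.exists_equiv_fin (B ⊕ Z)
  let N : (Fin M → K) → ℕ := fun u => X.N (fun j => u (e j))
  have hN : Function.Surjective N := by
    intro n
    obtain ⟨u, hu⟩ := X.N_surj n
    exact ⟨fun i => u (e.symm i), by simpa [N] using hu⟩
  have h0 : X.toDC.D (fun v : Fin 1 → ℕ => v 0 = 0) := eq (var 0) X.hasArith.fzero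
  have h1 : X.toDC.D (fun v : Fin 2 → ℕ => v 1 = v 0 + 1) :=
    eq (var 1) (X.hasArith.fadd (var 0) X.hasArith.fone)
  obtain ⟨ψ, hψ⟩ := Set.empty_definable_iff.mp
    ((defDC L K).comp (fun x : Fin 1 × (B ⊕ Z) => e x.2) hP)
  obtain ⟨Z', hZ⟩ := Set.empty_definable_iff.mp
    ((defDC L K).comp (fun x : Fin 1 × (B ⊕ Z) => e x.2) h0)
  obtain ⟨S, hS⟩ := Set.empty_definable_iff.mp
    ((defDC L K).comp (fun x : Fin 2 × (B ⊕ Z) =>
      (![Sum.inl (e x.2), Sum.inr (e x.2)] x.1 : Fin M ⊕ Fin M)) h1)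
  exact hnc (computable_of_chain ψ Z' S hN (fun u => (Set.ext_iff.mp hψ u).symm)
    (fun u => (Set.ext_iff.mp hZ u).symm) (fun u => (Set.ext_iff.mp hS u).symm) hQ hT)

variable {p : ℕ} [hp : Fact p.Prime] {α : Type}

/-- The valued field structure belongs to the class. -/
structure HasVal (C : DC (LaurentSeries (ZMod p))) : Prop where
  add : C.D (fun v : Fin 3 → LaurentSeries (ZMod p) => v 0 + v 1 = v 2)
  mul : C.D (fun v : Fin 3 → LaurentSeries (ZMod p) => v 0 * v 1 = v 2)
  val : C.D (fun v : Fin 1 → LaurentSeries (ZMod p) => Ge 0 (v 0))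

namespace HasVal

variable {C : DC (LaurentSeries (ZMod p))}

theorem fadd (h : HasVal C) {f g : (α → LaurentSeries (ZMod p)) → LaurentSeries (ZMod p)}
    (hf : C.F f) (hg : C.F g) : C.F (fun v => f v + g v) := op2 h.add hf hg

theorem fmul (h : HasVal C) {f g : (α → LaurentSeries (ZMod p)) → LaurentSeries (ZMod p)}
    (hf : C.F f) (hg : C.F g) : C.F (fun v => f v * g v) := op2 h.mul hf hg

theorem dval (h : HasVal C) {f : (α → LaurentSeries (ZMod p)) → LaurentSeries (ZMod p)}
    (hf : C.F f) : C.D (fun v => Ge 0 (f v)) := app1 h.val hf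

theorem fzero (h : HasVal C) : C.F (fun _ : α → LaurentSeries (ZMod p) => 0) :=
  const (congr (eq (h.fadd (var 0) (var 0)) (var 0)) (fun v => by
    rw [add_eq_left]
    exact eq_comm))

theorem fone (h : HasVal C) : C.F (fun _ : α → LaurentSeries (ZMod p) => 1) :=
  const (congr (all (Q := fun (v : Fin 1 → LaurentSeries (ZMod p)) y => v 0 * y = y)
    (eq (h.fmul (var _) (var _)) (var _))) (fun v =>
      ⟨fun H => by simpa using (H 1).symm, fun H y => by rw [← H, one_mul]⟩))

theorem fpow (h : HasVal C) {f : (α → LaurentSeries (ZMod p)) → LaurentSeries (ZMod p)}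
    (hf : C.F f) (n : ℕ) : C.F (fun v => f v ^ n) := by
  induction n with
  | zero => simpa using h.fone
  | succ n ih => simpa [pow_succ] using h.fmul ih hf

theorem fsum (h : HasVal C) {ι : Type} (s : Finset ι)
    {f : ι → (α → LaurentSeries (ZMod p)) → LaurentSeries (ZMod p)}
    (hf : ∀ i, C.F (f i)) : C.F (fun v => ∑ i ∈ s, f i v) := by
  classical
  induction s using Finset.induction_on with
  | empty => simpa using h.fzero
  | insert a s ha ih => simpa [Finset.sum_insert ha] using h.fadd (hf a) ih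

theorem dHs (h : HasVal C) {t x : (α → LaurentSeries (ZMod p)) → LaurentSeries (ZMod p)}
    (ht : C.F t) (hx : C.F x) : C.D (fun v => Hs (t v) (x v)) := by
  refine app2 (R := Hs) ?_ ht hx
  unfold Hs
  refine ex (ex (exs (C.and (h.dval (var _)) (eq (h.fadd (var _) (var _))
    (h.fadd (h.fadd (h.fmul (var _) (var _)) (h.fpow (var _) _))
      (h.fsum _ fun i => h.fmul (h.fpow (var _) _) (h.fpow (var _) _)))))))

end HasVal

section Family

variable {m n : ℕ} (X : (Fin m → LaurentSeries (ZMod p)) → Set (Fin n → LaurentSeries (ZMod p)))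

/-- The points of `X b` in the ball of radius `r` that are isolated at the scale `s`. -/
def Dset (b : Fin m → LaurentSeries (ZMod p)) (r s : LaurentSeries (ZMod p)) :
    Set (Fin n → LaurentSeries (ZMod p)) :=
  {x | x ∈ X b ∧ s ≠ 0 ∧ (∀ i, ∃ o, Ge 0 o ∧ x i = r * o) ∧
    ∀ y, y ∈ X b → (∀ i, ∃ o, Ge 0 o ∧ y i = x i + s * o) → ∀ i, y i = x i}

theorem Dset_finite (b : Fin m → LaurentSeries (ZMod p)) (r s : LaurentSeries (ZMod p)) :
    (Dset X b r s).Finite := by
  by_cases hs : s = 0
  · convert Set.finite_empty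
    ext x
    simp [Dset, hs]
  obtain ⟨σ, hσ⟩ := exists_div hs
  obtain ⟨N, hN⟩ := exists_ge r
  let g : (Fin n → LaurentSeries (ZMod p)) → (Fin n → Finset.Ico (-(N : ℤ)) σ → ZMod p) :=
    fun x i j => (x i).coeff j
  refine Set.Finite.of_finite_image (f := g) (Set.toFinite _) ?_
  rintro x ⟨-, -, hx2, hx3⟩ y ⟨hy0, -, hy2, -⟩ hxy
  funext i
  symm
  apply hx3 y hy0
  intro i
  have h1 : Ge σ (y i - x i) := by
    intro j hj
    rw [HahnSeries.coeff_sub]
    by_cases hjN : j < -(N : ℤ)
    · obtain ⟨o, ho, h⟩ := hx2 i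
      obtain ⟨o', ho', h'⟩ := hy2 i
      rw [h, h', (hN.mul ho) j (by omega), (hN.mul ho') j (by omega), sub_zero]
    · have := congrFun (congrFun hxy i) ⟨j, Finset.mem_Ico.mpr ⟨by omega, hj⟩⟩
      simp only [g] at this
      rw [this, sub_self]
  obtain ⟨o, ho, h⟩ := hσ _ h1
  exact ⟨o, ho, by rw [← h]; ring⟩

/-- The isolated points of `X b`. -/
def Iso (b : Fin m → LaurentSeries (ZMod p)) : Set (Fin n → LaurentSeries (ZMod p)) :=
  {x | x ∈ X b ∧ ∃ S : ℤ, ∀ y, y ∈ X b → (∀ i j, j < S → (y i).coeff j = (x i).coeff j) → y = x}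

theorem exists_Dset (b : Fin m → LaurentSeries (ZMod p))
    {F : Set (Fin n → LaurentSeries (ZMod p))} (hF : F.Finite) (hsub : F ⊆ Iso X b) :
    ∃ r s, F ⊆ Dset X b r s := by
  have h1 : ∀ x ∈ F, ∃ S : ℤ, ∀ y, y ∈ X b →
      (∀ i j, j < S → (y i).coeff j = (x i).coeff j) → y = x := fun x hx => (hsub hx).2
  choose! S hS using h1
  choose N hN using exists_ge (F := ZMod p)
  obtain ⟨S₀, hS₀⟩ := (hF.image S).bddAbove
  obtain ⟨N₀, hN₀⟩ := ((hF.prod (Set.finite_univ (α := Fin n))).image
    (fun x => N (x.1 x.2))).bddAbove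
  refine ⟨HahnSeries.single (-(N₀ : ℤ)) 1, HahnSeries.single S₀ 1, fun x hx =>
    ⟨(hsub hx).1, HahnSeries.single_ne_zero one_ne_zero, fun i => ?_, fun y hy h => ?_⟩⟩
  · have : N (x i) ≤ N₀ := hN₀ ⟨(x, i), ⟨hx, trivial⟩, rfl⟩
    exact div_single ((hN (x i)).mono (by omega))
  · have h2 : S x ≤ S₀ := hS₀ ⟨x, hx, rfl⟩
    have := hS x hx y hy (fun i j hj => by
      obtain ⟨o, ho, h3⟩ := h i
      rw [h3, HahnSeries.coeff_add, ((ge_single S₀ (1 : ZMod p)).mul ho) j (by omega), add_zero])
    exact fun i => congrFun this i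

/-- The coordinates of the points of `Dset`. -/
def Eset (u : Fin m ⊕ Fin 2 → LaurentSeries (ZMod p)) : Set (LaurentSeries (ZMod p)) :=
  {d | ∃ x, x ∈ Dset X (fun j => u (Sum.inl j)) (u (Sum.inr 0)) (u (Sum.inr 1)) ∧ ∃ i, x i = d}

theorem Eset_finite (u : Fin m ⊕ Fin 2 → LaurentSeries (ZMod p)) : (Eset X u).Finite := by
  refine (((Dset_finite X (fun j => u (Sum.inl j)) (u (Sum.inr 0)) (u (Sum.inr 1))).prod
    (Set.finite_univ (α := Fin n))).image (fun x => x.1 x.2)).subset ?_
  rintro d ⟨x, hx, i, rfl⟩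
  exact ⟨(x, i), ⟨hx, trivial⟩, rfl⟩

theorem Eset_unbounded (h : ∀ N : ℕ, ∃ b, ¬ (Iso X b).encard ≤ N) (k : ℕ) :
    ∃ u, k ≤ (Eset X u).ncard := by
  classical
  obtain ⟨b, hb⟩ := h (k ^ n)
  obtain ⟨F, hF, hc⟩ := Set.exists_subset_encard_eq
    (show ((k ^ n + 1 : ℕ) : ℕ∞) ≤ (Iso X b).encard by
      push_cast
      exact Order.add_one_le_of_lt (by simpa using hb))
  have hFfin : F.Finite := Set.finite_of_encard_eq_coe hc
  have hFc : F.ncard = k ^ n + 1 := by rw [Set.ncard_def, hc]; rfl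
  obtain ⟨r, s, hrs⟩ := exists_Dset X b hFfin hF
  let u : Fin m ⊕ Fin 2 → LaurentSeries (ZMod p) := Sum.elim b ![r, s]
  refine ⟨u, ?_⟩
  by_contra hlt
  have h1 : F ⊆ (Fintype.piFinset (fun _ : Fin n => (Eset_finite X u).toFinset) : Set _) := by
    intro x hx
    simp only [Finset.mem_coe, Fintype.mem_piFinset, Set.Finite.mem_toFinset]
    exact fun i => ⟨x, hrs hx, i, rfl⟩
  have h2 := Set.ncard_le_ncard h1 (Finset.finite_toSet _)
  rw [Set.ncard_coe_finset, Fintype.card_piFinset, Finset.prod_const, Finset.card_univ,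
    Fintype.card_fin, ← Set.ncard_eq_toFinset_card _ (Eset_finite X u), hFc] at h2
  have h3 : (Eset X u).ncard ^ n ≤ k ^ n := Nat.pow_le_pow_left (by omega) n
  omega

/-- The coded ternary relation. -/
def Rel (z : Fin 5 → LaurentSeries (ZMod p)) (d e f : LaurentSeries (ZMod p)) : Prop :=
  ∃ w, w * z 1 = z 4 + w * (d + z 2 * e + z 3 * f) ∧ Hs (z 0) w

theorem infinite_laurent : Infinite (LaurentSeries (ZMod p)) :=
  Infinite.of_injective (fun j : ℤ => (HahnSeries.single j 1 : LaurentSeries (ZMod p)))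
    (fun i j h => by
      have := congrArg (fun w : LaurentSeries (ZMod p) => w.coeff i) h
      simp only [HahnSeries.coeff_single, if_true] at this
      by_contra hne
      simp [hne] at this)

theorem rel_code (A : Set (LaurentSeries (ZMod p))) (hA : A.Finite)
    (T : LaurentSeries (ZMod p) → LaurentSeries (ZMod p) → LaurentSeries (ZMod p) → Prop) :
    ∃ z, ∀ d ∈ A, ∀ e ∈ A, ∀ f ∈ A, Rel z d e f ↔ T d e f := by
  have := infinite_laurent (p := p)
  obtain ⟨a, c, c', x, h⟩ := code_ternary (F := ZMod p) (K := LaurentSeries (ZMod p))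
    (@LinearMap.mk _ _ _ _ (RingHom.id _) _ _ _ _ Algebra.toModule _
      ⟨fun w => w.coeff 0, fun _ _ => rfl⟩ (fun c w => by
        rw [Algebra.smul_def, show algebraMap (ZMod p) (LaurentSeries (ZMod p)) = HahnSeries.C from
          Subsingleton.elim _ _]
        simp)) (by simp) hA T
  refine ⟨![HahnSeries.single 1 1, a, c, c', x], fun d hd e he f hf => ?_⟩
  rw [← h d hd e he f hf]
  simp [Rel, hs_iff]

/-- The coding data. -/
def coding {C : DC (LaurentSeries (ZMod p))} (h : HasVal C)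
    (hX : C.D (fun w : Fin m ⊕ Fin n → LaurentSeries (ZMod p) =>
      (fun i => w (Sum.inr i)) ∈ X (fun j => w (Sum.inl j))))
    (hu : ∀ N : ℕ, ∃ b, ¬ (Iso X b).encard ≤ N) : Coding C (Fin m ⊕ Fin 2) (Fin 5) where
  E := Eset X
  fin := Eset_finite X
  unb := Eset_unbounded X hu
  R := Rel
  code := rel_code
  hR := by
    unfold Rel
    exact ex (C.and (eq (h.fmul (var _) (var _)) (h.fadd (var _) (h.fmul (var _)
      (h.fadd (h.fadd (var _) (h.fmul (var _) (var _))) (h.fmul (var _) (var _))))))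
      (h.dHs (var _) (var _)))
  hE := by
    have dX : ∀ {β : Type} {b : (β → LaurentSeries (ZMod p)) → Fin m → LaurentSeries (ZMod p)}
        {x : (β → LaurentSeries (ZMod p)) → Fin n → LaurentSeries (ZMod p)},
        (∀ j, C.F (fun v => b v j)) → (∀ i, C.F (fun v => x v i)) → C.D (fun v => x v ∈ X (b v)) := by
      intro β b x hb hx
      exact app hX (g := fun v => Sum.elim (b v) (x v)) (by
        rintro (j | i)
        · exact hb j
        · exact hx i)
    unfold Eset Dset
    simp only [Set.mem_ofPred_eq]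
    refine exs (C.and (C.and (dX (fun _ => var _) (fun _ => var _))
      (C.and (ne (var _) h.fzero)
        (C.and (forall_fin fun i => ex (C.and (h.dval (var _))
          (eq (var _) (h.fmul (var _) (var _)))))
          (alls (imp (dX (fun _ => var _) (fun _ => var _))
            (imp (forall_fin fun i => ex (C.and (h.dval (var _))
              (eq (var _) (h.fadd (var _) (h.fmul (var _) (var _))))))
              (forall_fin fun i => eq (var _) (var _))))))))
      (exists_fin fun i => eq (var _) (var _)))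

end Family

theorem main (L : FirstOrder.Language.{u, v}) [Encodable (Σ i, L.Functions i)]
    [Encodable (Σ i, L.Relations i)] [L.Structure (LaurentSeries (ZMod p))]
    (h : HasVal (defDC L (LaurentSeries (ZMod p)))) {Q : ℕ → Prop} (hQ : ComputablePred Q)
    (hT : ∀ σ : L.Sentence, Q (Encodable.encode σ.listEncode) ↔ LaurentSeries (ZMod p) ⊨ σ)
    {m n : ℕ} (φ : L.Formula (Fin m ⊕ Fin n)) :
    ∃ N : ℕ, ∀ b, (Iso (p := p) (fun b => {x | φ.Realize (Sum.elim b x)}) b).encard ≤ N := by
  by_contra hne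
  push Not at hne
  refine not_coding (coding (fun b => {x | φ.Realize (Sum.elim b x)}) h ?_ (fun N => ?_)) hQ hT
  · refine Set.empty_definable_iff.mpr ⟨φ, ?_⟩
    ext w
    simp only [Set.mem_ofPred_eq]
    rw [show (Sum.elim (fun j => w (Sum.inl j)) fun i => w (Sum.inr i)) = w from
      Sum.elim_comp_inl_inr w]
  · obtain ⟨b, hb⟩ := hne N
    exact ⟨b, not_le.mpr hb⟩

end Pool.Agent.Work.MP_db9079_lc
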