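import Pool.Agent.Work.MP_db9079_lc.NETower

/-!
Bounded arithmetic and predicates that are represented in it once the bound is large.
-/

namespace Pool.Agent.Work.MP_db9079_lc.NE

/-- Formulas of arithmetic; variables are levels. -/
inductive BF : Type
  | fls : BF
  | imp : BF → BF → BF
  | all : BF → BF
  | atom : ℕ → ℕ → ℕ → ℕ → BF

/-- Evaluation with quantifiers ranging over the numbers up to `B`. -/
def BF.ev (B : ℕ) : BF → ℕ → (ℕ → ℕ) → Prop
  | .fls, _, _ => False
  | .imp φ ψ, d, s => φ.ev B d s → ψ.ev B d s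
  | .all φ, d, s => ∀ y, y ≤ B → φ.ev B (d + 1) (Function.update s d y)
  | .atom x y z w, _, s => s x * s y + s z = s w

/-- All variables are in scope. -/
def BF.wf : BF → ℕ → Prop
  | .fls, _ => True
  | .imp φ ψ, d => φ.wf d ∧ ψ.wf d
  | .all φ, d => φ.wf (d + 1)
  | .atom x y z w, d => x < d ∧ y < d ∧ z < d ∧ w < d

/-- Predicates, depending on the bound, given by a formula. -/
def BA {α : Type} (P : ℕ → (α → ℕ) → Prop) : Prop :=
  ∀ (d : ℕ) (pos : α → ℕ), (∀ a, pos a < d) →
    ∃ φ : BF, φ.wf d ∧ ∀ B s, φ.ev B d s ↔ P B (fun a => s (pos a))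

namespace BA

variable {α β : Type}

theorem congr {P Q : ℕ → (α → ℕ) → Prop} (h : BA P) (e : ∀ B v, P B v ↔ Q B v) : BA Q := by
  have : P = Q := funext fun B => funext fun v => propext (e B v)
  exact this ▸ h

theorem comp (f : α → β) {P : ℕ → (α → ℕ) → Prop} (h : BA P) :
    BA (fun B (v : β → ℕ) => P B (fun a => v (f a))) :=
  fun d pos hp => h d (fun a => pos (f a)) (fun a => hp (f a))

theorem fls : BA (fun _ (_ : α → ℕ) => False) := fun _ _ _ => ⟨.fls, trivial, fun _ _ => Iff.rfl⟩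

theorem imp {P Q : ℕ → (α → ℕ) → Prop} (hP : BA P) (hQ : BA Q) :
    BA (fun B v => P B v → Q B v) := by
  intro d pos hp
  obtain ⟨φ, h1, h2⟩ := hP d pos hp
  obtain ⟨ψ, h3, h4⟩ := hQ d pos hp
  exact ⟨.imp φ ψ, ⟨h1, h3⟩, fun B s => imp_congr (h2 B s) (h4 B s)⟩

theorem all {P : ℕ → (Option α → ℕ) → Prop} (hP : BA P) :
    BA (fun B (v : α → ℕ) => ∀ y, y ≤ B → P B (fun o => o.elim y v)) := by
  intro d pos hp
  obtain ⟨φ, h1, h2⟩ := hP (d + 1) (fun o => o.elim d pos) (by
    rintro (_ | a)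
    · exact Nat.lt_succ_self d
    · exact (hp a).trans (Nat.lt_succ_self d))
  refine ⟨.all φ, h1, fun B s => forall_congr' fun y => imp_congr_right fun _ => ?_⟩
  rw [h2]
  apply iff_of_eq
  congr 1
  funext o
  cases o with
  | none => simp
  | some a => simp [Function.update_of_ne (hp a).ne]

theorem atom (a b c e : α) : BA (fun _ (v : α → ℕ) => v a * v b + v c = v e) :=
  fun _ pos hp => ⟨.atom (pos a) (pos b) (pos c) (pos e), ⟨hp a, hp b, hp c, hp e⟩,
    fun _ _ => Iff.rfl⟩

theorem not {P : ℕ → (α → ℕ) → Prop} (hP : BA P) : BA (fun B v => ¬ P B v) := imp hP fls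

theorem and {P Q : ℕ → (α → ℕ) → Prop} (hP : BA P) (hQ : BA Q) :
    BA (fun B v => P B v ∧ Q B v) := (not (imp hP (not hQ))).congr (fun _ _ => by tauto)

theorem or {P Q : ℕ → (α → ℕ) → Prop} (hP : BA P) (hQ : BA Q) :
    BA (fun B v => P B v ∨ Q B v) := (imp (not hP) hQ).congr (fun _ _ => by tauto)

theorem ex {P : ℕ → (Option α → ℕ) → Prop} (hP : BA P) :
    BA (fun B (v : α → ℕ) => ∃ y, y ≤ B ∧ P B (fun o => o.elim y v)) :=
  (not (all (not hP))).congr (fun _ _ => by simp)

theorem zero (a : α) : BA (fun _ (v : α → ℕ) => v a = 0) :=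
  (atom a a a a).congr (fun _ v => by simp)

theorem mul (a b c : α) : BA (fun _ (v : α → ℕ) => v a * v b = v c) :=
  (ex (and (zero none) (atom (some a) (some b) none (some c)))).congr (fun B v => by simp)

theorem eq (a b : α) : BA (fun _ (v : α → ℕ) => v a = v b) :=
  (ex (and (zero none) (atom none none (some a) (some b)))).congr (fun B v => by simp)

theorem one (a : α) : BA (fun _ (v : α → ℕ) => v a = 1) := by
  refine (and (mul a a a) (not (zero a))).congr (fun B v => ?_)
  constructor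
  · rintro ⟨h1, h2⟩
    exact Nat.eq_of_mul_eq_mul_left (Nat.pos_of_ne_zero h2) (by rw [h1, mul_one])
  · intro h1
    simp [h1]

theorem add (a b c : α) : BA (fun B (v : α → ℕ) => 1 ≤ B ∧ v a + v b = v c) :=
  (ex (and (one none) (atom (some a) none (some b) (some c)))).congr (fun B v => by
    constructor
    · rintro ⟨y, h1, h2, h3⟩
      simp only [Option.elim_none, Option.elim_some] at h2 h3
      subst h2
      exact ⟨h1, by simpa using h3⟩
    · rintro ⟨h1, h2⟩
      exact ⟨1, h1, rfl, by simpa using h2⟩)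

theorem exs (κ : Type) [Finite κ] : ∀ {α : Type} {P : ℕ → (α ⊕ κ → ℕ) → Prop}, BA P →
    BA (fun B (v : α → ℕ) => ∃ u : κ → ℕ, (∀ b, u b ≤ B) ∧ P B (Sum.elim v u)) := by
  induction κ using Finite.induction_empty_option with
  | @of_equiv κ κ' e ih =>
    intro α P hP
    refine (ih (comp (Sum.map id e.symm) hP)).congr (fun B v => ?_)
    constructor
    · rintro ⟨u, h1, h2⟩
      refine ⟨fun b => u (e.symm b), fun b => h1 _, ?_⟩
      convert h2 using 2 with x
      cases x <;> rfl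
    · rintro ⟨u, h1, h2⟩
      refine ⟨fun b => u (e b), fun b => h1 _, ?_⟩
      convert h2 using 2 with x
      cases x <;> simp
  | h_empty =>
    intro α P hP
    refine (comp (Sum.elim id PEmpty.elim) hP).congr (fun B v => ?_)
    constructor
    · intro h
      refine ⟨PEmpty.elim, fun b => b.elim, ?_⟩
      convert h using 2 with x
      rcases x with x | x
      · rfl
      · exact x.elim
    · rintro ⟨u, -, h⟩
      convert h using 2 with x
      rcases x with x | x
      · rfl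
      · exact x.elim
  | @h_option κ _ ih =>
    intro α P hP
    refine (ex (ih (comp (Sum.elim (fun a => Sum.inl (some a))
      (fun o : Option κ => o.elim (Sum.inl none) Sum.inr)) hP))).congr (fun B v => ?_)
    constructor
    · rintro ⟨y, hy, u, h1, h2⟩
      refine ⟨fun o => o.elim y u, fun o => ?_, ?_⟩
      · cases o with
        | none => exact hy
        | some b => exact h1 b
      · convert h2 using 2 with x
        rcases x with x | _ | x <;> rfl
    · rintro ⟨u, h1, h2⟩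
      refine ⟨u none, h1 none, fun b => u (some b), fun b => h1 _, ?_⟩
      convert h2 using 2 with x
      rcases x with x | _ | x <;> rfl

end BA

variable {ι κ : Type} [Fintype ι] [Fintype κ]

/-- Predicates with a formula that is always sound, and complete once the bound exceeds a tower
of fixed height. -/
def SP (P : (ι → ℕ) → Prop) : Prop :=
  ∃ G : ℕ → (ι → ℕ) → Prop, BA G ∧ (∀ B v, G B v → P v) ∧
    ∃ k, ∀ B v, P v → tw k (sz v) ≤ B → G B v

namespace SP

theorem congr {P Q : (ι → ℕ) → Prop} (h : SP P) (e : ∀ v, P v ↔ Q v) : SP Q := by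
  have : P = Q := funext fun v => propext (e v)
  exact this ▸ h

theorem mk' {P : (ι → ℕ) → Prop} {G : ℕ → (ι → ℕ) → Prop} (hG : BA G) (hs : ∀ B v, G B v → P v)
    {b : (ι → ℕ) → ℕ} (hb : TB b) (hc : ∀ B v, P v → b v ≤ B → G B v) : SP P := by
  obtain ⟨k, hk⟩ := hb
  exact ⟨G, hG, hs, k, fun B v h1 h2 => hc B v h1 ((hk v).trans h2)⟩

theorem of_exact {P : (ι → ℕ) → Prop} (h : BA (fun _ v => P v)) : SP P :=
  ⟨_, h, fun _ _ h => h, 0, fun _ _ h _ => h⟩

theorem comp (f : ι → κ) {P : (ι → ℕ) → Prop} (h : SP P) :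
    SP (fun v : κ → ℕ => P (fun a => v (f a))) := by
  obtain ⟨G, hG, hs, k, hk⟩ := h
  exact mk' (hG.comp f) (fun B v h => hs B _ h)
    (((TB.size (ι := ι)).comp (fun a => TB.var (f a))).tower k) (fun B v h1 h2 => hk B _ h1 h2)

theorem and {P Q : (ι → ℕ) → Prop} (hP : SP P) (hQ : SP Q) : SP (fun v => P v ∧ Q v) := by
  obtain ⟨G, hG, hs, k, hk⟩ := hP
  obtain ⟨G', hG', hs', k', hk'⟩ := hQ
  exact mk' (hG.and hG') (fun B v h => ⟨hs B v h.1, hs' B v h.2⟩)
    ((TB.size.tower k).add (TB.size.tower k'))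
    (fun B v h1 h2 => ⟨hk B v h1.1 (by omega), hk' B v h1.2 (by omega)⟩)

theorem or {P Q : (ι → ℕ) → Prop} (hP : SP P) (hQ : SP Q) : SP (fun v => P v ∨ Q v) := by
  obtain ⟨G, hG, hs, k, hk⟩ := hP
  obtain ⟨G', hG', hs', k', hk'⟩ := hQ
  exact mk' (hG.or hG') (fun B v h => h.imp (hs B v) (hs' B v))
    ((TB.size.tower k).add (TB.size.tower k'))
    (fun B v h1 h2 => h1.imp (fun h => hk B v h (by omega)) (fun h => hk' B v h (by omega)))

theorem tru : SP (fun _ : ι → ℕ => True) := of_exact ((BA.not BA.fls).congr (by simp))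

theorem forall_fin {β : Type} [Finite β] {P : β → (ι → ℕ) → Prop} (h : ∀ i, SP (P i)) :
    SP (fun v => ∀ i, P i v) := by
  classical
  have := Fintype.ofFinite β
  have key : ∀ s : Finset β, SP (fun v => ∀ i ∈ s, P i v) := by
    intro s
    induction s using Finset.induction_on with
    | empty => exact congr tru (by simp)
    | insert a s _ ih => exact congr (and (h a) ih) (by simp)
  exact congr (key Finset.univ) (by simp)

theorem exs {Q : (ι → ℕ) → (κ → ℕ) → Prop}
    (h : SP (fun w : ι ⊕ κ → ℕ => Q (fun a => w (Sum.inl a)) (fun b => w (Sum.inr b))))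
    {b : (ι → ℕ) → ℕ} (hb : TB b) (hw : ∀ v, (∃ u, Q v u) → ∃ u, (∀ j, u j ≤ b v) ∧ Q v u) :
    SP (fun v => ∃ u, Q v u) := by
  obtain ⟨G, hG, hs, k, hk⟩ := h
  refine mk' (BA.exs κ hG) (fun B v h => ?_)
    (hb.add ((TB.size.add ((TB.const (Fintype.card κ)).mul hb)).tower k)) (fun B v h1 h2 => ?_)
  · obtain ⟨u, -, hu⟩ := h
    exact ⟨u, hs B _ hu⟩
  · obtain ⟨u, h3, h4⟩ := hw v h1
    refine ⟨u, fun j => (h3 j).trans (by omega), hk B _ h4 (le_trans (tw_mono_right k ?_)
      (le_trans (Nat.le_add_left _ _) h2))⟩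
    rw [sz_elim]
    have : sz u ≤ Fintype.card κ * b v := by
      simpa [sz] using Finset.sum_le_card_nsmul Finset.univ u (b v) (fun j _ => h3 j)
    omega

theorem ex {Q : (ι → ℕ) → ℕ → Prop}
    (h : SP (fun w : Option ι → ℕ => Q (fun a => w (some a)) (w none)))
    {b : (ι → ℕ) → ℕ} (hb : TB b) (hw : ∀ v, (∃ y, Q v y) → ∃ y, y ≤ b v ∧ Q v y) :
    SP (fun v => ∃ y, Q v y) := by
  have h1 := comp (fun o : Option ι => (o.elim (Sum.inr ()) Sum.inl : ι ⊕ Unit)) h
  refine congr (exs (κ := Unit) (Q := fun v u => Q v (u ())) h1 hb (fun v hv => ?_)) (fun v => ?_)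
  · obtain ⟨u, hu⟩ := hv
    obtain ⟨y, h2, h3⟩ := hw v ⟨_, hu⟩
    exact ⟨fun _ => y, fun _ => h2, h3⟩
  · exact ⟨fun ⟨u, hu⟩ => ⟨u (), hu⟩, fun ⟨x, hx⟩ => ⟨fun _ => x, hx⟩⟩

theorem all_lt {Q : (ι → ℕ) → ℕ → Prop}
    (h : SP (fun w : Option ι → ℕ => Q (fun a => w (some a)) (w none))) (a : ι) :
    SP (fun v => ∀ y, y < v a → Q v y) := by
  obtain ⟨G, hG, hs, k, hk⟩ := h
  refine mk' (BA.and (BA.ex (BA.eq none (some a)))
    (BA.all (BA.or (BA.ex (BA.add (some (some a)) none (some none))) hG))) (fun B v h => ?_)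
    (((TB.const 1).add (TB.var a)).add (((TB.var a).add TB.size).tower k)) (fun B v h1 h2 => ?_)
  · obtain ⟨⟨x, hx, hx'⟩, h2⟩ := h
    simp only [Option.elim_none, Option.elim_some] at hx' h2
    intro y hy
    rcases h2 y (by omega) with ⟨c, -, -, h3⟩ | h3
    · omega
    · exact hs B _ h3
  · refine ⟨⟨v a, by omega, rfl⟩, fun y hy => ?_⟩
    by_cases hlt : y < v a
    · refine Or.inr (hk B _ (h1 y hlt) (le_trans (tw_mono_right k ?_)
        (le_trans (Nat.le_add_left _ _) h2)))
      rw [sz_option]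
      show y + sz v ≤ v a + sz v
      omega
    · refine Or.inl ⟨y - v a, by omega, by omega, ?_⟩
      simp only [Option.elim_none, Option.elim_some]
      omega

theorem addVar (a b c : ι) : SP (fun v : ι → ℕ => v a + v b = v c) :=
  mk' (BA.add a b c) (fun _ _ h => h.2) (TB.const 1) (fun _ _ h1 h2 => ⟨h2, h1⟩)

end SP

/-- Represented functions. -/
def Rep (f : (ι → ℕ) → ℕ) : Prop :=
  SP (fun w : Option ι → ℕ => f (fun a => w (some a)) = w none) ∧ TB f

theorem SP.app {P : (κ → ℕ) → Prop} (hP : SP P) {g : (ι → ℕ) → κ → ℕ}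
    (hg : ∀ b, Rep (fun v => g v b)) : SP (fun v => P (g v)) := by
  have h1 : SP (fun w : ι ⊕ κ → ℕ => (∀ b, g (fun a => w (Sum.inl a)) b = w (Sum.inr b)) ∧
      P (fun b => w (Sum.inr b))) := by
    refine SP.and (SP.forall_fin fun b => ?_) (SP.comp Sum.inr hP)
    exact SP.comp (fun o : Option ι => (o.elim (Sum.inr b) Sum.inl : ι ⊕ κ)) (hg b).1
  refine (SP.exs (Q := fun v u => (∀ b, g v b = u b) ∧ P u) h1
    (TB.sum Finset.univ (fun b => (hg b).2)) (fun v hv => ?_)).congr (fun v => ?_)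
  · obtain ⟨u, h2, h3⟩ := hv
    exact ⟨u, fun j => by rw [← h2 j]; exact le_sz (g v) j, h2, h3⟩
  · constructor
    · rintro ⟨u, h2, h3⟩
      rwa [show g v = u from funext h2]
    · intro h
      exact ⟨g v, fun _ => rfl, h⟩

namespace Rep

theorem of_eq {f g : (ι → ℕ) → ℕ} (h : Rep f) (e : ∀ v, f v = g v) : Rep g := by
  have : f = g := funext e
  exact this ▸ h

theorem var (a : ι) : Rep (fun v : ι → ℕ => v a) := ⟨SP.of_exact (BA.eq (some a) none), TB.var a⟩

theorem comp {f : (κ → ℕ) → ℕ} (hf : Rep f) {g : (ι → ℕ) → κ → ℕ}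
    (hg : ∀ b, Rep (fun v => g v b)) : Rep (fun v => f (g v)) := by
  refine ⟨SP.app hf.1 (g := fun (w : Option ι → ℕ) (o : Option κ) =>
    o.elim (w none) (g (fun a => w (some a)))) ?_, hf.2.comp (fun b => (hg b).2)⟩
  rintro (_ | b)
  · exact var none
  · refine ⟨SP.comp (fun o : Option ι => (o.elim none (fun a => some (some a)))) (hg b).1, ?_⟩
    exact (hg b).2.comp (g := fun (w : Option ι → ℕ) a => w (some a)) (fun a => TB.var _)

theorem ren {f : (ι → ℕ) → ℕ} (hf : Rep f) (r : ι → κ) :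
    Rep (fun v : κ → ℕ => f (fun a => v (r a))) := hf.comp (fun a => var (r a))

theorem op1 {op : ℕ → ℕ} (h : Rep (fun v : Fin 1 → ℕ => op (v 0))) {f : (ι → ℕ) → ℕ}
    (hf : Rep f) : Rep (fun v => op (f v)) :=
  h.comp (g := fun v => ![f v]) (fun b => by fin_cases b; assumption)

theorem op2 {op : ℕ → ℕ → ℕ} (h : Rep (fun v : Fin 2 → ℕ => op (v 0) (v 1)))
    {f g : (ι → ℕ) → ℕ} (hf : Rep f) (hg : Rep g) : Rep (fun v => op (f v) (g v)) :=
  h.comp (g := fun v => ![f v, g v]) (fun b => by fin_cases b <;> assumption)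

theorem add {f g : (ι → ℕ) → ℕ} (hf : Rep f) (hg : Rep g) : Rep (fun v => f v + g v) :=
  op2 (op := fun a b => a + b) ⟨SP.addVar (some 0) (some 1) none, (TB.var 0).add (TB.var 1)⟩ hf hg

theorem mul {f g : (ι → ℕ) → ℕ} (hf : Rep f) (hg : Rep g) : Rep (fun v => f v * g v) :=
  op2 (op := fun a b => a * b)
    ⟨SP.of_exact (BA.mul (some 0) (some 1) none), (TB.var 0).mul (TB.var 1)⟩ hf hg

theorem const (c : ℕ) : Rep (fun _ : ι → ℕ => c) := by
  induction c with
  | zero => exact ⟨SP.of_exact ((BA.zero none).congr (fun _ _ => eq_comm)), TB.const 0⟩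
  | succ c ih =>
    exact ih.add ⟨SP.of_exact ((BA.one none).congr (fun _ _ => eq_comm)), TB.const 1⟩

theorem succ {f : (ι → ℕ) → ℕ} (hf : Rep f) : Rep (fun v => f v + 1) := hf.add (const 1)

end Rep

namespace SP

theorem eq {f g : (ι → ℕ) → ℕ} (hf : Rep f) (hg : Rep g) : SP (fun v => f v = g v) :=
  SP.app (P := fun v : Fin 2 → ℕ => v 0 = v 1) (of_exact (BA.eq 0 1)) (g := fun v => ![f v, g v])
    (fun b => by fin_cases b <;> assumption)

theorem le {f g : (ι → ℕ) → ℕ} (hf : Rep f) (hg : Rep g) : SP (fun v => f v ≤ g v) := by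
  refine (ex (Q := fun v c => f v + c = g v) (eq ((hf.ren some).add (Rep.var none)) (hg.ren some))
    hg.2 (fun v ⟨c, hc⟩ => ⟨c, by omega, hc⟩)).congr (fun v => ?_)
  exact ⟨fun ⟨c, hc⟩ => by omega, fun h => ⟨g v - f v, by omega⟩⟩

theorem lt {f g : (ι → ℕ) → ℕ} (hf : Rep f) (hg : Rep g) : SP (fun v => f v < g v) :=
  le hf.succ hg

end SP

namespace Rep

theorem sub {f g : (ι → ℕ) → ℕ} (hf : Rep f) (hg : Rep g) : Rep (fun v => f v - g v) := by
  refine op2 (op := fun a b => a - b) ⟨?_, (TB.var 0).of_le fun v => Nat.sub_le _ _⟩ hf hg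
  refine (SP.or (SP.eq ((var (some 1)).add (var none)) (var (some 0)))
    (SP.and (SP.lt (var (some 0)) (var (some 1))) (SP.eq (var none) (const 0)))).congr
    (fun w => ?_)
  show _ ↔ w (some 0) - w (some 1) = w none
  omega

theorem min {f g : (ι → ℕ) → ℕ} (hf : Rep f) (hg : Rep g) : Rep (fun v => min (f v) (g v)) :=
  (hf.sub (hf.sub hg)).of_eq (fun v => by omega)

theorem pair {f g : (ι → ℕ) → ℕ} (hf : Rep f) (hg : Rep g) :
    Rep (fun v => Nat.pair (f v) (g v)) := by
  refine op2 (op := Nat.pair) ⟨?_, ?_⟩ hf hg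
  · refine (SP.or (SP.and (SP.lt (var (some 0)) (var (some 1)))
      (SP.eq (((var (some 1)).mul (var (some 1))).add (var (some 0))) (var none)))
      (SP.and (SP.le (var (some 1)) (var (some 0)))
      (SP.eq ((((var (some 0)).mul (var (some 0))).add (var (some 0))).add (var (some 1)))
        (var none)))).congr (fun w => ?_)
    unfold Nat.pair
    by_cases hv : w (some 0) < w (some 1)
    · simp [hv]
    · simp [hv, not_lt.mp hv]
  · refine ((((TB.var 0).add (TB.var 1)).add (TB.const 1)).pow (TB.const 2)).of_le fun v => ?_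
    refine (Nat.pair_lt_max_add_one_sq _ _).le.trans (Nat.pow_le_pow_left ?_ 2)
    omega

theorem left {f : (ι → ℕ) → ℕ} (hf : Rep f) : Rep (fun v => (f v).unpair.1) := by
  refine op1 (op := fun n => n.unpair.1) ⟨?_, (TB.var 0).of_le fun v => Nat.unpair_left_le _⟩ hf
  refine (SP.ex (Q := fun (w : Option (Fin 1) → ℕ) b => Nat.pair (w none) b = w (some 0))
    (SP.eq ((var _).pair (var _)) (var _)) (TB.var (some 0))
    (fun w ⟨b, hb⟩ => ⟨b, hb ▸ Nat.right_le_pair _ _, hb⟩)).congr (fun w => ?_)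
  constructor
  · rintro ⟨b, hb⟩
    simp [← hb]
  · intro hv
    exact ⟨(w (some 0)).unpair.2, by rw [← hv, Nat.pair_unpair]⟩

theorem right {f : (ι → ℕ) → ℕ} (hf : Rep f) : Rep (fun v => (f v).unpair.2) := by
  refine op1 (op := fun n => n.unpair.2) ⟨?_, (TB.var 0).of_le fun v => Nat.unpair_right_le _⟩ hf
  refine (SP.ex (Q := fun (w : Option (Fin 1) → ℕ) b => Nat.pair b (w none) = w (some 0))
    (SP.eq ((var _).pair (var _)) (var _)) (TB.var (some 0))
    (fun w ⟨b, hb⟩ => ⟨b, hb ▸ Nat.left_le_pair _ _, hb⟩)).congr (fun w => ?_)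
  constructor
  · rintro ⟨b, hb⟩
    simp [← hb]
  · intro hv
    exact ⟨(w (some 0)).unpair.1, by rw [← hv, Nat.pair_unpair]⟩

theorem mod {f g : (ι → ℕ) → ℕ} (hf : Rep f) (hg : Rep g) : Rep (fun v => f v % (g v + 1)) := by
  refine op2 (op := fun a m => a % (m + 1)) ⟨?_, (TB.var 0).of_le fun v => Nat.mod_le _ _⟩ hf hg
  refine (SP.and (SP.lt (var none) (var (some 1)).succ)
    (SP.ex (Q := fun (w : Option (Fin 2) → ℕ) q => w (some 0) = (w (some 1) + 1) * q + w none)
      (SP.eq (var _) (((var _).succ.mul (var _)).add (var _))) (TB.var (some 0))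
      (fun w ⟨q, hq⟩ => ⟨q, by nlinarith, hq⟩))).congr (fun w => ?_)
  show _ ↔ w (some 0) % (w (some 1) + 1) = w none
  constructor
  · rintro ⟨h1, q, hq⟩
    rw [hq, Nat.mul_add_mod, Nat.mod_eq_of_lt h1]
  · intro hv
    exact ⟨hv ▸ Nat.mod_lt _ (by omega), w (some 0) / (w (some 1) + 1),
      by rw [← hv, Nat.div_add_mod]⟩

theorem beta {f g : (ι → ℕ) → ℕ} (hf : Rep f) (hg : Rep g) :
    Rep (fun v => Nat.beta (f v) (g v)) := hf.left.mod (hg.succ.mul hf.right)

theorem rec' {F : ℕ → (ι → ℕ) → ℕ} {g : (ι → ℕ) → ℕ} {h : ℕ → ℕ → (ι → ℕ) → ℕ} (hg : Rep g)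
    (hh : Rep (fun w : Option (Option ι) → ℕ =>
      h (w none) (w (some none)) (fun a => w (some (some a)))))
    (h0 : ∀ v, F 0 v = g v) (hs : ∀ y v, F (y + 1) v = h y (F y v) v)
    (hb : TB (fun w : Option ι → ℕ => F (w none) (fun a => w (some a)))) :
    Rep (fun w : Option ι → ℕ => F (w none) (fun a => w (some a))) := by
  refine ⟨?_, hb⟩
  obtain ⟨k, hk⟩ := hb
  have key : ∀ (c n : ℕ) (v : ι → ℕ), Nat.beta c 0 = g v →
      (∀ i, i < n → Nat.beta c (i + 1) = h i (Nat.beta c i) v) → Nat.beta c n = F n v := by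
    intro c n v h1 h2
    induction n with
    | zero => rw [h1, h0]
    | succ n ih => rw [h2 n (by omega), hs, ih (fun i hi => h2 i (by omega))]
  have hM : TB (fun w : Option (Option ι) → ℕ => tw k (sz w)) := TB.size.tower k
  have hn : TB (fun w : Option (Option ι) → ℕ => w (some none)) := TB.var _
  have h1 := TB.const (ι := Option (Option ι)) 1
  have hA := ((hn.add hM).add h1).pow ((hn.add hM).add h1)
  refine (SP.ex (Q := fun (w : Option (Option ι) → ℕ) c =>
    Nat.beta c 0 = g (fun a => w (some (some a))) ∧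
    (∀ i, i < w (some none) → Nat.beta c (i + 1) =
      h i (Nat.beta c i) (fun a => w (some (some a)))) ∧ Nat.beta c (w (some none)) = w none)
    (SP.and (SP.eq ((var _).beta (const 0)) (hg.ren (fun a => some (some (some a)))))
      (SP.and (SP.all_lt (Q := fun (w : Option (Option (Option ι)) → ℕ) i =>
        Nat.beta (w none) (i + 1) = h i (Nat.beta (w none) i) (fun a => w (some (some (some a)))))
        (SP.eq ((var _).beta (var _).succ) (hh.comp (g := fun w o => o.elim (w none)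
          (fun o' => o'.elim (Nat.beta (w (some none)) (w none))
            (fun a => w (some (some (some (some a))))))) ?_)) (some (some none)))
        (SP.eq ((var _).beta (var _)) (var _))))
    ((((((hn.add h1).mul hA).add h1).pow (hn.add h1)).add hA).add h1 |>.pow (TB.const 2))
    (fun w hw => ?_)).congr (fun w => ?_)
  · rintro (_ | _ | a)
    · exact var _
    · exact (var _).beta (var _)
    · exact var _
  · obtain ⟨c, h2, h3, h4⟩ := hw
    obtain ⟨c', h5, h6⟩ := exists_beta_le (fun i => F i (fun a => w (some (some a))))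
      (w (some none)) (tw k (sz w)) (fun i hi => by
        refine (hk (fun o => o.elim i (fun a => w (some (some a))))).trans (tw_mono_right k ?_)
        rw [sz_option, sz_option w, sz_option]
        simp only [Option.elim_none, Option.elim_some]
        omega)
    refine ⟨c', h5, by rw [h6 0 (by omega), h0], fun i hi => ?_, ?_⟩
    · rw [h6 i (by omega), h6 (i + 1) (by omega), hs]
    · rw [h6 _ le_rfl, ← h4, key c _ _ h2 h3]
  · constructor
    · rintro ⟨c, h2, h3, h4⟩
      rw [← h4, key c _ _ h2 h3]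
    · intro h2
      obtain ⟨c', -, h6⟩ := exists_beta_le (fun i => F i (fun a => w (some (some a))))
        (w (some none)) (tw k (sz w)) (fun i hi => by
          refine (hk (fun o => o.elim i (fun a => w (some (some a))))).trans (tw_mono_right k ?_)
          rw [sz_option, sz_option w, sz_option]
          simp only [Option.elim_none, Option.elim_some]
          omega)
      refine ⟨c', by rw [h6 0 (by omega), h0], fun i hi => ?_, ?_⟩
      · rw [h6 i (by omega), h6 (i + 1) (by omega), hs]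
      · rw [h6 _ le_rfl, ← h2]

end Rep

end Pool.Agent.Work.MP_db9079_lc.NE
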