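import Pool.Agent.Work.MP_db9079_lc.NEForm

/-!
A calculus for families of definable predicates and functions.
-/

namespace Pool.Agent.Work.MP_db9079_lc.NE

open FirstOrder FirstOrder.Language

universe u v

variable {L : FirstOrder.Language.{u, v}} [Encodable (Σ i, L.Functions i)]
  [Encodable (Σ i, L.Relations i)] {K : Type} [L.Structure K] {α β : Type}

/-- Indices of families. -/
abbrev J (K : Type) : Type := ℕ × ℕ × (ℕ → K)

variable (L) in
/-- Families of definable functions. -/
def FF (f : J K → (α → K) → K) : Prop :=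
  FD L (fun j (v : Option α → K) => f j (fun a => v (some a)) = v none)

namespace FD

theorem not {P : J K → (α → K) → Prop} (hP : FD L P) : FD L (fun j v => ¬ P j v) := imp hP fls

theorem and {P Q : J K → (α → K) → Prop} (hP : FD L P) (hQ : FD L Q) :
    FD L (fun j v => P j v ∧ Q j v) := (not (imp hP (not hQ))).congr (fun _ _ => by tauto)

theorem or {P Q : J K → (α → K) → Prop} (hP : FD L P) (hQ : FD L Q) :
    FD L (fun j v => P j v ∨ Q j v) := (imp (not hP) hQ).congr (fun _ _ => by tauto)

theorem iff {P Q : J K → (α → K) → Prop} (hP : FD L P) (hQ : FD L Q) :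
    FD L (fun j v => P j v ↔ Q j v) := (and (imp hP hQ) (imp hQ hP)).congr (fun _ _ => by tauto)

theorem tru : FD L (fun _ (_ : α → K) => True) := (not fls).congr (by simp)

theorem allF [Finite β] {Q : J K → (α → K) → (β → K) → Prop}
    (h : FD L (fun j (w : α ⊕ β → K) => Q j (fun a => w (Sum.inl a)) (fun b => w (Sum.inr b)))) :
    FD L (fun j v => ∀ u, Q j v u) := by
  obtain ⟨M, ⟨e⟩⟩ := Finite.exists_equiv_fin β
  refine (alls (comp (Sum.map id e) h)).congr (fun j v => ?_)
  constructor
  · intro H u
    simpa using H (fun i => u (e.symm i))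
  · intro H u
    exact H _

theorem exF [Finite β] {Q : J K → (α → K) → (β → K) → Prop}
    (h : FD L (fun j (w : α ⊕ β → K) => Q j (fun a => w (Sum.inl a)) (fun b => w (Sum.inr b)))) :
    FD L (fun j v => ∃ u, Q j v u) :=
  (not (allF (Q := fun j v u => ¬ Q j v u) (not h))).congr (fun _ _ => by simp)

theorem all {Q : J K → (α → K) → K → Prop}
    (h : FD L (fun j (w : Option α → K) => Q j (fun a => w (some a)) (w none))) :
    FD L (fun j v => ∀ x, Q j v x) := by
  have h1 := comp (fun o : Option α => (o.elim (Sum.inr ()) Sum.inl : α ⊕ Unit)) h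
  refine (allF (β := Unit) (Q := fun j v u => Q j v (u ())) h1).congr (fun j v => ?_)
  exact ⟨fun H x => H (fun _ => x), fun H u => H _⟩

theorem ex {Q : J K → (α → K) → K → Prop}
    (h : FD L (fun j (w : Option α → K) => Q j (fun a => w (some a)) (w none))) :
    FD L (fun j v => ∃ x, Q j v x) :=
  (not (all (Q := fun j v u => ¬ Q j v u) (not h))).congr (fun _ _ => by simp)

theorem eqVar (a b : α) : FD L (fun _ (v : α → K) => v a = v b) :=
  comp (fun k : Fin 2 => ![a, b] k) (base (Set.Definable.diagonal L ∅))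

theorem forall_fin {ι : Type} [Finite ι] {P : ι → J K → (α → K) → Prop} (h : ∀ i, FD L (P i)) :
    FD L (fun j v => ∀ i, P i j v) := by
  classical
  have := Fintype.ofFinite ι
  have key : ∀ s : Finset ι, FD L (fun j v => ∀ i ∈ s, P i j v) := by
    intro s
    induction s using Finset.induction_on with
    | empty => exact congr tru (by simp)
    | insert a s _ ih => exact congr (and (h a) ih) (by simp)
  exact congr (key Finset.univ) (by simp)

theorem app [Finite β] {R : J K → (β → K) → Prop} (hR : FD L R) {g : J K → (α → K) → β → K}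
    (hg : ∀ b, FF L (fun j v => g j v b)) : FD L (fun j v => R j (g j v)) := by
  have h1 : FD L (fun j (w : α ⊕ β → K) =>
      (∀ b, g j (fun a => w (Sum.inl a)) b = w (Sum.inr b)) ∧ R j (fun b => w (Sum.inr b))) := by
    refine and (forall_fin fun b => ?_) (comp Sum.inr hR)
    exact comp (fun o : Option α => (o.elim (Sum.inr b) Sum.inl : α ⊕ β)) (hg b)
  refine (exF (Q := fun j v u => (∀ b, g j v b = u b) ∧ R j u) h1).congr (fun j v => ?_)
  constructor
  · rintro ⟨u, h2, h3⟩
    rwa [show g j v = u from funext h2]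
  · intro h
    exact ⟨g j v, fun _ => rfl, h⟩

theorem app1 {R : J K → K → Prop} (hR : FD L (fun j (v : Fin 1 → K) => R j (v 0)))
    {f : J K → (α → K) → K} (hf : FF L f) : FD L (fun j v => R j (f j v)) :=
  app hR (g := fun j v => ![f j v]) (fun b => by fin_cases b; assumption)

theorem app2 {R : J K → K → K → Prop} (hR : FD L (fun j (v : Fin 2 → K) => R j (v 0) (v 1)))
    {f g : J K → (α → K) → K} (hf : FF L f) (hg : FF L g) :
    FD L (fun j v => R j (f j v) (g j v)) :=
  app hR (g := fun j v => ![f j v, g j v]) (fun b => by fin_cases b <;> assumption)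

theorem app3 {R : J K → K → K → K → Prop}
    (hR : FD L (fun j (v : Fin 3 → K) => R j (v 0) (v 1) (v 2)))
    {f g h : J K → (α → K) → K} (hf : FF L f) (hg : FF L g) (hh : FF L h) :
    FD L (fun j v => R j (f j v) (g j v) (h j v)) :=
  app hR (g := fun j v => ![f j v, g j v, h j v]) (fun b => by fin_cases b <;> assumption)

theorem eq {f g : J K → (α → K) → K} (hf : FF L f) (hg : FF L g) :
    FD L (fun j v => f j v = g j v) := app2 (R := fun _ a b => a = b) (eqVar 0 1) hf hg

theorem recur' {M M' : ℕ} {X X0 : J K → (Fin M → K) → Prop}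
    {A : J K → ((Fin M ⊕ Fin M') ⊕ Fin M → K) → Prop} {C : J K → (Fin M ⊕ Fin M' → K) → Prop}
    (h0 : FD L X0) (hA : FD L A) (hC : FD L C)
    (e0 : ∀ n a y, X (n, 0, a) y ↔ X0 (n, 0, a) y)
    (es : ∀ n i a y, X (n, i + 1, a) y ↔ ∀ z, (∀ w, X (n, i, a) w →
      A (n, i, a) (Sum.elim (Sum.elim y z) w)) → C (n, i, a) (Sum.elim y z)) : FD L X :=
  FD.recur (forall_fin fun b => eqVar (Sum.inr b) (Sum.inl b)) h0 hA hC e0 es

end FD

namespace FF

theorem var (a : α) : FF L (fun _ (v : α → K) => v a) := FD.eqVar (some a) none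

theorem ren {f : J K → (α → K) → K} (h : FF L f) (g : α → β) :
    FF L (fun j (v : β → K) => f j (fun a => v (g a))) := FD.comp (Option.map g) h

theorem param : FF L (fun j (_ : α → K) => j.2.2 j.2.1) :=
  FD.param (FD.eqVar (none : Option (Option α)) (some none))

theorem op2 {op : K → K → K} (hop : FD L (fun _ (v : Fin 3 → K) => op (v 0) (v 1) = v 2))
    {f g : J K → (α → K) → K} (hf : FF L f) (hg : FF L g) :
    FF L (fun j v => op (f j v) (g j v)) :=
  FD.app3 (R := fun _ a b c => op a b = c) hop (hf.ren some) (hg.ren some) (var none)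

theorem const {c : K} (h : FD L (fun _ (v : Fin 1 → K) => c = v 0)) :
    FF L (fun _ (_ : α → K) => c) := FD.app1 (R := fun _ a => c = a) h (var none)

end FF

end Pool.Agent.Work.MP_db9079_lc.NE
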