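import Mathlib.Algebra.BigOperators.Group.Finset.Basic
import Mathlib.Data.Fin.Basic

/-!
Kalmar elementary functions.
-/

namespace Pool.Agent.Work.MP_db9079_lc

/-- The Kalmar elementary functions: the least class of functions on tuples of natural numbers
that contains zero, successor, projections, addition, multiplication and truncated subtraction,
and is closed under composition, bounded sums and bounded products. -/
inductive Elementary : {n : ℕ} → ((Fin n → ℕ) → ℕ) → Prop
  | zero {n : ℕ} : Elementary (fun _ : Fin n → ℕ => 0)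
  | succ : Elementary (fun v : Fin 1 → ℕ => v 0 + 1)
  | proj {n : ℕ} (i : Fin n) : Elementary (fun v : Fin n → ℕ => v i)
  | add : Elementary (fun v : Fin 2 → ℕ => v 0 + v 1)
  | mul : Elementary (fun v : Fin 2 → ℕ => v 0 * v 1)
  | sub : Elementary (fun v : Fin 2 → ℕ => v 0 - v 1)
  | comp {m n : ℕ} {f : (Fin m → ℕ) → ℕ} {g : Fin m → (Fin n → ℕ) → ℕ} :
      Elementary f → (∀ i, Elementary (g i)) → Elementary (fun v => f (fun i => g i v))
  | bsum {n : ℕ} {f : (Fin (n + 1) → ℕ) → ℕ} : Elementary f →
      Elementary (fun v : Fin (n + 1) → ℕ => ∑ i ∈ Finset.range (v 0), f (Function.update v 0 i))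
  | bprod {n : ℕ} {f : (Fin (n + 1) → ℕ) → ℕ} : Elementary f →
      Elementary (fun v : Fin (n + 1) → ℕ => ∏ i ∈ Finset.range (v 0), f (Function.update v 0 i))

end Pool.Agent.Work.MP_db9079_lc
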