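import Pool.Agent.Work.MP_db9079_lc.NECalc
import Pool.Agent.Work.MP_db9079_lc.Main
import Mathlib.LinearAlgebra.Dual.Lemmas

/-!
Iterated spans give finite definable sets whose size is a tower of exponentials.
-/

namespace Pool.Agent.Work.MP_db9079_lc.NE

open FirstOrder FirstOrder.Language

universe u v

theorem finite_biann {K F : Type} [Field K] [Field F] [Finite F] [Algebra F K]
    (l : K →ₗ[F] F) (hl : l 1 ≠ 0) {E : Set K} (hE : E.Finite) :
    {y : K | ∀ z, (∀ e ∈ E, l (z * e) = 0) → l (z * y) = 0}.Finite := by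
  have := hE.fintype
  refine (Set.finite_range (fun c : E → F => ∑ e : E, c e • (e : K))).subset fun y hy => ?_
  have h1 : l ∘ₗ LinearMap.mulRight F y ∈
      Submodule.span F (Set.range fun e : E => l ∘ₗ LinearMap.mulRight F (e : K)) := by
    apply mem_span_of_iInf_ker_le_ker
    intro z hz
    simp only [Submodule.mem_iInf, LinearMap.mem_ker] at hz ⊢
    exact hy z (fun e he => hz ⟨e, he⟩)
  obtain ⟨c, hc⟩ := (Submodule.mem_span_range_iff_exists_fun F).mp h1
  refine ⟨c, ?_⟩
  by_contra hne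
  have hg : y - ∑ e : E, c e • (e : K) ≠ 0 := sub_ne_zero.mpr (Ne.symm hne)
  apply hl
  have h2 := LinearMap.congr_fun hc (y - ∑ e : E, c e • (e : K))⁻¹
  rw [← inv_mul_cancel₀ hg, mul_sub, map_sub, Finset.mul_sum, map_sum]
  simp only [LinearMap.coe_sum, Finset.sum_apply, LinearMap.smul_apply, LinearMap.comp_apply,
    LinearMap.mulRight_apply] at h2
  rw [← h2, sub_eq_zero]
  refine Finset.sum_congr rfl fun e _ => ?_
  rw [mul_smul_comm, map_smul]

theorem exists_sum_inj {K : Type} [Field K] [Infinite K] (W : Finset K) :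
    ∃ a : K, a ∉ W ∧ Set.InjOn (fun T : Finset K => ∑ d ∈ T, (a - d)⁻¹) W.powerset := by
  classical
  let κ : Finset K × Finset K → K → K := fun x z =>
    (if z ∈ x.1 then 1 else 0) - (if z ∈ x.2 then 1 else 0)
  have hfin : ((W : Set K) ∪ ⋃ x ∈ {x : Finset K × Finset K |
      x ∈ W.powerset ×ˢ W.powerset ∧ x.1 ≠ x.2},
      {a : K | a ∉ W ∧ ∑ z ∈ W, κ x z * (a - z)⁻¹ = 0}).Finite := by
    refine W.finite_toSet.union (Set.Finite.biUnion
      ((W.powerset ×ˢ W.powerset).finite_toSet.subset fun x hx => hx.1) fun x hx => ?_)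
    apply finite_bad
    obtain ⟨h1, h2⟩ := hx
    rw [Finset.mem_product, Finset.mem_powerset, Finset.mem_powerset] at h1
    by_contra hno
    push Not at hno
    apply h2
    ext z
    constructor
    · intro hz
      by_contra hz'
      simpa [κ, hz, hz'] using hno z (h1.1 hz)
    · intro hz
      by_contra hz'
      simpa [κ, hz, hz'] using hno z (h1.2 hz)
  obtain ⟨a, ha⟩ := hfin.exists_notMem
  have haW : a ∉ W := fun h => ha (Or.inl h)
  refine ⟨a, haW, fun T hT T' hT' h => ?_⟩
  by_contra hne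
  apply ha
  refine Or.inr (Set.mem_biUnion (x := (T, T')) ⟨Finset.mem_product.mpr ⟨hT, hT'⟩, hne⟩
    ⟨haW, ?_⟩)
  have h1 : W ∩ T = T := Finset.inter_eq_right.mpr (Finset.mem_powerset.mp hT)
  have h2 : W ∩ T' = T' := Finset.inter_eq_right.mpr (Finset.mem_powerset.mp hT')
  simp only [κ, sub_mul, ite_mul, one_mul, zero_mul, Finset.sum_sub_distrib, Finset.sum_ite_mem,
    h1, h2]
  exact sub_eq_zero.mpr h

variable {p : ℕ} [hp : Fact p.Prime]

/-- One step: the span of the inverses of the differences. -/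
def step (a : LaurentSeries (ZMod p)) (D : Set (LaurentSeries (ZMod p))) :
    Set (LaurentSeries (ZMod p)) :=
  {y | ∀ t z, (∀ d, d ∈ D → ∀ e, e * a = 1 + e * d → Hs t (z * e)) → Hs t (z * y)}

theorem step_finite (a : LaurentSeries (ZMod p)) {D : Set (LaurentSeries (ZMod p))}
    (hD : D.Finite) : (step a D).Finite := by
  refine (finite_biann (F := ZMod p) (K := LaurentSeries (ZMod p))
    (@LinearMap.mk _ _ _ _ (RingHom.id _) _ _ _ _ Algebra.toModule _
      ⟨fun w => w.coeff 0, fun _ _ => rfl⟩ (fun c w => by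
        rw [Algebra.smul_def, show algebraMap (ZMod p) (LaurentSeries (ZMod p)) = HahnSeries.C from
          Subsingleton.elim _ _]
        simp)) (by simp) (hD.image (fun d => (a - d)⁻¹))).subset fun y hy z hz => ?_
  refine (hs_iff _).mp (hy _ z fun d hd e he => (hs_iff _).mpr (hz e ⟨d, hd, ?_⟩))
  exact (eq_inv_of_mul_eq_one_left (by linear_combination he)).symm

theorem hs_zero (t : LaurentSeries (ZMod p)) : Hs t 0 :=
  ⟨0, 0, fun _ => 0, ge_zero _, by simp [zero_pow hp.out.ne_zero]⟩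

theorem exists_step_big {D : Set (LaurentSeries (ZMod p))} (hD : D.Finite) :
    ∃ a, 2 ^ D.ncard ≤ (step a D).ncard := by
  classical
  have := infinite_laurent (p := p)
  obtain ⟨a, ha, hinj⟩ := exists_sum_inj hD.toFinset
  refine ⟨a, ?_⟩
  have h1 : (↑hD.toFinset.powerset : Set (Finset (LaurentSeries (ZMod p)))).ncard =
      2 ^ D.ncard := by
    rw [Set.ncard_coe_finset, Finset.card_powerset, Set.ncard_eq_toFinset_card D hD]
  rw [← h1]
  refine Set.ncard_le_ncard_of_injOn _ (fun T hT => ?_) hinj (step_finite a hD)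
  have hT' := Finset.mem_powerset.mp hT
  intro t z H
  rw [Finset.mul_sum]
  refine Finset.sum_induction _ (Hs t) (fun _ _ => Hs.add) (hs_zero t) (fun d hd => ?_)
  have hd' := hT' hd
  have hne : a - d ≠ 0 := sub_ne_zero.mpr fun h => ha (h ▸ hd')
  refine H d (hD.mem_toFinset.mp hd') _ ?_
  have := inv_mul_cancel₀ hne
  linear_combination this

/-- The iterated spans. -/
def tset (a : ℕ → LaurentSeries (ZMod p)) : ℕ → Set (LaurentSeries (ZMod p))
  | 0 => {0}
  | i + 1 => step (a i) (tset a i)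

theorem tset_finite (a : ℕ → LaurentSeries (ZMod p)) : ∀ i, (tset a i).Finite
  | 0 => Set.finite_singleton 0
  | i + 1 => step_finite _ (tset_finite a i)

theorem tset_congr {a a' : ℕ → LaurentSeries (ZMod p)} :
    ∀ i, (∀ j, j < i → a j = a' j) → tset a i = tset a' i
  | 0, _ => rfl
  | i + 1, h => by rw [tset, tset, h i (by omega), tset_congr i (fun j hj => h j (by omega))]

theorem exists_tset_big : ∀ i, ∃ a : ℕ → LaurentSeries (ZMod p), tw i 0 ≤ (tset a i).ncard
  | 0 => ⟨0, Nat.zero_le _⟩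
  | i + 1 => by
    obtain ⟨a, ha⟩ := exists_tset_big i
    obtain ⟨c, hc⟩ := exists_step_big (tset_finite a i)
    refine ⟨Function.update a i c, ?_⟩
    rw [tset, Function.update_self,
      tset_congr (a' := a) i (fun j hj => Function.update_of_ne hj.ne _ _)]
    exact (Nat.pow_le_pow_right (by norm_num) ha).trans hc

/-- The subset coded by a tuple. -/
def sset (n : ℕ) (a : ℕ → LaurentSeries (ZMod p)) (u : Fin 5 → LaurentSeries (ZMod p)) :
    Set (LaurentSeries (ZMod p)) := {d | d ∈ tset a n ∧ Rel u d d d}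

/-- The number coded by a tuple. -/
noncomputable def num (n : ℕ) (a : ℕ → LaurentSeries (ZMod p))
    (u : Fin 5 → LaurentSeries (ZMod p)) : ℕ := (sset n a u).ncard

theorem sset_finite (n : ℕ) (a : ℕ → LaurentSeries (ZMod p))
    (u : Fin 5 → LaurentSeries (ZMod p)) : (sset n a u).Finite :=
  (tset_finite a n).subset fun _ h => h.1

theorem num_le (n : ℕ) (a : ℕ → LaurentSeries (ZMod p)) (u : Fin 5 → LaurentSeries (ZMod p)) :
    num n a u ≤ (tset a n).ncard := Set.ncard_le_ncard (fun _ h => h.1) (tset_finite a n)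

theorem exists_sset (n : ℕ) (a : ℕ → LaurentSeries (ZMod p)) {T : Set (LaurentSeries (ZMod p))}
    (hT : T ⊆ tset a n) : ∃ u, sset n a u = T := by
  obtain ⟨z, hz⟩ := rel_code (tset a n) (tset_finite a n) (fun d _ _ => d ∈ T)
  refine ⟨z, ?_⟩
  ext d
  constructor
  · rintro ⟨h1, h2⟩
    exact (hz d h1 d h1 d h1).mp h2
  · intro h
    exact ⟨hT h, (hz d (hT h) d (hT h) d (hT h)).mpr h⟩

theorem exists_num (n : ℕ) (a : ℕ → LaurentSeries (ZMod p)) {m : ℕ} (hm : m ≤ (tset a n).ncard) :
    ∃ u, num n a u = m := by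
  obtain ⟨T, hT, hn⟩ := Set.exists_subset_card_eq hm
  obtain ⟨u, hu⟩ := exists_sset n a hT
  exact ⟨u, by rw [num, hu, hn]⟩

theorem card_iff {A B C : Set (LaurentSeries (ZMod p))} (hA : A.Finite) (hB : B.Finite)
    (hC : C.Finite) : (∃ z, BijRel (Rel z) A B C) ↔ A.ncard * B.ncard = C.ncard := by
  constructor
  · rintro ⟨z, hz⟩
    exact hz.card
  · intro h
    obtain ⟨T, hT⟩ := exists_bijRel hA hB hC h
    obtain ⟨z, hz⟩ := rel_code (A ∪ B ∪ C) ((hA.union hB).union hC) T
    exact ⟨z, hT.of_iff fun d hd e he f hf =>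
      hz d (Or.inl (Or.inl hd)) e (Or.inl (Or.inr he)) f (Or.inr hf)⟩

theorem atom_iff (n : ℕ) (a : ℕ → LaurentSeries (ZMod p))
    (x y z w : Fin 5 → LaurentSeries (ZMod p)) :
    (∃ u, (∀ d, d ∈ sset n a u → d ∈ sset n a w) ∧
      (∃ c, BijRel (Rel c) (sset n a x) (sset n a y) (sset n a u)) ∧
      ∃ c, BijRel (Rel c) (sset n a z) {d | d = 0} {d | d ∈ sset n a w ∧ ¬ d ∈ sset n a u}) ↔
    num n a x * num n a y + num n a z = num n a w := by
  have key : ∀ u, (∃ c, BijRel (Rel c) (sset n a z) {d | d = 0}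
      {d | d ∈ sset n a w ∧ ¬ d ∈ sset n a u}) ↔ num n a z = (sset n a w \ sset n a u).ncard := by
    intro u
    refine (card_iff (sset_finite n a z) (Set.finite_singleton 0)
      ((sset_finite n a w).subset fun _ h => h.1)).trans ?_
    rw [Set.ncard_singleton, mul_one]
    rfl
  simp only [key, card_iff (sset_finite n a x) (sset_finite n a y) (sset_finite n a _)]
  constructor
  · rintro ⟨u, h1, h2, h3⟩
    have := Set.ncard_sdiff_add_ncard_of_subset (show sset n a u ⊆ sset n a w from h1)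
      (sset_finite n a w)
    unfold num at *
    omega
  · intro h
    obtain ⟨T, hT, hn⟩ := Set.exists_subset_card_eq (s := sset n a w)
      (n := num n a x * num n a y) (by change _ ≤ num n a w; omega)
    obtain ⟨u, hu⟩ := exists_sset n a (T := T) (fun d hd => (hT hd).1)
    have := Set.ncard_sdiff_add_ncard_of_subset hT (sset_finite n a w)
    refine ⟨u, by rw [hu]; exact hT, by rw [hu, hn]; rfl, ?_⟩
    rw [hu]
    unfold num at *
    omega

section Def

variable (L : FirstOrder.Language.{u, v}) [Encodable (Σ i, L.Functions i)]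
  [Encodable (Σ i, L.Relations i)] [L.Structure (LaurentSeries (ZMod p))] {α : Type}

variable (p) in
/-- The valued field structure is definable. -/
structure HV : Prop where
  add : FD L (fun _ (v : Fin 3 → LaurentSeries (ZMod p)) => v 0 + v 1 = v 2)
  mul : FD L (fun _ (v : Fin 3 → LaurentSeries (ZMod p)) => v 0 * v 1 = v 2)
  val : FD L (fun _ (v : Fin 1 → LaurentSeries (ZMod p)) => Ge 0 (v 0))

namespace HV

variable {L} {f g : J (LaurentSeries (ZMod p)) → (α → LaurentSeries (ZMod p)) →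
  LaurentSeries (ZMod p)}

theorem fadd (h : HV p L) (hf : FF L f) (hg : FF L g) : FF L (fun j v => f j v + g j v) :=
  FF.op2 h.add hf hg

theorem fmul (h : HV p L) (hf : FF L f) (hg : FF L g) : FF L (fun j v => f j v * g j v) :=
  FF.op2 h.mul hf hg

theorem dval (h : HV p L) (hf : FF L f) : FD L (fun j v => Ge 0 (f j v)) :=
  FD.app1 (R := fun _ x => Ge 0 x) h.val hf

theorem fzero (h : HV p L) : FF L (fun _ (_ : α → LaurentSeries (ZMod p)) => 0) :=
  FF.const ((FD.eq (h.fadd (FF.var 0) (FF.var 0)) (FF.var 0)).congr (fun _ v => by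
    rw [add_eq_left]
    exact eq_comm))

theorem fone (h : HV p L) : FF L (fun _ (_ : α → LaurentSeries (ZMod p)) => 1) :=
  FF.const ((FD.all (Q := fun _ (v : Fin 1 → LaurentSeries (ZMod p)) y => v 0 * y = y)
    (FD.eq (h.fmul (FF.var _) (FF.var _)) (FF.var _))).congr (fun _ v =>
      ⟨fun H => by simpa using (H 1).symm, fun H y => by rw [← H, one_mul]⟩))

theorem fpow (h : HV p L) (hf : FF L f) (n : ℕ) : FF L (fun j v => f j v ^ n) := by
  induction n with
  | zero => simpa using h.fone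
  | succ n ih => simpa [pow_succ] using h.fmul ih hf

theorem fsum (h : HV p L) {ι : Type} (s : Finset ι)
    {f : ι → J (LaurentSeries (ZMod p)) → (α → LaurentSeries (ZMod p)) → LaurentSeries (ZMod p)}
    (hf : ∀ i, FF L (f i)) : FF L (fun j v => ∑ i ∈ s, f i j v) := by
  classical
  induction s using Finset.induction_on with
  | empty => simpa using h.fzero
  | insert a s ha ih => simpa [Finset.sum_insert ha] using h.fadd (hf a) ih

theorem dHs (h : HV p L) (hf : FF L f) (hg : FF L g) : FD L (fun j v => Hs (f j v) (g j v)) := by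
  refine FD.app2 (R := fun _ => Hs) ?_ hf hg
  unfold Hs
  refine FD.ex (FD.ex (FD.exF (FD.and (h.dval (FF.var _)) (FD.eq (h.fadd (FF.var _) (FF.var _))
    (h.fadd (h.fadd (h.fmul (FF.var _) (FF.var _)) (h.fpow (FF.var _) _))
      (h.fsum _ fun i => h.fmul (h.fpow (FF.var _) _) (h.fpow (FF.var _) _)))))))

theorem dRel (h : HV p L) {z : J (LaurentSeries (ZMod p)) → (α → LaurentSeries (ZMod p)) →
    Fin 5 → LaurentSeries (ZMod p)} {k : J (LaurentSeries (ZMod p)) →
    (α → LaurentSeries (ZMod p)) → LaurentSeries (ZMod p)} (hz : ∀ b, FF L (fun j v => z j v b))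
    (hf : FF L f) (hg : FF L g) (hk : FF L k) :
    FD L (fun j v => Rel (z j v) (f j v) (g j v) (k j v)) := by
  unfold Rel
  exact FD.ex (FD.and (FD.eq (h.fmul (FF.var _) ((hz 1).ren some)) (h.fadd ((hz 4).ren some)
    (h.fmul (FF.var _) (h.fadd (h.fadd (hf.ren some) (h.fmul ((hz 2).ren some) (hg.ren some)))
      (h.fmul ((hz 3).ren some) (hk.ren some)))))) (h.dHs ((hz 0).ren some) (FF.var _)))

theorem dT (h : HV p L) (hf : FF L f) : FD L (fun j v => f j v ∈ tset j.2.2 j.1) := by
  refine FD.app1 (R := fun j x => x ∈ tset j.2.2 j.1) (FD.diag (P := fun j v =>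
    v 0 ∈ tset j.2.2 j.2.1) ?_) hf
  refine FD.recur' (M' := 2) (X0 := fun _ v => v 0 = 0)
    (A := fun j w => ∀ e, e * j.2.2 j.2.1 = 1 + e * w (Sum.inr 0) →
      Hs (w (Sum.inl (Sum.inr 0))) (w (Sum.inl (Sum.inr 1)) * e))
    (C := fun _ w => Hs (w (Sum.inr 0)) (w (Sum.inr 1) * w (Sum.inl 0)))
    (FD.eq (FF.var _) h.fzero)
    (FD.all (FD.imp (FD.eq (h.fmul (FF.var _) FF.param)
      (h.fadd h.fone (h.fmul (FF.var _) (FF.var _))))
      (h.dHs (FF.var _) (h.fmul (FF.var _) (FF.var _)))))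
    (h.dHs (FF.var _) (h.fmul (FF.var _) (FF.var _))) (fun _ _ _ => Iff.rfl) (fun n i a y => ?_)
  constructor
  · intro H z Hz
    exact H (z 0) (z 1) (fun d hd => Hz (fun _ => d) hd)
  · intro H t z Hz
    exact H ![t, z] (fun w hw => Hz (w 0) hw)

theorem dS (h : HV p L) {u : J (LaurentSeries (ZMod p)) → (α → LaurentSeries (ZMod p)) →
    Fin 5 → LaurentSeries (ZMod p)} (hu : ∀ b, FF L (fun j v => u j v b)) (hf : FF L f) :
    FD L (fun j v => f j v ∈ sset j.1 j.2.2 (u j v)) := FD.and (h.dT hf) (h.dRel hu hf hf hf)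

theorem dAtom (h : HV p L) : FD L (fun j (w : Fin 4 × Fin 5 → LaurentSeries (ZMod p)) =>
    num j.1 j.2.2 (fun b => w (0, b)) * num j.1 j.2.2 (fun b => w (1, b)) +
      num j.1 j.2.2 (fun b => w (2, b)) = num j.1 j.2.2 (fun b => w (3, b))) := by
  refine FD.congr ?_ (fun j w => atom_iff _ _ _ _ _ _)
  unfold BijRel
  simp only [Set.mem_ofPred_eq]
  repeat' first
    | exact FF.var _
    | exact fun _ => FF.var _
    | exact h.fzero
    | apply h.dS
    | apply h.dRel
    | apply FD.eq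
    | apply FD.and
    | apply FD.iff
    | apply FD.exF
    | apply FD.ex
    | apply FD.not
    | apply FD.imp
    | apply FD.all

theorem appAtom (h : HV p L) {x y z w : J (LaurentSeries (ZMod p)) →
    (α → LaurentSeries (ZMod p)) → Fin 5 → LaurentSeries (ZMod p)}
    (hx : ∀ b, FF L (fun j v => x j v b)) (hy : ∀ b, FF L (fun j v => y j v b))
    (hz : ∀ b, FF L (fun j v => z j v b)) (hw : ∀ b, FF L (fun j v => w j v b)) :
    FD L (fun j v => num j.1 j.2.2 (x j v) * num j.1 j.2.2 (y j v) + num j.1 j.2.2 (z j v) =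
      num j.1 j.2.2 (w j v)) := by
  refine (FD.app h.dAtom (g := fun j v q => ![x j v, y j v, z j v, w j v] q.1 q.2) ?_).congr
    (fun j v => by simp)
  rintro ⟨i, b⟩
  fin_cases i
  · exact hx b
  · exact hy b
  · exact hz b
  · exact hw b

theorem dNum (h : HV p L) : FD L (fun j (w : Fin 5 → LaurentSeries (ZMod p)) =>
    num j.1 j.2.2 w = j.2.1) := by
  refine FD.recur' (M' := 0) (X0 := fun j v => num j.1 j.2.2 v = 0)
    (A := fun j w => ¬ num j.1 j.2.2 (fun b => w (Sum.inl (Sum.inl b))) =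
      num j.1 j.2.2 (fun b => w (Sum.inr b)) + 1) (C := fun _ _ => False)
    ((h.appAtom FF.var FF.var FF.var FF.var).congr (fun j v => by simp)) (FD.not ?_) FD.fls
    (fun _ _ _ => Iff.rfl) (fun n i a y => ?_)
  · refine (FD.exF (β := Fin 5) (Q := fun j w u => (∃ d, ∀ e, e ∈ sset j.1 j.2.2 u ↔ e = d) ∧
      num j.1 j.2.2 u * num j.1 j.2.2 u + num j.1 j.2.2 (fun b => w (Sum.inr b)) =
        num j.1 j.2.2 (fun b => w (Sum.inl (Sum.inl b))))
      (FD.and (FD.ex (FD.all (FD.iff (h.dS (fun _ => FF.var _) (FF.var _))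
        (FD.eq (FF.var _) (FF.var _)))))
        (h.appAtom (fun _ => FF.var _) (fun _ => FF.var _) (fun _ => FF.var _)
          (fun _ => FF.var _)))).congr (fun j w => ?_)
    constructor
    · rintro ⟨u, ⟨d, hd⟩, h2⟩
      have : num j.1 j.2.2 u = 1 := Set.ncard_eq_one.mpr ⟨d, Set.ext hd⟩
      rw [this] at h2
      omega
    · intro h2
      have := num_le j.1 j.2.2 (fun b => w (Sum.inl (Sum.inl b)))
      obtain ⟨u, hu⟩ := exists_num j.1 j.2.2 (m := 1) (by omega)
      obtain ⟨d, hd⟩ := Set.ncard_eq_one.mp hu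
      exact ⟨u, ⟨d, fun e => by rw [hd]; rfl⟩, by rw [hu]; omega⟩
  · constructor
    · intro H z Hz
      have := num_le n a y
      obtain ⟨u, hu⟩ := exists_num n a (m := i) (by dsimp only at H; omega)
      exact Hz u hu (by dsimp only [Sum.elim_inl, Sum.elim_inr] at H ⊢; rw [H, hu])
    · intro H
      by_contra hne
      refine H default (fun w hw h2 => hne ?_)
      dsimp only [Sum.elim_inl, Sum.elim_inr] at hw h2 ⊢
      rw [h2, hw]

end HV

end Def

end Pool.Agent.Work.MP_db9079_lc.NE
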