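import Pool.Agent.Work.MP_db9079_lc.NEList
import Pool.Agent.Work.MP_db9079_lc.Chain
import Mathlib.ModelTheory.Definability

/-!
Families of predicates defined by families of formulas whose codes are represented.
-/

namespace Pool.Agent.Work.MP_db9079_lc.NE

open FirstOrder FirstOrder.Language

universe u v

section Place

variable {L : FirstOrder.Language.{u, v}} [Encodable (Σ i, L.Functions i)]
  [Encodable (Σ i, L.Relations i)] {α ι : Type} [Fintype ι]

omit [Encodable (Σ i, L.Relations i)] in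
theorem repL_placeT {f : (ι → ℕ) → α → ℕ} {d : (ι → ℕ) → ℕ} (hf : ∀ a, Rep (fun v => f v a))
    (hd : Rep d) (h : ∀ v a, 0 + f v a < d v) {n : ℕ} (t : L.Term (α ⊕ Fin n)) :
    RepL (fun v => (placeT (f v) 0 (d v) (h v) t).listEncode.map Encodable.encode) := by
  induction t with
  | var x =>
    cases x with
    | inl a =>
      exact (RepL.cons ((Rep.const 2).mul ((Rep.const 2).mul ((Rep.const 0).add (hf a))).succ)
        RepL.nil).of_eq fun v => rfl
    | inr j =>
      exact (RepL.cons ((Rep.const 2).mul ((Rep.const 2).mul (hd.add (Rep.const j))).succ)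
        RepL.nil).of_eq fun v => rfl
  | @func l F ts ih =>
    refine (RepL.cons (Rep.const (2 * Encodable.encode (⟨l, F⟩ : Σ i, L.Functions i) + 1))
      (RepL.flatMap_list ih (List.finRange l))).of_eq fun i => ?_
    simp only [placeT, Term.relabel, Term.listEncode, List.map_cons, List.map_flatMap]
    rfl

theorem rep_tok {f : (ι → ℕ) → α → ℕ} {d : (ι → ℕ) → ℕ} (hf : ∀ a, Rep (fun v => f v a))
    (hd : Rep d) (h : ∀ v a, 0 + f v a < d v) {n : ℕ} (t : L.Term (α ⊕ Fin n)) :
    Rep (fun v => Encodable.encode (Sum.inl ⟨d v + n, placeT (f v) 0 (d v) (h v) t⟩ :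
      (Σ k, L.Term (Empty ⊕ Fin k)) ⊕ ((Σ n, L.Relations n) ⊕ ℕ))) := by
  refine ((Rep.const 2).mul ((hd.add (Rep.const n)).pair
    (repL_placeT hf hd h t).encode)).of_eq fun v => ?_
  rw [← encode_list_map]
  rfl

theorem repL_fls {d : (ι → ℕ) → ℕ} (hd : Rep d) :
    RepL (fun v => enc (BoundedFormula.falsum : L.BoundedFormula Empty (d v))) :=
  (RepL.cons ((Rep.const 2).mul ((Rep.const 2).mul (hd.add (Rep.const 2))).succ).succ
    RepL.nil).of_eq fun _ => rfl

theorem repL_place {f : (ι → ℕ) → α → ℕ} {d : (ι → ℕ) → ℕ} (hf : ∀ a, Rep (fun v => f v a))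
    (hd : Rep d) (h : ∀ v a, 0 + f v a < d v) {n : ℕ} (φ : L.BoundedFormula α n) :
    RepL (fun v => enc (place (f v) 0 (d v) (h v) φ)) := by
  induction φ with
  | @falsum n => exact repL_fls (hd.add (Rep.const n))
  | equal t₁ t₂ =>
    exact (RepL.cons (rep_tok hf hd h t₁) (RepL.cons (rep_tok hf hd h t₂) RepL.nil)).of_eq
      fun _ => rfl
  | @rel n l R ts =>
    refine (RepL.cons (Rep.const (2 * (2 * Encodable.encode (⟨l, R⟩ : Σ i, L.Relations i)) + 1))
      (RepL.cons ((Rep.const 2).mul ((Rep.const 2).mul (hd.add (Rep.const n))).succ).succ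
        (RepL.map_list (fun j => rep_tok hf hd h (ts j)) (List.finRange l)))).of_eq fun i => ?_
    simp only [enc, place, BoundedFormula.listEncode, List.map_cons, List.map_map,
      List.cons_append, List.nil_append]
    rfl
  | imp φ ψ ih1 ih2 =>
    exact (RepL.cons (Rep.const 3) (ih1.append ih2)).of_eq fun _ => (enc_imp _ _).symm
  | all φ ih =>
    refine (RepL.cons (Rep.const 7) ih).of_eq fun i => ?_
    simp only [enc, place, BoundedFormula.listEncode, List.map_cons]
    rfl

end Place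

theorem app_lt {K : Type} {k M : ℕ} (xs : Fin k → K) (u : Fin M → K) (j : ℕ) (hj : j < k)
    (hj' : j < k + M) : Fin.append xs u ⟨j, hj'⟩ = xs ⟨j, hj⟩ := Fin.append_left xs u ⟨j, hj⟩

theorem app_add {K : Type} {k M : ℕ} (xs : Fin k → K) (u : Fin M → K) (b : Fin M)
    (hj' : k + b < k + M) : Fin.append xs u ⟨k + b, hj'⟩ = u b := Fin.append_right xs u b

theorem realize_allN' {L : FirstOrder.Language.{u, v}} {K : Type} [L.Structure K] (e : Empty → K)
    (M : ℕ) {k : ℕ} (φ : L.BoundedFormula Empty (k + M)) (xs : Fin k → K) :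
    (allN M φ).Realize e xs ↔ ∀ u : Fin M → K, φ.Realize e (Fin.append xs u) := by
  rw [realize_allN]
  constructor
  · intro h u
    exact h _ (fun i hh => app_lt xs u i i.2 hh)
  · intro h ys hys
    have := h (fun b => ys (Fin.natAdd k b))
    convert this using 1
    funext j
    refine Fin.addCases (fun i => ?_) (fun i => ?_) j
    · rw [Fin.append_left]
      exact hys i _
    · rw [Fin.append_right]

/-- The parameters, read from the first positions. -/
def par {K : Type} {d : ℕ} (n : ℕ) (h : n < d) (xs : Fin d → K) : ℕ → K :=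
  fun j => xs ⟨min j n, lt_of_le_of_lt (min_le_right j n) h⟩

theorem par_append {K : Type} {k M : ℕ} (n : ℕ) (h : n < k) (h' : n < k + M) (xs : Fin k → K)
    (u : Fin M → K) : par n h' (Fin.append xs u) = par n h xs :=
  funext fun _ => app_lt xs u _ _ _

/-- Families of formulas. -/
abbrev Fam (L : FirstOrder.Language.{u, v}) (α : Type) :=
  (n i d : ℕ) → n < d → (α → Fin d) → L.BoundedFormula Empty d

variable (L : FirstOrder.Language.{u, v}) [Encodable (Σ i, L.Functions i)]
  [Encodable (Σ i, L.Relations i)] {K : Type} [L.Structure K] {α β : Type}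

variable {L} in
/-- The codes of the family are represented. -/
def Good (Φ : Fam L α) : Prop :=
  ∀ (ι : Type) [Fintype ι] (n i d : (ι → ℕ) → ℕ) (h : ∀ v, n v < d v)
    (pos : ∀ v, α → Fin (d v)), Rep n → Rep i → Rep d → (∀ a, Rep (fun v => (pos v a : ℕ))) →
    RepL (fun v => enc (Φ (n v) (i v) (d v) (h v) (pos v)))

variable {L} in
/-- The family defines the predicates. -/
def Defs (Φ : Fam L α) (P : ℕ × ℕ × (ℕ → K) → (α → K) → Prop) : Prop :=
  ∀ n i d h pos (e : Empty → K) (xs : Fin d → K),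
    (Φ n i d h pos).Realize e xs ↔ P (n, i, par n h xs) (fun a => xs (pos a))

/-- Families of predicates defined by good families of formulas. -/
def FD (P : ℕ × ℕ × (ℕ → K) → (α → K) → Prop) : Prop := ∃ Φ : Fam L α, Good Φ ∧ Defs Φ P

namespace FD

variable {L}

theorem congr {P Q : ℕ × ℕ × (ℕ → K) → (α → K) → Prop} (h : FD L P)
    (e : ∀ j v, P j v ↔ Q j v) : FD L Q := by
  have : P = Q := funext fun B => funext fun v => propext (e B v)
  exact this ▸ h

theorem comp (f : α → β) {P : ℕ × ℕ × (ℕ → K) → (α → K) → Prop} (h : FD L P) :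
    FD L (fun j (v : β → K) => P j (fun a => v (f a))) := by
  obtain ⟨Φ, h1, h2⟩ := h
  exact ⟨fun n i d h pos => Φ n i d h (fun a => pos (f a)),
    fun ι _ n i d h pos hn hi hd hp => h1 ι n i d h _ hn hi hd (fun a => hp (f a)),
    fun n i d h pos e xs => h2 n i d h _ e xs⟩

theorem fls : FD L (fun _ (_ : α → K) => False) :=
  ⟨fun _ _ _ _ _ => BoundedFormula.falsum, fun _ _ _ _ _ _ _ _ _ hd _ => repL_fls hd,
    fun _ _ _ _ _ _ _ => Iff.rfl⟩

theorem imp {P Q : ℕ × ℕ × (ℕ → K) → (α → K) → Prop} (hP : FD L P) (hQ : FD L Q) :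
    FD L (fun j v => P j v → Q j v) := by
  obtain ⟨Φ, h1, h2⟩ := hP
  obtain ⟨Ψ, h3, h4⟩ := hQ
  refine ⟨fun n i d h pos => (Φ n i d h pos).imp (Ψ n i d h pos),
    fun ι _ n i d h pos hn hi hd hp => ?_, fun n i d h pos e xs => ?_⟩
  · exact (RepL.cons (Rep.const 3) ((h1 ι n i d h pos hn hi hd hp).append
      (h3 ι n i d h pos hn hi hd hp))).of_eq fun _ => (enc_imp _ _).symm
  · exact imp_congr (h2 n i d h pos e xs) (h4 n i d h pos e xs)

theorem alls {M : ℕ} {P : ℕ × ℕ × (ℕ → K) → (α ⊕ Fin M → K) → Prop} (hP : FD L P) :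
    FD L (fun j (v : α → K) => ∀ u : Fin M → K, P j (Sum.elim v u)) := by
  obtain ⟨Φ, h1, h2⟩ := hP
  refine ⟨fun n i d h pos => allN M (Φ n i (d + M) (by omega)
    (Sum.elim (fun a => ⟨pos a, by have := (pos a).2; omega⟩)
      (fun b => ⟨d + b, by have := b.2; omega⟩))),
    fun ι _ n i d h pos hn hi hd hp => ?_, fun n i d h pos e xs => ?_⟩
  · refine ((RepL.const (List.replicate M 7)).append (h1 ι n i (fun v => d v + M) _ _ hn hi
      (hd.add (Rep.const M)) ?_)).of_eq fun _ => (enc_allN _ _).symm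
    rintro (a | b)
    · exact hp a
    · exact hd.add (Rep.const b)
  · rw [realize_allN']
    refine forall_congr' fun u => ?_
    rw [h2, par_append n h]
    apply iff_of_eq
    congr 1
    funext x
    rcases x with a | b
    · exact app_lt xs u _ (pos a).2 _
    · exact app_add xs u b _

theorem base {P : (α → K) → Prop} (h : (∅ : Set K).Definable L {w | P w}) :
    FD L (fun _ v => P v) := by
  obtain ⟨φ, hφ⟩ := Set.empty_definable_iff.mp h
  refine ⟨fun n i d h pos => place (fun a => (pos a : ℕ)) 0 d (fun a => by simp) φ,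
    fun ι _ n i d h pos _ _ hd hp => repL_place hp hd _ φ, fun n i d h pos e xs => ?_⟩
  refine (realize_place (fun a => (pos a : ℕ)) 0 d _ e (fun a => xs (pos a)) φ xs default
    (fun a hh => ?_) (fun j => j.elim0)).trans (Set.ext_iff.mp hφ _).symm
  congr 1
  exact Fin.ext (Nat.zero_add _)

theorem param {P : ℕ × ℕ × (ℕ → K) → (Option α → K) → Prop} (hP : FD L P) :
    FD L (fun j (v : α → K) => P j (fun o => o.elim (j.2.2 j.2.1) v)) := by
  obtain ⟨Φ, h1, h2⟩ := hP
  refine ⟨fun n i d h pos => Φ n i d h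
    (fun o => o.elim ⟨min i n, lt_of_le_of_lt (min_le_right i n) h⟩ pos),
    fun ι _ n i d h pos hn hi hd hp => h1 ι n i d h _ hn hi hd ?_, fun n i d h pos e xs => ?_⟩
  · rintro (_ | a)
    · exact hi.min hn
    · exact hp a
  · rw [h2]
    apply iff_of_eq
    congr 1
    funext o
    cases o <;> rfl

theorem diag {P : ℕ × ℕ × (ℕ → K) → (α → K) → Prop} (hP : FD L P) :
    FD L (fun j v => P (j.1, j.1, j.2.2) v) := by
  obtain ⟨Φ, h1, h2⟩ := hP
  exact ⟨fun n _ d h pos => Φ n n d h pos,
    fun ι _ n i d h pos hn _ hd hp => h1 ι n n d h pos hn hn hd hp,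
    fun n i d h pos e xs => h2 n n d h pos e xs⟩

end FD

section Rec

variable {L} {M M' : ℕ} (Φ0 : Fam L (Fin M)) (ΦA : Fam L ((Fin M ⊕ Fin M') ⊕ Fin M))
  (ΦC : Fam L (Fin M ⊕ Fin M'))

/-- Positions of two blocks. -/
def posC (M M' e : ℕ) : Fin M ⊕ Fin M' → Fin (e + M + M') :=
  Sum.elim (fun b => ⟨e + b, by have := b.2; omega⟩) (fun b => ⟨e + M + b, by have := b.2; omega⟩)

/-- Positions of three blocks. -/
def posA (M M' e : ℕ) : (Fin M ⊕ Fin M') ⊕ Fin M → Fin (e + M + M' + M) :=
  Sum.elim (fun x => ⟨posC M M' e x, by have := (posC M M' e x).2; omega⟩)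
    (fun b => ⟨e + M + M' + b, by have := b.2; omega⟩)

/-- The nested formula. -/
def nest (n : ℕ) : (i e : ℕ) → n < e → L.BoundedFormula Empty (e + M)
  | 0, e, h => Φ0 n 0 (e + M) (by omega) (fun b => ⟨e + b, by have := b.2; omega⟩)
  | i + 1, e, h => allN M' (BoundedFormula.imp (allN M (BoundedFormula.imp
      (nest n i (e + M + M') (by omega)) (ΦA n i (e + M + M' + M) (by omega) (posA M M' e))))
      (ΦC n i (e + M + M') (by omega) (posC M M' e)))

/-- The tokens after the nested occurrence. -/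
def tail (n r e : ℕ) (h : n < e) : List ℕ :=
  enc (ΦA n r (e + M + M' + M) (by omega) (posA M M' e)) ++
    enc (ΦC n r (e + M + M') (by omega) (posC M M' e))

theorem nest_congr (n a b : ℕ) (ha : n < a) (hb : n < b) (h : a = b) :
    enc (nest Φ0 ΦA ΦC n 0 a ha) = enc (nest Φ0 ΦA ΦC n 0 b hb) := by
  subst h
  rfl

theorem enc_nest_succ (n i e : ℕ) (h : n < e) : enc (nest Φ0 ΦA ΦC n (i + 1) e h) =
    (List.replicate M' 7 ++ 3 :: (List.replicate M 7 ++ [3])) ++
      enc (nest Φ0 ΦA ΦC n i (e + M + M') (by omega)) ++ tail ΦA ΦC n i e h := by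
  have : enc (nest Φ0 ΦA ΦC n (i + 1) e h) = enc (allN M' (BoundedFormula.imp (allN M
      (BoundedFormula.imp (nest Φ0 ΦA ΦC n i (e + M + M') (by omega))
        (ΦA n i (e + M + M' + M) (by omega) (posA M M' e))))
      (ΦC n i (e + M + M') (by omega) (posC M M' e)))) := rfl
  rw [this, enc_allN, enc_imp, enc_allN, enc_imp]
  simp [tail]

theorem enc_nest (n : ℕ) : ∀ (i e : ℕ) (h : n < e), enc (nest Φ0 ΦA ΦC n i e h) =
    (List.range i).flatMap (fun _ => List.replicate M' 7 ++ 3 :: (List.replicate M 7 ++ [3])) ++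
      enc (nest Φ0 ΦA ΦC n 0 (e + i * (M + M')) (by omega)) ++
      (List.range i).flatMap (fun r => tail ΦA ΦC n r (e + (i - 1 - r) * (M + M')) (by omega))
  | 0, e, h => by simpa using nest_congr Φ0 ΦA ΦC n _ _ _ _ (by simp)
  | i + 1, e, h => by
    have e2 : ∀ (r a b : ℕ) (ha : n < a) (hb : n < b), a = b →
        tail ΦA ΦC n r a ha = tail ΦA ΦC n r b hb := by
      rintro r a b ha hb rfl
      rfl
    rw [enc_nest_succ, enc_nest n i,
      nest_congr Φ0 ΦA ΦC n _ (e + (i + 1) * (M + M')) _ (by omega) (by ring)]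
    conv_rhs => enter [1, 1]; rw [List.range_succ_eq_map]
    conv_rhs => enter [2]; rw [List.range_succ, List.flatMap_append]
    have e3 : (List.range i).flatMap
        (fun r => tail ΦA ΦC n r (e + M + M' + (i - 1 - r) * (M + M')) (by omega)) =
        (List.range i).flatMap
          (fun r => tail ΦA ΦC n r (e + (i + 1 - 1 - r) * (M + M')) (by omega)) := by
      refine List.flatMap_congr fun r hr => e2 r _ _ _ _ ?_
      have := List.mem_range.mp hr
      rw [show i + 1 - 1 - r = (i - 1 - r) + 1 by omega]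
      ring
    rw [e3]
    simp only [List.flatMap_cons, List.flatMap_map, List.flatMap_nil, List.append_nil]
    rw [e2 i (e + (i + 1 - 1 - i) * (M + M')) e _ h (by simp)]
    simp

theorem repL_nest (h0 : Good Φ0) (hA : Good ΦA) (hC : Good ΦC) {ι : Type} [Fintype ι]
    {n i e : (ι → ℕ) → ℕ} (h : ∀ v, n v < e v) (hn : Rep n) (hi : Rep i) (he : Rep e) :
    RepL (fun v => enc (nest Φ0 ΦA ΦC (n v) (i v) (e v) (h v))) := by
  have hpC : ∀ {κ : Type} [Fintype κ] {e : (κ → ℕ) → ℕ}, Rep e →
      ∀ x, Rep (fun v => (posC M M' (e v) x : ℕ)) := by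
    intro κ _ e he
    rintro (b | b)
    · exact he.add (Rep.const b)
    · exact (he.add (Rep.const M)).add (Rep.const b)
  have hE := he.add (hi.mul (Rep.const (M + M')))
  have hE' : Rep (fun w : Option ι → ℕ => e (fun a => w (some a)) +
      (i (fun a => w (some a)) - 1 - w none) * (M + M')) :=
    (he.ren some).add ((((hi.ren some).sub (Rep.const 1)).sub (Rep.var none)).mul (Rep.const _))
  refine (((RepL.flatMap_range (l := fun _ _ => List.replicate M' 7 ++ 3 ::
    (List.replicate M 7 ++ [3])) hi (RepL.const _)).append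
    (h0 ι n (fun _ => 0) (fun v => e v + i v * (M + M') + M) _ _ hn (Rep.const 0)
      (hE.add (Rep.const M)) (fun b => hE.add (Rep.const b)))).append
    (RepL.flatMap_range (l := fun r v => tail ΦA ΦC (n v) r (e v + (i v - 1 - r) * (M + M'))
      (by have := h v; omega)) hi ((hA _ _ _ _ _ _ (hn.ren some) (Rep.var none)
        (((hE'.add (Rep.const M)).add (Rep.const M')).add (Rep.const M)) ?_).append
        (hC _ _ _ _ _ _ (hn.ren some) (Rep.var none)
          ((hE'.add (Rep.const M)).add (Rep.const M')) (hpC hE'))))).of_eq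
    fun v => (enc_nest Φ0 ΦA ΦC _ _ _ _).symm
  rintro (x | b)
  · exact hpC hE' x
  · exact ((hE'.add (Rep.const M)).add (Rep.const M')).add (Rep.const b)

omit [Encodable (Σ i, L.Functions i)] [Encodable (Σ i, L.Relations i)] in
theorem realize_nest {X X0 : ℕ × ℕ × (ℕ → K) → (Fin M → K) → Prop}
    {A : ℕ × ℕ × (ℕ → K) → ((Fin M ⊕ Fin M') ⊕ Fin M → K) → Prop}
    {C : ℕ × ℕ × (ℕ → K) → (Fin M ⊕ Fin M' → K) → Prop}
    (h0 : Defs Φ0 X0) (hA : Defs ΦA A) (hC : Defs ΦC C)
    (e0 : ∀ n a y, X (n, 0, a) y ↔ X0 (n, 0, a) y)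
    (es : ∀ n i a y, X (n, i + 1, a) y ↔ ∀ z, (∀ w, X (n, i, a) w →
      A (n, i, a) (Sum.elim (Sum.elim y z) w)) → C (n, i, a) (Sum.elim y z))
    (n : ℕ) (ε : Empty → K) : ∀ (i e : ℕ) (h : n < e) (xs : Fin (e + M) → K),
      (nest Φ0 ΦA ΦC n i e h).Realize ε xs ↔
        X (n, i, par n (by omega) xs) (fun b => xs ⟨e + b, by have := b.2; omega⟩)
  | 0, e, h, xs => by rw [nest, h0, e0]
  | i + 1, e, h, xs => by
    rw [nest, es, realize_allN']
    refine forall_congr' fun z => ?_
    rw [BoundedFormula.realize_imp, realize_allN', hC, par_append n (by omega)]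
    have hz : (fun x => Fin.append xs z (posC M M' e x)) =
        Sum.elim (fun b : Fin M => xs ⟨e + b, by have := b.2; omega⟩) z := by
      funext x
      rcases x with b | b
      · exact app_lt xs z _ _ _
      · exact app_add xs z b _
    rw [hz]
    refine imp_congr_left (forall_congr' fun w => ?_)
    rw [BoundedFormula.realize_imp, realize_nest h0 hA hC e0 es n ε i, hA,
      par_append n (by omega), par_append n (by omega)]
    have hw : (fun b : Fin M => Fin.append (Fin.append xs z) w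
        ⟨e + M + M' + b, by have := b.2; omega⟩) = w := funext fun b => app_add _ w b _
    have hw' : (fun x => Fin.append (Fin.append xs z) w (posA M M' e x)) =
        Sum.elim (Sum.elim (fun b : Fin M => xs ⟨e + b, by have := b.2; omega⟩) z) w := by
      funext x
      rcases x with x | b
      · exact (app_lt _ w _ (posC M M' e x).2 _).trans (congrFun hz x)
      · exact app_add _ w b _
    rw [hw, hw']

theorem FD.recur {X X0 : ℕ × ℕ × (ℕ → K) → (Fin M → K) → Prop}
    {A : ℕ × ℕ × (ℕ → K) → ((Fin M ⊕ Fin M') ⊕ Fin M → K) → Prop}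
    {C : ℕ × ℕ × (ℕ → K) → (Fin M ⊕ Fin M' → K) → Prop}
    (hE : FD L (fun _ (w : Fin M ⊕ Fin M → K) => ∀ b, w (Sum.inr b) = w (Sum.inl b)))
    (h0 : FD L X0) (hA : FD L A) (hC : FD L C)
    (e0 : ∀ n a y, X (n, 0, a) y ↔ X0 (n, 0, a) y)
    (es : ∀ n i a y, X (n, i + 1, a) y ↔ ∀ z, (∀ w, X (n, i, a) w →
      A (n, i, a) (Sum.elim (Sum.elim y z) w)) → C (n, i, a) (Sum.elim y z)) : FD L X := by
  obtain ⟨ΦE, gE, dE⟩ := hE
  obtain ⟨Φ0, g0, d0⟩ := h0
  obtain ⟨ΦA, gA, dA⟩ := hA
  obtain ⟨ΦC, gC, dC⟩ := hC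
  refine ⟨fun n i d h pos => allN M (BoundedFormula.imp (ΦE n i (d + M) (by omega)
    (Sum.elim (fun a => ⟨pos a, by have := (pos a).2; omega⟩)
      (fun b => ⟨d + b, by have := b.2; omega⟩))) (nest Φ0 ΦA ΦC n i d h)),
    fun ι _ n i d h pos hn hi hd hp => ?_, fun n i d h pos e xs => ?_⟩
  · refine ((RepL.const (List.replicate M 7)).append (RepL.cons (Rep.const 3)
      ((gE ι n i (fun v => d v + M) _ _ hn hi (hd.add (Rep.const M)) ?_).append
        (repL_nest Φ0 ΦA ΦC g0 gA gC h hn hi hd)))).of_eq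
      fun _ => ((enc_allN _ _).trans (congrArg _ (enc_imp _ _))).symm
    rintro (a | b)
    · exact hp a
    · exact hd.add (Rep.const b)
  · rw [realize_allN']
    have key : ∀ u : Fin M → K, (BoundedFormula.imp (ΦE n i (d + M) (by omega)
        (Sum.elim (fun a => ⟨pos a, by have := (pos a).2; omega⟩)
          (fun b => ⟨d + b, by have := b.2; omega⟩))) (nest Φ0 ΦA ΦC n i d h)).Realize e
          (Fin.append xs u) ↔ ((∀ b, u b = xs (pos b)) → X (n, i, par n h xs) u) := by
      intro u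
      rw [BoundedFormula.realize_imp, dE, realize_nest Φ0 ΦA ΦC d0 dA dC e0 es,
        par_append n h]
      have hu : (fun b : Fin M => Fin.append xs u ⟨d + b, by have := b.2; omega⟩) = u :=
        funext fun b => app_add xs u b _
      rw [hu]
      refine imp_congr_left (forall_congr' fun b => ?_)
      simp only [Sum.elim_inl, Sum.elim_inr]
      rw [app_add, app_lt xs u _ (pos b).2]
    simp only [key]
    constructor
    · intro H
      exact H _ (fun _ => rfl)
    · intro H u hu
      rwa [show u = fun b => xs (pos b) from funext hu]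

end Rec

end Pool.Agent.Work.MP_db9079_lc.NE
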