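import Pool.Agent.Work.MP_db9079_lc.NEArith
import Pool.Agent.Work.MP_db9079_lc.NEDefs
import Mathlib.Logic.Equiv.List

/-!
Elementary functions are represented; represented families of lists.
-/

namespace Pool.Agent.Work.MP_db9079_lc.NE

variable {ι κ : Type} [Fintype ι] [Fintype κ]

theorem rep_update {n : ℕ} {f : (Fin (n + 1) → ℕ) → ℕ} (hf : Rep f) :
    Rep (fun w : Option (Option (Fin (n + 1))) → ℕ =>
      f (Function.update (fun a => w (some (some a))) 0 (w none))) := by
  refine hf.comp (fun b => ?_)
  by_cases hb : b = 0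
  · subst hb
    simpa using Rep.var none
  · simpa [Function.update_of_ne hb] using Rep.var _

theorem sz_update {n : ℕ} (v : Fin (n + 1) → ℕ) (i : ℕ) :
    sz (Function.update v 0 i) ≤ i + sz v := by
  unfold sz
  rw [Fin.sum_univ_succ, Fin.sum_univ_succ]
  simp only [Function.update_self]
  have : ∑ j : Fin n, Function.update v 0 i j.succ = ∑ j : Fin n, v j.succ :=
    Finset.sum_congr rfl fun j _ => Function.update_of_ne (Fin.succ_ne_zero j) _ _
  omega

theorem rep_diag {n : ℕ} {F : ℕ → (Fin (n + 1) → ℕ) → ℕ}
    (h : Rep (fun w : Option (Fin (n + 1)) → ℕ => F (w none) (fun a => w (some a)))) :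
    Rep (fun v : Fin (n + 1) → ℕ => F (v 0) v) :=
  h.ren (fun o : Option (Fin (n + 1)) => o.elim 0 id)

theorem rep_of_elementary {n : ℕ} {f : (Fin n → ℕ) → ℕ} (h : Elementary f) : Rep f := by
  induction h with
  | zero => exact Rep.const 0
  | succ => exact (Rep.var 0).succ
  | proj i => exact Rep.var i
  | add => exact (Rep.var 0).add (Rep.var 1)
  | mul => exact (Rep.var 0).mul (Rep.var 1)
  | sub => exact (Rep.var 0).sub (Rep.var 1)
  | comp _ _ ihf ihg => exact ihf.comp ihg
  | @bsum n f _ ih =>
    refine rep_diag (F := fun y v => ∑ i ∈ Finset.range y, f (Function.update v 0 i))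
      (Rep.rec' (F := fun y v => ∑ i ∈ Finset.range y, f (Function.update v 0 i))
        (g := fun _ => 0) (h := fun y c v => c + f (Function.update v 0 y)) (Rep.const 0)
        ((Rep.var _).add (rep_update ih)) (fun _ => rfl) (fun y v => Finset.sum_range_succ _ _) ?_)
    obtain ⟨k, hk⟩ := ih.2
    refine ((TB.var none).mul (TB.size.tower k)).of_le fun w => ?_
    have := Finset.sum_le_card_nsmul (Finset.range (w none))
      (fun i => f (Function.update (fun a => w (some a)) 0 i)) (tw k (sz w)) (fun i hi => by
        refine (hk _).trans (tw_mono_right k ((sz_update _ _).trans ?_))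
        rw [sz_option w]
        have := Finset.mem_range.mp hi
        omega)
    simpa using this
  | @bprod n f _ ih =>
    refine rep_diag (F := fun y v => ∏ i ∈ Finset.range y, f (Function.update v 0 i))
      (Rep.rec' (F := fun y v => ∏ i ∈ Finset.range y, f (Function.update v 0 i))
        (g := fun _ => 1) (h := fun y c v => c * f (Function.update v 0 y)) (Rep.const 1)
        ((Rep.var _).mul (rep_update ih)) (fun _ => rfl) (fun y v => Finset.prod_range_succ _ _) ?_)
    obtain ⟨k, hk⟩ := ih.2
    refine ((TB.size.tower k).pow (TB.var none)).of_le fun w => ?_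
    have := Finset.prod_le_pow_card (Finset.range (w none))
      (fun i => f (Function.update (fun a => w (some a)) 0 i)) (tw k (sz w)) (fun i hi => by
        refine (hk _).trans (tw_mono_right k ((sz_update _ _).trans ?_))
        rw [sz_option w]
        have := Finset.mem_range.mp hi
        omega)
    simpa using this

/-- Prepending a list to a coded list. -/
def fold (l : List ℕ) (c : ℕ) : ℕ := l.foldr (fun a c => Nat.pair a c + 1) c

theorem fold_append (l l' : List ℕ) (c : ℕ) : fold (l ++ l') c = fold l (fold l' c) :=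
  List.foldr_append

theorem encode_eq_fold (l : List ℕ) : Encodable.encode l = fold l 0 := by
  induction l with
  | nil => rfl
  | cons a l ih => rw [Encodable.encode_list_cons, ih]; rfl

theorem fold_le (l : List ℕ) (c : ℕ) : fold l c + 1 ≤ (c + l.sum + 2) ^ 3 ^ l.length := by
  induction l with
  | nil => simp [fold]
  | cons a l ih =>
    have h1 : fold (a :: l) c = Nat.pair a (fold l c) + 1 := rfl
    set Y := (c + (a :: l).sum + 2) ^ 3 ^ l.length with hY
    have h2 : c + (a :: l).sum + 2 ≤ Y := Nat.le_self_pow (by positivity) _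
    have h3 : fold l c + 1 ≤ Y :=
      ih.trans (Nat.pow_le_pow_left (by rw [List.sum_cons]; omega) _)
    have h4 : max a (fold l c) + 1 ≤ Y := by
      rw [List.sum_cons] at h2
      omega
    have h5 := Nat.pair_lt_max_add_one_sq a (fold l c)
    have h6 : (max a (fold l c) + 1) ^ 2 ≤ Y ^ 2 := Nat.pow_le_pow_left h4 2
    have h7 : Y ^ 2 + 1 ≤ Y ^ 3 := by
      have : 2 ≤ Y := by omega
      nlinarith [Nat.pow_le_pow_left this 2]
    rw [h1, List.length_cons, pow_succ 3, pow_mul, ← hY]
    omega

/-- Represented families of lists. -/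
def RepL (l : (ι → ℕ) → List ℕ) : Prop :=
  Rep (fun w : Option ι → ℕ => fold (l (fun a => w (some a))) (w none)) ∧
    TB (fun v => (l v).length) ∧ TB (fun v => (l v).sum)

namespace RepL

theorem of_eq {f g : (ι → ℕ) → List ℕ} (h : RepL f) (e : ∀ v, f v = g v) : RepL g := by
  have : f = g := funext e
  exact this ▸ h

theorem nil : RepL (fun _ : ι → ℕ => []) := ⟨Rep.var none, TB.const 0, TB.const 0⟩

theorem cons {f : (ι → ℕ) → ℕ} {l : (ι → ℕ) → List ℕ} (hf : Rep f) (hl : RepL l) :
    RepL (fun v => f v :: l v) :=
  ⟨((hf.ren some).pair hl.1).succ, hl.2.1.add (TB.const 1), hf.2.add hl.2.2⟩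

theorem append {l l' : (ι → ℕ) → List ℕ} (hl : RepL l) (hl' : RepL l') :
    RepL (fun v => l v ++ l' v) := by
  refine ⟨(hl.1.comp (g := fun (w : Option ι → ℕ) (o : Option ι) =>
    o.elim (fold (l' (fun a => w (some a))) (w none)) (fun a => w (some a))) ?_).of_eq
      (fun w => (fold_append _ _ _).symm), (hl.2.1.add hl'.2.1).of_le (by simp),
      (hl.2.2.add hl'.2.2).of_le (by simp)⟩
  rintro (_ | a)
  · exact hl'.1
  · exact Rep.var _

theorem const (l : List ℕ) : RepL (fun _ : ι → ℕ => l) := by
  induction l with
  | nil => exact nil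
  | cons a l ih => exact cons (Rep.const a) ih

theorem encode {l : (ι → ℕ) → List ℕ} (hl : RepL l) : Rep (fun v => Encodable.encode (l v)) := by
  refine (hl.1.comp (g := fun (v : ι → ℕ) (o : Option ι) => o.elim 0 v) ?_).of_eq
    (fun v => (encode_eq_fold _).symm)
  rintro (_ | a)
  · exact Rep.const 0
  · exact Rep.var _

theorem flatMap_list {β : Type} {g : β → (ι → ℕ) → List ℕ} (hg : ∀ j, RepL (g j)) (s : List β) :
    RepL (fun v => s.flatMap (fun j => g j v)) := by
  induction s with
  | nil => exact nil
  | cons a s ih => exact ((hg a).append ih).of_eq (by simp)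

theorem map_list {β : Type} {g : β → (ι → ℕ) → ℕ} (hg : ∀ j, Rep (g j)) (s : List β) :
    RepL (fun v => s.map (fun j => g j v)) := by
  induction s with
  | nil => exact nil
  | cons a s ih => exact (cons (hg a) ih).of_eq (by simp)

theorem sum_bound {g : ℕ → (ι → ℕ) → ℕ} {m : (ι → ℕ) → ℕ} (hm : TB m)
    (hg : TB (fun w : Option ι → ℕ => g (w none) (fun a => w (some a)))) :
    ∃ b : (ι → ℕ) → ℕ, TB b ∧ ∀ v i, i ≤ m v → g i v ≤ b v := by
  obtain ⟨k, hk⟩ := hg
  refine ⟨_, (hm.add TB.size).tower k, fun v i hi => ?_⟩
  refine (hk (fun o => o.elim i v)).trans (tw_mono_right k ?_)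
  rw [sz_option]
  show i + sz v ≤ m v + sz v
  omega

theorem flatMap_range {m : (ι → ℕ) → ℕ} {l : ℕ → (ι → ℕ) → List ℕ} (hm : Rep m)
    (hl : RepL (fun w : Option ι → ℕ => l (w none) (fun a => w (some a)))) :
    RepL (fun v => (List.range (m v)).flatMap (fun j => l j v)) := by
  obtain ⟨b1, hb1, h1⟩ := sum_bound (g := fun i v => (l i v).length) hm.2 hl.2.1
  obtain ⟨b2, hb2, h2⟩ := sum_bound (g := fun i v => (l i v).sum) hm.2 hl.2.2
  let R : ℕ → (ι → ℕ) → List ℕ := fun y v =>
    ((List.range y).map (fun i => m v - 1 - i)).reverse.flatMap (fun j => l j v)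
  have hR : ∀ y v, R (y + 1) v = l (m v - 1 - y) v ++ R y v := by
    intro y v
    simp [R, List.range_succ]
  have hlen : ∀ y v, (R y v).length ≤ y * b1 v ∧ (R y v).sum ≤ y * b2 v := by
    intro y v
    induction y with
    | zero => simp [R]
    | succ y ih =>
      have := h1 v (m v - 1 - y) (by omega)
      have := h2 v (m v - 1 - y) (by omega)
      rw [hR, List.length_append, List.sum_append, add_mul, add_mul]
      omega
  have hfull : ∀ v, R (m v) v = (List.range (m v)).flatMap (fun j => l j v) := by
    intro v
    simp only [R]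
    congr 1
    rw [List.range_eq_range', List.reverse_eq_iff, List.reverse_range']
    simp [List.range_eq_range']
  have hs : ∀ {b : (ι → ℕ) → ℕ}, TB b →
      TB (fun w : Option (Option ι) → ℕ => b (fun a => w (some (some a)))) :=
    fun hb => hb.comp (fun a => TB.var _)
  have hF : Rep (fun w : Option (Option ι) → ℕ =>
      fold (R (w none) (fun a => w (some (some a)))) (w (some none))) := by
    refine Rep.rec' (F := fun y (u : Option ι → ℕ) => fold (R y (fun a => u (some a))) (u none))
      (g := fun u => u none)
      (h := fun y c u => fold (l (m (fun a => u (some a)) - 1 - y) (fun a => u (some a))) c)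
      (Rep.var none) (hl.1.comp (g := fun (w : Option (Option (Option ι)) → ℕ) o =>
        o.elim (w (some none)) (fun o' => o'.elim
          (m (fun a => w (some (some (some a)))) - 1 - w none)
          (fun a => w (some (some (some a)))))) ?_) (fun _ => rfl)
      (fun y u => by rw [hR, fold_append]) ?_
    · rintro (_ | _ | a)
      · exact Rep.var _
      · exact ((hm.ren _).sub (Rep.const 1)).sub (Rep.var _)
      · exact Rep.var _
    · refine ((((TB.var (some none)).add ((TB.var none).mul (hs hb2))).add (TB.const 2)).pow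
        ((TB.const 3).pow ((TB.var none).mul (hs hb1)))).of_le fun w => ?_
      have h3 := hlen (w none) (fun a => w (some (some a)))
      refine (Nat.le_succ _).trans ((fold_le (R (w none) (fun a => w (some (some a))))
        (w (some none))).trans ?_)
      exact (Nat.pow_le_pow_left (by omega) _).trans
        (Nat.pow_le_pow_right (by omega) (Nat.pow_le_pow_right (by norm_num) h3.1))
  refine ⟨(hF.comp (g := fun (w : Option ι → ℕ) o =>
    o.elim (m (fun a => w (some a))) w) ?_).of_eq (fun w => ?_), (hm.2.mul hb1).of_le fun v => ?_,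
    (hm.2.mul hb2).of_le fun v => ?_⟩
  · rintro (_ | a)
    · exact hm.ren _
    · exact Rep.var _
  · beta_reduce
    rw [← hfull]
    rfl
  · beta_reduce
    rw [← hfull]
    exact (hlen _ _).1
  · beta_reduce
    rw [← hfull]
    exact (hlen _ _).2

theorem replicate {m : (ι → ℕ) → ℕ} (hm : Rep m) (a : ℕ) :
    RepL (fun v => List.replicate (m v) a) := by
  refine (flatMap_range (l := fun _ _ => [a]) hm (const [a])).of_eq (fun v => ?_)
  induction m v with
  | zero => rfl
  | succ n ih => rw [List.range_succ, List.flatMap_append, ih, List.replicate_succ']; rfl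

end RepL

end Pool.Agent.Work.MP_db9079_lc.NE
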