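import Pool.Agent.Work.MP_db9079_lc.NEField

/-!
Translation of bounded arithmetic and the diagonal argument.
-/

namespace Pool.Agent.Work.MP_db9079_lc.NE

open FirstOrder FirstOrder.Language

universe u v

variable {L : FirstOrder.Language.{u, v}}

/-- Positions of the blocks of four numbers. -/
def apos (n D : ℕ) (h : n < D) (x : Fin 4 → ℕ) (q : Fin 4 × Fin 5) : Fin D :=
  ⟨min (n + 1 + 5 * x q.1 + q.2) (D - 1), by omega⟩

/-- The translation of arithmetic formulas. -/
def tr (Φ : Fam L (Fin 4 × Fin 5)) (n : ℕ) : BF → (D : ℕ) → n < D → L.BoundedFormula Empty D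
  | .fls, _, _ => BoundedFormula.falsum
  | .imp φ ψ, D, h => BoundedFormula.imp (tr Φ n φ D h) (tr Φ n ψ D h)
  | .all φ, D, h => allN 5 (tr Φ n φ (D + 5) (by omega))
  | .atom x y z w, D, h => Φ n 0 D h (apos n D h ![x, y, z, w])

variable {p : ℕ} [hp : Fact p.Prime]

theorem realize_tr [L.Structure (LaurentSeries (ZMod p))] {Φ : Fam L (Fin 4 × Fin 5)}
    (hΦ : Defs Φ (fun j (w : Fin 4 × Fin 5 → LaurentSeries (ZMod p)) =>
      num j.1 j.2.2 (fun b => w (0, b)) * num j.1 j.2.2 (fun b => w (1, b)) +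
        num j.1 j.2.2 (fun b => w (2, b)) = num j.1 j.2.2 (fun b => w (3, b))))
    (n : ℕ) (ε : Empty → LaurentSeries (ZMod p)) (φ : BF) : ∀ (j D : ℕ) (h : n < D)
      (hD : D = n + 1 + 5 * j) (xs : Fin D → LaurentSeries (ZMod p)) (s : ℕ → ℕ), φ.wf j →
      (∀ (x : ℕ) (hx : x < j), s x = num n (par n h xs)
        (fun b => xs ⟨n + 1 + 5 * x + b, by have := b.2; omega⟩)) →
      ((tr Φ n φ D h).Realize ε xs ↔ φ.ev (tset (par n h xs) n).ncard j s) := by
  induction φ with
  | fls => intro _ _ _ _ _ _ _ _; exact Iff.rfl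
  | imp φ ψ ih1 ih2 =>
    intro j D h hD xs s hw hs
    exact imp_congr (ih1 j D h hD xs s hw.1 hs) (ih2 j D h hD xs s hw.2 hs)
  | all φ ih =>
    intro j D h hD xs s hw hs
    have key : ∀ u : Fin 5 → LaurentSeries (ZMod p),
        (tr Φ n φ (D + 5) (by omega)).Realize ε (Fin.append xs u) ↔
          φ.ev (tset (par n h xs) n).ncard (j + 1) (Function.update s j (num n (par n h xs) u)) := by
      intro u
      rw [ih (j + 1) (D + 5) (by omega) (by omega) (Fin.append xs u)
        (Function.update s j (num n (par n h xs) u)) hw ?_, par_append n h]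
      intro x hx
      rw [par_append n h]
      by_cases hxj : x = j
      · subst hxj
        rw [Function.update_self]
        congr 1
        funext b
        subst hD
        exact (app_add xs u b _).symm
      · rw [Function.update_of_ne hxj, hs x (by omega)]
        congr 1
        funext b
        exact (app_lt xs u _ _ _).symm
    rw [tr, realize_allN']
    simp only [key]
    constructor
    · intro H y hy
      obtain ⟨u, rfl⟩ := exists_num n _ hy
      exact H u
    · intro H u
      exact H _ (num_le _ _ _)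
  | atom x y z w =>
    intro j D h hD xs s hw hs
    obtain ⟨h1, h2, h3, h4⟩ := hw
    have key : ∀ (i : Fin 4) (c : ℕ), c < j → ![x, y, z, w] i = c →
        num n (par n h xs) (fun b => xs (apos n D h ![x, y, z, w] (i, b))) = s c := by
      intro i c hc hi
      rw [hs c hc]
      congr 1
      funext b
      congr 1
      apply Fin.ext
      have := b.2
      simp only [apos, hi]
      omega
    rw [tr, hΦ]
    dsimp only
    rw [key 0 x h1 rfl, key 1 y h2 rfl, key 2 z h3 rfl, key 3 w h4 rfl]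
    rfl

variable [Encodable (Σ i, L.Functions i)] [Encodable (Σ i, L.Relations i)]

/-- The tokens produced by one instruction. -/
def block (Φ : Fam L (Fin 4 × Fin 5)) (n c : ℕ) : List ℕ :=
  (List.range (Nat.beta c 0)).flatMap (fun _ =>
    enc (BoundedFormula.falsum : L.BoundedFormula Empty (n + 1 + 5 * Nat.beta c 4))) ++
  (List.replicate (Nat.beta c 1) 3 ++ (List.replicate (Nat.beta c 2) 7 ++
  (List.range (Nat.beta c 3)).flatMap (fun _ => enc (Φ n 0 (n + 1 + 5 * Nat.beta c 4) (by omega)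
    (apos n _ (by omega) (fun i => Nat.beta c (5 + i)))))))

theorem exists_instr (s : Fin 9 → ℕ) : ∃ c, ∀ i : Fin 9, Nat.beta c i = s i := by
  obtain ⟨c, hc⟩ := exists_beta (fun i => if h : i < 9 then s ⟨i, h⟩ else 0) 9
  exact ⟨c, fun i => by rw [hc i (by omega), dif_pos i.2]⟩

theorem exists_instrs (Φ : Fam L (Fin 4 × Fin 5)) (φ : BF) : ∀ j, ∃ l : List ℕ,
    ∀ n D (h : n < D), D = n + 1 + 5 * j → enc (tr Φ n φ D h) = l.flatMap (block Φ n) := by
  induction φ with
  | fls =>
    intro j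
    obtain ⟨c, hc⟩ := exists_instr ![1, 0, 0, 0, j, 0, 0, 0, 0]
    refine ⟨[c], fun n D h hD => ?_⟩
    have h0 : Nat.beta c 0 = 1 := hc 0
    have h1 : Nat.beta c 1 = 0 := hc 1
    have h2 : Nat.beta c 2 = 0 := hc 2
    have h3 : Nat.beta c 3 = 0 := hc 3
    have h4 : Nat.beta c 4 = j := hc 4
    subst h4 hD
    simp [block, h0, h1, h2, h3, tr]
  | imp φ ψ ih1 ih2 =>
    intro j
    obtain ⟨c, hc⟩ := exists_instr ![0, 1, 0, 0, 0, 0, 0, 0, 0]
    obtain ⟨l1, hl1⟩ := ih1 j
    obtain ⟨l2, hl2⟩ := ih2 j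
    refine ⟨c :: (l1 ++ l2), fun n D h hD => ?_⟩
    have h0 : Nat.beta c 0 = 0 := hc 0
    have h1 : Nat.beta c 1 = 1 := hc 1
    have h2 : Nat.beta c 2 = 0 := hc 2
    have h3 : Nat.beta c 3 = 0 := hc 3
    rw [tr, enc_imp, hl1 n D h hD, hl2 n D h hD]
    simp [block, h0, h1, h2, h3]
  | all φ ih =>
    intro j
    obtain ⟨c, hc⟩ := exists_instr ![0, 0, 5, 0, 0, 0, 0, 0, 0]
    obtain ⟨l1, hl1⟩ := ih (j + 1)
    refine ⟨c :: l1, fun n D h hD => ?_⟩
    have h0 : Nat.beta c 0 = 0 := hc 0
    have h1 : Nat.beta c 1 = 0 := hc 1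
    have h2 : Nat.beta c 2 = 5 := hc 2
    have h3 : Nat.beta c 3 = 0 := hc 3
    rw [tr, enc_allN, hl1 n (D + 5) (by omega) (by omega)]
    simp [block, h0, h1, h2, h3]
  | atom x y z w =>
    intro j
    obtain ⟨c, hc⟩ := exists_instr ![0, 0, 0, 1, j, x, y, z, w]
    refine ⟨[c], fun n D h hD => ?_⟩
    have h0 : Nat.beta c 0 = 0 := hc 0
    have h1 : Nat.beta c 1 = 0 := hc 1
    have h2 : Nat.beta c 2 = 0 := hc 2
    have h3 : Nat.beta c 3 = 1 := hc 3
    have h4 : Nat.beta c 4 = j := hc 4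
    have h5 : ![x, y, z, w] = fun i : Fin 4 => Nat.beta c (5 + i) := by
      funext i
      fin_cases i
      · exact (hc 5).symm
      · exact (hc 6).symm
      · exact (hc 7).symm
      · exact (hc 8).symm
    subst h4 hD
    rw [tr, h5]
    simp [block, h0, h1, h2, h3]

theorem repL_block {Φ : Fam L (Fin 4 × Fin 5)} (hΦ : Good Φ) {ι : Type} [Fintype ι]
    {n c : (ι → ℕ) → ℕ} (hn : Rep n) (hc : Rep c) : RepL (fun v => block Φ (n v) (c v)) := by
  have hD : Rep (fun w : Option ι → ℕ => n (fun a => w (some a)) + 1 +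
      5 * Nat.beta (c (fun a => w (some a))) 4) :=
    (hn.ren some).succ.add ((Rep.const 5).mul ((hc.ren some).beta (Rep.const 4)))
  refine (RepL.flatMap_range (l := fun _ v => enc (BoundedFormula.falsum :
    L.BoundedFormula Empty (n v + 1 + 5 * Nat.beta (c v) 4))) (hc.beta (Rep.const 0))
    (repL_fls hD)).append ((RepL.replicate (hc.beta (Rep.const 1)) 3).append
      ((RepL.replicate (hc.beta (Rep.const 2)) 7).append (RepL.flatMap_range
        (l := fun _ v => enc (Φ (n v) 0 (n v + 1 + 5 * Nat.beta (c v) 4) (by omega)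
          (apos (n v) _ (by omega) (fun i => Nat.beta (c v) (5 + i))))) (hc.beta (Rep.const 3))
        (hΦ _ _ _ _ _ _ (hn.ren some) (Rep.const 0) hD (fun q => ?_)))))
  exact (((hn.ren some).succ.add ((Rep.const 5).mul ((hc.ren some).beta
    (Rep.const (5 + q.1))))).add (Rep.const q.2)).min (hD.sub (Rep.const 1))

/-- The diagonal sentence. -/
def dsent (Φ : Fam L (Fin 4 × Fin 5)) (Ψ : Fam L (Fin 5)) (m : ℕ) (φ : BF) : L.Sentence :=
  allN (m + 1) (allN 5 (BoundedFormula.imp
    (Ψ m m (0 + (m + 1) + 5) (by omega) (fun b => ⟨0 + (m + 1) + b, by have := b.2; omega⟩))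
    (BoundedFormula.imp (tr Φ m φ (0 + (m + 1) + 5) (by omega)) BoundedFormula.falsum)))

/-- The tokens of the diagonal sentence, computed from a number. -/
def dtok (Φ : Fam L (Fin 4 × Fin 5)) (Ψ : Fam L (Fin 5)) (m : ℕ) : List ℕ :=
  List.replicate (m + 1) 7 ++ (List.replicate 5 7 ++ 3 ::
    (enc (Ψ m m (0 + (m + 1) + 5) (by omega) (fun b => ⟨0 + (m + 1) + b, by have := b.2; omega⟩))
      ++ 3 :: ((List.range m.unpair.1.unpair.2).flatMap
        (fun i => block Φ m (Nat.beta m.unpair.1.unpair.1 i)) ++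
        enc (BoundedFormula.falsum : L.BoundedFormula Empty (0 + (m + 1) + 5)))))

theorem repL_dtok {Φ : Fam L (Fin 4 × Fin 5)} {Ψ : Fam L (Fin 5)} (hΦ : Good Φ) (hΨ : Good Ψ) :
    RepL (fun v : Fin 1 → ℕ => dtok Φ Ψ (v 0)) := by
  have hm : Rep (fun v : Fin 1 → ℕ => v 0) := Rep.var 0
  have h1 := (Rep.const 0).add hm.succ
  have h2 : Rep (fun w : Option (Fin 1) → ℕ => w (some 0)) := Rep.var _
  have h3 : RepL (fun w : Option (Fin 1) → ℕ => block Φ (w (some 0))
      (Nat.beta (w (some 0)).unpair.1.unpair.1 (w none))) :=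
    repL_block hΦ h2 (h2.left.left.beta (Rep.var none))
  unfold dtok
  exact (RepL.replicate hm.succ 7).append ((RepL.const _).append (RepL.cons (Rep.const 3)
    ((hΨ _ _ _ _ _ _ hm hm (h1.add (Rep.const 5)) (fun b => h1.add (Rep.const b))).append
      (RepL.cons (Rep.const 3) ((RepL.flatMap_range
        (l := fun i v => block Φ (v 0) (Nat.beta (v 0).unpair.1.unpair.1 i)) hm.left.right
        h3).append
        (repL_fls (h1.add (Rep.const 5))))))))

theorem exists_dtok (Φ : Fam L (Fin 4 × Fin 5)) (Ψ : Fam L (Fin 5)) (φ : BF) (k : ℕ) :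
    ∃ m, k ≤ m ∧ enc (dsent Φ Ψ m φ) = dtok Φ Ψ m := by
  obtain ⟨l, hl⟩ := exists_instrs Φ φ 1
  obtain ⟨e, he⟩ := exists_beta (fun i => l.getD i 0) l.length
  refine ⟨Nat.pair (Nat.pair e l.length) k, Nat.right_le_pair _ _, ?_⟩
  have h1 : l = (List.range l.length).map (Nat.beta e) := by
    apply List.ext_getElem
    · simp
    · intro i h1 h2
      simp [he i h1.le, h1]
  have h2 : ∀ n, l.flatMap (block Φ n) =
      (List.range l.length).flatMap (fun i => block Φ n (Nat.beta e i)) := by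
    intro n
    conv_lhs => rw [h1, List.flatMap_map]
  rw [dsent, enc_allN, enc_allN, enc_imp, enc_imp, hl _ _ _ (by omega), dtok, Nat.unpair_pair,
    Nat.unpair_pair, h2]

theorem main_ne [L.Structure (LaurentSeries (ZMod p))] (h : HV p L) {f : (Fin 1 → ℕ) → ℕ}
    (hf : Elementary f) (hT : ∀ σ : L.Sentence,
      f ![Encodable.encode σ.listEncode] = 0 ↔ LaurentSeries (ZMod p) ⊨ σ) : False := by
  obtain ⟨Φ, gΦ, dΦ⟩ := h.dAtom
  obtain ⟨Ψ, gΨ, dΨ⟩ := h.dNum
  have hP : SP (fun v : Fin 1 → ℕ => f ![Encodable.encode (dtok Φ Ψ (v 0))] = 0) :=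
    SP.eq ((rep_of_elementary hf).comp (g := fun v => ![Encodable.encode (dtok Φ Ψ (v 0))])
      (fun b => by fin_cases b; exact (repL_dtok gΦ gΨ).encode)) (Rep.const 0)
  obtain ⟨G, hG, hs, k, hk⟩ := hP
  obtain ⟨φ, hw, hφ⟩ := hG 1 (fun _ => 0) (fun _ => Nat.one_pos)
  obtain ⟨m, hm, hmt⟩ := exists_dtok Φ Ψ φ (2 * k + 2)
  have h1 := hT (dsent Φ Ψ m φ)
  rw [encode_list_map, show (dsent Φ Ψ m φ).listEncode.map Encodable.encode = dtok Φ Ψ m from hmt]
    at h1
  have key : ∀ (ε : Empty → LaurentSeries (ZMod p))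
      (xs : Fin (0 + (m + 1)) → LaurentSeries (ZMod p))
      (u : Fin 5 → LaurentSeries (ZMod p)), (BoundedFormula.imp
      (Ψ m m (0 + (m + 1) + 5) (by omega) (fun b => ⟨0 + (m + 1) + b, by have := b.2; omega⟩))
      (BoundedFormula.imp (tr Φ m φ (0 + (m + 1) + 5) (by omega)) BoundedFormula.falsum)).Realize
        ε (Fin.append xs u) ↔ (num m (par m (by omega) xs) u = m →
          ¬ G (tset (par m (by omega) xs) m).ncard (fun _ => m)) := by
    intro ε xs u
    have hu : (fun b : Fin 5 => Fin.append xs u ⟨0 + (m + 1) + b, by have := b.2; omega⟩) = u :=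
      funext fun b => app_add xs u b _
    rw [BoundedFormula.realize_imp, BoundedFormula.realize_imp, dΨ, par_append m (by omega), hu]
    refine imp_congr_right fun hnum => ?_
    rw [realize_tr dΦ m ε φ 1 _ _ (by omega) _ (fun _ => m) hw ?_, hφ,
      par_append m (by omega)]
    · rfl
    · intro x hx
      rw [par_append m (by omega)]
      refine Eq.trans (Eq.symm hnum) ?_
      dsimp only
      congr 1
      funext b
      rw [← app_add xs u b (by have := b.2; omega)]
      congr 2
      omega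
  have h2 : LaurentSeries (ZMod p) ⊨ dsent Φ Ψ m φ ↔
      ∀ (xs : Fin (0 + (m + 1)) → LaurentSeries (ZMod p)) (u : Fin 5 → LaurentSeries (ZMod p)),
        num m (par m (by omega) xs) u = m →
          ¬ G (tset (par m (by omega) xs) m).ncard (fun _ => m) := by
    unfold dsent Sentence.Realize Formula.Realize
    rw [realize_allN']
    constructor
    · intro H xs u
      have H1 := H (fun i => xs ⟨i, by have := i.2; omega⟩)
      rw [realize_allN'] at H1
      have H2 := H1 u
      rw [key] at H2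
      have e1 : ∀ x0 : Fin 0 → LaurentSeries (ZMod p), Fin.append x0
          (fun i : Fin (m + 1) => xs ⟨i, by have := i.2; omega⟩) = xs := by
        intro x0
        funext i
        refine Fin.addCases (fun i => i.elim0) (fun i => ?_) i
        rw [Fin.append_right]
        congr 1
        exact Fin.ext (by simp)
      rwa [e1] at H2
    · intro H a
      rw [realize_allN']
      intro u
      rw [key]
      exact H _ u
  have hn : ¬ f ![Encodable.encode (dtok Φ Ψ m)] = 0 := by
    intro h3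
    obtain ⟨a, ha⟩ := exists_tset_big (p := p) m
    have e1 : tset (par m (by omega) (fun i : Fin (0 + (m + 1)) => a i)) m = tset a m :=
      tset_congr m (fun j hj => by simp [par, hj.le])
    have h4 : tw k m ≤ (tset (par m (by omega) (fun i : Fin (0 + (m + 1)) => a i)) m).ncard := by
      rw [e1]
      exact (tw_big k m hm).trans ha
    obtain ⟨u, hu⟩ := exists_num m _ ((le_tw k m).trans h4)
    exact h2.mp (h1.mp h3) _ u hu (hk _ (fun _ => m) h3 (by simpa [sz] using h4))
  exact hn (h1.mpr (h2.mpr fun xs u _ hG' => hn (hs _ _ hG')))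

end Pool.Agent.Work.MP_db9079_lc.NE
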