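import Mathlib.Logic.Godel.GodelBetaFunction
import Mathlib.Data.Fintype.Option
import Mathlib.Data.Fintype.Sum
import Mathlib.Data.Fintype.BigOperators
import Mathlib.Algebra.Order.BigOperators.Group.Finset
import Mathlib.Tactic

/-!
Towers of exponentials and functions bounded by them.
-/

namespace Pool.Agent.Work.MP_db9079_lc.NE

/-- Iterated exponential. -/
def tw : ℕ → ℕ → ℕ
  | 0, x => x
  | k + 1, x => 2 ^ tw k x

theorem tw_lt_succ (k x : ℕ) : tw k x < tw (k + 1) x := Nat.lt_two_pow_self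

theorem tw_mono_left {j k : ℕ} (h : j ≤ k) (x : ℕ) : tw j x ≤ tw k x :=
  monotone_nat_of_le_succ (f := fun k => tw k x) (fun k => (tw_lt_succ k x).le) h

theorem le_tw (k x : ℕ) : x ≤ tw k x := tw_mono_left (Nat.zero_le k) x

theorem tw_mono_right (k : ℕ) {x y : ℕ} (h : x ≤ y) : tw k x ≤ tw k y := by
  induction k with
  | zero => exact h
  | succ k ih => exact Nat.pow_le_pow_right (by norm_num) ih

theorem tw_mono {j k x y : ℕ} (h : j ≤ k) (h' : x ≤ y) : tw j x ≤ tw k y :=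
  (tw_mono_left h x).trans (tw_mono_right k h')

theorem tw_add (j k x : ℕ) : tw j (tw k x) = tw (j + k) x := by
  induction j with
  | zero => simp [tw]
  | succ j ih => rw [tw, ih, Nat.add_right_comm, tw]

theorem le_tw_left (k x : ℕ) : k ≤ tw k x := by
  induction k with
  | zero => exact Nat.zero_le _
  | succ k ih => exact Nat.succ_le_of_lt (lt_of_le_of_lt ih (tw_lt_succ k x))

theorem two_mul_le_two_pow (x : ℕ) : 2 * x ≤ 2 ^ x := by
  cases x with
  | zero => simp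
  | succ x =>
    rw [pow_succ]
    have := @Nat.lt_two_pow_self x
    omega

theorem mul_self_le (x : ℕ) : x * x ≤ 2 ^ 2 ^ x := by
  calc x * x ≤ 2 ^ x * 2 ^ x := Nat.mul_le_mul Nat.lt_two_pow_self.le Nat.lt_two_pow_self.le
    _ = 2 ^ (2 * x) := by rw [← pow_add, two_mul]
    _ ≤ 2 ^ 2 ^ x := Nat.pow_le_pow_right (by norm_num) (two_mul_le_two_pow x)

theorem tw_big (k m : ℕ) (h : 2 * k + 2 ≤ m) : tw k m ≤ tw m 0 := by
  obtain ⟨j, rfl⟩ : ∃ j, m = k + (j + 1) := ⟨m - k - 1, by omega⟩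
  rw [← tw_add]
  apply tw_mono_right
  calc k + (j + 1) ≤ 2 * j := by omega
    _ ≤ 2 ^ j := two_mul_le_two_pow j
    _ ≤ 2 ^ tw j 0 := Nat.pow_le_pow_right (by norm_num) (le_tw_left j 0)

variable {ι κ : Type} [Fintype ι] [Fintype κ]

/-- The size of a tuple. -/
def sz (v : ι → ℕ) : ℕ := ∑ a, v a

theorem le_sz (v : ι → ℕ) (a : ι) : v a ≤ sz v :=
  Finset.single_le_sum (f := v) (fun _ _ => Nat.zero_le _) (Finset.mem_univ a)

theorem sz_option (v : Option ι → ℕ) : sz v = v none + sz (fun a => v (some a)) :=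
  Fintype.sum_option v

theorem sz_elim (v : ι → ℕ) (u : κ → ℕ) : sz (Sum.elim v u) = sz v + sz u := by
  simp [sz, Fintype.sum_sum_type]

theorem sz_mono {v u : ι → ℕ} (h : ∀ a, v a ≤ u a) : sz v ≤ sz u :=
  Finset.sum_le_sum fun a _ => h a

/-- Functions bounded by a tower of fixed height. -/
def TB (f : (ι → ℕ) → ℕ) : Prop := ∃ k, ∀ v, f v ≤ tw k (sz v)

namespace TB

theorem of_le {f g : (ι → ℕ) → ℕ} (hg : TB g) (h : ∀ v, f v ≤ g v) : TB f := by
  obtain ⟨k, hk⟩ := hg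
  exact ⟨k, fun v => (h v).trans (hk v)⟩

theorem size : TB (fun v : ι → ℕ => sz v) := ⟨0, fun _ => le_rfl⟩

theorem var (a : ι) : TB (fun v : ι → ℕ => v a) := ⟨0, fun v => le_sz v a⟩

theorem const (c : ℕ) : TB (fun _ : ι → ℕ => c) := ⟨c, fun _ => le_tw_left _ _⟩

theorem tower {f : (ι → ℕ) → ℕ} (hf : TB f) (j : ℕ) : TB (fun v => tw j (f v)) := by
  obtain ⟨k, hk⟩ := hf
  exact ⟨j + k, fun v => by rw [← tw_add]; exact tw_mono_right j (hk v)⟩

theorem two {f g : (ι → ℕ) → ℕ} (hf : TB f) (hg : TB g) :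
    ∃ k, ∀ v, f v ≤ tw k (sz v) ∧ g v ≤ tw k (sz v) := by
  obtain ⟨k, hk⟩ := hf
  obtain ⟨j, hj⟩ := hg
  exact ⟨max k j, fun v => ⟨(hk v).trans (tw_mono_left (le_max_left _ _) _),
    (hj v).trans (tw_mono_left (le_max_right _ _) _)⟩⟩

theorem add {f g : (ι → ℕ) → ℕ} (hf : TB f) (hg : TB g) : TB (fun v => f v + g v) := by
  obtain ⟨k, hk⟩ := two hf hg
  refine ⟨k + 1, fun v => ?_⟩
  have := two_mul_le_two_pow (tw k (sz v))
  have := hk v
  show f v + g v ≤ 2 ^ tw k (sz v)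
  omega

theorem mul {f g : (ι → ℕ) → ℕ} (hf : TB f) (hg : TB g) : TB (fun v => f v * g v) := by
  obtain ⟨k, hk⟩ := two hf hg
  exact ⟨k + 2, fun v => (Nat.mul_le_mul (hk v).1 (hk v).2).trans (mul_self_le _)⟩

theorem pow {f g : (ι → ℕ) → ℕ} (hf : TB f) (hg : TB g) : TB (fun v => f v ^ g v) := by
  refine ((hf.mul hg).tower 1).of_le fun v => ?_
  rw [tw, tw, pow_mul]
  exact Nat.pow_le_pow_left Nat.lt_two_pow_self.le _

theorem sum {β : Type} (s : Finset β) {g : β → (ι → ℕ) → ℕ} (hg : ∀ b, TB (g b)) :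
    TB (fun v => ∑ b ∈ s, g b v) := by
  classical
  induction s using Finset.induction_on with
  | empty => simpa using const 0
  | insert a s ha ih => simpa [Finset.sum_insert ha] using (hg a).add ih

theorem comp {f : (κ → ℕ) → ℕ} (hf : TB f) {g : (ι → ℕ) → κ → ℕ}
    (hg : ∀ b, TB (fun v => g v b)) : TB (fun v => f (g v)) := by
  obtain ⟨k, hk⟩ := hf
  exact ((sum Finset.univ hg).tower k).of_le fun v => hk _

end TB

theorem exists_beta_le (s : ℕ → ℕ) (n M : ℕ) (h : ∀ i, i ≤ n → s i ≤ M) :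
    ∃ c, c ≤ (((n + 1) * (n + M + 1) ^ (n + M + 1) + 1) ^ (n + 1) +
      (n + M + 1) ^ (n + M + 1) + 1) ^ 2 ∧ ∀ i, i ≤ n → Nat.beta c i = s i := by
  set a := (n + M + 1).factorial with ha
  have hA : a ≤ (n + M + 1) ^ (n + M + 1) := Nat.factorial_le_pow _
  have hs : ∀ i ∈ Finset.range (n + 1), (i + 1) * a + 1 ≠ 0 := fun _ _ => Nat.succ_ne_zero _
  have key : ∀ i j, i < j → j ≤ n → Nat.Coprime ((i + 1) * a + 1) ((j + 1) * a + 1) := by
    intro i j hij hj
    exact Nat.coprime_mul_succ (Nat.dvd_factorial (by omega) (by omega))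
  have pp : Set.Pairwise (Finset.range (n + 1) : Set ℕ)
      (Function.onFun Nat.Coprime (fun i => (i + 1) * a + 1)) := by
    intro i hi j hj hij
    simp only [Finset.coe_range, Set.mem_Iio] at hi hj
    rcases lt_or_gt_of_ne hij with h1 | h1
    · exact key i j h1 (by omega)
    · exact (key j i h1 (by omega)).symm
  let c := Nat.chineseRemainderOfFinset s (fun i => (i + 1) * a + 1) (Finset.range (n + 1)) hs pp
  have hc : (c : ℕ) < ∏ i ∈ Finset.range (n + 1), ((i + 1) * a + 1) :=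
    Nat.chineseRemainderOfFinset_lt_prod s _ hs pp
  have hp : ∏ i ∈ Finset.range (n + 1), ((i + 1) * a + 1) ≤
      ((n + 1) * (n + M + 1) ^ (n + M + 1) + 1) ^ (n + 1) := by
    have := Finset.prod_le_pow_card (Finset.range (n + 1)) (fun i => (i + 1) * a + 1)
      ((n + 1) * (n + M + 1) ^ (n + M + 1) + 1) (fun i hi => by
        have : i + 1 ≤ n + 1 := Finset.mem_range.mp hi
        exact Nat.succ_le_succ (Nat.mul_le_mul this hA))
    simpa using this
  refine ⟨Nat.pair c a, ?_, fun i hi => ?_⟩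
  · refine (Nat.pair_lt_max_add_one_sq _ _).le.trans (Nat.pow_le_pow_left ?_ 2)
    have : max (c : ℕ) a ≤ (c : ℕ) + a := max_le (Nat.le_add_right _ _) (Nat.le_add_left _ _)
    omega
  · rw [Nat.beta, Nat.unpair_pair]
    refine Nat.mod_eq_of_modEq (c.2 i (Finset.mem_range.mpr (by omega))) ?_
    have h1 : n + M + 1 ≤ a := Nat.self_le_factorial _
    have h2 := h i hi
    have h3 : a ≤ (i + 1) * a := Nat.le_mul_of_pos_left _ (Nat.succ_pos _)
    show s i < (i + 1) * a + 1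
    omega

end Pool.Agent.Work.MP_db9079_lc.NE
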