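import Pool.Agent.Work.MP_db9079_lc.NEMain

namespace Pool.Agent.Work.MP_db9079_lc.NotElementary

open FirstOrder

universe u v

/-- Let the Laurent series field over `ZMod p` carry a structure for a language in which addition,
multiplication and the valuation ring are definable without parameters. Then no Kalmar elementary
function decides its complete theory. -/
theorem result (p : ℕ) [Fact p.Prime] (L : FirstOrder.Language.{u, v})
    [Encodable (Σ i, L.Functions i)] [Encodable (Σ i, L.Relations i)]
    [L.Structure (LaurentSeries (ZMod p))]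
    (hadd : (∅ : Set (LaurentSeries (ZMod p))).Definable L
      {w : Fin 3 → LaurentSeries (ZMod p) | w 0 + w 1 = w 2})
    (hmul : (∅ : Set (LaurentSeries (ZMod p))).Definable L
      {w : Fin 3 → LaurentSeries (ZMod p) | w 0 * w 1 = w 2})
    (hval : (∅ : Set (LaurentSeries (ZMod p))).Definable L
      {w : Fin 1 → LaurentSeries (ZMod p) | ∀ j : ℤ, j < 0 → (w 0).coeff j = 0}) :
    ¬ ∃ f : (Fin 1 → ℕ) → ℕ, Pool.Agent.Work.MP_db9079_lc.Elementary f ∧ ∀ σ : L.Sentence,
      f ![Encodable.encode (Language.BoundedFormula.listEncode σ)] = 0 ↔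
        Language.Sentence.Realize (LaurentSeries (ZMod p)) σ := by
  rintro ⟨f, hf, hT⟩
  exact Pool.Agent.Work.MP_db9079_lc.NE.main_ne
    ⟨Pool.Agent.Work.MP_db9079_lc.NE.FD.base hadd, Pool.Agent.Work.MP_db9079_lc.NE.FD.base hmul,
      Pool.Agent.Work.MP_db9079_lc.NE.FD.base hval⟩ hf hT

end Pool.Agent.Work.MP_db9079_lc.NotElementary
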