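import Pool.Agent.Work.MP_db9079_lc.RFilt

/-!
Additive polynomials with coefficients in a filtration.
-/

namespace Pool.Agent.Work.MP_db9079_lc

variable {p : ℕ} [hp : Fact p.Prime]

/-- Additive polynomials of degree `< p ^ ν i` in the variable `i`, coefficients of level `a`. -/
inductive IsAP (Φ : Filt p) {I : Type} (ν : I → ℕ) (a : ℕ) : ((I → KK p) → KK p) → Prop
  | zero : IsAP Φ ν a (fun _ => 0)
  | mon (i : I) (k : ℕ) (b : KK p) : k < ν i → b ∈ Φ.R a → IsAP Φ ν a (fun x => b * x i ^ p ^ k)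
  | add {P Q : (I → KK p) → KK p} : IsAP Φ ν a P → IsAP Φ ν a Q → IsAP Φ ν a (fun x => P x + Q x)

/-- Additive polynomials of size `s`. -/
abbrev APs (Φ : Filt p) (s : ℕ) {I : Type} (P : (I → KK p) → KK p) : Prop :=
  IsAP Φ (fun _ => s) s P

/-- The form `∑ b i * x i ^ p ^ (ν i - 1)`. -/
noncomputable def lead {I : Type} [Fintype I] (ν : I → ℕ) (b x : I → KK p) : KK p :=
  ∑ i, b i * x i ^ p ^ (ν i - 1)

namespace IsAP

variable {Φ : Filt p} {I I' : Type} {ν ν' : I → ℕ} {a a' s : ℕ} {P Q : (I → KK p) → KK p}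

theorem congr (h : IsAP Φ ν a P) (e : ∀ x, P x = Q x) : IsAP Φ ν a Q :=
  (funext e : P = Q) ▸ h

theorem mono (h : IsAP Φ ν a P) (hν : ∀ i, ν i ≤ ν' i) (ha : a ≤ a') : IsAP Φ ν' a' P := by
  induction h with
  | zero => exact zero
  | mon i k b hk hb => exact mon i k b (hk.trans_le (hν i)) (Φ.mono ha hb)
  | add _ _ h1 h2 => exact add h1 h2

theorem monos {s' : ℕ} (h : APs Φ s P) (hs : s ≤ s') : APs Φ s' P := h.mono (fun _ => hs) hs

theorem map_zero (h : IsAP Φ ν a P) : P 0 = 0 := by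
  induction h with
  | zero => rfl
  | mon i k b hk hb => simp only [Pi.zero_apply, zero_pow (pp_pos (p := p) k).ne', mul_zero]
  | add _ _ h1 h2 => simp only [h1, h2, add_zero]

theorem map_add (h : IsAP Φ ν a P) (x y : I → KK p) : P (x + y) = P x + P y := by
  induction h with
  | zero => exact (add_zero _).symm
  | mon i k b hk hb => simp only [Pi.add_apply, add_pow_char_pow, mul_add]
  | add _ _ h1 h2 =>
    simp only [h1, h2]
    ring

theorem map_sub (h : IsAP Φ ν a P) (x y : I → KK p) : P (x - y) = P x - P y := by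
  rw [eq_sub_iff_add_eq, ← h.map_add, sub_add_cancel]

theorem map_neg (h : IsAP Φ ν a P) (x : I → KK p) : P (-x) = -P x := by
  rw [← zero_sub, h.map_sub, h.map_zero, zero_sub]

theorem neg (h : IsAP Φ ν a P) : IsAP Φ ν a (fun x => -P x) := by
  induction h with
  | zero => exact zero.congr fun _ => neg_zero.symm
  | mon i k b hk hb => exact (mon i k (-b) hk (neg_mem hb)).congr fun _ => neg_mul _ _
  | add _ _ h1 h2 => exact (add h1 h2).congr fun _ => (neg_add _ _).symm

theorem sub (h : IsAP Φ ν a P) (h' : IsAP Φ ν a Q) : IsAP Φ ν a (fun x => P x - Q x) := by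
  exact (h.add h'.neg).congr fun _ => (sub_eq_add_neg _ _).symm

theorem sum {κ : Type} (S : Finset κ) {F : κ → (I → KK p) → KK p}
    (h : ∀ j ∈ S, IsAP Φ ν a (F j)) : IsAP Φ ν a (fun x => ∑ j ∈ S, F j x) := by
  induction S using Finset.cons_induction with
  | empty => exact zero.congr fun _ => Finset.sum_empty.symm
  | cons j S hj ih =>
    exact ((h j (Finset.mem_cons_self _ _)).add
      (ih fun i hi => h i (Finset.mem_cons_of_mem hi))).congr fun _ => by
        rw [Finset.sum_cons]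

theorem smul {d : KK p} (hd : d ∈ Φ.R a') (h : IsAP Φ ν a P) :
    IsAP Φ ν (a' + a) (fun x => d * P x) := by
  induction h with
  | zero => exact zero.congr fun _ => (mul_zero _).symm
  | mon i k b hk hb => exact (mon i k (d * b) hk (Φ.mul_mem hd hb)).congr fun _ => mul_assoc _ _ _
  | add _ _ h1 h2 => exact (add h1 h2).congr fun _ => (mul_add _ _ _).symm

theorem coord (i : I) (hi : 0 < ν i) : IsAP Φ ν a (fun x => x i) := by
  exact (mon i 0 1 hi (Φ.one_mem' a)).congr fun _ => by simp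

theorem pow (h : IsAP Φ ν a P) (k : ℕ) :
    IsAP Φ (fun i => ν i + k) (p ^ k * a) (fun x => P x ^ p ^ k) := by
  induction h with
  | zero => exact zero.congr fun _ => (zero_pow (pp_pos k).ne').symm
  | mon i j b hj hb =>
    exact (mon i (j + k) (b ^ p ^ k) (Nat.add_lt_add_right hj k) (Φ.pow_mem hb _)).congr fun _ => by
      rw [mul_pow, ← pow_mul, ← pow_add]
  | add _ _ h1 h2 => exact (add h1 h2).congr fun _ => (add_pow_char_pow _ _ _ _).symm

theorem comp {μ : I' → ℕ} {S : (I' → KK p) → I → KK p} (h : IsAP Φ ν a P)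
    (hS : ∀ i k, k < ν i → IsAP Φ μ a' (fun x => S x i ^ p ^ k)) :
    IsAP Φ μ (a + a') (fun x => P (S x)) := by
  induction h with
  | zero => exact zero
  | mon i k b hk hb => exact (hS i k hk).smul hb
  | add _ _ h1 h2 => exact add h1 h2

theorem comp_size {s' : ℕ} {S : (I' → KK p) → I → KK p} (h : APs Φ s P)
    (hS : ∀ i, APs Φ s' (fun x => S x i)) :
    APs Φ (s + s' + p ^ s * s') (fun x => P (S x)) := by
  refine (h.comp (μ := fun _ => s + s' + p ^ s * s') (a' := p ^ s * s') fun i k hk =>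
    ((hS i).pow k).mono (fun _ => by omega) ?_).mono (fun _ => le_rfl) (by omega)
  exact Nat.mul_le_mul_right _ (Nat.pow_le_pow_right hp.out.pos hk.le)

theorem comp_coord {S : (I' → KK p) → I → KK p} (h : IsAP Φ (fun _ => s) a P)
    (hS : ∀ i, (∀ x, S x i = 0) ∨ ∃ i', ∀ x, S x i = x i') :
    IsAP Φ (fun _ => s) a (fun x => P (S x)) := by
  refine h.comp (a' := 0) fun i k hk => ?_
  rcases hS i with e | ⟨i', e⟩
  · exact zero.congr fun x => by rw [e, zero_pow (pp_pos k).ne']
  · exact (mon i' k 1 hk Φ.one_mem).congr fun x => by rw [e, one_mul]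

theorem comp_frob (h : IsAP Φ (fun _ => s) a P) (k : ℕ) :
    IsAP Φ (fun _ => s + k) a (fun x => P (fun i => x i ^ p ^ k)) := by
  exact h.comp (a' := 0) (S := fun x i => x i ^ p ^ k) fun i j hj =>
    (mon i (j + k) 1 (Nat.add_lt_add_right hj k) Φ.one_mem).congr fun x => by
      rw [one_mul, ← pow_mul, ← pow_add, add_comm]

theorem lead_dec [Fintype I] (h : IsAP Φ ν a P) :
    ∃ b : I → KK p, (∀ i, b i ∈ Φ.R a) ∧ (∀ i, ν i = 0 → b i = 0) ∧
      IsAP Φ (fun i => ν i - 1) a (fun x => P x - lead ν b x) := by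
  classical
  induction h with
  | zero => exact ⟨0, fun _ => zero_mem _, fun _ _ => rfl, zero.congr fun x => by simp [lead]⟩
  | mon i k b hk hb =>
    by_cases e : k = ν i - 1
    · refine ⟨Pi.single i b, fun j => ?_, fun j hj => Pi.single_eq_of_ne (by rintro rfl; omega) _,
        zero.congr fun x => ?_⟩
      · rcases eq_or_ne j i with rfl | n
        · rwa [Pi.single_eq_same]
        · rw [Pi.single_eq_of_ne n]
          exact zero_mem _
      · simp [lead, Pi.single_apply, e]
    · exact ⟨0, fun _ => zero_mem _, fun _ _ => rfl,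
        (mon i k b (by omega) hb).congr fun x => by simp [lead]⟩
  | add _ _ h1 h2 =>
    obtain ⟨b, b1, b2, b3⟩ := h1
    obtain ⟨c, c1, c2, c3⟩ := h2
    refine ⟨b + c, fun i => add_mem (b1 i) (c1 i), fun i hi => by simp [b2 i hi, c2 i hi],
      (add b3 c3).congr fun x => ?_⟩
    simp only [lead, Pi.add_apply, add_mul, Finset.sum_add_distrib]
    ring

theorem lead_ap [Fintype I] {b : I → KK p} (hb : ∀ i, b i ∈ Φ.R a) (h0 : ∀ i, ν i = 0 → b i = 0) :
    IsAP Φ ν a (lead ν b) := by
  refine sum Finset.univ (F := fun i x => b i * x i ^ p ^ (ν i - 1)) fun i _ => ?_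
  rcases Nat.eq_zero_or_pos (ν i) with e | e
  · exact zero.congr fun x => by rw [h0 i e, zero_mul]
  · exact mon i _ _ (by omega) (hb i)

theorem trail_dec [Fintype I] (h : IsAP Φ (fun _ => s) a P) :
    ∃ (b : I → KK p) (H : (I → KK p) → KK p), (∀ i, b i ∈ Φ.R a) ∧
      IsAP Φ (fun _ => s - 1) a H ∧ ∀ x, P x = ∑ i, b i * x i + H (fun i => x i ^ p) := by
  classical
  induction h with
  | zero => exact ⟨0, _, fun _ => zero_mem _, zero, fun x => by simp⟩
  | mon i k b hk hb =>
    cases k with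
    | zero =>
      refine ⟨Pi.single i b, _, fun j => ?_, zero, fun x => by simp [Pi.single_apply]⟩
      rcases eq_or_ne j i with rfl | n
      · rwa [Pi.single_eq_same]
      · rw [Pi.single_eq_of_ne n]
        exact zero_mem _
    | succ k =>
      exact ⟨0, _, fun _ => zero_mem _, mon i k b (by omega) hb, fun x => by
        simp [← pow_mul, pow_succ']⟩
  | add _ _ h1 h2 =>
    obtain ⟨b, H, b1, b2, b3⟩ := h1
    obtain ⟨c, G, c1, c2, c3⟩ := h2
    refine ⟨b + c, _, fun i => add_mem (b1 i) (c1 i), add b2 c2, fun x => ?_⟩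
    simp only [b3, c3, Pi.add_apply, add_mul, Finset.sum_add_distrib]
    ring

theorem cart (h : IsAP Φ ν a P) {j : ℕ} (hj : j < p) :
    IsAP Φ ν a (fun x => cart 1 j (P (fun i => x i ^ p))) := by
  induction h with
  | zero => exact zero.congr fun _ => (cart_zero _ _).symm
  | mon i k b hk hb =>
    refine (mon i k _ hk (Φ.cart_mem hb hj)).congr fun x => ?_
    simp only [← cart_mul_pow, pow_one, ← pow_mul, mul_comm p]
  | add _ _ h1 h2 => exact (add h1 h2).congr fun _ => (cart_add _ _ _ _).symm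

theorem ge (h : IsAP Φ ν a P) {δ : ℤ} {x : I → KK p}
    (hx : ∀ i k, k < ν i → Ge δ (x i ^ p ^ k)) : Ge δ (P x) := by
  induction h with
  | zero => exact ge_zero _
  | mon i k b hk hb => exact Ge.mul_left (Φ.ge hb) (hx i k hk)
  | add _ _ h1 h2 => exact h1.add h2

theorem ge_nonneg (h : IsAP Φ ν a P) {δ : ℤ} (hδ : 0 ≤ δ) {x : I → KK p}
    (hx : ∀ i, Ge δ (x i)) : Ge δ (P x) := by
  exact h.ge fun i k _ => (hx i).pow_pow_nonneg hδ k

theorem ge_neg (h : IsAP Φ (fun _ => s) a P) {δ : ℤ} (hδ : δ ≤ 0) {x : I → KK p}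
    (hx : ∀ i, Ge δ (x i)) : Ge ((p : ℤ) ^ s * δ) (P x) := by
  refine h.ge fun i k hk => ((hx i).pow_pow k).mono (mul_le_mul_of_nonpos_right ?_ hδ)
  exact_mod_cast Nat.pow_le_pow_right hp.out.pos hk.le

theorem congr_arg (h : IsAP Φ ν a P) {x y : I → KK p} (e : ∀ i, ν i ≠ 0 → x i = y i) :
    P x = P y := by
  induction h with
  | zero => rfl
  | mon i k b hk hb => simp only [e i (by omega)]
  | add _ _ h1 h2 => simp only [h1, h2]

theorem eq_zero (h : IsAP Φ ν a P) (h0 : ∀ i, ν i = 0) (x : I → KK p) : P x = 0 := by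
  rw [h.congr_arg (y := 0) fun i hi => (hi (h0 i)).elim, h.map_zero]

end IsAP

end Pool.Agent.Work.MP_db9079_lc
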