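import Pool.Agent.Work.MP_db9079_lc.Laurent

/-!
Basic facts on Laurent series over a prime field: powers of `t`, Frobenius, Cartier operators,
successive approximation.
-/

namespace Pool.Agent.Work.MP_db9079_lc

open HahnSeries

/-- Laurent series over the prime field. -/
abbrev KK (p : ℕ) : Type := LaurentSeries (ZMod p)

/-- `cut q j γ` is the ceiling of `(γ - j) / q`. -/
def cut (q j : ℕ) (γ : ℤ) : ℤ := (γ - j + q - 1) / q

theorem cut_le_iff {q : ℕ} (hq : 0 < q) (j : ℕ) (γ u : ℤ) : cut q j γ ≤ u ↔ γ ≤ q * u + j := by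
  have h : (0 : ℤ) < q := by exact_mod_cast hq
  rw [cut, ← Int.lt_add_one_iff, Int.ediv_lt_iff_lt_mul h]
  constructor <;> intro <;> linarith

theorem lt_cut_iff {q : ℕ} (hq : 0 < q) (j : ℕ) (γ u : ℤ) : u < cut q j γ ↔ q * u + j < γ := by
  rw [← not_le, cut_le_iff hq, not_le]

theorem cut_add_mul {q : ℕ} (hq : 0 < q) (j : ℕ) (γ κ : ℤ) :
    cut q j (γ + q * κ) = cut q j γ + κ := by
  have h : (q : ℤ) ≠ 0 := by exact_mod_cast hq.ne'
  rw [cut, cut, ← Int.add_mul_ediv_left _ _ h]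
  congr 1
  ring

variable {p : ℕ} [hp : Fact p.Prime]

instance instCharPKK : CharP (KK p) p := charP_laurent

theorem pp_pos (k : ℕ) : 0 < p ^ k := pow_pos hp.out.pos k

theorem Ge.neg {a : ℤ} {x : KK p} (hx : Ge a x) : Ge a (-x) := by
  intro n hn
  rw [coeff_neg, hx n hn, neg_zero]

theorem Ge.sub {a : ℤ} {x y : KK p} (hx : Ge a x) (hy : Ge a y) : Ge a (x - y) := by
  intro n hn
  rw [coeff_sub, hx n hn, hy n hn, sub_zero]

theorem Ge.sum {ι : Type} {a : ℤ} (s : Finset ι) {f : ι → KK p} (h : ∀ i ∈ s, Ge a (f i)) :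
    Ge a (∑ i ∈ s, f i) := by
  intro n hn
  rw [coeff_sum]
  exact Finset.sum_eq_zero fun i hi => h i hi n hn

theorem Ge.mul_left {a : ℤ} {b x : KK p} (hb : Ge 0 b) (hx : Ge a x) : Ge a (b * x) := by
  simpa using hb.mul hx

theorem ge_one : Ge 0 (1 : KK p) := by
  exact ge_single 0 1

theorem eq_zero_of_ge {x : KK p} (h : ∀ n : ℕ, Ge n x) : x = 0 := by
  ext m
  exact h (m + 1).toNat m (by omega)

theorem Ge.coeff_eq {a m : ℤ} {x y : KK p} (h : Ge a (x - y)) (hm : m < a) :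
    x.coeff m = y.coeff m := by
  have := h m hm
  rwa [coeff_sub, sub_eq_zero] at this

theorem Ge.succ {a : ℤ} {x : KK p} (hx : Ge a x) (h : x.coeff a = 0) : Ge (a + 1) x := by
  intro n hn
  rcases (Int.lt_add_one_iff.1 hn).lt_or_eq with e | e
  · exact hx n e
  · rwa [e]

/-- A series in `B a` whose first `n` digits vanish is in `B (a + n)`. -/
theorem Ge.add_of_coeff {a : ℤ} {n : ℕ} {x : KK p} (hx : Ge a x)
    (h : ∀ m : ℕ, m < n → x.coeff (a + m) = 0) : Ge (a + n) x := by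
  intro m hm
  by_cases e : m < a
  · exact hx m e
  · have := h (m - a).toNat (by omega)
    rwa [show a + ((m - a).toNat : ℤ) = m by omega] at this

theorem exists_ge_fin {ι : Type} [Finite ι] (x : ι → KK p) : ∃ N : ℕ, ∀ i, Ge (-N) (x i) := by
  choose N hN using fun i => exists_ge (x i)
  obtain ⟨M, hM⟩ := (Set.finite_range N).bddAbove
  refine ⟨M, fun i => (hN i).mono ?_⟩
  have := hM (Set.mem_range_self i)
  omega

theorem exists_lead {x : KK p} (hx : x ≠ 0) : ∃ γ : ℤ, Ge γ x ∧ x.coeff γ ≠ 0 := by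
  exact ⟨x.order, fun n hn => coeff_eq_zero_of_lt_order hn, coeff_order_eq_zero.not.2 hx⟩

theorem RBase_trunc {a : ℤ} {x : KK p} (hx : Ge a x) (n : ℕ) :
    Ge (a + n) (x - ∑ e ∈ Finset.range n, single (a + e) (x.coeff (a + e))) := by
  intro m hm
  rw [coeff_sub, coeff_sum, sub_eq_zero]
  by_cases h : m < a
  · rw [hx m h, Finset.sum_eq_zero]
    intro e _
    rw [coeff_single, if_neg (by omega)]
  · rw [Finset.sum_eq_single (m - a).toNat]
    · have : a + ((m - a).toNat : ℤ) = m := by omega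
      rw [this, coeff_single_same]
    · intro e _ he
      rw [coeff_single, if_neg (by omega)]
    · intro h'
      exact absurd (Finset.mem_range.2 (by omega)) h'

theorem RBase_window {a b : ℤ} {x y : KK p} (hx : Ge a x) (hy : Ge b y) (m : ℕ) :
    (x * y).coeff (a + b + m) =
      ∑ e ∈ Finset.range (m + 1), x.coeff (a + e) * y.coeff (b + (m - e : ℕ)) := by
  have h := ((RBase_trunc hx (m + 1)).mul hy) (a + b + m) (by push_cast; omega)
  rw [sub_mul, coeff_sub, sub_eq_zero, Finset.sum_mul, coeff_sum] at h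
  rw [h]
  refine Finset.sum_congr rfl fun e he => ?_
  have := Finset.mem_range.1 he
  rw [coeff_single_mul]
  congr 2
  omega

theorem RBase_lead {a b : ℤ} {x y : KK p} (hx : Ge a x) (hy : Ge b y) :
    (x * y).coeff (a + b) = x.coeff a * y.coeff b := by
  simpa using RBase_window hx hy 0

theorem RBase_ind (M : ℤ) {P : KK p → Prop} (hadd : ∀ x y, P x → P y → P (x + y))
    (hpos : ∀ x, Ge M x → P x) (hsingle : ∀ (j : ℤ) (c : ZMod p), P (single j c)) :
    ∀ x, P x := by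
  intro x
  obtain ⟨N, hN⟩ := exists_ge x
  have h1 : ∀ n : ℕ, P (∑ e ∈ Finset.range n, single (-(N : ℤ) + e) (x.coeff (-(N : ℤ) + e))) := by
    intro n
    induction n with
    | zero => exact hpos _ (ge_zero M)
    | succ n ih => rw [Finset.sum_range_succ]; exact hadd _ _ ih (hsingle _ _)
  have h2 := hpos _ ((RBase_trunc hN (M + N).toNat).mono (by omega))
  simpa using hadd _ _ h2 (h1 (M + N).toNat)

/-- Division by an element of valuation `≤ g`. -/
theorem Ge.of_mul_succ {g γ : ℤ} {d x : KK p} (hd : ¬ Ge (g + 1) d) (h : Ge γ (d * x)) :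
    Ge (γ - g) x := by
  by_cases hx : x = 0
  · rw [hx]
    exact ge_zero _
  obtain ⟨a, ha, ha'⟩ := exists_lead hx
  obtain ⟨b, hb, hb'⟩ := exists_lead (x := d) fun e => hd (e ▸ ge_zero _)
  have h1 : ¬ g + 1 ≤ b := fun e => hd (hb.mono e)
  have h2 : ¬ b + a < γ := fun e => mul_ne_zero hb' ha' ((RBase_lead hb ha).symm.trans (h _ e))
  exact ha.mono (by omega)

/-- Division by an element of valuation `< g`. -/
theorem Ge.of_mul {g γ : ℤ} {d x : KK p} (hd : ¬ Ge g d) (h : Ge γ (d * x)) : Ge (γ - g) x := by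
  exact Ge.of_mul_succ (fun e => hd (e.mono (by omega))) h

/-- Digits of a product. -/
theorem coeff_mul_window {a b : ℤ} {x y : KK p} (hx : Ge a x) (hy : Ge b y) (m : ℕ) :
    (x * y).coeff (a + b + m) =
      ∑ e ∈ Finset.range (m + 1), x.coeff (a + e) * y.coeff (b + (m - e : ℕ)) := by
  exact RBase_window hx hy m

/-- The power `t ^ m`. -/
noncomputable def tz (p : ℕ) (m : ℤ) : KK p := single m 1

theorem tz_zero : tz p 0 = 1 := by
  rfl

theorem tz_add (a b : ℤ) : tz p (a + b) = tz p a * tz p b := by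
  rw [tz, tz, tz, single_mul_single, mul_one]

theorem tz_pow (a : ℤ) (n : ℕ) : tz p a ^ n = tz p (n * a) := by
  rw [tz, tz, single_pow, one_pow, nsmul_eq_mul]

theorem tz_ne_zero (a : ℤ) : tz p a ≠ 0 := by
  exact single_ne_zero one_ne_zero

theorem ge_tz (a : ℤ) : Ge a (tz p a) := ge_single a 1

theorem coeff_tz_mul (a : ℤ) (x : KK p) (m : ℤ) : (tz p a * x).coeff m = x.coeff (m - a) := by
  rw [tz, coeff_single_mul, one_mul]

theorem ge_tz_mul_iff (a γ : ℤ) (x : KK p) : Ge γ (tz p a * x) ↔ Ge (γ - a) x := by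
  constructor
  · intro h n hn
    have := h (n + a) (by omega)
    rwa [coeff_tz_mul, add_sub_cancel_right] at this
  · intro h n hn
    rw [coeff_tz_mul]
    exact h _ (by omega)

theorem RBase_pos (k : ℕ) : (0 : ℤ) < (p : ℤ) ^ k := by exact_mod_cast pp_pos k

theorem coeff_pow_pow (k : ℕ) (x : KK p) (m : ℤ) :
    (x ^ p ^ k).coeff m = if ((p : ℤ) ^ k) ∣ m then x.coeff (m / (p : ℤ) ^ k) else 0 := by
  have h0 := RBase_pos (p := p) k
  revert x
  refine RBase_ind (|m| + 1) (fun x y hx hy => ?_) (fun x hx => ?_) fun j c => ?_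
  · rw [add_pow_char_pow, coeff_add, coeff_add, hx, hy]
    split_ifs <;> simp
  · have h1 := le_abs_self m
    have h2 := abs_nonneg m
    rw [hx.pow (p ^ k) m (by push_cast; nlinarith), hx (m / (p : ℤ) ^ k), ite_self]
    rw [Int.ediv_lt_iff_lt_mul h0]
    nlinarith
  · rw [single_pow, ZMod.pow_card_pow, coeff_single, coeff_single, nsmul_eq_mul, Nat.cast_pow]
    by_cases h : m = (p : ℤ) ^ k * j
    · rw [if_pos h, h, if_pos (dvd_mul_right _ _), if_pos (Int.mul_ediv_cancel_left _ h0.ne')]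
    · rw [if_neg h]
      split_ifs with h1 h2
      · exact absurd (by rw [← h2, Int.mul_ediv_cancel' h1]) h
      · rfl
      · rfl

theorem RBase_coeff_mul (k : ℕ) (x : KK p) (m : ℤ) :
    (x ^ p ^ k).coeff ((p : ℤ) ^ k * m) = x.coeff m := by
  rw [coeff_pow_pow, if_pos (dvd_mul_right _ _), Int.mul_ediv_cancel_left _ (RBase_pos k).ne']

theorem ge_pow_pow_iff (k : ℕ) (x : KK p) (γ : ℤ) :
    Ge γ (x ^ p ^ k) ↔ Ge (cut (p ^ k) 0 γ) x := by
  constructor
  · intro h n hn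
    rw [lt_cut_iff (pp_pos k)] at hn
    rw [← RBase_coeff_mul k]
    exact h _ (by simpa using hn)
  · intro h m hm
    rw [coeff_pow_pow]
    split_ifs with e
    · refine h _ ((lt_cut_iff (pp_pos k) _ _ _).2 ?_)
      push_cast
      rwa [Int.mul_ediv_cancel' e, add_zero]
    · rfl

theorem Ge.pow_pow {a : ℤ} {x : KK p} (hx : Ge a x) (k : ℕ) : Ge ((p : ℤ) ^ k * a) (x ^ p ^ k) := by
  simpa using hx.pow (p ^ k)

theorem Ge.pow_pow_nonneg {a : ℤ} {x : KK p} (hx : Ge a x) (ha : 0 ≤ a) (k : ℕ) :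
    Ge a (x ^ p ^ k) := by
  have h0 := RBase_pos (p := p) k
  exact (hx.pow_pow k).mono (by nlinarith)

theorem Ge.of_pow_pow_mul {a : ℤ} {x : KK p} {k : ℕ} (h : Ge ((p : ℤ) ^ k * a) (x ^ p ^ k)) :
    Ge a x := by
  intro n hn
  rw [← RBase_coeff_mul k]
  exact h _ (mul_lt_mul_of_pos_left hn (RBase_pos k))

theorem Ge.of_pow_pow {a : ℤ} {x : KK p} {k : ℕ} (h : Ge a (x ^ p ^ k)) (ha : a ≤ 0) : Ge a x := by
  have h0 := RBase_pos (p := p) k
  exact Ge.of_pow_pow_mul (h.mono (by nlinarith))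

/-- Lower Frobenius powers of an element with a negative bound on a higher power. -/
theorem Ge.of_pow_pow_lt {a : ℤ} {x : KK p} {k m : ℕ} (h : Ge (p * a) (x ^ p ^ m)) (ha : a ≤ 0)
    (hk : k < m) : Ge a (x ^ p ^ k) := by
  obtain ⟨r, rfl⟩ := Nat.exists_eq_add_of_lt hk
  refine Ge.of_pow_pow (k := r) (Ge.of_pow_pow_mul (k := 1) ?_) ha
  rwa [← pow_mul, ← pow_mul, ← pow_add, ← pow_add, ← add_assoc, pow_one]

/-- The Cartier operator of level `p ^ k`. -/
noncomputable def cart (k j : ℕ) (x : KK p) : KK p :=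
  HahnSeries.ofSuppBddBelow (fun m : ℤ => x.coeff ((p : ℤ) ^ k * m + j)) (by
    obtain ⟨N, hN⟩ := exists_ge x
    refine ⟨-(N : ℤ) - j, fun m hm => ?_⟩
    by_contra h
    refine hm (hN _ ?_)
    have h1 : (1 : ℤ) ≤ (p : ℤ) ^ k := by exact_mod_cast pp_pos k
    push Not at h
    nlinarith)

@[simp] theorem coeff_cart (k j : ℕ) (x : KK p) (m : ℤ) :
    (cart k j x).coeff m = x.coeff ((p : ℤ) ^ k * m + j) := rfl

theorem cart_zero (k j : ℕ) : cart k j (0 : KK p) = 0 := by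
  ext m
  rfl

theorem cart_add (k j : ℕ) (x y : KK p) : cart k j (x + y) = cart k j x + cart k j y := by
  ext m
  simp only [coeff_cart, coeff_add]

theorem cart_sub (k j : ℕ) (x y : KK p) : cart k j (x - y) = cart k j x - cart k j y := by
  ext m
  simp only [coeff_cart, coeff_sub]

theorem cart_sum {ι : Type} (k j : ℕ) (s : Finset ι) (f : ι → KK p) :
    cart k j (∑ i ∈ s, f i) = ∑ i ∈ s, cart k j (f i) := by
  ext m
  simp only [coeff_cart, coeff_sum]

theorem cart_level_zero (x : KK p) : cart 0 0 x = x := by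
  ext m
  simp

theorem cart_succ (k j : ℕ) (x : KK p) : cart (k + 1) j x = cart k (j / p) (cart 1 (j % p) x) := by
  ext m
  rw [coeff_cart, coeff_cart, coeff_cart]
  congr 1
  have h : ((p : ℤ) * (j / p : ℕ) + (j % p : ℕ)) = j := by exact_mod_cast Nat.div_add_mod j p
  linear_combination -h

theorem RBase_split (k : ℕ) (m : ℤ) : ∃ (n : ℤ) (j : ℕ), j < p ^ k ∧ m = (p : ℤ) ^ k * n + j := by
  have h0 := RBase_pos (p := p) k
  have h1 := Int.emod_nonneg m h0.ne'
  have h2 := Int.emod_lt_of_pos m h0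
  refine ⟨m / (p : ℤ) ^ k, (m % (p : ℤ) ^ k).toNat, ?_, ?_⟩
  · zify
    rwa [Int.toNat_of_nonneg h1]
  · rw [Int.toNat_of_nonneg h1, Int.mul_ediv_add_emod]

theorem RBase_sum (k : ℕ) (y : Fin (p ^ k) → KK p) (j : Fin (p ^ k)) :
    cart k j (∑ i : Fin (p ^ k), tz p (i : ℕ) * y i ^ p ^ k) = y j := by
  ext m
  rw [coeff_cart, coeff_sum, Finset.sum_eq_single j]
  · rw [coeff_tz_mul, add_sub_cancel_right, RBase_coeff_mul]
  · intro i _ hi
    rw [coeff_tz_mul, coeff_pow_pow, if_neg]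
    intro h
    rw [add_sub_assoc, dvd_add_right (dvd_mul_right _ _)] at h
    have h1 : ((i : ℕ) : ℤ) < (p : ℤ) ^ k := by exact_mod_cast i.2
    have h2 : ((j : ℕ) : ℤ) < (p : ℤ) ^ k := by exact_mod_cast j.2
    have h3 := Int.eq_zero_of_abs_lt_dvd h (abs_lt.2 ⟨by omega, by omega⟩)
    exact hi (Fin.ext (by omega))
  · intro h
    exact absurd (Finset.mem_univ _) h

theorem RBase_ext (k : ℕ) {x y : KK p} (h : ∀ j, j < p ^ k → cart k j x = cart k j y) :
    x = y := by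
  ext m
  obtain ⟨n, j, hj, rfl⟩ := RBase_split (p := p) k m
  rw [← coeff_cart, ← coeff_cart, h j hj]

theorem RBase_mod (k j : ℕ) (x : KK p) :
    cart k j x = tz p (-(j / p ^ k : ℕ)) * cart k (j % p ^ k) x := by
  ext m
  rw [coeff_tz_mul, coeff_cart, coeff_cart]
  congr 1
  have h : ((p : ℤ) ^ k * (j / p ^ k : ℕ) + (j % p ^ k : ℕ)) = j := by
    exact_mod_cast Nat.div_add_mod j (p ^ k)
  linear_combination -h

theorem eq_sum_cart (k : ℕ) (x : KK p) :
    x = ∑ j : Fin (p ^ k), tz p (j : ℕ) * cart k j x ^ p ^ k := by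
  exact RBase_ext k fun j hj => (RBase_sum k (fun i => cart k i x) ⟨j, hj⟩).symm

theorem eq_of_cart_eq (k : ℕ) {x y : KK p} (h : ∀ j, j < p ^ k → cart k j x = cart k j y) :
    x = y := by
  exact RBase_ext k h

theorem cart_mul_pow (k j : ℕ) (a y : KK p) : cart k j (a * y ^ p ^ k) = cart k j a * y := by
  rw [RBase_mod, RBase_mod k j a, mul_assoc]
  congr 1
  have h := RBase_sum k (fun i => cart k i a * y) ⟨j % p ^ k, Nat.mod_lt _ (pp_pos k)⟩
  simp only [mul_pow, ← mul_assoc, ← Finset.sum_mul] at h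
  rwa [← eq_sum_cart] at h

theorem cart_sum_tz (k : ℕ) (y : Fin (p ^ k) → KK p) (j : Fin (p ^ k)) :
    cart k j (∑ i : Fin (p ^ k), tz p (i : ℕ) * y i ^ p ^ k) = y j := by
  exact RBase_sum k y j

theorem ge_iff_cart (k : ℕ) (γ : ℤ) (x : KK p) :
    Ge γ x ↔ ∀ j, j < p ^ k → Ge (cut (p ^ k) j γ) (cart k j x) := by
  constructor
  · intro h j _ n hn
    rw [lt_cut_iff (pp_pos k)] at hn
    exact h _ (by simpa using hn)
  · intro h m hm
    obtain ⟨n, j, hj, rfl⟩ := RBase_split (p := p) k m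
    exact h j hj n ((lt_cut_iff (pp_pos k) _ _ _).2 (by simpa using hm))

theorem Ge.cart {a : ℤ} {x : KK p} {k : ℕ} (h : Ge ((p : ℤ) ^ k * a) x) (j : ℕ) (hj : j < p ^ k) :
    Ge a (cart k j x) := by
  intro n hn
  have h0 := RBase_pos (p := p) k
  have h1 : (j : ℤ) < (p : ℤ) ^ k := by exact_mod_cast hj
  exact h _ (by nlinarith)

theorem exists_limit (x : ℕ → KK p) (c : ℤ) (h : ∀ n : ℕ, Ge (c + n) (x (n + 1) - x n)) :
    ∃ y, ∀ n : ℕ, Ge (c + n) (y - x n) := by
  have h1 : ∀ n n' : ℕ, n ≤ n' → Ge (c + n) (x n' - x n) := by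
    intro n n' hn
    induction n', hn using Nat.le_induction with
    | base => rw [sub_self]; exact ge_zero _
    | succ n' hn ih => simpa using ((h n').mono (by omega)).add ih
  obtain ⟨N, hN⟩ := exists_ge (x 0)
  refine ⟨HahnSeries.ofSuppBddBelow (fun m : ℤ => (x (m - c + 1).toNat).coeff m)
    ⟨min c (-N), fun m hm => ?_⟩, fun n m hm => ?_⟩
  · by_contra e
    refine hm ?_
    show (x (m - c + 1).toNat).coeff m = 0
    rw [show (m - c + 1).toNat = 0 by omega]
    exact hN m (by omega)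
  · rw [coeff_sub, sub_eq_zero]
    exact ((h1 (m - c + 1).toNat n (by omega)).coeff_eq (by omega)).symm

/-- Successive approximation for an additive map. -/
theorem exists_of_approx {I J : Type} (E : (I → KK p) → J → KK p)
    (hadd : ∀ x y j, E (x + y) j = E x j + E y j) (γ h : ℤ)
    (hE : ∀ δ x, γ - h ≤ δ → (∀ i, Ge δ (x i)) → ∀ j, Ge δ (E x j))
    (hs : ∀ δ (ρ : J → KK p), γ ≤ δ → (∀ j, Ge δ (ρ j)) →
      ∃ x, (∀ i, Ge (δ - h) (x i)) ∧ ∀ j, Ge (δ + 1) (ρ j - E x j))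
    (ζ : J → KK p) (hζ : ∀ j, Ge γ (ζ j)) :
    ∃ z, (∀ i, Ge (γ - h) (z i)) ∧ ∀ j, E z j = ζ j := by
  have step : ∀ (n : ℕ) (z : I → KK p), ∃ z' : I → KK p, (∀ j, Ge (γ + n) (ζ j - E z j)) →
      (∀ j, Ge (γ + (n + 1 : ℕ)) (ζ j - E z' j)) ∧ ∀ i, Ge (γ - h + n) (z' i - z i) := by
    intro n z
    by_cases hz : ∀ j, Ge (γ + n) (ζ j - E z j)
    · obtain ⟨x, h1, h2⟩ := hs (γ + n) (fun j => ζ j - E z j) (by omega) hz
      refine ⟨z + x, fun _ => ⟨fun j => ?_, fun i => ?_⟩⟩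
      · rw [hadd, ← sub_sub]
        exact (h2 j).mono (by push_cast; omega)
      · rw [Pi.add_apply, add_sub_cancel_left]
        exact (h1 i).mono (by omega)
    · exact ⟨0, fun e => absurd e hz⟩
  choose f hf using step
  let z : ℕ → I → KK p := fun n => Nat.rec 0 f n
  have h0 : ∀ j, E 0 j = 0 := fun j => by simpa using hadd 0 0 j
  have h1 : ∀ n : ℕ, ∀ j, Ge (γ + n) (ζ j - E (z n) j) := by
    intro n
    induction n with
    | zero => intro j; simpa [z, h0] using hζ j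
    | succ n ih => exact (hf n (z n) ih).1
  choose y hy using fun i => exists_limit (fun n => z n i) (γ - h) fun n => (hf n (z n) (h1 n)).2 i
  refine ⟨y, fun i => by simpa [z] using hy i 0, fun j => ?_⟩
  refine (sub_eq_zero.1 (eq_zero_of_ge fun n => ?_)).symm
  have h2 := hE (γ - h + (n + γ.natAbs + h.natAbs : ℕ)) (y - z (n + γ.natAbs + h.natAbs))
    (by omega) (fun i => hy i _) j
  have h3 := hadd (z (n + γ.natAbs + h.natAbs)) (y - z (n + γ.natAbs + h.natAbs)) j
  rw [add_sub_cancel] at h3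
  rw [h3, ← sub_sub]
  exact ((h1 _ j).mono (by omega)).sub (h2.mono (by omega))

/-- The relation `x y - z ∈ t ^ n x y O`. -/
def MRel (n : ℕ) (x y z : KK p) : Prop := ∃ c, Ge 0 c ∧ x * y - z = tz p n * x * y * c

theorem mrel_zero {n : ℕ} {x y z : KK p} (h : x = 0 ∨ y = 0) : MRel n x y z ↔ z = 0 := by
  have e : x * y = 0 := mul_eq_zero.2 h
  constructor
  · rintro ⟨c, -, hc⟩
    rwa [mul_assoc (tz p n), e, mul_zero, zero_mul, zero_sub, neg_eq_zero] at hc
  · rintro rfl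
    exact ⟨0, ge_zero _, by rw [e, sub_zero, mul_zero]⟩

theorem mrel_iff {n : ℕ} {a b : ℤ} {x y z : KK p} (hx : Ge a x) (hx' : x.coeff a ≠ 0)
    (hy : Ge b y) (hy' : y.coeff b ≠ 0) : MRel n x y z ↔ Ge (a + b + n) (x * y - z) := by
  constructor
  · rintro ⟨c, hc, e⟩
    rw [e]
    exact ((((ge_tz n).mul hx).mul hy).mul hc).mono (by omega)
  · intro h
    have h1 : (tz p n * x * y).coeff (a + b + n) ≠ 0 := by
      rw [mul_assoc, coeff_tz_mul, add_sub_cancel_right, RBase_lead hx hy]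
      exact mul_ne_zero hx' hy'
    have h2 : tz p n * x * y ≠ 0 := fun e => h1 (by rw [e]; rfl)
    have h3 : x * y - z = tz p n * x * y * ((x * y - z) / (tz p n * x * y)) :=
      (mul_div_cancel₀ _ h2).symm
    refine ⟨_, ?_, h3⟩
    rw [h3] at h
    simpa using Ge.of_mul_succ (g := a + b + n) (fun e => h1 (e _ (by omega))) h

theorem RBase_fix {a : ℤ} {x : KK p} (h : x ^ p = x) (hx : Ge a x) (hx' : x.coeff a ≠ 0) :
    a = 0 := by
  have h1 := RBase_coeff_mul 1 x a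
  have h2 := hx.pow p
  rw [pow_one, pow_one, h] at h1
  rw [h] at h2
  have h3 : ¬ (p : ℤ) * a < a := fun e => hx' (h1.symm.trans (hx _ e))
  have h4 : ¬ a < (p : ℤ) * a := fun e => hx' (h2 _ e)
  have h5 : (1 : ℤ) < p := by exact_mod_cast hp.out.one_lt
  have h6 : ((p : ℤ) - 1) * a = 0 := by linarith
  exact (mul_eq_zero.1 h6).resolve_left (by omega)

theorem eq_one_iff (x : KK p) : (x ^ p - x = 0 ∧ x ≠ 0 ∧ MRel 1 x x x) ↔ x = 1 := by
  constructor
  · rintro ⟨h1, h2, h3⟩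
    rw [sub_eq_zero] at h1
    obtain ⟨a, ha, ha'⟩ := exists_lead h2
    obtain rfl := RBase_fix h1 ha ha'
    rw [mrel_iff ha ha' ha ha', ← mul_sub_one] at h3
    have h4 := Ge.of_mul_succ (g := 0) (fun e => ha' (e _ (by omega))) h3
    by_contra h5
    obtain ⟨b, hb, hb'⟩ := exists_lead (sub_ne_zero.2 h5)
    obtain rfl := RBase_fix (by rw [sub_pow_char, h1, one_pow]) hb hb'
    exact hb' (h4 0 (by simp))
  · rintro rfl
    exact ⟨by simp, one_ne_zero, 0, ge_zero _, by simp⟩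

end Pool.Agent.Work.MP_db9079_lc
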