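import Pool.Agent.Work.MP_db9079_lc.RFilt

/-!
Gaussian elimination over a filtration, with bounds.
-/

namespace Pool.Agent.Work.MP_db9079_lc

variable {p : ℕ} [hp : Fact p.Prime]

theorem RGauss_col (Φ : Filt p) {J : Type} {B : ℕ} {g : ℤ} (hg : 0 ≤ g)
    (hB : ∀ x ∈ Φ.R B, x ≠ 0 → ¬ Ge g x) (n : ℕ) {a b : ℕ} (h1 : 2 ^ n * a ≤ b + a)
    (h2 : 2 ^ n * a ≤ B) (A : J → Fin n → KK p) (hA : ∀ j i, A j i ∈ Φ.R a) :
    (∃ d : Fin n → KK p, (∃ i, d i ≠ 0) ∧ (∀ i, d i ∈ Φ.R b) ∧ ∀ j, ∑ i, A j i * d i = 0) ∨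
    ∀ (x : Fin n → KK p) (γ : ℤ), (∀ j, Ge γ (∑ i, A j i * x i)) →
      ∀ i, Ge (γ - n * g) (x i) := by
  induction n generalizing a b with
  | zero => exact Or.inr fun _ _ _ i => i.elim0
  | succ n ih =>
  by_cases h0 : ∀ j, A j 0 = 0
  · refine Or.inl ⟨Fin.cons 1 0, ⟨0, one_ne_zero⟩, Fin.cases (Φ.one_mem' b) fun _ => zero_mem _,
      fun j => ?_⟩
    simp [Fin.sum_univ_succ, h0]
  obtain ⟨j₀, h0⟩ := not_forall.1 h0
  have e : 2 ^ (n + 1) * a = 2 ^ n * (a + a) := by ring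
  have e' : a + a ≤ 2 ^ n * (a + a) := Nat.le_mul_of_pos_left _ (by positivity)
  obtain ⟨b, rfl⟩ : ∃ c, b = a + c := Nat.exists_eq_add_of_le (by omega)
  have hn : 0 ≤ (n : ℤ) * g := by positivity
  rcases ih (a := a + a) (b := b) (by omega) (by omega)
    (fun j i => A j₀ 0 * A j i.succ - A j 0 * A j₀ i.succ)
    (fun j i => sub_mem (Φ.mul_mem (hA _ _) (hA _ _)) (Φ.mul_mem (hA _ _) (hA _ _))) with
    ⟨d, ⟨i₀, hi⟩, h3, h4⟩ | h3
  · refine Or.inl ⟨Fin.cons (-∑ i, A j₀ i.succ * d i) fun i => A j₀ 0 * d i,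
      ⟨i₀.succ, mul_ne_zero h0 hi⟩,
      Fin.cases (neg_mem (sum_mem fun i _ => Φ.mul_mem (hA _ _) (h3 i)))
        fun i => Φ.mul_mem (hA _ _) (h3 i), fun j => ?_⟩
    rw [← h4 j, Fin.sum_univ_succ, Fin.cons_zero, mul_neg, Finset.mul_sum, neg_add_eq_sub,
      ← Finset.sum_sub_distrib]
    refine Finset.sum_congr rfl fun i _ => ?_
    rw [Fin.cons_succ]
    ring
  · refine Or.inr fun x γ hx => ?_
    have h4 := h3 (fun i => x i.succ) γ fun j => by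
      have h5 := ((Φ.ge (hA j₀ 0)).mul_left (hx j)).sub ((Φ.ge (hA j 0)).mul_left (hx j₀))
      rw [Fin.sum_univ_succ, Fin.sum_univ_succ, mul_add, mul_add, mul_left_comm,
        add_sub_add_left_eq_sub, Finset.mul_sum, Finset.mul_sum, ← Finset.sum_sub_distrib] at h5
      simpa only [sub_mul, mul_assoc] using h5
    refine Fin.cases ?_ fun i => (h4 i).mono (by push_cast; linarith)
    have h5 := ((hx j₀).mono (show γ - n * g ≤ γ by linarith)).sub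
      (Ge.sum Finset.univ fun i _ => (Φ.ge (hA j₀ i.succ)).mul_left (h4 i))
    rw [Fin.sum_univ_succ, add_sub_cancel_right] at h5
    exact (Ge.of_mul (hB _ (Φ.mono (by omega) (hA j₀ 0)) h0) h5).mono (by push_cast; linarith)

theorem RGauss_row (Φ : Filt p) {I : Type} [Fintype I] {B : ℕ} {g : ℤ} (hg : 0 ≤ g)
    (hB : ∀ x ∈ Φ.R B, x ≠ 0 → ¬ Ge g x) (n : ℕ) {a b : ℕ} (h1 : 2 ^ n * a ≤ b + a)
    (h2 : 2 ^ n * a ≤ B) (A : Fin n → I → KK p) (hA : ∀ j i, A j i ∈ Φ.R a) :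
    (∃ d : Fin n → KK p, (∃ j, d j ≠ 0) ∧ (∀ j, d j ∈ Φ.R b) ∧ ∀ i, ∑ j, d j * A j i = 0) ∨
    ∀ (y : Fin n → KK p) (γ : ℤ), (∀ j, Ge γ (y j)) →
      ∃ x : I → KK p, (∀ i, Ge (γ - n * g) (x i)) ∧ ∀ j, ∑ i, A j i * x i = y j := by
  classical
  induction n generalizing a b with
  | zero => exact Or.inr fun _ _ _ => ⟨0, fun _ => ge_zero _, fun j => j.elim0⟩
  | succ n ih =>
  by_cases h0 : ∀ i, A 0 i = 0
  · refine Or.inl ⟨Fin.cons 1 0, ⟨0, one_ne_zero⟩, Fin.cases (Φ.one_mem' b) fun _ => zero_mem _,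
      fun j => ?_⟩
    simp [Fin.sum_univ_succ, h0]
  obtain ⟨i₀, h0⟩ := not_forall.1 h0
  have e : 2 ^ (n + 1) * a = 2 ^ n * (a + a) := by ring
  have e' : a + a ≤ 2 ^ n * (a + a) := Nat.le_mul_of_pos_left _ (by positivity)
  obtain ⟨b, rfl⟩ : ∃ c, b = a + c := Nat.exists_eq_add_of_le (by omega)
  have hn : 0 ≤ (n : ℤ) * g := by positivity
  rcases ih (a := a + a) (b := b) (by omega) (by omega)
    (fun j i => A 0 i₀ * A j.succ i - A j.succ i₀ * A 0 i)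
    (fun j i => sub_mem (Φ.mul_mem (hA _ _) (hA _ _)) (Φ.mul_mem (hA _ _) (hA _ _))) with
    ⟨d, ⟨j₀, hj⟩, h3, h4⟩ | h3
  · refine Or.inl ⟨Fin.cons (-∑ j, A j.succ i₀ * d j) fun j => A 0 i₀ * d j,
      ⟨j₀.succ, mul_ne_zero h0 hj⟩,
      Fin.cases (neg_mem (sum_mem fun j _ => Φ.mul_mem (hA _ _) (h3 j)))
        fun j => Φ.mul_mem (hA _ _) (h3 j), fun i => ?_⟩
    rw [← h4 i, Fin.sum_univ_succ, Fin.cons_zero, neg_mul, Finset.sum_mul, neg_add_eq_sub,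
      ← Finset.sum_sub_distrib]
    refine Finset.sum_congr rfl fun j _ => ?_
    rw [Fin.cons_succ]
    ring
  · refine Or.inr fun y γ hy => ?_
    obtain ⟨x, h4, h5⟩ := h3 (fun j => A 0 i₀ * y j.succ - A j.succ i₀ * y 0) γ fun j =>
      ((Φ.ge (hA _ _)).mul_left (hy _)).sub ((Φ.ge (hA _ _)).mul_left (hy _))
    obtain ⟨c, hc⟩ : ∃ c, A 0 i₀ * c = y 0 - ∑ i, A 0 i * x i := ⟨_, mul_div_cancel₀ _ h0⟩
    have h6 := ((hy 0).mono (show γ - n * g ≤ γ by linarith)).sub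
      (Ge.sum Finset.univ fun i _ => (Φ.ge (hA 0 i)).mul_left (h4 i))
    rw [← hc] at h6
    have h7 : Ge (γ - (n + 1 : ℕ) * g) c :=
      (Ge.of_mul (hB _ (Φ.mono (by omega) (hA 0 i₀)) h0) h6).mono (by push_cast; linarith)
    have h8 : ∀ j, ∑ i, A j i * (x i + if i = i₀ then c else 0) =
        ∑ i, A j i * x i + A j i₀ * c := fun j => by
      simp [mul_add, Finset.sum_add_distrib]
    refine ⟨fun i => x i + if i = i₀ then c else 0, fun i => ?_, fun j => ?_⟩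
    · refine ((h4 i).mono (by push_cast; linarith)).add ?_
      split_ifs
      · exact h7
      · exact ge_zero _
    · rw [h8]
      refine Fin.cases ?_ (fun j => mul_left_cancel₀ h0 ?_) j
      · rw [hc, add_sub_cancel]
      · have h9 := h5 j
        simp only [sub_mul, mul_assoc, Finset.sum_sub_distrib, ← Finset.mul_sum] at h9
        linear_combination h9 + A j.succ i₀ * hc

omit hp in
theorem RGauss_le {n N g : ℕ} (h : n ≤ N) (γ : ℤ) : γ - (N * g : ℕ) ≤ γ - n * g := by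
  have := Nat.mul_le_mul_right g h
  omega

/-- A relation between the columns, or bounded injectivity. -/
theorem gauss_col (Φ : Filt p) {I J : Type} [Fintype I] {N a s : ℕ} (hw : Φ.w ≤ s)
    (hN : Fintype.card I ≤ N) (A : J → I → KK p) (hA : ∀ j i, A j i ∈ Φ.R a) :
    (∃ d : I → KK p, (∃ i, d i ≠ 0) ∧ (∀ i, d i ∈ Φ.R (2 ^ N * a)) ∧ ∀ j, ∑ i, A j i * d i = 0) ∨
    ∀ (x : I → KK p) (γ : ℤ), (∀ j, Ge γ (∑ i, A j i * x i)) →
      ∀ i, Ge (γ - (N * gf p s (2 ^ N * a) : ℕ)) (x i) := by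
  have h1 : 2 ^ Fintype.card I * a ≤ 2 ^ N * a :=
    Nat.mul_le_mul_right a (Nat.pow_le_pow_right two_pos hN)
  let e := Fintype.equivFin I
  rcases RGauss_col Φ (Int.natCast_nonneg _) (fun x hx h0 => Φ.not_ge hx h0 hw le_rfl) _
    (h1.trans (Nat.le_add_right _ a)) h1 (fun j i => A j (e.symm i)) (fun _ _ => hA _ _) with
    ⟨d, ⟨i, hi⟩, h2, h3⟩ | h2
  · refine Or.inl ⟨fun i => d (e i), ⟨e.symm i, by simpa using hi⟩, fun _ => h2 _, fun j => ?_⟩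
    rw [← h3 j, ← e.sum_comp]
    simp
  · refine Or.inr fun x γ hx i => ?_
    have h3 := h2 (fun i => x (e.symm i)) γ
      (fun j => by rw [e.symm.sum_comp fun i => A j i * x i]; exact hx j) (e i)
    rw [e.symm_apply_apply] at h3
    exact h3.mono (RGauss_le hN γ)

/-- A relation between the rows, or bounded surjectivity. -/
theorem gauss_row (Φ : Filt p) {I J : Type} [Fintype I] [Fintype J] {N a s : ℕ} (hw : Φ.w ≤ s)
    (hN : Fintype.card J ≤ N) (A : J → I → KK p) (hA : ∀ j i, A j i ∈ Φ.R a) :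
    (∃ d : J → KK p, (∃ j, d j ≠ 0) ∧ (∀ j, d j ∈ Φ.R (2 ^ N * a)) ∧ ∀ i, ∑ j, d j * A j i = 0) ∨
    ∀ (y : J → KK p) (γ : ℤ), (∀ j, Ge γ (y j)) →
      ∃ x : I → KK p, (∀ i, Ge (γ - (N * gf p s (2 ^ N * a) : ℕ)) (x i)) ∧
        ∀ j, ∑ i, A j i * x i = y j := by
  have h1 : 2 ^ Fintype.card J * a ≤ 2 ^ N * a :=
    Nat.mul_le_mul_right a (Nat.pow_le_pow_right two_pos hN)
  let e := Fintype.equivFin J
  rcases RGauss_row Φ (Int.natCast_nonneg _) (fun x hx h0 => Φ.not_ge hx h0 hw le_rfl) _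
    (h1.trans (Nat.le_add_right _ a)) h1 (fun j i => A (e.symm j) i) (fun _ _ => hA _ _) with
    ⟨d, ⟨j, hj⟩, h2, h3⟩ | h2
  · refine Or.inl ⟨fun j => d (e j), ⟨e.symm j, by simpa using hj⟩, fun _ => h2 _, fun i => ?_⟩
    rw [← h3 i, ← e.sum_comp]
    simp
  · refine Or.inr fun y γ hy => ?_
    obtain ⟨x, h3, h4⟩ := h2 (fun j => y (e.symm j)) γ fun _ => hy _
    exact ⟨x, fun i => (h3 i).mono (RGauss_le hN γ), fun j => by simpa using h4 (e j)⟩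

end Pool.Agent.Work.MP_db9079_lc
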