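import Pool.Agent.Work.MP_db9079_lc.RAP
import Pool.Agent.Work.MP_db9079_lc.RGauss
import Pool.Agent.Work.MP_db9079_lc.RCm

/-!
Column reduction of a system of additive polynomials.
-/

namespace Pool.Agent.Work.MP_db9079_lc

open Pool.Agent.Lib.RelComp

variable {p : ℕ} [hp : Fact p.Prime]

/-- After the surjective substitution `S` the system `P` has independent leading forms. -/
structure ColRed (Φ : Filt p) (c : ℕ) {I J : Type} [Fintype I] (P : J → (I → KK p) → KK p)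
    (S : (I → KK p) → I → KK p) (ν : I → ℕ) (b : J → I → KK p) : Prop where
  surj : Function.Surjective S
  apS : ∀ i, APs Φ c (fun x => S x i)
  nu_le : ∀ i, ν i ≤ c
  memb : ∀ j i, b j i ∈ Φ.R c
  zerob : ∀ j i, ν i = 0 → b j i = 0
  tail : ∀ j, IsAP Φ (fun i => ν i - 1) c (fun x => P j (S x) - lead ν (b j) x)
  indep : ∀ (x : I → KK p) (γ : ℤ), (∀ j, Ge γ (lead ν (b j) x)) →
    ∀ i, ν i ≠ 0 → Ge (γ - c) (x i ^ p ^ (ν i - 1))

theorem col_pow_expand {s μ : ℕ} (hμ : μ ≤ s) (y : Fin (p ^ (s - μ)) → KK p) :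
    (∑ l : Fin (p ^ (s - μ)), tz p (l : ℕ) * y l ^ p ^ (s - μ)) ^ p ^ μ =
      ∑ l : Fin (p ^ (s - μ)), tz p (l : ℕ) ^ p ^ μ * y l ^ p ^ s := by
  rw [sum_pow_char_pow]
  refine Finset.sum_congr rfl fun l _ => ?_
  rw [mul_pow, ← pow_mul (y l), ← pow_add, Nat.sub_add_cancel hμ]

theorem col_cart_lead {I : Type} [Fintype I] {s : ℕ} {ν : I → ℕ} (hν : ∀ i, ν i ≤ s)
    {b : I → KK p} (hb : ∀ i, ν i = 0 → b i = 0) (x : I → KK p)
    (y : (Σ i : {i // ν i ≠ 0}, Fin (p ^ (s - (ν i - 1)))) → KK p)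
    (hxy : ∀ i : {i // ν i ≠ 0}, x i = ∑ l : Fin (p ^ (s - (ν i - 1))),
      tz p (l : ℕ) * y ⟨i, l⟩ ^ p ^ (s - (ν i - 1))) (m : ℕ) :
    cart s m (lead ν b x) =
      ∑ t, cart s m (b t.1 * tz p (t.2 : ℕ) ^ p ^ (ν t.1 - 1)) * y t := by
  classical
  have h1 : lead ν b x = ∑ i : {i // ν i ≠ 0}, b i * x i ^ p ^ (ν i - 1) := by
    rw [lead, ← Fintype.sum_subtype_add_sum_subtype (fun i => ν i ≠ 0),
      Finset.sum_eq_zero (s := Finset.univ (α := {i // ¬ ν i ≠ 0}))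
        fun i _ => by rw [hb i (not_not.1 i.2), zero_mul], add_zero]
  rw [h1, cart_sum, Fintype.sum_sigma]
  refine Finset.sum_congr rfl fun i _ => ?_
  rw [hxy i, col_pow_expand (by have := hν i; omega), Finset.mul_sum, cart_sum]
  refine Finset.sum_congr rfl fun l _ => ?_
  rw [← mul_assoc, cart_mul_pow]

/-- A relation between the leading coefficients, or bounded independence. -/
theorem lead_dichotomy : ∃ u : ℕ → ℕ, Cm u ∧ ∀ (Φ : Filt p) (s : ℕ) (I J : Type) [Fintype I]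
    (ν : I → ℕ) (b : J → I → KK p), Φ.w ≤ s → Fintype.card I ≤ s → (∀ i, ν i ≤ s) →
    (∀ j i, b j i ∈ Φ.R s) → (∀ j i, ν i = 0 → b j i = 0) →
    (∃ e : I → KK p, (∃ i, e i ≠ 0) ∧ (∀ i, ν i = 0 → e i = 0) ∧ (∀ i, e i ∈ Φ.R (u s)) ∧
      ∀ j, lead ν (b j) e = 0) ∨
    ∀ (x : I → KK p) (γ : ℤ), (∀ j, Ge γ (lead ν (b j) x)) →
      ∀ i, ν i ≠ 0 → Ge (γ - u s) (x i ^ p ^ (ν i - 1)) := by
  obtain ⟨a, hac, ha⟩ : ∃ a : ℕ → ℕ, CI ∅ a ∧ ∀ s, a s = 2 ^ (s * p ^ s) * (s + p ^ s) :=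
    ⟨_, by fun_prop, fun _ => rfl⟩
  obtain ⟨c, hcc, hc⟩ : ∃ c : ℕ → ℕ, CI ∅ c ∧ ∀ s, c s = s * p ^ s * gf p s (a s) :=
    ⟨_, by unfold gf; fun_prop, fun _ => rfl⟩
  obtain ⟨u, hu, Hu⟩ := exists_cm (g := fun s => p ^ s + p ^ s * a s + p ^ s * c s) (by fun_prop)
  refine ⟨u, hu, fun Φ s I J _ ν b hw hI hν hb hb0 => ?_⟩
  classical
  have H := Hu s s le_rfl
  have hcard : Fintype.card (Σ i : {i // ν i ≠ 0}, Fin (p ^ (s - (ν i - 1)))) ≤ s * p ^ s := by
    rw [Fintype.card_sigma]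
    refine (Finset.sum_le_card_nsmul _ _ (p ^ s) fun i _ => ?_).trans ?_
    · rw [Fintype.card_fin]; exact Nat.pow_le_pow_right hp.out.pos (by omega)
    · rw [smul_eq_mul, Finset.card_univ]
      exact Nat.mul_le_mul_right _ ((Fintype.card_subtype_le _).trans hI)
  have hl : ∀ (i : I) (l : Fin (p ^ (s - (ν i - 1)))), p ^ (ν i - 1) * l ≤ p ^ s := fun i l => by
    refine (Nat.mul_le_mul_left _ l.2.le).trans_eq ?_
    rw [← pow_add]; congr 1; have := hν i; omega
  rcases gauss_col Φ (a := s + p ^ s) hw hcard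
    (fun (j : J × Fin (p ^ s)) t => cart s j.2 (b j.1 t.1 * tz p (t.2 : ℕ) ^ p ^ (ν t.1 - 1)))
    (fun j t => Φ.cart_mem' (Φ.mono (Nat.add_le_add_left (hl t.1 t.2) _)
      (Φ.mul_mem (hb _ _) (Φ.pow_mem (Φ.tz_mem _) _))) j.2.2) with ⟨d, ⟨t₀, ht₀⟩, hd, hr⟩ | h
  · left
    refine ⟨fun i => if h : ν i ≠ 0 then ∑ l : Fin (p ^ (s - (ν i - 1))),
      tz p (l : ℕ) * d ⟨⟨i, h⟩, l⟩ ^ p ^ (s - (ν i - 1)) else 0, ⟨t₀.1, fun h0 => ht₀ ?_⟩,
      fun i hi => dif_neg (not_not.2 hi), fun i => ?_, fun j => ?_⟩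
    · beta_reduce at h0
      rw [dif_pos t₀.1.2] at h0
      have := cart_sum_tz (s - (ν t₀.1 - 1)) (fun l => d ⟨t₀.1, l⟩) t₀.2
      rw [← this, h0, cart_zero]
    · beta_reduce
      split_ifs with h
      · refine sum_mem fun l _ => Φ.mono ?_ (Φ.mul_mem (Φ.tz_mem _) (Φ.pow_mem (hd _) _))
        have h1 : p ^ (s - (ν i - 1)) ≤ p ^ s := Nat.pow_le_pow_right hp.out.pos (by omega)
        have h2 := Nat.mul_le_mul_right (a s) h1
        have h3 := l.2
        rw [← ha]; omega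
      · exact zero_mem _
    · refine eq_of_cart_eq s fun m hm => ?_
      rw [col_cart_lead hν (hb0 j) _ d (fun i => dif_pos i.2) m, cart_zero]
      exact hr (j, ⟨m, hm⟩)
  · right
    intro x γ hx i hi
    have hq : (0 : ℤ) < (p ^ s : ℕ) := by exact_mod_cast pp_pos s
    have h1 := Int.mul_ediv_add_emod γ (p ^ s : ℕ)
    have h2 := Int.emod_nonneg γ hq.ne'
    have h3 := Int.emod_lt_of_pos γ hq
    have hy := h (fun t => cart (s - (ν t.1 - 1)) t.2 (x t.1)) (γ / (p ^ s : ℕ)) fun j => by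
      rw [← col_cart_lead hν (hb0 j.1) x (fun t => cart (s - (ν t.1 - 1)) t.2 (x t.1))
        (fun i => eq_sum_cart (s - (ν i - 1)) (x i)) j.2]
      refine ((ge_iff_cart s γ _).1 (hx j.1) j.2 j.2.2).mono ?_
      have : γ / (p ^ s : ℕ) - 1 < cut (p ^ s) j.2 γ := by
        rw [lt_cut_iff (pp_pos s)]
        have : ((j.2 : ℕ) : ℤ) < (p ^ s : ℕ) := by exact_mod_cast j.2.2
        linarith
      omega
    rw [eq_sum_cart (s - (ν i - 1)) (x i), col_pow_expand (by have := hν i; omega)]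
    refine Ge.sum _ fun l _ => Ge.mul_left (((ge_tz (p := p) (l : ℕ)).mono
      (Int.natCast_nonneg _)).pow_pow_nonneg le_rfl _) (((hy ⟨⟨i, hi⟩, l⟩).pow_pow s).mono ?_)
    rw [← ha, ← hc]
    have h4 : ((p ^ s + p ^ s * c s : ℕ) : ℤ) ≤ u s := by exact_mod_cast (by omega)
    push_cast at *
    linarith

theorem col_step : ∃ u : ℕ → ℕ, Cm u ∧ ∀ (Φ : Filt p) (s : ℕ) (I J : Type) [Fintype I]
    (ν : I → ℕ) (P : J → (I → KK p) → KK p), Φ.w ≤ s → Fintype.card I ≤ s → (∀ i, ν i ≤ s) →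
    (∀ j, IsAP Φ ν s (P j)) →
    (∃ b, ColRed Φ (u s) P id ν b) ∨
    ∃ (S : (I → KK p) → I → KK p) (ν' : I → ℕ), Function.Surjective S ∧
      (∀ i, APs Φ (u s) (fun x => S x i)) ∧ ∑ i, ν' i < ∑ i, ν i ∧ (∀ i, ν' i ≤ s) ∧
      ∀ j, IsAP Φ ν' (u s) (fun x => P j (S x)) := by
  obtain ⟨u, hu, Hu⟩ := lead_dichotomy (p := p)
  have huc := hu.ci
  obtain ⟨v, hv, Hv⟩ := exists_cm (g := fun s => s + p ^ s * u s + u s) (by fun_prop)
  refine ⟨v, hv, fun Φ s I J _ ν P hw hI hν hP => ?_⟩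
  classical
  have H := Hv s s le_rfl
  have hus := hu.lt s
  choose b hb hb0 hT using fun j => (hP j).lead_dec
  rcases Hu Φ s I J ν b hw hI hν hb hb0 with ⟨e, ⟨i₁, hi₁⟩, he0, he, hr⟩ | h
  swap
  · left
    exact ⟨b, Function.surjective_id, fun i => IsAP.coord i (hv.pos s),
      fun i => (hν i).trans (by omega), fun j i => Φ.mono (by omega) (hb j i), hb0,
      fun j => (hT j).mono (fun _ => le_rfl) (by omega),
      fun x γ hx i hi => (h x γ hx i hi).mono (by omega)⟩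
  right
  obtain ⟨i₀, hi₀, hmax⟩ := Finset.exists_max_image (Finset.univ.filter fun i => e i ≠ 0) ν
    ⟨i₁, by simpa using hi₁⟩
  simp only [Finset.mem_filter, Finset.mem_univ, true_and] at hi₀ hmax
  have hν₀ : ν i₀ ≠ 0 := fun h => hi₀ (he0 i₀ h)
  have hpk : ∀ k, k ≤ s → p ^ k * u s ≤ p ^ s * u s := fun k hk =>
    Nat.mul_le_mul_right _ (Nat.pow_le_pow_right hp.out.pos hk)
  refine ⟨fun x i => if i = i₀ then e i₀ * x i₀ else x i + e i * x i₀ ^ p ^ (ν i₀ - ν i),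
    Function.update ν i₀ (ν i₀ - 1), fun z => ?_, fun i => ?_, ?_, fun i => ?_, fun j => ?_⟩
  · refine ⟨fun i => if i = i₀ then z i₀ / e i₀ else
      z i - e i * (z i₀ / e i₀) ^ p ^ (ν i₀ - ν i), funext fun i => ?_⟩
    by_cases h : i = i₀
    · subst h; simp [mul_div_cancel₀ _ hi₀]
    · simp [h]
  · by_cases h : i = i₀
    · simp only [h, if_true]
      exact (IsAP.mon i₀ 0 _ (hv.pos s) (Φ.mono (by omega) (he i₀))).congr fun x => by simp
    · simp only [h, if_false]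
      exact (IsAP.coord i (hv.pos s)).add (IsAP.mon i₀ _ _ (by have := hν i₀; omega)
        (Φ.mono (by omega) (he i)))
  · refine Finset.sum_lt_sum (fun i _ => ?_) ⟨i₀, Finset.mem_univ _, by simp; omega⟩
    by_cases h : i = i₀
    · subst h; simp
    · simp [h]
  · by_cases h : i = i₀
    · subst h; have := hν i; simp; omega
    · simp [h, hν i]
  · have h1 : IsAP Φ (Function.update ν i₀ (ν i₀ - 1)) s
        (fun x => ∑ i, if i = i₀ then 0 else b j i * x i ^ p ^ (ν i - 1)) := by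
      refine IsAP.sum _ fun i _ => ?_
      by_cases h : i = i₀
      · simp only [h, if_true]; exact IsAP.zero
      · simp only [h, if_false]
        by_cases h0 : ν i = 0
        · exact IsAP.zero.congr fun x => by rw [hb0 j i h0, zero_mul]
        · exact IsAP.mon i _ _ (by simp [h]; omega) (hb j i)
    have h2 := (hT j).comp (μ := Function.update ν i₀ (ν i₀ - 1)) (a' := p ^ s * u s)
      (S := fun x i => if i = i₀ then e i₀ * x i₀ else x i + e i * x i₀ ^ p ^ (ν i₀ - ν i))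
      fun i k hk => by
        have hks : k ≤ s := by have := hν i; omega
        have hek : e i ^ p ^ k ∈ Φ.R (p ^ s * u s) := Φ.mono (hpk k hks) (Φ.pow_mem (he i) _)
        by_cases h : i = i₀
        · subst h
          simp only [if_true]
          exact (IsAP.mon i k _ (by simpa using hk) hek).congr fun x => by rw [mul_pow]
        · simp only [h, if_false]
          have h3 : IsAP Φ (Function.update ν i₀ (ν i₀ - 1)) (p ^ s * u s)
              (fun x : I → KK p => 1 * x i ^ p ^ k) :=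
            IsAP.mon i k _ (by simp [h]; omega) (Φ.one_mem' _)
          by_cases h0 : e i = 0
          · exact h3.congr fun x => by simp [h0]
          · have := hmax i h0
            exact (h3.add (IsAP.mon i₀ (ν i₀ - ν i + k) _ (by simp; omega) hek)).congr
              fun x => by rw [add_pow_char_pow, mul_pow, one_mul, ← pow_mul, ← pow_add]
    refine ((h1.mono (fun _ => le_rfl) (by omega)).add
      (h2.mono (fun _ => le_rfl) (by omega))).congr fun x => ?_
    have h3 : lead ν (b j) (fun i => if i = i₀ then e i₀ * x i₀ else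
        x i + e i * x i₀ ^ p ^ (ν i₀ - ν i)) =
        (∑ i, if i = i₀ then 0 else b j i * x i ^ p ^ (ν i - 1)) +
          lead ν (b j) e * x i₀ ^ p ^ (ν i₀ - 1) := by
      rw [lead, lead, Finset.sum_mul, ← Finset.sum_add_distrib]
      refine Finset.sum_congr rfl fun i _ => ?_
      by_cases h : i = i₀
      · subst h; simp only [if_true]; ring
      · simp only [h, if_false]
        by_cases h0 : e i = 0
        · rw [h0, zero_pow (pp_pos (p := p) _).ne']; ring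
        · have h4 := hmax i h0
          have h5 : ν i ≠ 0 := fun h => h0 (he0 i h)
          rw [add_pow_char_pow, mul_pow, ← pow_mul (x i₀), ← pow_add,
            show ν i₀ - ν i + (ν i - 1) = ν i₀ - 1 by omega]
          ring
    rw [h3, hr j]; ring

theorem ColRed.mono {Φ : Filt p} {c c' : ℕ} {I J : Type} [Fintype I] {P : J → (I → KK p) → KK p}
    {S : (I → KK p) → I → KK p} {ν : I → ℕ} {b : J → I → KK p} (h : ColRed Φ c P S ν b)
    (hc : c ≤ c') : ColRed Φ c' P S ν b :=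
  ⟨h.surj, fun i => (h.apS i).monos hc, fun i => (h.nu_le i).trans hc,
    fun j i => Φ.mono hc (h.memb j i), h.zerob, fun j => (h.tail j).mono (fun _ => le_rfl) hc,
    fun x γ hx i hi => (h.indep x γ hx i hi).mono (by omega)⟩

theorem col_red : ∃ f : ℕ → ℕ, Cm f ∧ ∀ (Φ : Filt p) (s : ℕ) (I J : Type) [Fintype I]
    (P : J → (I → KK p) → KK p), Φ.w ≤ s → Fintype.card I ≤ s → (∀ j, APs Φ s (P j)) →
    ∃ S ν b, ColRed Φ (f s) P S ν b := by
  obtain ⟨u, hu, Hu⟩ := col_step (p := p)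
  have huc := hu.ci
  obtain ⟨v, hv, Hv⟩ := exists_cm (g := fun s => u s + (s + s + p ^ s * s)) (by fun_prop)
  have key : ∀ (k : ℕ) (Φ : Filt p) (s : ℕ) (I J : Type) [Fintype I] (ν : I → ℕ)
      (P : J → (I → KK p) → KK p), Φ.w ≤ s → Fintype.card I ≤ s → (∀ i, ν i ≤ s) →
      (∀ j, IsAP Φ ν s (P j)) → ∑ i, ν i ≤ k → ∃ S ν b, ColRed Φ (v^[2 * k + 1] s) P S ν b := by
    intro k
    induction k with
    | zero =>
      intro Φ s I J _ ν P hw hI hν hP hk
      rcases Hu Φ s I J ν P hw hI hν hP with ⟨b, hb⟩ | ⟨S, ν', -, -, h, -⟩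
      · exact ⟨id, ν, b, hb.mono (le_trans (Nat.le_add_right _ _) (Hv s s le_rfl))⟩
      · omega
    | succ k ih =>
      intro Φ s I J _ ν P hw hI hν hP hk
      have h1 : u s ≤ v s := le_trans (Nat.le_add_right _ _) (Hv s s le_rfl)
      have h2 := hv.le s
      rcases Hu Φ s I J ν P hw hI hν hP with ⟨b, hb⟩ | ⟨S, ν', hS, hA, h, hν', hP'⟩
      · exact ⟨id, ν, b, hb.mono (h1.trans (hv.iterate_mono (k := 1) (by omega) le_rfl))⟩
      · obtain ⟨S', ν'', b, hb⟩ := ih Φ (v s) I J ν' (fun j x => P j (S x)) (by omega) (by omega)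
          (fun i => (hν' i).trans h2) (fun j => (hP' j).mono (fun _ => le_rfl) h1) (by omega)
        have h3 : v^[2 * (k + 1) + 1] s = v (v^[2 * k + 1] (v s)) := by
          rw [show 2 * (k + 1) + 1 = (2 * k + 1 + 1) + 1 by ring, Function.iterate_succ_apply',
            Function.iterate_succ_apply]
        have h4 := hv.le_iterate (2 * k + 1) (v s)
        have hb' := hb.mono (hv.le _)
        rw [h3]
        exact ⟨fun x => S (S' x), ν'', b, hS.comp hb.surj, fun i =>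
          (((hA i).monos (h1.trans h4)).comp_size hb.apS).monos
            (le_trans (Nat.le_add_left _ _) (Hv _ _ le_rfl)),
          hb'.nu_le, hb'.memb, hb'.zerob, hb'.tail, hb'.indep⟩
  obtain ⟨f, hf, Hf⟩ := hv.exists_iterate (k := fun s => 2 * (s * s) + 1) (by fun_prop)
  refine ⟨f, hf, fun Φ s I J _ P hw hI hP => ?_⟩
  obtain ⟨S, ν, b, h⟩ := key (s * s) Φ s I J (fun _ => s) P hw hI (fun _ => le_rfl) hP
    (by simpa using Nat.mul_le_mul_right s hI)
  exact ⟨S, ν, b, h.mono (Hf s)⟩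

end Pool.Agent.Work.MP_db9079_lc
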