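import Mathlib.ModelTheory.Encoding
import Mathlib.ModelTheory.Semantics
import Mathlib.RingTheory.LaurentSeries
import Mathlib.Data.ZMod.Basic
import Mathlib.Algebra.Field.ZMod
import Mathlib.Data.Nat.Digits.Defs

/-!
The language with addition, Frobenius, automatic scalars and approximate multiplication, and its
interpretation in the Laurent series over a prime field.
-/

namespace Pool.Agent.Work.MP_db9079_lc

open FirstOrder

/-- A finite automaton with output: entry number `s` is the output of state `s` and the list of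
the states reached from `s` on reading the digits `0, 1, ...` (missing entries are `0`). -/
abbrev Aut : Type := List (ℕ × List ℕ)

/-- Output of `A` after reading from state `s` the base `p` digits of `n`, lowest first. -/
def autOut (p : ℕ) (A : Aut) (s n : ℕ) : ℕ :=
  (A.getD ((Nat.digits p n).foldl (fun s d => (A.getD s (0, [])).2.getD d 0) s) (0, [])).1

/-- The automatic power series whose coefficients are the outputs of `A` from state `0`. -/
noncomputable def autSeries (p : ℕ) (A : Aut) : LaurentSeries (ZMod p) :=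
  HahnSeries.ofPowerSeries ℤ (ZMod p) (PowerSeries.mk fun n => (autOut p A 0 n : ZMod p))

/-- Function symbols. -/
inductive Fn : ℕ → Type
  | one : Fn 0
  | frob : Fn 1
  | scal (A : Aut) : Fn 1
  | add : Fn 2
  | sub : Fn 2

/-- Relation symbols. -/
inductive Rl : ℕ → Type
  | mul (n : ℕ) : Rl 3

/-- The language. -/
def Lang : Language := ⟨Fn, Rl⟩

/-- Coding of the function symbols. -/
def fnCode : (Σ i, Fn i) → ℕ ⊕ Aut
  | ⟨_, .add⟩ => Sum.inl 0
  | ⟨_, .sub⟩ => Sum.inl 1
  | ⟨_, .frob⟩ => Sum.inl 2
  | ⟨_, .one⟩ => Sum.inl 3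
  | ⟨_, .scal A⟩ => Sum.inr A

/-- Decoding of the function symbols. -/
def fnDec : ℕ ⊕ Aut → Option (Σ i, Fn i)
  | Sum.inl 0 => some ⟨_, .add⟩
  | Sum.inl 1 => some ⟨_, .sub⟩
  | Sum.inl 2 => some ⟨_, .frob⟩
  | Sum.inl _ => some ⟨_, .one⟩
  | Sum.inr A => some ⟨_, .scal A⟩

instance encFn : Encodable (Σ i, Lang.Functions i) :=
  Encodable.ofLeftInjection (α := ℕ ⊕ Aut) fnCode fnDec (by rintro ⟨_, f⟩; cases f <;> rfl)

/-- Coding of the relation symbols. -/
def rlCode : (Σ i, Rl i) → ℕ
  | ⟨_, .mul n⟩ => n

instance encRl : Encodable (Σ i, Lang.Relations i) :=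
  Encodable.ofLeftInjection (α := ℕ) rlCode (fun n => some ⟨_, .mul n⟩)
    (by rintro ⟨_, r⟩; cases r; rfl)

/-- The interpretation: `1`, `x ^ p`, multiplication by an automatic series, `+`, `-`, and
`x y - z ∈ t ^ n x y F_p[[t]]`. -/
noncomputable instance str (p : ℕ) [Fact p.Prime] : Lang.Structure (LaurentSeries (ZMod p)) where
  funMap := fun {_} f x => match f, x with
    | .one, _ => 1
    | .frob, x => x 0 ^ p
    | .scal A, x => autSeries p A * x 0
    | .add, x => x 0 + x 1
    | .sub, x => x 0 - x 1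
  RelMap := fun {_} r x => match r, x with
    | .mul n, x => ∃ c : PowerSeries (ZMod p), x 0 * x 1 - x 2 =
        HahnSeries.ofPowerSeries ℤ (ZMod p) (PowerSeries.X ^ n * c) * (x 0 * x 1)

end Pool.Agent.Work.MP_db9079_lc
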