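import Pool.Agent.Work.MP_db9079_lc.RTerm

/-!
Evaluation of terms on truncated digit expansions.
-/

namespace Pool.Agent.Work.MP_db9079_lc

open Pool.Agent.Lib.RelComp

/-- Operations on lists of `M` digits starting at the exponent `-L`. -/
def opsD (p L M : ℕ) : Ops (List ℕ) where
  add a b := (List.range M).map fun m => a.getD m 0 + b.getD m 0
  sub a b := (List.range M).map fun m => a.getD m 0 + (p - 1) * b.getD m 0
  fr a := (List.range M).map fun m =>
    if (m + (p - 1) * L) % p = 0 then a.getD ((m + (p - 1) * L) / p) 0 else 0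
  sc A a := (List.range M).map fun m =>
    ((List.range (m + 1)).map fun i => autOut p A 0 i * a.getD (m - i) 0).sum
  d := []

/-- Digits of the value of a term. -/
def evD (p L M : ℕ) (y : List (List ℕ)) (t : List Sy) : List ℕ :=
  (stk (opsD p L M) (fun v => y.getD v []) t).getD 0 []

variable {p : ℕ} [hp : Fact p.Prime]

/-- `d` lists the digits of `x` from the exponent `-L` on. -/
def Rep (L M : ℕ) (d : List ℕ) (x : KK p) : Prop :=
  ∀ m : ℕ, m < M → x.coeff ((m : ℤ) - L) = (d.getD m 0 : ℕ)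

theorem RDigit_getD (f : ℕ → ℕ) (M m : ℕ) :
    ((List.range M).map f).getD m 0 = if m < M then f m else 0 := by
  split_ifs with h
  · simp [List.getD_eq_getElem?_getD, h]
  · exact List.getD_eq_default _ _ (by simpa using h)

theorem RDigit_add {L M : ℕ} {a b : List ℕ} {x y : KK p} (hx : Rep L M a x) (hy : Rep L M b y) :
    Rep L M ((opsD p L M).add a b) (x + y) := fun m hm => by
  rw [opsD, RDigit_getD, if_pos hm, HahnSeries.coeff_add, hx m hm, hy m hm, Nat.cast_add]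

theorem RDigit_sub {L M : ℕ} {a b : List ℕ} {x y : KK p} (hx : Rep L M a x) (hy : Rep L M b y) :
    Rep L M ((opsD p L M).sub a b) (x - y) := fun m hm => by
  rw [opsD, RDigit_getD, if_pos hm, HahnSeries.coeff_sub, hx m hm, hy m hm, Nat.cast_add,
    Nat.cast_mul, Nat.cast_pred hp.out.pos, ZMod.natCast_self]
  ring

theorem RDigit_fr {L M : ℕ} (hM : L ≤ M) {a : List ℕ} {x : KK p} (hx : Rep L M a x) :
    Rep L M ((opsD p L M).fr a) (x ^ p) := fun m hm => by
  have h0 := hp.out.pos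
  have e := coeff_pow_pow 1 x ((m : ℤ) - L)
  rw [pow_one, pow_one] at e
  have e1 : ((m + (p - 1) * L : ℕ) : ℤ) = (m : ℤ) - L + p * L := by
    rw [Nat.cast_add, Nat.cast_mul, Nat.cast_pred h0]
    ring
  have e2 : (p : ℤ) ∣ (m : ℤ) - L ↔ (m + (p - 1) * L) % p = 0 := by
    rw [← Nat.dvd_iff_mod_eq_zero, ← Int.natCast_dvd_natCast, e1,
      dvd_add_left (dvd_mul_right _ _)]
  rw [opsD, RDigit_getD, if_pos hm, e]
  by_cases h : (m + (p - 1) * L) % p = 0
  · rw [if_pos h, if_pos (e2.2 h), ← hx]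
    · rw [Int.natCast_div, e1, Int.add_mul_ediv_left _ _ (by omega), add_sub_cancel_right]
    · obtain ⟨q, rfl⟩ : ∃ q, p = q + 1 := ⟨p - 1, by omega⟩
      rw [Nat.div_lt_iff_lt_mul h0, Nat.add_sub_cancel]
      nlinarith [Nat.mul_le_mul_left q hM]
  · rw [if_neg h, if_neg fun h' => h (e2.1 h'), Nat.cast_zero]

theorem RDigit_sc {L M : ℕ} (A : Aut) {a : List ℕ} {x : KK p} (hx' : Ge (-(L : ℤ)) x)
    (hx : Rep L M a x) : Rep L M ((opsD p L M).sc A a) (autSeries p A * x) := fun m hm => by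
  have e := coeff_mul_window (ge_autSeries A) hx' m
  rw [zero_add, neg_add_eq_sub] at e
  rw [opsD, RDigit_getD, if_pos hm, e]
  refine Eq.trans (Finset.sum_congr rfl fun i _ => ?_)
    (Nat.cast_sum (Finset.range (m + 1)) fun i => autOut p A 0 i * a.getD (m - i) 0).symm
  rw [zero_add, coeff_autSeries, neg_add_eq_sub, hx _ (by omega), Nat.cast_mul]

theorem rep_ev {L M C : ℕ} (hM : L ≤ M) {t : List Sy} (hL : p ^ t.length * C ≤ L)
    {y : ℕ → KK p} {d : List (List ℕ)} (hy : ∀ v, Ge (-(C : ℤ)) (y v))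
    (hd : ∀ v, Rep L M (d.getD v []) (y v)) :
    Ge (-(L : ℤ)) (ev y t) ∧ Rep L M (evD p L M d t) (ev y t) := by
  have h1 : ∀ l : ℕ, -((p ^ (l + 1) * C : ℕ) : ℤ) ≤ -((p ^ l * C : ℕ) : ℤ) := fun l =>
    neg_le_neg (Int.ofNat_le.2
      (Nat.mul_le_mul_right C (Nat.pow_le_pow_right hp.out.pos l.le_succ)))
  have h2 : ∀ l : ℕ, l ≤ t.length → -(L : ℤ) ≤ -((p ^ l * C : ℕ) : ℤ) := fun l hl =>
    neg_le_neg (Int.ofNat_le.2
      ((Nat.mul_le_mul_right C (Nat.pow_le_pow_right hp.out.pos hl)).trans hL))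
  have key := stk_rel (opsD p L M) (opsK p) (fun v => d.getD v []) y
    (fun l a x => Ge (-((p ^ l * C : ℕ) : ℤ)) x ∧ Rep L M a x) t
    (fun l _ _ h => ⟨h.1.mono (h1 l), h.2⟩) ⟨ge_zero _, fun _ _ => by simp [opsD, opsK]⟩
    (fun l _ _ _ _ _ h h' => ⟨(h.1.add h'.1).mono (h1 l), RDigit_add h.2 h'.2⟩)
    (fun l _ _ _ _ _ h h' => ⟨(h.1.sub h'.1).mono (h1 l), RDigit_sub h.2 h'.2⟩)
    (fun l _ _ _ h => ⟨(h.1.pow p).mono (le_of_eq (by push_cast; ring)), RDigit_fr hM h.2⟩)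
    (fun s _ l _ _ hl h => ⟨((ge_autSeries s.2).mul_left h.1).mono (h1 l),
      RDigit_sc s.2 (h.1.mono (h2 l hl.le)) h.2⟩)
    (fun s _ _ => ⟨by simpa using hy _, hd _⟩) 0
  exact ⟨key.1.mono (h2 _ le_rfl), key.2⟩

theorem exists_rep (L M : ℕ) (d : List ℕ) {C : ℕ} (hC : C ≤ L)
    (h : ∀ m, m < L - C → d.getD m 0 = 0) :
    ∃ x : KK p, Ge (-(C : ℤ)) x ∧ Rep L M d x ∧ ((∀ m, d.getD m 0 = 0) → x = 0) := by
  have key : ∀ n : ℤ, (∑ m ∈ Finset.range M,
      HahnSeries.single ((m : ℤ) - L) ((d.getD m 0 : ℕ) : ZMod p) : KK p).coeff n =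
      ∑ m ∈ Finset.range M, if n = (m : ℤ) - L then ((d.getD m 0 : ℕ) : ZMod p) else 0 :=
    fun n => by
      rw [HahnSeries.coeff_sum]
      exact Finset.sum_congr rfl fun m _ => by rw [HahnSeries.coeff_single]; congr
  refine ⟨∑ m ∈ Finset.range M, HahnSeries.single ((m : ℤ) - L) ((d.getD m 0 : ℕ) : ZMod p),
    fun n hn => ?_, fun m hm => ?_, fun h0 => Finset.sum_eq_zero fun m _ => ?_⟩
  · rw [key]
    refine Finset.sum_eq_zero fun m _ => ?_
    split_ifs with e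
    · rw [h m (by omega), Nat.cast_zero]
    · rfl
  · rw [key, Finset.sum_eq_single m (fun n _ hn => if_neg (by omega))
      fun h' => absurd (Finset.mem_range.2 hm) h', if_pos rfl]
  · rw [h0, Nat.cast_zero, map_zero]

theorem exists_digits (L M : ℕ) (x : KK p) :
    ∃ d ∈ allL (List.range p) M, Rep L M d x ∧
      ∀ m : ℕ, x.coeff ((m : ℤ) - L) = 0 → d.getD m 0 = 0 := by
  refine ⟨(List.range M).map fun m : ℕ => (x.coeff ((m : ℤ) - L)).val,
    mem_allL.2 ⟨by simp, fun b hb => ?_⟩, fun m hm => ?_, fun m hm => ?_⟩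
  · obtain ⟨m, -, rfl⟩ := List.mem_map.1 hb
    exact List.mem_range.2 (ZMod.val_lt _)
  · rw [RDigit_getD, if_pos hm, ZMod.natCast_zmod_val]
  · rw [RDigit_getD, hm, ZMod.val_zero, ite_self]

theorem ci_evD : CI ∅ (fun q : (ℕ × ℕ) × List (List ℕ) × List Sy =>
    evD p q.1.1 q.1.2 q.2.1 q.2.2) := by
  have h0 := ci_autOut (O := ∅) hp.out.two_le
  refine CI.getD (ci_stk (o := fun q : (ℕ × ℕ) × List (List ℕ) × List Sy => opsD p q.1.1 q.1.2)
    (y := fun q v => q.2.1.getD v []) ?_ ?_ ?_ ?_ ?_ ?_ ?_) (CI.const 0) (CI.const [])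
  · unfold opsD
    fun_prop
  · unfold opsD
    fun_prop
  · unfold opsD
    fun_prop
  · have h1 : ∀ {α : Type} [Primcodable α] {f : α → Aut} {g : α → ℕ}, CI ∅ f → CI ∅ g →
        CI ∅ fun a => autOut p (f a) 0 (g a) := fun hf hg =>
      CI.comp (fun q : Aut × ℕ => autOut p q.1 0 q.2) _ h0 (hf.pair hg)
    unfold opsD
    dsimp only
    refine CI.map (by fun_prop) (ci_sum (CI.map (by fun_prop) (CI.mul ?_ (by fun_prop))))
    exact h1 (by fun_prop) (by fun_prop)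
  · exact CI.const []
  · fun_prop
  · fun_prop

end Pool.Agent.Work.MP_db9079_lc
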