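import Pool.Agent.Work.MP_db9079_lc.RRun

/-!
Computability of the quantifier step.
-/

namespace Pool.Agent.Work.MP_db9079_lc

open Pool.Agent.Lib.RelComp

variable {p : ℕ} [hp : Fact p.Prime] {f : ℕ → ℕ}

section

variable {α : Type} [Primcodable α]

theorem RExt_tab {sh : α → List (List Sy)} {k n B : α → ℕ} {D : α → NP}
    (h1 : CI ∅ sh) (h2 : CI ∅ k) (h3 : CI ∅ n) (h4 : CI ∅ B) (h5 : CI ∅ D) :
    CP ∅ (fun a => Tab (GS p (sh a) (k a)) (n a) (toPb p (B a) (D a))) :=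
  CP.comp _ (fun a => ((sh a, k a), (n a, B a), D a)) (cp_tab (p := p))
    ((h1.pair h2).pair ((h3.pair h4).pair h5))

theorem RExt_le_sum (D : NP) (i : ℕ) :
    (D.getD i (0, 0, [])).2.1 ≤ (D.map fun e => e.2.1).sum := by
  rw [List.getD_eq_getElem?_getD]
  cases h : D[i]? with
  | none => exact Nat.zero_le _
  | some e => exact rcm_le_sum (List.mem_map.2 ⟨e, List.mem_of_getElem? h, rfl⟩)

theorem RExt_box1 {r o : α → ℕ} {D : α → NP} {γ : α → List ℕ} (h1 : CI ∅ r) (h2 : CI ∅ o)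
    (h3 : CI ∅ D) (h4 : CI ∅ γ) : CP ∅ (fun a => ∀ i, i < r a →
      ((D a).getD (o a + i) (0, 0, [])).1 = 2 ∨ (((D a).getD (o a + i) (0, 0, [])).1 = 1 ∧
        (γ a).getD i 0 ≤ ((D a).getD (o a + i) (0, 0, [])).2.1)) :=
  cp_allLt h1 (by fun_prop)

theorem RExt_box2 {r o n : α → ℕ} {D : α → NP} {γ : α → List ℕ} (h1 : CI ∅ r) (h2 : CI ∅ o)
    (h3 : CI ∅ D) (h4 : CI ∅ γ) (h5 : CI ∅ n) : CP ∅ (fun a => ∀ i, i < r a →
      ((D a).getD (o a + i) (0, 0, [])).1 = 0 ∨ (((D a).getD (o a + i) (0, 0, [])).1 = 1 ∧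
        ((D a).getD (o a + i) (0, 0, [])).2.1 + n a ≤ (γ a).getD i 0)) :=
  cp_allLt h1 (by fun_prop)

omit hp in
theorem RExt_le {r B : α → ℕ} {c d : α → NP} (h1 : CI ∅ r) (h2 : CI ∅ c) (h3 : CI ∅ d) :
    CP ∅ (fun a => Pb.Le (r a) (toPb p (B a) (c a)) (toPb p (B a) (d a))) := by
  have : CP ∅ (fun a => ∀ i, i < r a →
      (((c a).getD i (0, 0, [])).1 ≠ 1 ∧ ((c a).getD i (0, 0, [])).1 ≠ 2) ∨
        ((d a).getD i (0, 0, [])).1 = 2 ∨ (((c a).getD i (0, 0, [])).1 = 1 ∧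
          ((d a).getD i (0, 0, [])).1 = 1 ∧
            ((c a).getD i (0, 0, [])).2.1 ≤ ((d a).getD i (0, 0, [])).2.1)) :=
    cp_allLt h1 (by fun_prop)
  exact this.congr fun a => by simp only [Pb.Le, toPb, sub_le_sub_iff_right, Nat.cast_le]

theorem RExt_shift {n m : α → ℕ} {c d : α → ℕ × ℕ × List ℕ} (h1 : CI ∅ n) (h2 : CI ∅ m)
    (h3 : CI ∅ c) (h4 : CI ∅ d) : CI ∅ (fun a => ((List.range (n a)).map fun e =>
      if (d a).1 = 1 ∧ (d a).2.1 + e = (c a).2.1 + m a then (d a).2.2.getD e 0 else 0).sum) :=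
  ci_sum (CI.map (CI.range h1) (by fun_prop))

omit hp in
theorem RExt_entry {n : α → ℕ} {c d : α → ℕ × ℕ × List ℕ} (h1 : CI ∅ n)
    (h3 : CI ∅ c) (h4 : CI ∅ d) : CI ∅ (fun a => ((c a).1, (c a).2.1,
      (List.range (n a)).map fun m => (c a).2.2.getD m 0 + (p - 1) * ((List.range (n a)).map fun e =>
        if (d a).1 = 1 ∧ (d a).2.1 + e = (c a).2.1 + m then (d a).2.2.getD e 0 else 0).sum)) := by
  have h5 := RExt_shift (n := fun x : α × ℕ => n x.1) (m := fun x => x.2) (c := fun x => c x.1)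
    (d := fun x => d x.1) (by fun_prop) (by fun_prop) (by fun_prop) (by fun_prop)
  have h6 : CI ∅ (fun x : α × ℕ => (c x.1).2.2.getD x.2 0) := by fun_prop
  exact h3.fst.pair (h3.snd.fst.pair (CI.map (CI.range h1) (h6.add ((CI.const (p - 1)).mul h5))))

omit hp in
theorem RExt_diffN {n r : α → ℕ} {c d : α → NP} (h1 : CI ∅ n) (h2 : CI ∅ r) (h3 : CI ∅ c)
    (h4 : CI ∅ d) : CI ∅ (fun a => diffN p (n a) (r a) (c a) (d a)) :=
  CI.map (CI.range h2) (RExt_entry (p := p) (n := fun x : α × ℕ => n x.1)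
    (c := fun x => (c x.1).getD x.2 (0, 0, [])) (d := fun x => (d x.1).getD x.2 (0, 0, []))
    (by fun_prop) (by fun_prop) (by fun_prop))

theorem RExt_cover {sh : α → List (List Sy)} {k n N B : α → ℕ} {D : α → NP}
    (h1 : CI ∅ sh) (h2 : CI ∅ k) (h3 : CI ∅ n) (h4 : CI ∅ N) (h5 : CI ∅ B) (h6 : CI ∅ D) :
    CP ∅ (fun a => Cover (GS p (sh a) (k a)) (n a + 1) (N a) (toPb p (B a) (D a))) := by
  refine CP.congr ?_ fun a => (cover_iff_box (Nat.succ_pos _) _ _ _ _ (RExt_le_sum (D a))).symm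
  refine CP.allMem (by fun_prop) (CP.exLt (by fun_prop) (CP.or ?_ (CP.and (CP.not ?_) ?_)))
  · exact RExt_box1 (by fun_prop) (by fun_prop) (by fun_prop) (by fun_prop)
  · exact RExt_tab (by fun_prop) (by fun_prop) (by fun_prop) (by fun_prop) (by fun_prop)
  · exact RExt_box2 (by fun_prop) (by fun_prop) (by fun_prop) (by fun_prop) (by fun_prop)

theorem RExt_dec {sh : α → List (List Sy)} {k n N B : α → ℕ} {D D' : α → NP}
    (h1 : CI ∅ sh) (h2 : CI ∅ k) (h3 : CI ∅ n) (h4 : CI ∅ N) (h5 : CI ∅ B) (h6 : CI ∅ D)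
    (h7 : CI ∅ D') : CP ∅ (fun a =>
      Dec (GS p (sh a) (k a)) (n a) (N a) (toPb p (B a) (D a)) (toPb p (B a) (D' a))) := by
  have a0 : CI ∅ (fun x : α × ℕ => (D x.1).drop (x.2 * (sh x.1).length)) := by fun_prop
  have a1 := RExt_le (p := p) (r := fun x : α × ℕ => (sh x.1).length) (B := fun x => B x.1)
    (c := fun x => D' x.1) (by fun_prop) (by fun_prop) a0
  have a2 := RExt_diffN (p := p) (n := fun x : α × ℕ => n x.1) (r := fun x => (sh x.1).length)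
    (c := fun x => D' x.1) (by fun_prop) (by fun_prop) (by fun_prop) a0
  have a3 := RExt_tab (p := p) (sh := fun x : α × ℕ => sh x.1) (k := fun x => k x.1)
    (n := fun x => n x.1) (B := fun x => B x.1) (by fun_prop) (by fun_prop) (by fun_prop)
    (by fun_prop) a2
  refine CP.exLt h4 (CP.congr (a1.and a3) fun x => ?_)
  rw [← toPb_drop, tab_diffN]

theorem RExt_ext (hf : CI ∅ f) {sh : α → List (List Sy)} {q n j : α → ℕ} {D D' : α → NP}
    (h1 : CI ∅ sh) (h2 : CI ∅ q) (h3 : CI ∅ n) (h4 : CI ∅ j) (h5 : CI ∅ D) (h6 : CI ∅ D') :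
    CP ∅ (fun a => Ext f (sh a, q a, n a + 1) (j a) (toPb p (bd f (sh a, q a, n a + 1) 0) (D a))
      (toPb p (bd f (sh a, q a, n a + 1) 0) (D' a))) := by
  have hn : CI ∅ (fun a => n a + 1) := by fun_prop
  have hj : CI ∅ (fun a => j a + 1) := by fun_prop
  have hP : CI ∅ (fun a => ((sh a, q a, n a + 1) : Par)) := h1.pair (h2.pair hn)
  have s1 : CI ∅ (fun a => shp f (sh a, q a, n a + 1) (j a)) :=
    (CI.comp _ _ (ci_shp hf) (hP.pair h4) :)
  have s2 : CI ∅ (fun a => shp f (sh a, q a, n a + 1) (j a + 1)) :=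
    (CI.comp _ _ (ci_shp hf) (hP.pair hj) :)
  have n1 : CI ∅ (fun a => nn f (sh a, q a, n a + 1) (j a)) :=
    (CI.comp _ _ (ci_nn hf) (hP.pair h4) :)
  have n2 : CI ∅ (fun a => nn f (sh a, q a, n a + 1) (j a + 1)) :=
    (CI.comp _ _ (ci_nn hf) (hP.pair hj) :)
  have b0 : CI ∅ (fun a => bd f (sh a, q a, n a + 1) 0) :=
    (CI.comp _ _ (ci_bd hf) (hP.pair (CI.const 0)) :)
  have c1 := RExt_cover (p := p) s1 (h2.sub h4) h3 n1 b0 h6
  have c2 := RExt_dec (p := p) s2 (h2.sub hj) hn n2 b0 h5 h6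
  exact (c1.and c2).congr fun a => Iff.rfl

theorem RExt_all (hf : CI ∅ f) {sh : α → List (List Sy)} {q n : α → ℕ} {T : α → Tb}
    (h1 : CI ∅ sh) (h2 : CI ∅ q) (h3 : CI ∅ n) (h4 : CI ∅ T) :
    CI ∅ (fun a => tAll p f (sh a, q a, n a + 1) (T a)) := by
  have hP : CI ∅ (fun a => ((sh a, q a, n a + 1) : Par)) := by fun_prop
  have a1 : CI ∅ (fun x : α × ℕ × NP => cds f (sh x.1, q x.1, n x.1 + 1) p (x.2.1 - 1)) :=
    CI.comp _ (fun x : α × ℕ × NP => (((sh x.1, q x.1, n x.1 + 1) : Par), x.2.1 - 1))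
      (ci_cds (p := p) hf) (by fun_prop)
  have a2 := RExt_ext (p := p) hf (sh := fun x : (α × ℕ × NP) × NP => sh x.1.1)
    (q := fun x => q x.1.1) (n := fun x => n x.1.1) (j := fun x => x.1.2.1 - 1)
    (D := fun x => x.1.2.2) (D' := fun x => x.2) (by fun_prop) (by fun_prop) (by fun_prop)
    (by fun_prop) (by fun_prop) (by fun_prop)
  have a3 : CP ∅ (fun x : (α × ℕ × NP) × NP => (x.1.2.1 - 1, x.2) ∈ T x.1.1) := by fun_prop
  exact ci_filt (CI.comp _ _ (ci_univT hf) hP) (CP.allMem a1 (a2.imp a3))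

end

theorem cp_cover : CP ∅ (fun q : (List (List Sy) × ℕ) × (ℕ × ℕ) × ℕ × NP =>
    Cover (GS p q.1.1 q.1.2) (q.2.1.1 + 1) q.2.1.2 (toPb p q.2.2.1 q.2.2.2)) := by
  exact RExt_cover (by fun_prop) (by fun_prop) (by fun_prop) (by fun_prop) (by fun_prop)
    (by fun_prop)

theorem cp_dec : CP ∅ (fun q : (List (List Sy) × ℕ) × (ℕ × ℕ) × ℕ × NP × NP =>
    Dec (GS p q.1.1 q.1.2) q.2.1.1 q.2.1.2 (toPb p q.2.2.1 q.2.2.2.1) (toPb p q.2.2.1 q.2.2.2.2)) := by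
  exact RExt_dec (by fun_prop) (by fun_prop) (by fun_prop) (by fun_prop) (by fun_prop)
    (by fun_prop) (by fun_prop)

theorem ci_tAll (hf : CI ∅ f) : CI ∅ (fun q : (List (List Sy) × ℕ × ℕ) × Tb =>
    tAll p f (q.1.1, q.1.2.1, q.1.2.2 + 1) q.2) := by
  exact RExt_all hf (by fun_prop) (by fun_prop) (by fun_prop) (by fun_prop)

end Pool.Agent.Work.MP_db9079_lc
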