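import Pool.Agent.Work.MP_db9079_lc.RCm
import Mathlib.Data.Int.ModEq
import Mathlib.Data.Int.LeastGreatest
import Mathlib.Tactic

/-!
Back and forth for the ordered group of integers, with bounds (Ferrante and Rackoff).
-/

namespace Pool.Agent.Work.MP_db9079_lc

open Pool.Agent.Lib.RelComp

/-- `x` and `y` are the values at `a` and at `b` of one linear form with integer coefficients of
total size at most `k`. -/
inductive Lin {κ : Type} (a b : κ → ℤ) : ℕ → ℤ → ℤ → Prop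
  | zero (k : ℕ) : Lin a b k 0 0
  | add {k : ℕ} {x y : ℤ} (i : κ) : Lin a b k x y → Lin a b (k + 1) (x + a i) (y + b i)
  | sub {k : ℕ} {x y : ℤ} (i : κ) : Lin a b k x y → Lin a b (k + 1) (x - a i) (y - b i)

/-- Same congruences and same small linear inequalities. -/
def Eqv {κ : Type} (k : ℕ) (a b : κ → ℤ) : Prop :=
  (∀ i, a i ≡ b i [ZMOD (k.factorial : ℤ)]) ∧
    ∀ x y, Lin a b k x y → ∀ e : ℤ, |e| ≤ k → (e ≤ x ↔ e ≤ y)

variable {κ κ' : Type} {k k' : ℕ} {a b : κ → ℤ}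
theorem Lin.rfr_mono {x y : ℤ} (h : Lin a b k x y) (hk : k ≤ k') : Lin a b k' x y := by
  induction h generalizing k' with
  | zero => exact .zero _
  | add i _ ih =>
    obtain ⟨n, rfl⟩ : ∃ n, k' = n + 1 := ⟨k' - 1, by omega⟩
    exact .add i (ih (by omega))
  | sub i _ ih =>
    obtain ⟨n, rfl⟩ : ∃ n, k' = n + 1 := ⟨k' - 1, by omega⟩
    exact .sub i (ih (by omega))

theorem Lin.rfr_add {x y x' y' : ℤ} (h : Lin a b k x y) (h' : Lin a b k' x' y') :
    Lin a b (k + k') (x + x') (y + y') := by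
  induction h' with
  | zero => simpa using h.rfr_mono (Nat.le_add_right _ _)
  | add i _ ih => simpa only [add_assoc] using Lin.add i ih
  | sub i _ ih => simpa only [add_assoc, add_sub_assoc] using Lin.sub i ih

theorem Lin.rfr_neg {x y : ℤ} (h : Lin a b k x y) : Lin a b k (-x) (-y) := by
  induction h with
  | zero => exact .zero _
  | add i _ ih => simpa only [neg_add'] using Lin.sub i ih
  | sub i _ ih => simpa only [neg_sub', sub_neg_eq_add] using Lin.add i ih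

theorem Lin.rfr_mul {x y : ℤ} (h : Lin a b k x y) (c : ℕ) : Lin a b (c * k) (c * x) (c * y) := by
  induction c with
  | zero => simpa using Lin.zero 0
  | succ c ih => simpa only [Nat.cast_succ, add_mul, one_mul] using ih.rfr_add h

theorem Lin.rfr_one (i : κ) : Lin a b 1 (a i) (b i) := by
  simpa using Lin.add (a := a) (b := b) i (.zero 0)

theorem Lin.rfr_symm {x y : ℤ} (h : Lin a b k x y) : Lin b a k y x := by
  induction h with
  | zero => exact .zero _
  | add i _ ih => exact .add i ih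
  | sub i _ ih => exact .sub i ih

theorem Lin.rfr_self {x y : ℤ} (h : Lin a a k x y) : x = y := by
  induction h with
  | zero => rfl
  | add i _ ih => rw [ih]
  | sub i _ ih => rw [ih]

theorem Lin.rfr_comp {e : κ' → κ} {x y : ℤ} (h : Lin (fun i => a (e i)) (fun i => b (e i)) k x y) :
    Lin a b k x y := by
  induction h with
  | zero => exact .zero _
  | add i _ ih => exact .add (e i) ih
  | sub i _ ih => exact .sub (e i) ih

theorem Lin.rfr_mod {n x y : ℤ} (h : Lin a b k x y) (hn : ∀ i, a i ≡ b i [ZMOD n]) :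
    x ≡ y [ZMOD n] := by
  induction h with
  | zero => rfl
  | add i _ ih => exact ih.add (hn i)
  | sub i _ ih => exact ih.sub (hn i)

theorem Lin.rfr_abs {M : ℕ} {x y : ℤ} (h : Lin a b k x y) (hM : ∀ i, |b i| ≤ M) :
    |y| ≤ k * M := by
  induction h with
  | zero => positivity
  | add i _ ih =>
    refine (abs_add_le _ _).trans ?_
    push_cast
    linarith [hM i]
  | sub i _ ih =>
    refine (abs_sub _ _).trans ?_
    push_cast
    linarith [hM i]

theorem Lin.rfr_opt {x y u v : ℤ}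
    (h : Lin (fun o : Option κ => o.elim x a) (fun o : Option κ => o.elim y b) k u v) :
    ∃ l u0 v0 : ℤ, |l| ≤ k ∧ Lin a b k u0 v0 ∧ u = u0 + l * x ∧ v = v0 + l * y := by
  induction h with
  | zero k => exact ⟨0, 0, 0, by simp, .zero _, by simp, by simp⟩
  | add i _ ih =>
    obtain ⟨l, u0, v0, h1, h2, rfl, rfl⟩ := ih
    rw [abs_le] at h1
    rcases i with _ | i
    · exact ⟨l + 1, u0, v0, abs_le.2 (by omega), h2.rfr_mono (Nat.le_succ _),
        by simp only [Option.elim]; ring, by simp only [Option.elim]; ring⟩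
    · exact ⟨l, _, _, abs_le.2 (by omega), .add i h2, by simp only [Option.elim]; ring,
        by simp only [Option.elim]; ring⟩
  | sub i _ ih =>
    obtain ⟨l, u0, v0, h1, h2, rfl, rfl⟩ := ih
    rw [abs_le] at h1
    rcases i with _ | i
    · exact ⟨l - 1, u0, v0, abs_le.2 (by omega), h2.rfr_mono (Nat.le_succ _),
        by simp only [Option.elim]; ring, by simp only [Option.elim]; ring⟩
    · exact ⟨l, _, _, abs_le.2 (by omega), .sub i h2, by simp only [Option.elim]; ring,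
        by simp only [Option.elim]; ring⟩


theorem Eqv.refl (k : ℕ) (a : κ → ℤ) : Eqv k a a := by
  exact ⟨fun _ => rfl, fun x y h e _ => by rw [h.rfr_self]⟩

theorem Eqv.symm (h : Eqv k a b) : Eqv k b a := by
  exact ⟨fun i => (h.1 i).symm, fun x y hl e he => (h.2 y x hl.rfr_symm e he).symm⟩

theorem Eqv.mono (h : Eqv k a b) (hk : k' ≤ k) : Eqv k' a b := by
  exact ⟨fun i => (h.1 i).of_dvd (Int.natCast_dvd_natCast.2 (Nat.factorial_dvd_factorial hk)),
    fun x y hl e he => h.2 x y (hl.rfr_mono hk) e (he.trans (Int.ofNat_le.2 hk))⟩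

theorem Eqv.comp (h : Eqv k a b) (e : κ' → κ) : Eqv k (fun i => a (e i)) (fun i => b (e i)) := by
  exact ⟨fun i => h.1 (e i), fun x y hl => h.2 x y hl.rfr_comp⟩

theorem Eqv.two (h : Eqv k a b) (i j : κ) {l m : ℕ} (hlm : l + m ≤ k) {e : ℤ} (he : |e| ≤ k) :
    e ≤ l * a i - m * a j ↔ e ≤ l * b i - m * b j := by
  refine h.2 _ _ ?_ e he
  simpa only [sub_eq_add_neg] using
    (((Lin.rfr_one i).rfr_mul l).rfr_add ((Lin.rfr_one j).rfr_mul m).rfr_neg).rfr_mono
      (by omega)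

theorem Eqv.le_iff (h : Eqv k a b) (hk : 2 ≤ k) (i j : κ) {e : ℤ} (he : |e| ≤ k) :
    a i + e ≤ a j ↔ b i + e ≤ b j := by
  have := h.two j i (l := 1) (m := 1) hk he
  omega

theorem Eqv.eq_iff (h : Eqv k a b) (hk : 2 ≤ k) (i j : κ) {e : ℤ} (he : |e| ≤ k) :
    a i + e = a j ↔ b i + e = b j := by
  have h1 := h.le_iff hk i j he
  have h2 := h.le_iff hk j i (e := -e) (by rwa [abs_neg])
  omega

theorem Eqv.add_le_iff (h : Eqv k a b) (hk : 3 ≤ k) (i j l : κ) :
    a i + a j ≤ a l ↔ b i + b j ≤ b l := by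
  have := h.2 _ _ ((Lin.sub j (.sub i (.rfr_one l))).rfr_mono hk) 0 (by simp)
  omega

theorem Eqv.add_eq_iff (h : Eqv k a b) (hk : 3 ≤ k) (i j l : κ) :
    a l = a i + a j ↔ b l = b i + b j := by
  have h1 := h.add_le_iff hk i j l
  have h2 := h.2 _ _ ((Lin.sub l (.add j (.rfr_one i))).rfr_mono hk) 0 (by simp)
  omega
/-- Breakpoints and their partners. -/
def RfrBp (a b : κ → ℤ) (N : ℕ) (P P' : ℤ) : Prop :=
  ∃ e x y : ℤ, |e| ≤ N ∧ Lin a b N x y ∧ P = e + x ∧ P' = e + y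

theorem rfr_cmp {N D : ℕ} (h : Eqv k a b) (hk : 2 * N + D ≤ k) {P P' Q Q' d : ℤ}
    (hP : RfrBp a b N P P') (hQ : RfrBp a b N Q Q') (hd : |d| ≤ D) :
    Q ≤ P + d ↔ Q' ≤ P' + d := by
  obtain ⟨e, x, y, h1, h2, rfl, rfl⟩ := hP
  obtain ⟨e', x', y', h3, h4, rfl, rfl⟩ := hQ
  rw [abs_le] at h1 h3 hd
  have := h.2 _ _ ((h2.rfr_add h4.rfr_neg).rfr_mono (by omega)) (e' - e - d) (abs_le.2 (by omega))
  omega

theorem rfr_near (S : ℤ → Prop) (h0 : S 0) (z : ℤ) {D : ℤ} (hD : 0 < D) :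
    ∃ P d, S P ∧ |d| ≤ D ∧ P + d ≡ z [ZMOD D] ∧ ∀ Q, S Q → (Q ≤ z ↔ Q ≤ P + d) := by
  by_cases h : ∃ P, S P ∧ P ≤ z
  · obtain ⟨P, ⟨h1, h2⟩, h3⟩ := Int.exists_greatest_of_bdd ⟨z, fun P hP => hP.2⟩ h
    have h4 := Int.emod_nonneg (z - P) hD.ne'
    have h5 := Int.emod_lt_of_pos (z - P) hD
    have h6 : (z - P) % D ≤ z - P := by
      have h7 := Int.emod_add_mul_ediv (z - P) D
      have h8 := mul_nonneg hD.le (Int.ediv_nonneg (sub_nonneg.2 h2) hD.le)
      omega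
    refine ⟨P, (z - P) % D, h1, abs_le.2 (by omega), ?_, fun Q hQ =>
      ⟨fun h7 => by have := h3 Q ⟨hQ, h7⟩; omega, by omega⟩⟩
    simpa using (Int.mod_modEq (z - P) D).add_left P
  · obtain ⟨P, h1, h2⟩ := Int.exists_least_of_bdd (P := S)
      ⟨z, fun P hP => le_of_not_ge fun h1 => h ⟨P, hP, h1⟩⟩ ⟨0, h0⟩
    have h4 := Int.emod_nonneg (z - P) hD.ne'
    have h5 := Int.emod_lt_of_pos (z - P) hD
    refine ⟨P, (z - P) % D - D, h1, abs_le.2 (by omega), ?_, fun Q hQ =>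
      iff_of_false (fun h7 => h ⟨Q, hQ, h7⟩) (by have := h2 Q hQ; omega)⟩
    simpa using ((Int.mod_modEq (z - P) D).sub
      (Int.modEq_zero_iff_dvd.2 (dvd_refl D))).add_left P

theorem rfr_pick {N F M : ℕ} (h : Eqv k a b) (hF : 0 < F) (hk : 2 * N + F ^ 2 ≤ k)
    (hM : ∀ i, |b i| ≤ M) (x : ℤ) : ∃ y : ℤ, |y| ≤ k * (M + 1) ∧ x ≡ y [ZMOD F] ∧
      ∀ Q Q', RfrBp a b N Q Q' → (Q ≤ F * x ↔ Q' ≤ F * y) := by
  obtain ⟨P, d, ⟨P', hP⟩, h1, h2, h3⟩ := rfr_near (fun P => ∃ P', RfrBp a b N P P')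
    ⟨0, 0, 0, 0, by simp, .zero _, rfl, rfl⟩ (F * x) (D := (F ^ 2 : ℕ)) (by positivity)
  have h4 : P ≡ P' [ZMOD (F ^ 2 : ℕ)] := by
    obtain ⟨e, u, v, -, h4, rfl, rfl⟩ := hP
    exact ((h4.rfr_mod h.1).of_dvd (Int.natCast_dvd_natCast.2
      (Nat.dvd_factorial (by positivity) (by omega)))).add_left e
  obtain ⟨t, ht⟩ := (h2.symm.trans (h4.add_right d)).dvd
  have h5 : F * (x + F * t) = P' + d := by
    push_cast at ht
    linarith
  refine ⟨x + F * t, ?_, Int.modEq_iff_dvd.2 ⟨t, by ring⟩, fun Q Q' hQ => by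
    rw [h3 Q ⟨Q', hQ⟩, rfr_cmp h hk hP hQ h1, h5]⟩
  obtain ⟨e, u, v, h6, h7, -, rfl⟩ := hP
  have h8 := h7.rfr_abs hM
  have h9 : |x + F * t| ≤ |e + v + d| := by
    rw [← h5, abs_mul, Nat.abs_cast]
    exact le_mul_of_one_le_left (abs_nonneg _) (by exact_mod_cast hF)
  have h10 : (N : ℤ) + (F ^ 2 : ℕ) ≤ k := by omega
  have h11 := mul_le_mul_of_nonneg_right h10 (show (0 : ℤ) ≤ M + 1 by positivity)
  have h12 : (0 : ℤ) ≤ (F ^ 2 : ℕ) * M := by positivity
  linarith [abs_add_three e v d]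


theorem exists_ext_one : ∃ h : ℕ → ℕ, Cm h ∧ ∀ (κ : Type) (k : ℕ) (a b : κ → ℤ) (M : ℕ),
    Eqv (h k) a b → (∀ i, |b i| ≤ M) → ∀ x : ℤ, ∃ y : ℤ, |y| ≤ h k * (M + 1) ∧
      Eqv k (fun o : Option κ => o.elim x a) (fun o : Option κ => o.elim y b) := by
  obtain ⟨f, hf, h1⟩ := exists_cm
    (g := fun k => 2 * ((k + 1).factorial * (k + 1)) + (k + 1).factorial ^ 2) (by fun_prop)
  refine ⟨f, hf, fun κ k a b M h hM x => ?_⟩
  obtain ⟨y, h2, h3, h4⟩ := rfr_pick h (k + 1).factorial_pos (h1 k k le_rfl) hM x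
  have h5 := h.mono (hf.le k)
  have key : ∀ l e u v : ℤ, 0 < l → l ≤ k → |e| ≤ (k + 1 : ℕ) → Lin a b k u v →
      (e + u ≤ l * x ↔ e + v ≤ l * y) := by
    intro l e u v l0 l1 he hl
    lift l to ℕ using l0.le
    obtain ⟨c, hc⟩ := Nat.dvd_factorial (m := l) (n := k + 1) (by omega) (by omega)
    have c0 : 0 < c := Nat.pos_of_mul_pos_left (hc ▸ (k + 1).factorial_pos)
    have c1 : c ≤ (k + 1).factorial := hc ▸ Nat.le_mul_of_pos_left c (by omega)
    have h6 := h4 _ _ ⟨c * e, _, _, by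
      rw [abs_mul, Nat.abs_cast, Nat.cast_mul]
      exact mul_le_mul (Int.ofNat_le.2 c1) he (abs_nonneg _) (Int.natCast_nonneg _),
      (hl.rfr_mul c).rfr_mono (Nat.mul_le_mul c1 k.le_succ), rfl, rfl⟩
    rwa [hc, mul_comm l, Nat.cast_mul, mul_assoc, mul_assoc, ← mul_add, ← mul_add,
      mul_le_mul_iff_right₀ (Int.natCast_pos.2 c0),
      mul_le_mul_iff_right₀ (Int.natCast_pos.2 c0)] at h6
  refine ⟨y, h2, ?_, fun u v hl e he => ?_⟩
  · rintro (_ | i)
    · exact h3.of_dvd (Int.natCast_dvd_natCast.2 (Nat.factorial_dvd_factorial k.le_succ))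
    · exact h5.1 i
  · obtain ⟨l, u0, v0, l1, h6, rfl, rfl⟩ := hl.rfr_opt
    have h7 := h5.2 _ _ h6 e he
    rw [abs_le] at l1 he
    rcases lt_trichotomy l 0 with l0 | rfl | l0
    · have := key (-l) (1 - e) _ _ (by omega) (by omega) (abs_le.2 (by omega)) h6
      rw [neg_mul, neg_mul] at this
      omega
    · simpa using h7
    · have := key l e _ _ l0 l1.2 (abs_le.2 (by omega)) h6.rfr_neg
      omega

theorem exists_ext : ∃ h : ℕ → ℕ, Cm h ∧ ∀ (κ : Type) (k m : ℕ) (a b : κ → ℤ) (M : ℕ), m ≤ k →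
    Eqv (h k) a b → (∀ i, |b i| ≤ M) → ∀ x : Fin m → ℤ, ∃ y : Fin m → ℤ,
      (∀ i, |y i| ≤ h k * (M + 1)) ∧ Eqv k (Sum.elim a x) (Sum.elim b y) := by
  obtain ⟨h, hh, h1⟩ := exists_ext_one
  obtain ⟨G, hG, h2⟩ := exists_cm (g := fun s => (s + 1) * (h s + 1))
    (by have := hh.ci; fun_prop)
  obtain ⟨f, hf, h3⟩ := hG.exists_iterate (k := fun s => s) CI.id'
  have key : ∀ (k m : ℕ) (κ : Type) (a b : κ → ℤ) (M : ℕ), Eqv (G^[m] k) a b →
      (∀ i, |b i| ≤ M) → ∀ x : Fin m → ℤ, ∃ y : Fin m → ℤ,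
        (∀ i, |y i| ≤ (G^[m] k : ℕ) * (M + 1)) ∧ Eqv k (Sum.elim a x) (Sum.elim b y) := by
    intro k m
    induction m with
    | zero =>
      intro κ a b M h4 _ x
      refine ⟨x, fun i => i.elim0, ?_⟩
      convert Eqv.comp (k := k) h4 (Sum.elim id Fin.elim0) using 1 <;> funext i <;>
        rcases i with i | i <;> first | rfl | exact i.elim0
    | succ m ih =>
      intro κ a b M h4 hM x
      rw [Function.iterate_succ_apply'] at h4 ⊢
      have h5 := h2 _ _ (le_refl (G^[m] k))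
      generalize G^[m] k = s at ih h4 h5 ⊢
      have h6 : h s ≤ G s := le_trans (by nlinarith) h5
      obtain ⟨y0, h7, h8⟩ := h1 κ s a b M (h4.mono h6) hM (x 0)
      obtain ⟨y, h9, h10⟩ := ih _ _ _ (h s * (M + 1)) h8 (by
        rintro (_ | i)
        · exact_mod_cast h7
        · refine (hM i).trans (Int.ofNat_le.2 ?_)
          nlinarith [hh.pos s]) (Fin.tail x)
      refine ⟨Fin.cons y0 y, Fin.forall_fin_succ.2 ⟨h7.trans (mul_le_mul_of_nonneg_right
        (Int.ofNat_le.2 h6) (by positivity)), fun i => ?_⟩, ?_⟩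
      · refine (h9 i).trans ?_
        have h11 := Nat.mul_le_mul_right (M + 1) h5
        have h12 : s * (h s * (M + 1) + 1) ≤ G s * (M + 1) := by nlinarith
        exact_mod_cast h12
      · convert h10.comp (Sum.elim (fun i => Sum.inl (some i))
          (Fin.cases (Sum.inl none) Sum.inr)) using 1 <;> funext i <;>
          rcases i with i | i <;> first | rfl | (cases i using Fin.cases <;> rfl)
  refine ⟨f, hf, fun κ k m a b M hm h4 hM x => ?_⟩
  have h5 := (hG.iterate_mono hm le_rfl).trans (h3 k)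
  obtain ⟨y, h6, h7⟩ := key k m κ a b M (h4.mono h5) hM x
  exact ⟨y, fun i => (h6 i).trans
    (mul_le_mul_of_nonneg_right (Int.ofNat_le.2 h5) (by positivity)), h7⟩

end Pool.Agent.Work.MP_db9079_lc
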