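import Pool.Agent.Work.MP_db9079_lc.RBase

/-!
Filtrations of coefficients: multiplicative, stable under the Cartier operators, with an explicit
bound on the valuation of nonzero elements.
-/

namespace Pool.Agent.Work.MP_db9079_lc

open HahnSeries

/-- Bound on the valuation of the nonzero elements of level `a`. -/
def gf (p w a : ℕ) : ℕ := p ^ ((a + 1) * (w + 1) ^ a)

theorem gf_mono {p w w' a a' : ℕ} (hp : 0 < p) (hw : w ≤ w') (ha : a ≤ a') :
    gf p w a ≤ gf p w' a' := by
  refine Nat.pow_le_pow_right hp (Nat.mul_le_mul (Nat.succ_le_succ ha) ?_)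
  exact (Nat.pow_le_pow_left (Nat.succ_le_succ hw) a).trans
    (Nat.pow_le_pow_right (Nat.succ_pos _) ha)

/-- A filtration of coefficients. -/
structure Filt (p : ℕ) [Fact p.Prime] where
  w : ℕ
  R : ℕ → AddSubgroup (KK p)
  mono : ∀ {a b : ℕ} {x : KK p}, a ≤ b → x ∈ R a → x ∈ R b
  one_mem : (1 : KK p) ∈ R 0
  t_mem : tz p 1 ∈ R 1
  mul_mem : ∀ {a b : ℕ} {x y : KK p}, x ∈ R a → y ∈ R b → x * y ∈ R (a + b)
  cart_mem : ∀ {a j : ℕ} {x : KK p}, x ∈ R a → j < p → cart 1 j x ∈ R a
  ge : ∀ {a : ℕ} {x : KK p}, x ∈ R a → Ge 0 x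
  sep : ∀ {a : ℕ} {x : KK p}, x ∈ R a → Ge (gf p w a) x → x = 0

variable {p : ℕ} [hp : Fact p.Prime]

theorem Filt.one_mem' (Φ : Filt p) (a : ℕ) : (1 : KK p) ∈ Φ.R a := Φ.mono (Nat.zero_le a) Φ.one_mem

theorem Filt.pow_mem (Φ : Filt p) {a : ℕ} {x : KK p} (hx : x ∈ Φ.R a) (n : ℕ) :
    x ^ n ∈ Φ.R (n * a) := by
  induction n with
  | zero => rw [pow_zero]; exact Φ.one_mem' _
  | succ n ih => rw [pow_succ, Nat.succ_mul]; exact Φ.mul_mem ih hx

theorem Filt.tz_mem (Φ : Filt p) (j : ℕ) : tz p j ∈ Φ.R j := by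
  have h := Φ.pow_mem Φ.t_mem j
  rwa [tz_pow, mul_one, mul_one] at h

theorem Filt.cart_mem' (Φ : Filt p) {a : ℕ} {x : KK p} (hx : x ∈ Φ.R a) {k j : ℕ}
    (hj : j < p ^ k) : cart k j x ∈ Φ.R a := by
  induction k generalizing j x with
  | zero =>
    obtain rfl : j = 0 := by simpa using hj
    rwa [cart_level_zero]
  | succ k ih =>
    rw [cart_succ]
    exact ih (Φ.cart_mem hx (Nat.mod_lt _ hp.out.pos))
      (Nat.div_lt_of_lt_mul (by rwa [pow_succ'] at hj))

theorem Filt.not_ge (Φ : Filt p) {a a' s : ℕ} {x : KK p} (hx : x ∈ Φ.R a) (h0 : x ≠ 0)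
    (hw : Φ.w ≤ s) (ha : a ≤ a') : ¬ Ge (gf p s a') x := by
  intro h
  exact h0 (Φ.sep hx (h.mono (by exact_mod_cast gf_mono hp.out.pos hw ha)))

/-- Series of valuation at least `a`. -/
def RFilt_ge (p : ℕ) [Fact p.Prime] (a : ℤ) : AddSubgroup (KK p) where
  carrier := {x | Ge a x}
  add_mem' := Ge.add
  zero_mem' := ge_zero a
  neg_mem' := Ge.neg

/-- A finite dimensional space of power series which is stable under the Cartier operators has
no nonzero element of valuation `≥ p ^ dim`. -/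
theorem sep_of_finrank (V : Submodule (ZMod p) (KK p)) [Module.Finite (ZMod p) V]
    (hc : ∀ x ∈ V, ∀ j, j < p → cart 1 j x ∈ V) {d : ℕ} (hd : Module.finrank (ZMod p) V ≤ d)
    {x : KK p} (hx : x ∈ V) (h : Ge (p ^ d : ℕ) x) : x = 0 := by
  let W : ℕ → Submodule (ZMod p) (KK p) := fun k =>
    V ⊓ AddSubgroup.toZModSubmodule p (RFilt_ge p (p ^ k : ℕ))
  have hW : ∀ k x, x ∈ W k ↔ x ∈ V ∧ Ge (p ^ k : ℕ) x := fun k x => Iff.rfl
  have hle : ∀ k, W (k + 1) ≤ W k := fun k x hx =>
    (hW k x).2 ⟨hx.1, ((hW _ x).1 hx).2.mono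
      (by exact_mod_cast Nat.pow_le_pow_right hp.out.pos k.le_succ)⟩
  have hstep : ∀ k, W k ≤ W (k + 1) → W (k + 1) ≤ W (k + 2) := fun k h x hx => by
    obtain ⟨h1, h2⟩ := (hW _ x).1 hx
    refine (hW _ x).2 ⟨h1, (ge_iff_cart 1 _ x).2 fun j hj => ?_⟩
    rw [pow_one] at hj
    have h3 : Ge (p ^ k : ℕ) (cart 1 j x) :=
      Ge.cart (k := 1) (h2.mono (le_of_eq (by push_cast; ring))) j (by rwa [pow_one])
    refine ((hW _ _).1 (h ((hW k _).2 ⟨hc x h1 j hj, h3⟩))).2.mono ?_
    rw [cut_le_iff (pp_pos 1)]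
    push_cast
    have h4 : (p : ℤ) ^ (k + 2) = p ^ 1 * p ^ (k + 1) := by ring
    have h5 : (0 : ℤ) ≤ j := Int.natCast_nonneg j
    linarith
  have hbot : ∀ k, W k ≤ W (k + 1) → W k = ⊥ := fun k h => by
    have h1 : ∀ m, W (k + m) ≤ W (k + m + 1) := fun m => by
      induction m with
      | zero => exact h
      | succ m ih => exact hstep _ ih
    have h2 : ∀ m, W k ≤ W (k + m) := fun m => by
      induction m with
      | zero => exact le_rfl
      | succ m ih => exact ih.trans (h1 m)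
    refine eq_bot_iff.2 fun x hx => eq_zero_of_ge fun n => ((hW _ x).1 (h2 n hx)).2.mono ?_
    exact_mod_cast ((Nat.le_add_left n k).trans (Nat.lt_pow_self hp.out.one_lt).le)
  have hfin : ∀ k, Module.Finite (ZMod p) (W k) := fun k =>
    Submodule.finiteDimensional_of_le (inf_le_left : W k ≤ V)
  have key : ∀ k, W k = ⊥ ∨ Module.finrank (ZMod p) (W k) + k ≤ d := fun k => by
    induction k with
    | zero => exact Or.inr ((Submodule.finrank_mono (inf_le_left : W 0 ≤ V)).trans hd)
    | succ k ih =>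
      by_cases h1 : W k ≤ W (k + 1)
      · exact Or.inl (eq_bot_iff.2 ((hle k).trans (hbot k h1).le))
      · rcases ih with h2 | h2
        · exact absurd (h2 ▸ bot_le) h1
        · have h3 := Submodule.finrank_lt_finrank_of_lt (lt_of_le_not_ge (hle k) h1)
          exact Or.inr (by omega)
  have h1 : W d = ⊥ := (key d).elim id fun h2 => Submodule.finrank_eq_zero.1 (by omega)
  exact (Submodule.mem_bot _).1 (h1 ▸ (hW d x).2 ⟨hx, h⟩)

/-- The span of the products `t ^ e * u₁ ⋯ uₐ` with `e ≤ E` and `uᵢ` in `S` or `1`. -/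
def RFilt_W (S : List (KK p)) (E a : ℕ) : AddSubgroup (KK p) :=
  AddSubgroup.closure {x | ∃ (e : ℕ) (l : List (KK p)), e ≤ E ∧ l.length = a ∧
    (∀ u ∈ l, u ∈ 1 :: S) ∧ x = tz p e * l.prod}

theorem RFilt_mono (S : List (KK p)) {E E' a a' : ℕ} {x : KK p} (hE : E ≤ E') (ha : a ≤ a')
    (hx : x ∈ RFilt_W S E a) : x ∈ RFilt_W S E' a' := by
  refine AddSubgroup.closure_mono ?_ hx
  rintro _ ⟨e, l, he, rfl, hl, rfl⟩
  refine ⟨e, l ++ List.replicate (a' - l.length) 1, he.trans hE, by simp [ha], fun u hu => ?_,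
    by simp⟩
  rcases List.mem_append.1 hu with h | h
  · exact hl u h
  · rw [List.eq_of_mem_replicate h]
    exact List.mem_cons_self

theorem RFilt_mul (S : List (KK p)) {E E' a a' : ℕ} {x y : KK p} (hx : x ∈ RFilt_W S E a)
    (hy : y ∈ RFilt_W S E' a') : x * y ∈ RFilt_W S (E + E') (a + a') := by
  induction hx using AddSubgroup.closure_induction with
  | mem x hx =>
    induction hy using AddSubgroup.closure_induction with
    | mem y hy =>
      obtain ⟨e, l, he, rfl, hl, rfl⟩ := hx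
      obtain ⟨e', l', he', rfl, hl', rfl⟩ := hy
      refine AddSubgroup.subset_closure ⟨e + e', l ++ l', Nat.add_le_add he he', List.length_append,
        fun u hu => (List.mem_append.1 hu).elim (hl u) (hl' u), ?_⟩
      rw [Nat.cast_add, tz_add, List.prod_append]
      ring
    | zero => rw [mul_zero]; exact zero_mem _
    | add y z _ _ hy hz => rw [mul_add]; exact add_mem hy hz
    | neg y _ hy => rw [mul_neg]; exact neg_mem hy
  | zero => rw [zero_mul]; exact zero_mem _
  | add x z _ _ hx hz => rw [add_mul]; exact add_mem hx hz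
  | neg x _ hx => rw [neg_mul]; exact neg_mem hx

theorem RFilt_cart_tz (S : List (KK p)) (e r : ℕ) (hr : r < p) :
    cart 1 r (tz p e) ∈ RFilt_W S (e / p) 0 := by
  by_cases h : ∃ m : ℕ, p * m + r = e
  · obtain ⟨m, rfl⟩ := h
    refine AddSubgroup.subset_closure ⟨m, [], ?_, rfl, by simp, ?_⟩
    · rw [Nat.le_div_iff_mul_le hp.out.pos, mul_comm]
      exact Nat.le_add_right _ _
    · ext n
      simp [tz, coeff_single, hp.out.ne_zero]
  · have h1 : cart 1 r (tz p e) = 0 := by
      ext n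
      rw [coeff_cart, tz, pow_one, coeff_zero, coeff_single_of_ne]
      intro h2
      have h3 : 0 ≤ n := by
        by_contra h4
        have h5 : (p : ℤ) * n ≤ p * (-1) :=
          mul_le_mul_of_nonneg_left (by omega) (Int.natCast_nonneg p)
        omega
      obtain ⟨m, rfl⟩ := Int.eq_ofNat_of_zero_le h3
      exact h ⟨m, by exact_mod_cast h2⟩
    rw [h1]
    exact zero_mem _

theorem RFilt_cart (S : List (KK p))
    (hc : ∀ s ∈ S, ∀ j, j < p → ∃ s' ∈ S, ∃ c : ZMod p, cart 1 j s = s' + single 0 c)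
    (l : List (KK p)) (hl : ∀ u ∈ l, u ∈ 1 :: S) (e r : ℕ) (hr : r < p) :
    cart 1 r (tz p e * l.prod) ∈ RFilt_W S ((e + l.length * (p - 1)) / p) l.length := by
  have one : (1 : KK p) ∈ RFilt_W S 0 1 :=
    AddSubgroup.subset_closure ⟨0, [1], le_rfl, rfl, by simp, by simp [tz_zero]⟩
  induction l generalizing e with
  | nil => simpa using RFilt_cart_tz S e r hr
  | cons u l ih =>
    have hu : ∀ j, j < p → cart 1 j u ∈ RFilt_W S 0 1 := fun j hj => by
      rcases List.mem_cons.1 (hl u List.mem_cons_self) with rfl | h1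
      · have h2 := RFilt_cart_tz S 0 j hj
        rw [Nat.cast_zero, tz_zero, Nat.zero_div] at h2
        exact RFilt_mono S le_rfl (Nat.zero_le 1) h2
      · obtain ⟨s, hs, c, h2⟩ := hc u h1 j hj
        have h3 : (single 0 c : KK p) = c.val • (1 : KK p) := by
          ext n
          rw [coeff_nsmul, Pi.smul_apply, coeff_one, coeff_single]
          split_ifs <;> simp
        rw [h2, h3]
        exact add_mem (AddSubgroup.subset_closure
          ⟨0, [s], le_rfl, rfl, by simp [hs], by simp [tz_zero]⟩) (nsmul_mem one _)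
    have h1 : tz p e * (u :: l).prod =
        ∑ j : Fin (p ^ 1), tz p (e + j : ℕ) * l.prod * cart 1 j u ^ p ^ 1 := by
      conv_lhs => rw [List.prod_cons, eq_sum_cart 1 u, Finset.sum_mul, Finset.mul_sum]
      refine Finset.sum_congr rfl fun j _ => ?_
      rw [Nat.cast_add, tz_add]
      ring
    rw [h1, cart_sum]
    refine sum_mem fun j _ => ?_
    have hj : (j : ℕ) < p := by simpa using j.2
    rw [cart_mul_pow]
    refine RFilt_mono S ?_ le_rfl (RFilt_mul S
      (ih (fun v hv => hl v (List.mem_cons_of_mem _ hv)) (e + j)) (hu j hj))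
    rw [add_zero, List.length_cons, Nat.succ_mul]
    exact Nat.div_le_div_right (by omega)

theorem exists_filt (S : List (KK p)) (h0 : ∀ s ∈ S, Ge 0 s)
    (hc : ∀ s ∈ S, ∀ j, j < p → ∃ s' ∈ S, ∃ c : ZMod p, cart 1 j s = s' + single 0 c) :
    ∃ Φ : Filt p, Φ.w = S.length ∧ ∀ s ∈ S, s ∈ Φ.R 1 := by
  have hcart : ∀ {a j : ℕ} {x : KK p}, x ∈ RFilt_W S a a → j < p → cart 1 j x ∈ RFilt_W S a a := by
    intro a j x hx hj
    induction hx using AddSubgroup.closure_induction with
    | mem x hx =>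
      obtain ⟨e, l, he, rfl, hl, rfl⟩ := hx
      refine RFilt_mono S ?_ le_rfl (RFilt_cart S hc l hl e j hj)
      refine Nat.div_le_of_le_mul ?_
      obtain ⟨q, rfl⟩ := Nat.exists_eq_succ_of_ne_zero hp.out.ne_zero
      rw [Nat.succ_sub_one, Nat.succ_mul, mul_comm q]
      omega
    | zero => rw [cart_zero]; exact zero_mem _
    | add x y _ _ hx hy => rw [cart_add]; exact add_mem hx hy
    | neg x _ hx => rw [← zero_sub, cart_sub, cart_zero]; exact sub_mem (zero_mem _) hx
  refine ⟨⟨S.length, fun a => RFilt_W S a a, fun h => RFilt_mono S h h,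
    AddSubgroup.subset_closure ⟨0, [], le_rfl, rfl, by simp, by simp [tz_zero]⟩,
    AddSubgroup.subset_closure ⟨1, [1], le_rfl, rfl, by simp, by simp⟩,
    RFilt_mul S, hcart, fun {a x} hx => ?_, fun {a x} hx h => ?_⟩, rfl, fun s hs =>
    AddSubgroup.subset_closure ⟨0, [s], Nat.zero_le _, rfl, by simp [hs], by simp [tz_zero]⟩⟩
  · refine (AddSubgroup.closure_le (RFilt_ge p 0)).2 ?_ hx
    rintro _ ⟨e, l, -, -, hl, rfl⟩
    refine Ge.mul_left ((ge_tz _).mono (Int.natCast_nonneg e)) ?_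
    refine List.prod_induction (Ge 0) (fun _ _ => Ge.mul_left) ge_one fun u hu => ?_
    rcases List.mem_cons.1 (hl u hu) with rfl | h1
    · exact ge_one
    · exact h0 u h1
  · let f : Fin (a + 1) × (Fin a → Fin (S.length + 1)) → KK p := fun i =>
      tz p (i.1 : ℕ) * ∏ k, (1 :: S).get (i.2 k)
    have h1 : AddSubgroup.toZModSubmodule p (RFilt_W S a a) ≤
        Submodule.span (ZMod p) (Set.range f) := by
      refine (AddSubgroup.closure_le (Submodule.span (ZMod p) (Set.range f)).toAddSubgroup).2 ?_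
      rintro _ ⟨e, l, he, rfl, hl, rfl⟩
      choose i hi using fun k : Fin l.length => List.mem_iff_get.1 (hl _ (l.get_mem k))
      refine Submodule.subset_span ⟨(⟨e, Nat.lt_succ_of_le he⟩, i), ?_⟩
      simp only [f, hi]
      rw [← List.prod_ofFn, List.ofFn_get]
    have h2 : Module.Finite (ZMod p) (Submodule.span (ZMod p) (Set.range f)) :=
      Module.Finite.span_of_finite _ (Set.finite_range f)
    have h3 := Submodule.finiteDimensional_of_le h1
    refine sep_of_finrank (AddSubgroup.toZModSubmodule p (RFilt_W S a a))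
      (fun y hy j hj => hcart hy hj) ?_ hx h
    refine (Submodule.finrank_mono h1).trans ((finrank_range_le_card f).trans ?_)
    simp

end Pool.Agent.Work.MP_db9079_lc
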