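import Pool.Agent.Work.MP_db9079_lc.RSplit

/-!
Pulling back along the decomposition in powers of `t` and Frobenius powers.
-/

namespace Pool.Agent.Work.MP_db9079_lc

variable {p : ℕ} [hp : Fact p.Prime] {ι : Type}

/-- Recomposition `x a = ∑ t ^ j * y (a, j) ^ p ^ l a`, with `p ^ k a` components. -/
noncomputable def lam (k l : ι → ℕ) (y : (Σ a, Fin (p ^ k a)) → KK p) (a : ι) : KK p :=
  ∑ j : Fin (p ^ k a), tz p (j : ℕ) * y ⟨a, j⟩ ^ p ^ l a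

/-- The cuts of the components. -/
def cuts (p : ℕ) (k : ι → ℕ) (γ : ι → ℤ) (b : Σ a, Fin (p ^ k a)) : ℤ :=
  cut (p ^ k b.1) b.2 (γ b.1)

theorem lam_frob (k l : ι → ℕ) (m : ℕ) (y : (Σ a, Fin (p ^ k a)) → KK p) :
    lam k l (fun b => y b ^ p ^ m) = lam k (fun a => l a + m) y := by
  funext a
  simp only [lam, ← pow_mul, ← pow_add, add_comm m]

theorem lam_ap (Φ : Filt p) {k l : ι → ℕ} {s : ℕ} (hk : ∀ a, p ^ k a ≤ s) (hl : ∀ a, l a < s)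
    (a : ι) : APs Φ s (fun y => lam k l y a) := by
  unfold lam
  refine IsAP.sum Finset.univ fun j _ => ?_
  exact IsAP.mon (I := Σ a, Fin (p ^ k a)) ⟨a, j⟩ (l a) _ (hl a)
    (Φ.mono (j.2.le.trans (hk a)) (Φ.tz_mem j))

theorem card_sigma_le [Fintype ι] {k : ι → ℕ} {Q : ℕ} (hk : ∀ a, p ^ k a ≤ Q) :
    Fintype.card (Σ a, Fin (p ^ k a)) ≤ Fintype.card ι * Q := by
  rw [Fintype.card_sigma]
  exact Finset.sum_le_card_nsmul _ _ Q fun a _ => (Fintype.card_fin _).trans_le (hk a)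

theorem tr_of_pull [Fintype ι] (G : Set (ι → KK p)) (k : ι → ℕ) (n : ℕ) {γ γ' : ι → ℤ}
    (hc : ∀ a, ((p : ℤ) ^ k a) ∣ γ' a - γ a)
    (h : Tr {y | lam k k y ∈ G} n Finset.univ (cuts p k γ) (cuts p k γ')) :
    Tr G n Finset.univ γ γ' := by
  intro x hx hγ
  have e0 : lam k k (fun b => cart (k b.1) b.2 (x b.1)) = x :=
    funext fun a => (eq_sum_cart (k a) (x a)).symm
  obtain ⟨y, hy, h'⟩ := h (fun b => cart (k b.1) b.2 (x b.1)) (by rwa [Set.mem_setOf_eq, e0])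
    fun b _ => (ge_iff_cart _ _ _).1 (hγ b.1 (Finset.mem_univ _)) _ b.2.2
  have e : ∀ a (j : Fin (p ^ k a)), cart (k a) j (lam k k y a) = y ⟨a, j⟩ :=
    fun a j => cart_sum_tz (k a) (fun j => y ⟨a, j⟩) j
  refine ⟨_, hy, fun a _ => ⟨(ge_iff_cart (k a) _ _).2 fun j hj =>
    (e a ⟨j, hj⟩).symm ▸ (h' ⟨a, j, hj⟩ (Finset.mem_univ _)).1, fun m hm => ?_⟩⟩
  obtain ⟨κ, hκ⟩ := hc a
  obtain ⟨u, j, hj, hu⟩ := RBase_split (p := p) (k a) (γ a + m)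
  have h1 := (cut_le_iff (pp_pos (p := p) (k a)) j (γ a) u).2 (by push_cast; omega)
  have h2 := (lt_cut_iff (pp_pos (p := p) (k a)) j (γ a) (u - n)).2 (by
    have := RBase_pos (p := p) (k a)
    push_cast
    nlinarith)
  have h3 : cut (p ^ k a) j (γ' a) = cut (p ^ k a) j (γ a) + κ := by
    rw [← cut_add_mul (pp_pos _), Nat.cast_pow, ← hκ, add_sub_cancel]
  obtain ⟨i, hi⟩ := Int.eq_ofNat_of_zero_le (sub_nonneg.2 h1)
  have h4 := (h' ⟨a, j, hj⟩ (Finset.mem_univ _)).2 i (by omega)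
  rw [← e a ⟨j, hj⟩, coeff_cart, coeff_cart] at h4
  simp only [cuts, h3, ← hi] at h4
  rw [hu, show γ' a + m = (p : ℤ) ^ k a * (u + κ) + j by linear_combination hκ + hu]
  convert h4 using 4 <;> ring

theorem RFrob_cut (k : ι → ℕ) (γ : ι → ℤ) (b : Σ a, Fin (p ^ k a)) :
    (p : ℤ) ^ k b.1 * (cuts p k γ b - 1) < γ b.1 ∧ γ b.1 < (p : ℤ) ^ k b.1 * (cuts p k γ b + 1) := by
  have h1 := (cut_le_iff (pp_pos (p := p) (k b.1)) b.2 (γ b.1) _).1 le_rfl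
  have h2 := (lt_cut_iff (pp_pos (p := p) (k b.1)) b.2 (γ b.1) _).1 (sub_one_lt _)
  have h3 : ((b.2 : ℕ) : ℤ) < (p : ℤ) ^ k b.1 := by exact_mod_cast b.2.2
  rw [Nat.cast_pow] at h1 h2
  unfold cuts
  constructor <;> linarith [Int.natCast_nonneg (b.2 : ℕ)]

theorem RFrob_abs {x y z : ℤ} {c Q : ℕ} (hx : |x| ≤ c) (hy : |y| ≤ Q) (hz : |z| ≤ Q) :
    |x * y * z| ≤ c * Q * Q := by
  rw [abs_mul, abs_mul]
  gcongr

theorem ct_cuts [Fintype ι] {k : ι → ℕ} {Q c : ℕ} (hk : ∀ a, p ^ k a ≤ Q) {γ γ' : ι → ℤ}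
    (h : CT (3 * Q * Q * (c + 1)) Finset.univ γ γ') :
    CT c Finset.univ (cuts p k γ) (cuts p k γ') := by
  have key : ∀ b : Σ a, Fin (p ^ k a), ∃ κ : ℤ, γ' b.1 = γ b.1 + p ^ k b.1 * (c.factorial * κ) ∧
      cuts p k γ' b = cuts p k γ b + c.factorial * κ := fun b => by
    have h0 := pp_pos (p := p) (k b.1)
    have h1 : p ^ k b.1 * c.factorial ∣ (3 * Q * Q * (c + 1)).factorial :=
      ((Nat.mul_dvd_mul_right (Nat.dvd_factorial h0 le_rfl) _).trans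
        (Nat.factorial_mul_factorial_dvd_factorial_add _ _)).trans (Nat.factorial_dvd_factorial (by
          have := hk b.1
          have : 1 ≤ Q * Q := by nlinarith
          nlinarith))
    obtain ⟨κ, hκ⟩ := (Int.natCast_dvd_natCast.2 h1).trans (h.1 b.1 (Finset.mem_univ _)).dvd
    have h2 : γ' b.1 = γ b.1 + p ^ k b.1 * (c.factorial * κ) := by
      push_cast at hκ
      linear_combination hκ
    exact ⟨κ, h2, by rw [cuts, cuts, h2, ← Nat.cast_pow, cut_add_mul h0]⟩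
  refine ⟨fun b _ => ?_, fun a _ b _ l m hl hm e he => ?_⟩
  · obtain ⟨κ, -, h2⟩ := key b
    exact Int.modEq_iff_dvd.2 ⟨κ, by rw [h2, add_sub_cancel_left]⟩
  obtain ⟨κ, h1, h2⟩ := key a
  obtain ⟨μ, h3, h4⟩ := key b
  have hq : ∀ a, |(p : ℤ) ^ k a| ≤ Q := fun a => by
    rw [abs_of_pos (RBase_pos _)]
    exact_mod_cast hk a
  have hρ : ∀ b : Σ a, Fin (p ^ k a), |(p : ℤ) ^ k b.1 * cuts p k γ b - γ b.1| ≤ Q := fun b => by
    have := RFrob_cut k γ b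
    have := le_of_abs_le (hq b.1)
    rw [abs_le]
    constructor <;> linarith
  have hQ : ∀ {l : ℕ} a, l ≤ c → l * p ^ k a ≤ 3 * Q * Q * (c + 1) := fun a hl =>
    (Nat.mul_le_mul hl (hk a)).trans (by nlinarith [Nat.le_mul_self Q])
  have h5 := h.2 a.1 (Finset.mem_univ _) b.1 (Finset.mem_univ _) _ _ (hQ b.1 hl) (hQ a.1 hm)
    (e * p ^ k a.1 * p ^ k b.1 - l * p ^ k b.1 * (p ^ k a.1 * cuts p k γ a - γ a.1) +
      m * p ^ k a.1 * (p ^ k b.1 * cuts p k γ b - γ b.1)) (by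
      have e1 := abs_le.1 (RFrob_abs he (hq a.1) (hq b.1))
      have e2 := abs_le.1 (RFrob_abs (x := l) (c := c) (by simpa using hl) (hq b.1) (hρ a))
      have e3 := abs_le.1 (RFrob_abs (x := m) (c := c) (by simpa using hm) (hq a.1) (hρ b))
      have : (0 : ℤ) ≤ Q * Q := by positivity
      rw [abs_le]
      push_cast
      constructor <;> linarith)
  have h6 := mul_pos (RBase_pos (p := p) (k a.1)) (RBase_pos (p := p) (k b.1))
  rw [← mul_le_mul_iff_right₀ h6, ← mul_le_mul_iff_right₀ h6 (b := e), h2, h4]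
  rw [h1, h3] at h5
  push_cast at h5
  exact ⟨fun h => by linarith [h5.1 (by linarith)], fun h => by linarith [h5.2 (by linarith)]⟩

theorem ct_dvd [Fintype ι] {k : ι → ℕ} {Q : ℕ} (hk : ∀ a, p ^ k a ≤ Q) {γ γ' : ι → ℤ}
    (h : CT Q Finset.univ γ γ') (a : ι) : ((p : ℤ) ^ k a) ∣ γ' a - γ a := by
  exact_mod_cast (Int.natCast_dvd_natCast.2 (Nat.dvd_factorial (pp_pos _) (hk a))).trans
    (h.1 a (Finset.mem_univ _)).dvd

/-- Numbers with bounded ratios can be brought within a factor `p`, with an additive margin. -/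
theorem gap [Fintype ι] (δ : ι → ℕ) (D k₀ e : ℕ) (hD : ∀ a b, δ a ≤ D * δ b)
    (hδ : ∀ a, (Fintype.card ι + 1) * (e * p ^ k₀ + 1) ≤ δ a) :
    ∃ k : ι → ℕ, (∀ a, k₀ ≤ k a ∧ k a ≤ k₀ + D + 1) ∧
      ∀ a b, δ a * p ^ k b + e * p ^ k a * p ^ k b ≤ p * δ b * p ^ k a := by
  rcases isEmpty_or_nonempty ι with h | h
  · exact ⟨fun _ => 0, h.elim, h.elim⟩
  obtain ⟨a₀, h0⟩ := Finite.exists_min δ
  obtain ⟨w, hw⟩ : ∃ w, w = e * p ^ k₀ + 1 := ⟨_, rfl⟩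
  have hw0 : 0 < w := hw ▸ Nat.succ_pos _
  have hm := hw ▸ hδ a₀
  have hm0 : 0 < δ a₀ := lt_of_lt_of_le (by positivity) hm
  obtain ⟨i, hi, hi'⟩ := Finset.exists_mem_notMem_of_card_lt_card (t := Finset.range (Fintype.card ι + 1))
    (s := Finset.univ.image fun a => (δ a / p ^ Nat.log p (δ a / δ a₀) - δ a₀) / w)
    (by rw [Finset.card_range]; exact Nat.lt_succ_of_le Finset.card_image_le)
  have key : ∀ a, ∃ j, j ≤ D + 1 ∧ δ a ≤ (δ a₀ + i * w) * p ^ j ∧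
      (δ a₀ + i * w + w) * p ^ j ≤ p * δ a := fun a => by
    have h1 : δ a / δ a₀ ≠ 0 := (Nat.div_pos (h0 a) hm0).ne'
    have h2 := (Nat.le_div_iff_mul_le hm0).1 (Nat.pow_log_le_self p h1)
    have h3 := (Nat.div_lt_iff_lt_mul hm0).1 (Nat.lt_pow_succ_log_self hp.out.one_lt (δ a / δ a₀))
    have h4 := (Nat.log_le_self p _).trans (Nat.div_le_of_le_mul (mul_comm D _ ▸ hD a a₀))
    have h5 : _ ≠ i := fun e => hi' (Finset.mem_image.2 ⟨a, Finset.mem_univ _, e⟩)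
    generalize Nat.log p (δ a / δ a₀) = κ at *
    rcases h5.lt_or_gt with h5 | h5
    · rw [Nat.div_lt_iff_lt_mul hw0] at h5
      refine ⟨κ, by omega, ((Nat.div_lt_iff_lt_mul (pp_pos κ)).1 (by omega)).le, ?_⟩
      have h6 : (i + 1) * w ≤ δ a₀ := (Nat.mul_le_mul_right w (Finset.mem_range.1 hi)).trans hm
      calc _ ≤ 2 * δ a₀ * p ^ κ := Nat.mul_le_mul_right _ (by linarith)
        _ = 2 * (p ^ κ * δ a₀) := by ring
        _ ≤ _ := Nat.mul_le_mul hp.out.two_le h2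
    · have h6 := (Nat.le_div_iff_mul_le hw0).1 h5
      rw [Nat.succ_mul] at h6
      refine ⟨κ + 1, by omega, h3.le.trans (by rw [mul_comm]; gcongr; omega), ?_⟩
      rw [pow_succ, ← mul_assoc, mul_comm p]
      exact Nat.mul_le_mul_right _ ((Nat.le_div_iff_mul_le (pp_pos κ)).1 (by omega))
  choose j h1 h2 h3 using key
  refine ⟨fun a => k₀ + j a, fun a => ⟨le_self_add, Nat.add_le_add_left (h1 a) _⟩, fun a b => ?_⟩
  calc _ ≤ (δ a₀ + i * w) * p ^ j a * p ^ (k₀ + j b) + w * p ^ j a * p ^ (k₀ + j b) := by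
        rw [pow_add p k₀ (j a), ← mul_assoc]
        gcongr
        · exact h2 a
        · omega
    _ = (δ a₀ + i * w + w) * p ^ j b * p ^ (k₀ + j a) := by ring
    _ ≤ _ := Nat.mul_le_mul_right _ (h3 b)

theorem RFrob_gap [Fintype ι] (γ : ι → ℤ) (D k₀ e : ℕ) (hD : ∀ a b, |γ a| ≤ D * |γ b|)
    (hγ : ∀ a, (((Fintype.card ι + 1) * (e * p ^ (k₀ + D + 1) + 1) : ℕ) : ℤ) ≤ |γ a|) :
    ∃ k : ι → ℕ, (∀ a, k₀ ≤ k a ∧ k a ≤ k₀ + D + 1) ∧ (∀ a, (p : ℤ) ^ k a * e ≤ |γ a|) ∧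
      ∀ a b, |γ a| * p ^ k b + e * p ^ k a * p ^ k b ≤ p * |γ b| * p ^ k a := by
  simp only [← Int.natCast_natAbs] at *
  norm_cast at *
  have h : ∀ a j, j ≤ k₀ + D + 1 → (Fintype.card ι + 1) * (e * p ^ j + 1) ≤ (γ a).natAbs :=
    fun a j hj => le_trans (by gcongr; exact hp.out.pos) (hγ a)
  obtain ⟨k, h1, h2⟩ := gap (p := p) _ D k₀ e hD fun a => h a _ (by omega)
  exact ⟨k, h1, fun a => ((mul_comm _ _).trans_le (Nat.le_succ _)).trans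
    ((Nat.le_mul_of_pos_left _ (Nat.succ_pos _)).trans (h a _ (h1 a).2)), h2⟩

theorem gap_pos [Fintype ι] (γ : ι → ℤ) (D k₀ e : ℕ) (hD : ∀ a b, |γ a| ≤ D * |γ b|)
    (hγ : ∀ a, (((Fintype.card ι + 1) * ((e + p + 1) * p ^ (k₀ + D + 1) + 1) : ℕ) : ℤ) ≤ γ a) :
    ∃ k : ι → ℕ, (∀ a, k₀ ≤ k a ∧ k a ≤ k₀ + D + 1) ∧ (∀ b, (e : ℤ) ≤ cuts p k γ b) ∧
      ∀ b b', cuts p k γ b + e ≤ p * cuts p k γ b' := by
  obtain ⟨k, h1, h2, h3⟩ := RFrob_gap (p := p) γ D k₀ _ hD fun a => (hγ a).trans (le_abs_self _)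
  simp only [fun a => abs_of_nonneg ((Int.natCast_nonneg _).trans (hγ a))] at h2 h3
  push_cast at h2 h3
  have hp0 : (0 : ℤ) < p := by exact_mod_cast hp.out.pos
  refine ⟨k, h1, fun b => ?_, fun a b => ?_⟩
  · linarith [lt_of_mul_lt_mul_left ((h2 b.1).trans_lt (RFrob_cut k γ b).2) (RBase_pos _).le]
  have ha := RBase_pos (p := p) (k a.1)
  have hb := RBase_pos (p := p) (k b.1)
  refine le_of_mul_le_mul_left ?_ (mul_pos ha hb)
  linarith [h3 a.1 b.1, mul_lt_mul_of_pos_left (RFrob_cut k γ a).1 hb,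
    mul_lt_mul_of_pos_left (RFrob_cut k γ b).2 (mul_pos hp0 ha)]

theorem gap_neg [Fintype ι] (γ : ι → ℤ) (D k₀ e : ℕ) (hD : ∀ a b, |γ a| ≤ D * |γ b|)
    (hγ : ∀ a, γ a ≤ -(((Fintype.card ι + 1) * ((e + p + 1) * p ^ (k₀ + D + 1) + 1) : ℕ) : ℤ)) :
    ∃ k : ι → ℕ, (∀ a, k₀ ≤ k a ∧ k a ≤ k₀ + D + 1) ∧ (∀ b, cuts p k γ b ≤ -(e : ℤ)) ∧
      ∀ b b', p * cuts p k γ b + e ≤ cuts p k γ b' := by
  obtain ⟨k, h1, h2, h3⟩ := RFrob_gap (p := p) γ D k₀ _ hD fun a =>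
    (le_neg.1 (hγ a)).trans (neg_le_abs _)
  simp only [fun a => abs_of_nonpos ((hγ a).trans (neg_nonpos.2 (Int.natCast_nonneg _)))] at h2 h3
  push_cast at h2 h3
  have hp0 : (0 : ℤ) < p := by exact_mod_cast hp.out.pos
  refine ⟨k, h1, fun b => ?_, fun a b => ?_⟩
  · have : (p : ℤ) ^ k b.1 * (cuts p k γ b - 1) < p ^ k b.1 * -(e + p + 1) := by
      linarith [h2 b.1, (RFrob_cut k γ b).1]
    linarith [lt_of_mul_lt_mul_left this (RBase_pos _).le]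
  have ha := RBase_pos (p := p) (k a.1)
  have hb := RBase_pos (p := p) (k b.1)
  refine le_of_mul_le_mul_left ?_ (mul_pos ha hb)
  linarith [h3 b.1 a.1, mul_lt_mul_of_pos_left (RFrob_cut k γ b).2 ha,
    mul_lt_mul_of_pos_left (RFrob_cut k γ a).1 (mul_pos hp0 hb)]

end Pool.Agent.Work.MP_db9079_lc
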