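import Pool.Agent.Work.MP_db9079_lc.RFrob

/-!
The leading digits realised in a positive primitive group depend only on the type of the cuts.
-/

namespace Pool.Agent.Work.MP_db9079_lc

open Pool.Agent.Lib.RelComp

theorem inv_box {κ : Type} [Fintype κ] (δ : κ → ℤ) (hne : Nonempty κ) :
    ∃ b₀ b₁, ∀ b, δ b₀ ≤ δ b ∧ δ b ≤ δ b₁ := by
  obtain ⟨b₀, -, h₀⟩ := Finset.exists_min_image Finset.univ δ Finset.univ_nonempty
  obtain ⟨b₁, -, h₁⟩ := Finset.exists_max_image Finset.univ δ Finset.univ_nonempty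
  exact ⟨b₀, b₁, fun b => ⟨h₀ b (Finset.mem_univ _), h₁ b (Finset.mem_univ _)⟩⟩

theorem inv_box_neg {κ : Type} [Fintype κ] (δ : κ → ℤ) {p n c e : ℕ} (he : p * n + c + n ≤ e)
    (h1 : ∀ b, δ b ≤ -(e : ℤ)) (h2 : ∀ b b', p * δ b + e ≤ δ b') :
    ∃ β α : ℤ, p * α + c ≤ β ∧ α ≤ -(c : ℤ) ∧ ∀ b, β ≤ δ b ∧ δ b + n ≤ α := by
  have he' : (p : ℤ) * n + c + n ≤ e := by exact_mod_cast he
  have hpn : (0 : ℤ) ≤ p * n := by positivity
  rcases isEmpty_or_nonempty κ with h | h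
  · exact ⟨_, -(c : ℤ), le_rfl, le_rfl, fun b => h.elim b⟩
  · obtain ⟨b₀, b₁, hb⟩ := inv_box δ h
    refine ⟨δ b₀, δ b₁ + n, ?_, ?_, fun b => ⟨(hb b).1, by linarith [(hb b).2]⟩⟩
    · have := h2 b₁ b₀
      have hn : (0 : ℤ) ≤ n := by positivity
      rw [mul_add]; linarith
    · linarith [h1 b₁]

theorem inv_box_pos {κ : Type} [Fintype κ] (δ : κ → ℤ) {p n c e : ℕ} (he : c + n ≤ e)
    (h1 : ∀ b, (e : ℤ) ≤ δ b) (h2 : ∀ b b', δ b + e ≤ p * δ b') :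
    ∃ β α : ℤ, (c : ℤ) ≤ β ∧ α + c ≤ p * β ∧ ∀ b, β ≤ δ b ∧ δ b + n ≤ α := by
  have he' : (c : ℤ) + n ≤ e := by exact_mod_cast he
  have hn : (0 : ℤ) ≤ n := by positivity
  rcases isEmpty_or_nonempty κ with h | h
  · exact ⟨c, p * c - c, le_rfl, by linarith, fun b => h.elim b⟩
  · obtain ⟨b₀, b₁, hb⟩ := inv_box δ h
    refine ⟨δ b₀, δ b₁ + n, by linarith [h1 b₀], by linarith [h2 b₁ b₀],
      fun b => ⟨(hb b).1, by linarith [(hb b).2]⟩⟩

variable {p : ℕ} [hp : Fact p.Prime]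

theorem cluster_neg : ∃ f : ℕ → ℕ, Cm f ∧ ∀ (Φ : Filt p) (s n : ℕ) (ι : Type) [Fintype ι]
    (G : Set (ι → KK p)) (γ γ' : ι → ℤ), PP Φ s G → n ≤ s → (∀ a b, |γ a| ≤ s * |γ b|) →
    (∀ a, γ a ≤ -(f s)) → CT (f s) Finset.univ γ γ' → Tr G n Finset.univ γ γ' := by
  obtain ⟨fN, hN, HN⟩ := neg_close (p := p)
  obtain ⟨fL, hL, HL⟩ := lin_inv (p := p)
  have hNc := hN.ci
  have hLc := hL.ci
  obtain ⟨s1, hs1c, hs1⟩ : ∃ s1 : ℕ → ℕ, CI ∅ s1 ∧
      ∀ s, s1 s = s * p ^ (s + 1) + p ^ (s + 1) + s + 2 := ⟨_, by fun_prop, fun _ => rfl⟩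
  obtain ⟨c, hcc, hc⟩ : ∃ c : ℕ → ℕ, CI ∅ c ∧
      ∀ s, c s = fN (s1 s + s1 s + p ^ s1 s * s1 s) := ⟨_, by fun_prop, fun _ => rfl⟩
  obtain ⟨e, hec, he⟩ : ∃ e : ℕ → ℕ, CI ∅ e ∧ ∀ s, e s = p * s + c s + s :=
    ⟨_, by fun_prop, fun _ => rfl⟩
  obtain ⟨f, hf, Hf⟩ := exists_cm (g := fun s => (s + 1) * ((e s + p + 1) * p ^ (0 + s + 1) + 1) +
    3 * p ^ (s + 1) * p ^ (s + 1) * (p + e s + fL (c s) + 1) + p ^ (s + 1)) (by fun_prop)
  refine ⟨f, hf, fun Φ s n ι _ G γ γ' hG hn hD hγ hT => ?_⟩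
  have H := Hf s s le_rfl
  have hcard : Fintype.card ι ≤ s := hG.2.1
  obtain ⟨k, hk, h1, h2⟩ := gap_neg (p := p) γ s 0 (e s) hD fun a => (hγ a).trans (by
    have : (Fintype.card ι + 1) * ((e s + p + 1) * p ^ (0 + s + 1) + 1) ≤ f s :=
      le_trans (le_trans (Nat.mul_le_mul_right _ (by omega)) (Nat.le_add_right _ _))
        (le_trans (Nat.le_add_right _ _) H)
    exact neg_le_neg (by exact_mod_cast this))
  have hkQ : ∀ a, p ^ k a ≤ p ^ (s + 1) := fun a =>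
    Nat.pow_le_pow_right hp.out.pos (by have := (hk a).2; omega)
  have hG' : PP Φ (s1 s + s1 s + p ^ s1 s * s1 s) {y | lam k k y ∈ G} :=
    (hG.mono (s' := s1 s) (by rw [hs1]; omega)).comap
      (lam_ap Φ (fun a => (hkQ a).trans (by rw [hs1]; omega))
        fun a => by have := (hk a).2; rw [hs1]; omega)
      ((card_sigma_le hkQ).trans (by
        have := Nat.mul_le_mul_right (p ^ (s + 1)) hcard
        rw [hs1]; omega))
  obtain ⟨V, hV, hS, hC⟩ := HN Φ _ _ _ hG'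
  rw [← hc] at hV hS hC
  have hnc : n ≤ c s := by
    have := hN.le (s1 s + s1 s + p ^ s1 s * s1 s)
    rw [← hc] at this
    have := hs1 s
    omega
  have hT' : CT (p + e s + fL (c s)) Finset.univ (cuts p k γ) (cuts p k γ') :=
    ct_cuts hkQ (hT.mono (by omega) subset_rfl)
  have hpos := hp.out.pos
  have hee : p * n + c s + n ≤ e s := by
    have := Nat.mul_le_mul_left p hn
    rw [he]; omega
  have habs : |(e s : ℤ)| ≤ (p + e s + fL (c s) : ℕ) := by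
    rw [Nat.abs_cast]; exact_mod_cast (by omega)
  obtain ⟨β, α, b1, b2, b3⟩ := inv_box_neg (cuts p k γ) hee h1 h2
  obtain ⟨β', α', b1', b2', b3'⟩ := inv_box_neg (cuts p k γ') hee
    (fun b => ((hT'.le_iff (by omega) (Finset.mem_univ b) (by rwa [abs_neg])).2).1 (h1 b))
    (fun b b' => by
      have := (hT'.2 b' (Finset.mem_univ _) b (Finset.mem_univ _) 1 p (by omega) (by omega)
        (e s) habs).1 (by have := h2 b b'; push_cast; linarith)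
      push_cast at this; linarith)
  exact tr_of_pull G k n (ct_dvd hkQ (hT.mono (by omega) subset_rfl))
    ((hC β α b1 b2).tr (hC β' α' b1' b2') b3 b3'
      (HL Φ _ n _ V _ _ hV hS hnc (hT'.mono (by omega) subset_rfl)))

theorem cluster_pos : ∃ f : ℕ → ℕ, Cm f ∧ ∀ (Φ : Filt p) (s n : ℕ) (ι : Type) [Fintype ι]
    (G : Set (ι → KK p)) (γ γ' : ι → ℤ), PP Φ s G → n ≤ s → (∀ a b, |γ a| ≤ s * |γ b|) →
    (∀ a, (f s : ℤ) ≤ γ a) → CT (f s) Finset.univ γ γ' → Tr G n Finset.univ γ γ' := by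
  obtain ⟨fN, hN, HN⟩ := pos_close (p := p)
  obtain ⟨fL, hL, HL⟩ := lin_inv (p := p)
  have hNc := hN.ci
  have hLc := hL.ci
  obtain ⟨k0, hk0c, hk0⟩ : ∃ k0 : ℕ → ℕ, CI ∅ k0 ∧ ∀ s, k0 s = s * (p + 2) ^ s :=
    ⟨_, by fun_prop, fun _ => rfl⟩
  obtain ⟨Q, hQc, hQ⟩ : ∃ Q : ℕ → ℕ, CI ∅ Q ∧ ∀ s, Q s = p ^ (k0 s + s + 1) :=
    ⟨_, by fun_prop, fun _ => rfl⟩
  obtain ⟨c, hcc, hc⟩ : ∃ c : ℕ → ℕ, CI ∅ c ∧
      ∀ s, c s = fN (s * Q s + Q s + k0 s + s + 2) := ⟨_, by fun_prop, fun _ => rfl⟩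
  obtain ⟨f, hf, Hf⟩ := exists_cm (g := fun s => (s + 1) * ((c s + s + p + 1) * Q s + 1) +
    3 * Q s * Q s * (p + (c s + s) + fL (c s) + 1) + Q s) (by fun_prop)
  refine ⟨f, hf, fun Φ s n ι _ G γ γ' hG hn hD hγ hT => ?_⟩
  have H := Hf s s le_rfl
  have hcard : Fintype.card ι ≤ s := hG.2.1
  obtain ⟨k, hk, h1, h2⟩ := gap_pos (p := p) γ s (k0 s) (c s + s) hD fun a => le_trans (by
    have : (Fintype.card ι + 1) * ((c s + s + p + 1) * p ^ (k0 s + s + 1) + 1) ≤ f s := by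
      rw [← hQ]
      exact le_trans (le_trans (Nat.mul_le_mul_right _ (by omega)) (Nat.le_add_right _ _))
        (le_trans (Nat.le_add_right _ _) H)
    exact_mod_cast this) (hγ a)
  have hkQ : ∀ a, p ^ k a ≤ Q s := fun a => by
    rw [hQ]; exact Nat.pow_le_pow_right hp.out.pos (hk a).2
  obtain ⟨V, hV, hS, hC⟩ := HN Φ s (s * Q s + Q s + k0 s + s + 2) (k0 s) ι _ G
    (lam k fun a => k a - k0 s) hG (hk0 s).ge (by omega) (by omega)
    ((card_sigma_le hkQ).trans (by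
      have := Nat.mul_le_mul_right (Q s) hcard
      omega))
    (lam_ap Φ (fun a => (hkQ a).trans (by omega)) fun a => by have := hk a; omega)
  rw [← hc] at hV hS hC
  have hk' : (fun a => k a - k0 s + k0 s) = k := funext fun a => Nat.sub_add_cancel (hk a).1
  simp only [lam_frob, hk'] at hC
  have hnc : n ≤ c s := by
    have := hN.le (s * Q s + Q s + k0 s + s + 2)
    rw [← hc] at this
    omega
  have hT' : CT (p + (c s + s) + fL (c s)) Finset.univ (cuts p k γ) (cuts p k γ') :=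
    ct_cuts hkQ (hT.mono (by omega) subset_rfl)
  have hpos := hp.out.pos
  have hee : c s + n ≤ c s + s := by omega
  have habs : |((c s + s : ℕ) : ℤ)| ≤ (p + (c s + s) + fL (c s) : ℕ) := by
    rw [Nat.abs_cast]; exact_mod_cast (by omega)
  obtain ⟨β, α, b1, b2, b3⟩ := inv_box_pos (cuts p k γ) hee h1 h2
  obtain ⟨β', α', b1', b2', b3'⟩ := inv_box_pos (p := p) (cuts p k γ') hee
    (fun b => ((hT'.le_iff (by omega) (Finset.mem_univ b) habs).1).1 (h1 b))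
    (fun b b' => by
      have := (hT'.2 b' (Finset.mem_univ _) b (Finset.mem_univ _) p 1 (by omega) (by omega)
        _ habs).1 (by have := h2 b b'; push_cast at this ⊢; linarith)
      push_cast at this ⊢; linarith)
  exact tr_of_pull G k n (ct_dvd hkQ (hT.mono (by omega) subset_rfl))
    ((hC β α b1 b2).tr (hC β' α' b1' b2') b3 b3'
      (HL Φ _ n _ V _ _ hV hS hnc (hT'.mono (by omega) subset_rfl)))

theorem tr_of_ct : ∃ f : ℕ → ℕ, Cm f ∧ ∀ (Φ : Filt p) (s n : ℕ) (ι : Type) [Fintype ι]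
    (G : Set (ι → KK p)) (Z : ι → Prop) (A : Finset ι) (γ γ' : ι → ℤ), PP Φ s G → n ≤ s →
    CT (f s) A γ γ' → Tr (zer Z G) n A γ γ' := by
  obtain ⟨fL, hL, HL⟩ := lift_pp (p := p)
  obtain ⟨fG, hG, HG⟩ := nogap_far
  obtain ⟨fN, hN, HN⟩ := cluster_neg (p := p)
  obtain ⟨fP, hP, HP⟩ := cluster_pos (p := p)
  have hLc := hL.ci
  have hGc := hG.ci
  have hNc := hN.ci
  have hPc := hP.ci
  obtain ⟨d, hdc, hd⟩ : ∃ d : ℕ → ℕ, CI ∅ d ∧ ∀ s, d s = fL (2 * s + 1) :=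
    ⟨_, by fun_prop, fun _ => rfl⟩
  obtain ⟨E, hEc, hE⟩ : ∃ E : ℕ → ℕ, CI ∅ E ∧ ∀ s, E s = fG (d s) :=
    ⟨_, by fun_prop, fun _ => rfl⟩
  obtain ⟨t, htc, ht⟩ : ∃ t : ℕ → ℕ, CI ∅ t ∧ ∀ s, t s = 2 * (2 * s + 1) + 1 + 2 * E s :=
    ⟨_, by fun_prop, fun _ => rfl⟩
  obtain ⟨f, hf, Hf⟩ := exists_cm (g := fun s => d s * (s + d s) + s + d s + 1 + E s +
    E s * (fN (t s) + fP (t s) + 1) + (fN (t s) + fP (t s))) (by fun_prop)
  refine ⟨f, hf, fun Φ s n ι _ G Z A γ γ' hPP hn hT => ?_⟩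
  have H := Hf s s le_rfl
  have hds : 2 * s + 1 ≤ d s := by rw [hd]; exact hL.le _
  have hts := ht s
  refine split_ind hPP.isGrp (Far (d s)) (fun α β β' h h' => h'.mono le_rfl h)
    (fun Z α β h => HL Φ _ ι _ (hPP.zer Z) α β (by rwa [← hd])) n A γ γ'
    (fun a ha b hb h => hT.far ?_ (by omega) ha hb h) (fun Z B hB hgap => ?_) Z A subset_rfl
  · have := Nat.mul_le_mul_left (d s) (Nat.add_le_add_right hn (d s))
    omega
  have hTB : CT (f s) B γ γ' := hT.mono le_rfl hB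
  have hcard : B.card ≤ s := (Finset.card_le_univ B).trans hPP.2.1
  obtain ⟨h1, h2⟩ := HG ι (d s) (d s) n B γ (by omega) le_rfl (by omega) (by omega) hgap
  rw [← hE] at h1 h2
  by_cases hb : ∃ b ∈ B, |γ b| ≤ (fN (t s) + fP (t s) : ℕ)
  · obtain ⟨b, hb, hb'⟩ := hb
    refine Tr.of_eq _ _ fun a ha => hTB.eq_of_abs_le ha ?_
    have h3 := h1 a ha b hb
    have h4 : (E s : ℤ) * (|γ b| + 1) ≤ E s * ((fN (t s) + fP (t s) : ℕ) + 1) :=
      mul_le_mul_of_nonneg_left (by linarith) (by positivity)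
    have h5 : ((E s * (fN (t s) + fP (t s) + 1) : ℕ) : ℤ) ≤ f s := by exact_mod_cast (by omega)
    push_cast at h4 h5
    linarith
  push Not at hb
  have hR : PP Φ (t s) (res (fun a : B => (a : ι)) (zer Z G)) :=
    ((hPP.zer Z).res _ (by rw [Fintype.card_coe]; omega)).mono (by omega)
  have hD : ∀ a b : B, |γ a| ≤ (t s : ℕ) * |γ b| := fun a b => by
    have h3 := h1 a a.2 b b.2
    have h4 := hb b b.2
    have h5 : (0 : ℤ) ≤ (fN (t s) + fP (t s) : ℕ) := by positivity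
    have h6 : (2 * E s : ℤ) ≤ t s := by exact_mod_cast (by omega)
    have h7 : (0 : ℤ) ≤ E s := by positivity
    nlinarith [mul_le_mul_of_nonneg_right h6 (abs_nonneg (γ b)),
      mul_le_mul_of_nonneg_left (show (1 : ℤ) ≤ |γ b| by linarith) h7]
  rcases h2 with h2 | h2 | h2
  · refine Tr.of_res (HN Φ _ n _ _ _ _ hR (by omega) hD (fun a => ?_)
      (hTB.subtype.mono (by omega) subset_rfl))
    have h3 := hb a a.2
    rw [abs_of_neg (h2 a a.2)] at h3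
    have : (0 : ℤ) ≤ fP (t s) := by positivity
    push_cast at h3; linarith
  · refine Tr.of_res (HP Φ _ n _ _ _ _ hR (by omega) hD (fun a => ?_)
      (hTB.subtype.mono (by omega) subset_rfl))
    have h3 := hb a a.2
    rw [abs_of_nonneg (h2 a a.2)] at h3
    have : (0 : ℤ) ≤ fN (t s) := by positivity
    push_cast at h3; linarith
  · refine Tr.of_eq _ _ fun a ha => hTB.eq_of_abs_le ha ((h2 a ha).trans_lt ?_)
    exact_mod_cast (by omega)

end Pool.Agent.Work.MP_db9079_lc
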