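import Pool.Agent.Work.MP_db9079_lc.RProbe
import Pool.Agent.Work.MP_db9079_lc.RFR

/-!
Invariance of the conditions on codes, and numerical codes.
-/

namespace Pool.Agent.Work.MP_db9079_lc

theorem RInvar_lt {N r i j : ℕ} (hj : j < N) (hi : i < r) : j * r + i < N * r :=
  (Nat.add_lt_add_left hi _).trans_le (by rw [← Nat.succ_mul]; exact Nat.mul_le_mul_right _ hj)

theorem RInvar_ofFn {β : Type} {n : ℕ} (f : Fin n → β) (d : β) {i : ℕ} (h : i < n) :
    (List.ofFn f).getD i d = f ⟨i, h⟩ := by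
  simp [List.getD_eq_getElem?_getD, h]

theorem RInvar_range {β : Type} {n : ℕ} (f : ℕ → β) (d : β) {i : ℕ} (h : i < n) :
    ((List.range n).map f).getD i d = f i := by
  simp [List.getD_eq_getElem?_getD, h]

theorem RInvar_sum (f : ℕ → ℕ) (n : ℕ) :
    ((List.range n).map f).sum = ∑ e ∈ Finset.range n, f e := by
  induction n with
  | zero => rfl
  | succ n ih => rw [List.sum_range_succ, Finset.sum_range_succ, ih]

theorem Eqv.ct {ι : Type} {k c : ℕ} {a b : ι → ℤ} (h : Eqv k a b) (hc : 2 * c ≤ k) (A : Finset ι) :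
    CT c A a b := by
  refine ⟨fun i _ => (h.1 i).of_dvd
    (Int.natCast_dvd_natCast.2 (Nat.factorial_dvd_factorial (by omega))),
    fun i _ j _ l m hl hm e he => h.two i j (by omega) (he.trans (by omega))⟩

variable {p : ℕ}

theorem Pb.Same.symm {len n : ℕ} {C D : Pb p} (h : C.Same len n D) : D.Same len n C := by
  exact fun i hi => ⟨(h i hi).1.symm, fun m hm => ((h i hi).2 m hm).symm⟩

theorem Pb.Same.sub {N r n j : ℕ} {C D : Pb p} (h : C.Same (N * r) n D) (hj : j < N) :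
    (C.sub (j * r)).Same r n (D.sub (j * r)) := by
  exact fun i hi => h _ (RInvar_lt hj hi)

/-- Numerical probes: flag, shifted cut, digits. -/
abbrev NP : Type := List (ℕ × ℕ × List ℕ)

/-- The probe given by a numerical probe with offset `B`. -/
def toPb (p : ℕ) (B : ℕ) (D : NP) : Pb p :=
  ⟨fun i => (D.getD i (0, 0, [])).1, fun i => ((D.getD i (0, 0, [])).2.1 : ℤ) - B,
    fun i m => ((D.getD i (0, 0, [])).2.2.getD m 0 : ℕ)⟩

/-- All numerical probes of length `len` with cuts bounded by `b`. -/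
def codes (p n B b len : ℕ) : List NP :=
  allL ((List.range 3).flatMap fun f => (List.range (2 * b + 1)).flatMap fun g =>
    (allL (List.range p) n).map fun u => (f, g + (B - b), u)) len

theorem abs_le_of_mem_codes {n B b len : ℕ} (hb : b ≤ B) {D : NP} (h : D ∈ codes p n B b len)
    (i : Fin len) : |(toPb p B D).gv len i| ≤ b := by
  obtain ⟨h1, h2⟩ := mem_allL.1 h
  have h3 : D.getD i (0, 0, []) ∈ D := by
    rw [List.getD_eq_getElem?_getD, List.getElem?_eq_getElem (h1 ▸ i.2), Option.getD_some]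
    exact List.getElem_mem _
  have h4 := h2 _ h3
  simp only [List.mem_flatMap, List.mem_map, List.mem_range] at h4
  obtain ⟨f, -, g, hg, u, -, e⟩ := h4
  show |((D.getD i (0, 0, [])).2.1 : ℤ) - B| ≤ b
  rw [← e, abs_le]
  dsimp only
  omega

variable [hp : Fact p.Prime]

theorem exists_mem_codes {n B b len : ℕ} (hb : b ≤ B) (C : Pb p) (hC : ∀ i, C.fl i < 3)
    (y : Fin len → ℤ) (hy : ∀ i, |y i| ≤ b) :
    ∃ D ∈ codes p n B b len, C.Same len n (toPb p B D) ∧ (toPb p B D).gv len = y := by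
  have h1 := fun i => abs_le.1 (hy i)
  refine ⟨List.ofFn fun i : Fin len =>
    (C.fl i, (y i + B).toNat, (List.range n).map fun m => (C.u i m).val), mem_allL.2 ⟨by simp, ?_⟩,
    fun i hi => ?_, funext fun i => ?_⟩
  · simp only [List.mem_ofFn, List.mem_flatMap, List.mem_map, List.mem_range]
    rintro _ ⟨i, rfl⟩
    have := h1 i
    refine ⟨_, hC i, (y i + b).toNat, by omega, _, mem_allL.2 ⟨by simp, ?_⟩,
      Prod.ext rfl (Prod.ext (by dsimp only; omega) rfl)⟩
    simp only [List.mem_map, List.mem_range]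
    rintro _ ⟨m, -, rfl⟩
    exact ZMod.val_lt _
  · simp only [toPb, RInvar_ofFn _ _ hi, true_and]
    intro m hm
    rw [RInvar_range _ _ hm, ZMod.natCast_zmod_val]
  · have := h1 i
    simp only [toPb, Pb.gv, RInvar_ofFn _ _ i.2, Fin.eta]
    omega

theorem exists_with_cuts (len n : ℕ) (D : Pb p) (x : Fin len → ℤ) :
    ∃ C : Pb p, C.Same len n D ∧ C.gv len = x := by
  exact ⟨⟨D.fl, fun i => if h : i < len then x ⟨i, h⟩ else 0, D.u⟩,
    fun i _ => ⟨rfl, fun _ _ => rfl⟩, funext fun i => dif_pos i.2⟩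

theorem cover_inv : ∃ f : ℕ → ℕ, Cm f ∧ ∀ (Φ : Filt p) (s n r N : ℕ) (G : Set (Fin r → KK p))
    (C D : Pb p), PP Φ s G → n ≤ s → C.Same (N * r) n D →
    Eqv (f s) (C.gv (N * r)) (D.gv (N * r)) → Cover G n N C → Cover G n N D := by
  obtain ⟨t, ht, h1⟩ := tab_ct (p := p)
  obtain ⟨h, hh, h2⟩ := exists_ext_one
  obtain ⟨f, hf, h3⟩ := exists_cm (g := fun s => h (s + 2) + 2 * t s) (by
    have := ht.ci
    have := hh.ci
    fun_prop)
  refine ⟨f, hf, fun Φ s n r N G C D hG hn hs hE hC γ => ?_⟩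
  have h4 : h (s + 2) + 2 * t s ≤ f s := h3 s s le_rfl
  obtain ⟨M, hM⟩ := Finite.exists_le fun i => (C.gv (N * r) i).natAbs
  choose y hy using fun i => (h2 _ (s + 2) _ _ M (hE.symm.mono (by omega))
    (fun i => by have := hM i; rw [abs_le]; omega) (γ i)).imp fun _ => And.right
  obtain ⟨j, hj, h5⟩ := hC y
  have h6 : ∀ i : Fin r, C.fl (j * r + i) = D.fl (j * r + i) := fun i =>
    (hs _ (RInvar_lt hj i.2)).1
  refine ⟨j, hj, h5.imp (fun a i => ?_) fun a => ⟨fun b => a.1 (h1 Φ s n r G _ _ hG hn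
    (hs.sub hj).symm ((hE.symm.comp fun i : Fin r => ⟨j * r + i, RInvar_lt hj i.2⟩).ct
      (by omega) _) b), fun i => ?_⟩⟩
  · rw [← h6]
    refine (a i).imp_right (And.imp_right fun b => ?_)
    simpa [Pb.gv, b] using (hy i).le_iff (by omega) none (some ⟨j * r + i, RInvar_lt hj i.2⟩)
      (e := 0) (by simp; omega)
  · rw [← h6]
    exact (a.2 i).imp_right (And.imp_right ((hy i).le_iff (by omega)
      (some ⟨j * r + i, RInvar_lt hj i.2⟩) none (e := n) (by rw [abs_le]; omega)).2)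

theorem dec_inv : ∃ f : ℕ → ℕ, Cm f ∧ ∀ (Φ : Filt p) (s n r N : ℕ) (G : Set (Fin r → KK p))
    (C D c d : Pb p), PP Φ s G → n ≤ s → C.Same (N * r) n D → c.Same r n d →
    Eqv (f s) (Sum.elim (C.gv (N * r)) (c.gv r)) (Sum.elim (D.gv (N * r)) (d.gv r)) →
    Dec G n N C c → Dec G n N D d := by
  obtain ⟨t, ht, h1⟩ := tab_ct (p := p)
  obtain ⟨f, hf, h3⟩ := exists_cm (g := fun s => s + 2 + 2 * t s) (by
    have := ht.ci
    fun_prop)
  refine ⟨f, hf, fun Φ s n r N G C D c d hG hn hs hs' hE ⟨j, hj, h4, h5⟩ => ?_⟩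
  have h2 : s + 2 + 2 * t s ≤ f s := h3 s s le_rfl
  refine ⟨j, hj, fun i hi => ?_, h1 Φ s n r G (c.diff n (C.sub (j * r))) (d.diff n (D.sub (j * r)))
    hG hn (fun i hi => ⟨(hs' i hi).1, fun m hm => ?_⟩) ((hE.comp Sum.inr).ct (by omega) _) h5⟩
  · rw [← (hs' i hi).1, ← (hs.sub hj i hi).1]
    refine (h4 i hi).imp_right (Or.imp_right (And.imp_right (And.imp_right fun b => ?_)))
    have := (hE.le_iff (by omega) (Sum.inr ⟨i, hi⟩) (Sum.inl ⟨j * r + i, RInvar_lt hj hi⟩)
      (e := 0) (by simp)).1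
    rw [add_zero, add_zero] at this
    exact this b
  · refine congrArg₂ (· - ·) ((hs' i hi).2 m hm) (Finset.sum_congr rfl fun e he => ?_)
    rw [Finset.mem_range] at he
    have := hE.eq_iff (by omega) (Sum.inl ⟨j * r + i, RInvar_lt hj hi⟩) (Sum.inr ⟨i, hi⟩)
      (e := e - m) (by rw [abs_le]; omega)
    simp only [Sum.elim_inl, Sum.elim_inr, Pb.gv, ← add_sub_assoc, sub_eq_iff_eq_add] at this
    exact if_congr (and_congr (by rw [(hs.sub hj i hi).1]) this) ((hs.sub hj i hi).2 e he) rfl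

omit hp in
theorem RInvar_drop (B o : ℕ) (D : NP) : toPb p B (D.drop o) = (toPb p B D).sub o := by
  simp only [toPb, Pb.sub, List.getD_eq_getElem?_getD, List.getElem?_drop]

/-- The covering condition only has to be checked on a box. -/
theorem cover_iff_box {r n N : ℕ} (hn : 0 < n) (G : Set (Fin r → KK p)) (B b : ℕ) (D : NP)
    (hb : ∀ i, (D.getD i (0, 0, [])).2.1 ≤ b) :
    Cover G n N (toPb p B D) ↔ ∀ γ ∈ allL (List.range (b + n + 1)) r, ∃ j, j < N ∧
      ((∀ i, i < r → (D.getD (j * r + i) (0, 0, [])).1 = 2 ∨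
          ((D.getD (j * r + i) (0, 0, [])).1 = 1 ∧
            γ.getD i 0 ≤ (D.getD (j * r + i) (0, 0, [])).2.1)) ∨
        (¬ Tab G n (toPb p B (D.drop (j * r))) ∧
          ∀ i, i < r → (D.getD (j * r + i) (0, 0, [])).1 = 0 ∨
            ((D.getD (j * r + i) (0, 0, [])).1 = 1 ∧
              (D.getD (j * r + i) (0, 0, [])).2.1 + n ≤ γ.getD i 0))) := by
  simp only [RInvar_drop]
  constructor
  · intro h γ _
    obtain ⟨j, hj, h1⟩ := h fun i => (γ.getD i 0 : ℤ) - B
    refine ⟨j, hj, h1.imp (fun a i hi => (a ⟨i, hi⟩).imp_right (And.imp_right fun b => ?_))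
      (And.imp_right fun a i hi => (a ⟨i, hi⟩).imp_right (And.imp_right fun b => ?_))⟩ <;>
    simp only [toPb] at b <;> omega
  · intro h γ
    obtain ⟨j, hj, h1⟩ := h (List.ofFn fun i => min (γ i + B).toNat (b + n)) (mem_allL.2 ⟨by simp, by
      simp only [List.mem_ofFn, List.mem_range]
      rintro _ ⟨i, rfl⟩
      omega⟩)
    refine ⟨j, hj, h1.imp (fun a i => (a i i.2).imp_right (And.imp_right fun b => ?_))
      (And.imp_right fun a i => (a i i.2).imp_right (And.imp_right fun b => ?_))⟩ <;>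
    rw [RInvar_ofFn _ _ i.2, Fin.eta] at b <;> have := hb (j * r + i) <;> simp only [toPb] <;> omega

theorem toPb_drop (B o : ℕ) (D : NP) : toPb p B (D.drop o) = (toPb p B D).sub o := by
  exact RInvar_drop B o D

/-- Numerical version of `Pb.diff`. -/
def diffN (p n r : ℕ) (c d : NP) : NP :=
  (List.range r).map fun i => ((c.getD i (0, 0, [])).1, (c.getD i (0, 0, [])).2.1,
    (List.range n).map fun m => (c.getD i (0, 0, [])).2.2.getD m 0 + (p - 1) *
      ((List.range n).map fun e => if (d.getD i (0, 0, [])).1 = 1 ∧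
        (d.getD i (0, 0, [])).2.1 + e = (c.getD i (0, 0, [])).2.1 + m then
          (d.getD i (0, 0, [])).2.2.getD e 0 else 0).sum)

theorem tab_diffN {r n : ℕ} (G : Set (Fin r → KK p)) (B : ℕ) (c d : NP) :
    Tab G n (toPb p B (diffN p n r c d)) ↔ Tab G n ((toPb p B c).diff n (toPb p B d)) := by
  have h1 : (toPb p B (diffN p n r c d)).Same r n ((toPb p B c).diff n (toPb p B d)) := by
    intro i hi
    simp only [toPb, diffN, RInvar_range _ _ hi, Pb.diff, true_and, shiftU]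
    intro m hm
    rw [RInvar_range _ _ hm, RInvar_sum, Nat.cast_add, Nat.cast_mul, Nat.cast_sub hp.out.pos,
      ZMod.natCast_self, Nat.cast_sum, zero_sub, Nat.cast_one, neg_one_mul, ← sub_eq_add_neg]
    refine congrArg _ (Finset.sum_congr rfl fun e _ => ?_)
    rw [Nat.cast_ite, Nat.cast_zero]
    exact if_congr (and_congr Iff.rfl (by omega)) rfl rfl
  have h2 : ∀ i, i < r →
      (toPb p B (diffN p n r c d)).g i = ((toPb p B c).diff n (toPb p B d)).g i := fun i hi => by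
    simp only [toPb, diffN, RInvar_range _ _ hi, Pb.diff]
  exact ⟨fun ⟨g, hg, h⟩ => ⟨g, hg, h.congr h1 h2⟩,
    fun ⟨g, hg, h⟩ => ⟨g, hg, h.congr h1.symm fun i hi => (h2 i hi).symm⟩⟩

end Pool.Agent.Work.MP_db9079_lc
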