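import Pool.Agent.Work.MP_db9079_lc.RLevel

/-! Equation lemmas realised once, so that no two modules realise them separately. -/

theorem Pool.Agent.Eqs.h7eddf4245128 : type_of% @Pool.Agent.Work.MP_db9079_lc.Fm.Ev.eq_def := @Pool.Agent.Work.MP_db9079_lc.Fm.Ev.eq_def
theorem Pool.Agent.Eqs.hc6e04a45727b : type_of% @Pool.Agent.Work.MP_db9079_lc.Fm.Sat.eq_def := @Pool.Agent.Work.MP_db9079_lc.Fm.Sat.eq_def
theorem Pool.Agent.Eqs.he0e027c59d74 : type_of% @Pool.Agent.Work.MP_db9079_lc.kk.eq_def := @Pool.Agent.Work.MP_db9079_lc.kk.eq_def
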