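import Pool.Agent.Work.MP_db9079_lc.RLevel
import Pool.Agent.Work.MP_db9079_lc.RLevelEqs

/-!
Translation of first order formulas.
-/

namespace Pool.Agent.Work.MP_db9079_lc

open FirstOrder Language

/-- Translation of a term; the variable `0` stands for the constant `1`. -/
def trTerm {k : ℕ} : Lang.Term (Empty ⊕ Fin k) → List Sy
  | .var (Sum.inl e) => e.elim
  | .var (Sum.inr i) => [(i + 5, [])]
  | .func .one _ => [(4, [])]
  | .func .frob ts => (2, []) :: trTerm (ts 0)
  | .func (.scal A) ts => (3, A) :: trTerm (ts 0)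
  | .func .add ts => (0, []) :: (trTerm (ts 0) ++ trTerm (ts 1))
  | .func .sub ts => (1, []) :: (trTerm (ts 0) ++ trTerm (ts 1))

/-- Translation of a formula. -/
def trFm : ∀ {k : ℕ}, Lang.BoundedFormula Empty k → Fm
  | _, .falsum => .fal
  | _, .equal t₁ t₂ => .zero ((1, []) :: (trTerm t₁ ++ trTerm t₂))
  | _, .rel (.mul n) ts => .mul n (trTerm (ts 0)) (trTerm (ts 1)) (trTerm (ts 2))
  | _, .imp φ ψ => .imp (trFm φ) (trFm ψ)
  | _, .all φ => .all (trFm φ)

/-- The variable `0`. -/
def tOne : List Sy := [(4, [])]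

/-- The term `x ^ p - x` in the variable `0`. -/
def tAS : List Sy := [(1, []), (2, []), (4, []), (4, [])]

/-- The formula saying that `φ` holds when the variable `0` is `1`. -/
def Fm.close (φ : Fm) : Fm :=
  .all (.imp (.zero tAS) (.imp (.imp (.zero tOne) .fal) (.imp (.mul 1 tOne tOne tOne) φ)))

/-- The list of the codes of the symbols of a formula. -/
def fcodes {k : ℕ} (φ : Lang.BoundedFormula Empty k) : List ℕ :=
  φ.listEncode.map Encodable.encode

/-- Translation of the code of a term symbol. -/
def trSy (c : ℕ) : Sy :=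
  if c % 2 = 0 then (c / 4 + 5, [])
  else if c % 4 = 1 then (if c / 4 = 3 then 4 else c / 4, [])
  else (3, (Encodable.decode (α := Aut) (c / 4)).getD [])

/-- Translation of the code of a term. -/
def trT (c : ℕ) : List Sy :=
  ((Encodable.decode (α := List ℕ) (Nat.unpair (c / 2)).2).getD []).map trSy

/-- The parameters attached to a list of codes. -/
def parOf (l : List ℕ) : Par :=
  (tOne :: tAS :: (l.map trT ++ l.flatMap fun c => l.map fun c' => (1, []) :: (trT c ++ trT c')),
    l.length + 1, l.sum + 1)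

theorem encode_map_encode {α : Type} [Encodable α] (l : List α) :
    Encodable.encode (l.map Encodable.encode) = Encodable.encode l := by
  induction l with
  | nil => rfl
  | cons a l ih => rw [List.map_cons, Encodable.encode_list_cons, Encodable.encode_list_cons, ih]; rfl

theorem decode_encode_list {α : Type} [Encodable α] (l : List α) :
    Encodable.decode (α := List ℕ) (Encodable.encode l) = some (l.map Encodable.encode) := by
  rw [← encode_map_encode]
  exact Encodable.encodek _

theorem decode_encode_listEncode {k : ℕ} (φ : Lang.BoundedFormula Empty k) :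
    Encodable.decode (α := List ℕ) (Encodable.encode φ.listEncode) = some (fcodes φ) :=
  decode_encode_list _

/-- The code of a term inside a formula. -/
def tcode {k : ℕ} (t : Lang.Term (Empty ⊕ Fin k)) : ℕ :=
  2 * Nat.pair k (Encodable.encode t)

theorem trSy_var (i : ℕ) : trSy (2 * (2 * i + 1)) = (i + 5, []) := by
  rw [trSy, if_pos (by omega)]; congr 2; omega

theorem trSy_scal (A : Aut) : trSy (2 * (2 * Encodable.encode A + 1) + 1) = (3, A) := by
  rw [trSy, if_neg (by omega), if_neg (by omega),
    show (2 * (2 * Encodable.encode A + 1) + 1) / 4 = Encodable.encode A by omega,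
    Encodable.encodek]
  rfl

theorem trSy_op (m : ℕ) : trSy (2 * (2 * m) + 1) = (if m = 3 then 4 else m, []) := by
  rw [trSy, if_neg (by omega), if_pos (by omega), show (2 * (2 * m) + 1) / 4 = m by omega]

theorem map_listEncode {k : ℕ} (t : Lang.Term (Empty ⊕ Fin k)) :
    (t.listEncode.map Encodable.encode).map trSy = trTerm t := by
  induction t with
  | var v =>
    rcases v with e | i
    · exact e.elim
    · exact congrArg (fun x => [x]) (trSy_var i)
  | func f ts ih =>
    cases f with
    | one => exact congrArg (fun x => [x]) (trSy_op 3)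
    | frob =>
      rw [trTerm, ← ih 0]
      simp only [Term.listEncode, List.map_cons]
      congr 1
      · exact trSy_op 2
      · simp [List.finRange_succ]
    | scal A =>
      rw [trTerm, ← ih 0]
      simp only [Term.listEncode, List.map_cons]
      congr 1
      · exact trSy_scal A
      · simp [List.finRange_succ]
    | add =>
      rw [trTerm, ← ih 0, ← ih 1]
      simp only [Term.listEncode, List.map_cons]
      congr 1
      · exact trSy_op 0
      · simp [List.finRange_succ]
    | sub =>
      rw [trTerm, ← ih 0, ← ih 1]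
      simp only [Term.listEncode, List.map_cons]
      congr 1
      · exact trSy_op 1
      · simp [List.finRange_succ]

theorem trT_tcode {k : ℕ} (t : Lang.Term (Empty ⊕ Fin k)) : trT (tcode t) = trTerm t := by
  rw [trT, tcode, Nat.mul_div_cancel_left _ two_pos, Nat.unpair_pair, ← map_listEncode]
  exact congrArg (fun o : Option (List ℕ) => (o.getD []).map trSy) (decode_encode_list t.listEncode)

theorem fcodes_falsum (k : ℕ) :
    fcodes (.falsum : Lang.BoundedFormula Empty k) = [4 * (k + 2) + 3] := by
  change [2 * (2 * (k + 2) + 1) + 1] = _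
  congr 1; omega

theorem fcodes_equal {k : ℕ} (t₁ t₂ : Lang.Term (Empty ⊕ Fin k)) :
    fcodes (.equal t₁ t₂) = [tcode t₁, tcode t₂] := rfl

theorem fcodes_rel {k : ℕ} (n : ℕ) (ts : Fin 3 → Lang.Term (Empty ⊕ Fin k)) :
    fcodes (BoundedFormula.rel (L := Lang) (Rl.mul n) ts) =
      [4 * n + 1, 4 * k + 3, tcode (ts 0), tcode (ts 1), tcode (ts 2)] := by
  change [2 * (2 * n) + 1, 2 * (2 * k + 1) + 1, tcode (ts 0), tcode (ts 1), tcode (ts 2)] = _
  congr 2 <;> omega

theorem fcodes_imp {k : ℕ} (φ ψ : Lang.BoundedFormula Empty k) :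
    fcodes (φ.imp ψ) = 3 :: (fcodes φ ++ fcodes ψ) := by
  simp only [fcodes, BoundedFormula.listEncode, List.map_append, List.map_cons, List.cons_append]
  rfl

theorem fcodes_all {k : ℕ} (φ : Lang.BoundedFormula Empty (k + 1)) :
    fcodes φ.all = 7 :: fcodes φ := rfl

theorem vars_trTerm {k : ℕ} (t : Lang.Term (Empty ⊕ Fin k)) : Vars (k + 1) (trTerm t) := by
  induction t with
  | var v =>
    rcases v with e | i
    · exact e.elim
    · intro s hs
      obtain rfl := List.mem_singleton.1 hs
      have := i.2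
      simp only; omega
  | func f ts ih =>
    cases f <;> intro s hs <;> simp only [trTerm, List.mem_cons, List.mem_append,
      List.not_mem_nil, or_false] at hs
    · subst hs; simp only; omega
    · rcases hs with rfl | hs
      · simp only; omega
      · exact ih 0 s hs
    · rcases hs with rfl | hs
      · simp only; omega
      · exact ih 0 s hs
    · rcases hs with rfl | hs | hs
      · simp only; omega
      · exact ih 0 s hs
      · exact ih 1 s hs
    · rcases hs with rfl | hs | hs
      · simp only; omega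
      · exact ih 0 s hs
      · exact ih 1 s hs

theorem good_trFm (l : List ℕ) {k : ℕ} (φ : Lang.BoundedFormula Empty k)
    (h : ∀ c ∈ fcodes φ, c ∈ l) (hk : k + (fcodes φ).length ≤ l.length) :
    (trFm φ).Good (parOf l).1 (parOf l).2.1 (parOf l).2.2 (k + 1) := by
  have hm : ∀ {k : ℕ} (t : Lang.Term (Empty ⊕ Fin k)), tcode t ∈ l → trTerm t ∈ (parOf l).1 :=
    fun t ht => List.mem_cons_of_mem _ (List.mem_cons_of_mem _ (List.mem_append_left _
      (List.mem_map.2 ⟨_, ht, trT_tcode t⟩)))
  induction φ with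
  | falsum => trivial
  | equal t₁ t₂ =>
    rw [fcodes_equal] at h
    refine ⟨List.mem_cons_of_mem _ (List.mem_cons_of_mem _ (List.mem_append_right _
      (List.mem_flatMap.2 ⟨_, h (tcode t₁) (by simp), List.mem_map.2 ⟨_, h (tcode t₂) (by simp),
        by rw [trT_tcode, trT_tcode]⟩⟩))), fun s hs => ?_⟩
    simp only [List.mem_cons, List.mem_append] at hs
    rcases hs with rfl | hs | hs
    · simp only; omega
    · exact vars_trTerm t₁ s hs
    · exact vars_trTerm t₂ s hs
  | rel R ts =>
    cases R with
    | mul n =>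
      rw [fcodes_rel] at h
      have := List.single_le_sum (fun _ _ => Nat.zero_le _) _ (h (4 * n + 1) (by simp))
      exact ⟨by change n ≤ l.sum + 1; omega, ⟨hm _ (h _ (by simp)), vars_trTerm _⟩,
        ⟨hm _ (h _ (by simp)), vars_trTerm _⟩, hm _ (h _ (by simp)), vars_trTerm _⟩
  | imp φ ψ ih1 ih2 =>
    rw [fcodes_imp] at h hk
    simp only [List.length_cons, List.length_append] at hk
    exact ⟨ih1 (fun c hc => h c (by simp [hc])) (by omega),
      ih2 (fun c hc => h c (by simp [hc])) (by omega)⟩
  | all φ ih =>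
    rw [fcodes_all] at h hk
    simp only [List.length_cons] at hk
    exact ⟨by change _ < l.length + 1; omega, ih (fun c hc => h c (by simp [hc])) (by omega)⟩

theorem good_close (σ : Lang.Sentence) :
    (trFm σ).close.Good (parOf (fcodes σ)).1 (parOf (fcodes σ)).2.1 (parOf (fcodes σ)).2.2 0 := by
  have h1 : tOne ∈ (parOf (fcodes σ)).1 ∧ Vars (0 + 1) tOne :=
    ⟨List.mem_cons_self, by simp [Vars, tOne]⟩
  have h2 : tAS ∈ (parOf (fcodes σ)).1 ∧ Vars (0 + 1) tAS :=
    ⟨List.mem_cons_of_mem _ List.mem_cons_self, by simp [Vars, tAS]⟩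
  exact ⟨Nat.succ_pos _, h2, ⟨h1, trivial⟩, ⟨Nat.le_add_left _ _, h1, h1, h1⟩,
    good_trFm _ σ (fun _ h => h) (by omega)⟩

variable {p : ℕ} [hp : Fact p.Prime]

theorem stk_trTerm {k : ℕ} {a : ℕ → KK p} {v : Empty → KK p} {xs : Fin k → KK p} (h0 : a 0 = 1)
    (h : ∀ i : Fin k, a (i + 1) = xs i) (t : Lang.Term (Empty ⊕ Fin k)) (u : List Sy) :
    stk (opsK p) a (trTerm t ++ u) = t.realize (Sum.elim v xs) :: stk (opsK p) a u := by
  have hc : ∀ s u, stk (opsK p) a (s :: u) = stkStep (opsK p) a s (stk (opsK p) a u) :=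
    fun _ _ => rfl
  induction t generalizing u with
  | var x =>
    rcases x with e | i
    · exact e.elim
    · rw [trTerm, List.singleton_append, hc]
      simp [stkStep, ← h i]
  | func f ts ih =>
    cases f with
    | one => rw [trTerm, List.singleton_append, hc]; simp only [stkStep]; simp [h0]; rfl
    | frob => rw [trTerm, List.cons_append, hc, ih 0]; rfl
    | scal A => rw [trTerm, List.cons_append, hc, ih 0]; rfl
    | add => rw [trTerm, List.cons_append, hc, List.append_assoc, ih 0, ih 1]; rfl
    | sub => rw [trTerm, List.cons_append, hc, List.append_assoc, ih 0, ih 1]; rfl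

theorem ev_trTerm {k : ℕ} {a : ℕ → KK p} {v : Empty → KK p} {xs : Fin k → KK p} (h0 : a 0 = 1)
    (h : ∀ i : Fin k, a (i + 1) = xs i) (t : Lang.Term (Empty ⊕ Fin k)) :
    ev a (trTerm t) = t.realize (Sum.elim v xs) := by
  have := stk_trTerm (v := v) h0 h t []
  rw [List.append_nil] at this
  rw [ev, this]; rfl

theorem mrel_iff_ps (n : ℕ) (x y z : KK p) : MRel n x y z ↔ ∃ c : PowerSeries (ZMod p),
    x * y - z = HahnSeries.ofPowerSeries ℤ (ZMod p) (PowerSeries.X ^ n * c) * (x * y) := by
  have h1 : ∀ c : PowerSeries (ZMod p), HahnSeries.ofPowerSeries ℤ (ZMod p)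
      (PowerSeries.X ^ n * c) * (x * y) =
      tz p n * x * y * HahnSeries.ofPowerSeries ℤ (ZMod p) c := fun c => by
    rw [map_mul, HahnSeries.ofPowerSeries_X_pow, tz]; ring
  simp only [h1]
  constructor
  · rintro ⟨c, hc, e⟩
    refine ⟨PowerSeries.mk fun m => c.coeff m, ?_⟩
    rw [e]; congr 1
    ext m
    rcases lt_or_ge m 0 with hm | hm
    · rw [hc m hm, PowerSeries.coeff_coe, if_pos hm]
    · lift m to ℕ using hm
      rw [HahnSeries.ofPowerSeries_apply_coeff, PowerSeries.coeff_mk]
  · rintro ⟨c, e⟩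
    exact ⟨_, fun m hm => by rw [PowerSeries.coeff_coe, if_pos hm], e⟩

theorem sat_trFm {k : ℕ} (φ : Lang.BoundedFormula Empty k) (a : ℕ → KK p) (v : Empty → KK p)
    (xs : Fin k → KK p) (h0 : a 0 = 1) (h : ∀ i : Fin k, a (i + 1) = xs i) :
    (trFm φ).Sat (k + 1) a ↔ φ.Realize v xs := by
  induction φ generalizing a with
  | falsum => exact Iff.rfl
  | equal t₁ t₂ =>
    have : ev a ((1, []) :: (trTerm t₁ ++ trTerm t₂)) =
        t₁.realize (Sum.elim v xs) - t₂.realize (Sum.elim v xs) := by
      have h2 := stk_trTerm (v := v) h0 h t₂ []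
      rw [List.append_nil] at h2
      have h1 := stk_trTerm (v := v) h0 h t₁ (trTerm t₂)
      rw [h2] at h1
      change (stkStep (opsK p) a (1, []) (stk (opsK p) a (trTerm t₁ ++ trTerm t₂))).getD 0 0 = _
      rw [h1]; rfl
    rw [trFm, Fm.Sat, this, sub_eq_zero]; rfl
  | rel R ts =>
    cases R with
    | mul n =>
      rw [trFm, Fm.Sat, ev_trTerm (v := v) h0 h, ev_trTerm (v := v) h0 h, ev_trTerm (v := v) h0 h,
        mrel_iff_ps]
      rfl
  | imp φ ψ ih1 ih2 => exact imp_congr (ih1 a xs h0 h) (ih2 a xs h0 h)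
  | @all k φ ih =>
    refine forall_congr' fun x => ih _ (Fin.snoc xs x) (by simpa using h0) fun i => ?_
    refine Fin.lastCases ?_ (fun i => ?_) i
    · simp
    · have := i.2
      rw [Function.update_of_ne (by simp; omega), Fin.snoc_castSucc, ← h]; rfl

theorem sat_close (σ : Lang.Sentence) (a : ℕ → KK p) :
    (trFm σ).close.Sat 0 a ↔ Sentence.Realize (LaurentSeries (ZMod p)) σ := by
  have h1 : ∀ x : KK p, ev (Function.update a 0 x) tOne = x := fun x => by
    simp [ev, tOne, stk, stkStep]
  have h2 : ∀ x : KK p, ev (Function.update a 0 x) tAS = x ^ p - x := fun x => by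
    simp [ev, tAS, stk, stkStep, opsK]
  have h3 : (trFm σ).Sat (0 + 1) (Function.update a 0 1) ↔
      Sentence.Realize (LaurentSeries (ZMod p)) σ :=
    sat_trFm σ (Function.update a 0 1) _ _ (by simp) fun i => i.elim0
  simp only [Fm.close, Fm.Sat, h1, h2]
  constructor
  · intro h
    obtain ⟨e1, e2, e3⟩ := (eq_one_iff (1 : KK p)).2 rfl
    exact h3.1 (h 1 e1 e2 e3)
  · intro h x e1 e2 e3
    obtain rfl := (eq_one_iff x).1 ⟨e1, e2, e3⟩
    exact h3.2 h

end Pool.Agent.Work.MP_db9079_lc
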