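import Pool.Agent.Work.MP_db9079_lc.RProbe

/-!
Every coset has a code with a bounded number of probes.
-/

namespace Pool.Agent.Work.MP_db9079_lc

open Pool.Agent.Lib.RelComp

section

variable {ι : Type} {c : ℕ} {A : Finset ι} {γ γ' δ : ι → ℤ}

/-- Walls are monotone in the first and antitone in the second coordinate. -/
theorem RStair_wall (l m : ℕ) {x x' y y' : ℤ} (hx : x ≤ x') (hy : y' ≤ y) :
    (l : ℤ) * x - m * y ≤ l * x' - m * y' := by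
  have h1 : (l : ℤ) * x ≤ l * x' := mul_le_mul_of_nonneg_left hx (Int.natCast_nonneg l)
  have h2 : (m : ℤ) * y' ≤ m * y := mul_le_mul_of_nonneg_left hy (Int.natCast_nonneg m)
  linarith

theorem CT.sup (h : CT c A γ δ) (h' : CT c A γ' δ) : CT c A (γ ⊔ γ') δ := by
  refine ⟨fun a ha => ?_, fun a ha b hb l m hl hm e he => ?_⟩
  · rw [Pi.sup_apply]
    rcases le_total (γ a) (γ' a) with h1 | h1
    · rw [sup_eq_right.2 h1]
      exact h'.1 a ha
    · rw [sup_eq_left.2 h1]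
      exact h.1 a ha
  · have e1 := h.2 a ha b hb l m hl hm e he
    have e2 := h'.2 a ha b hb l m hl hm e he
    rw [Pi.sup_apply, Pi.sup_apply]
    constructor
    · intro h0
      rcases le_total (γ a) (γ' a) with h1 | h1
      · rw [sup_eq_right.2 h1] at h0
        exact e2.1 (h0.trans (RStair_wall l m le_rfl le_sup_right))
      · rw [sup_eq_left.2 h1] at h0
        exact e1.1 (h0.trans (RStair_wall l m le_rfl le_sup_left))
    · intro h0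
      rcases le_total (γ b) (γ' b) with h1 | h1
      · rw [sup_eq_right.2 h1]
        exact (e2.2 h0).trans (RStair_wall l m le_sup_right le_rfl)
      · rw [sup_eq_left.2 h1]
        exact (e1.2 h0).trans (RStair_wall l m le_sup_left le_rfl)

theorem CT.inf (h : CT c A γ δ) (h' : CT c A γ' δ) : CT c A (γ ⊓ γ') δ := by
  refine ⟨fun a ha => ?_, fun a ha b hb l m hl hm e he => ?_⟩
  · rw [Pi.inf_apply]
    rcases le_total (γ a) (γ' a) with h1 | h1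
    · rw [inf_eq_left.2 h1]
      exact h.1 a ha
    · rw [inf_eq_right.2 h1]
      exact h'.1 a ha
  · have e1 := h.2 a ha b hb l m hl hm e he
    have e2 := h'.2 a ha b hb l m hl hm e he
    rw [Pi.inf_apply, Pi.inf_apply]
    constructor
    · intro h0
      rcases le_total (γ b) (γ' b) with h1 | h1
      · rw [inf_eq_left.2 h1] at h0
        exact e1.1 (h0.trans (RStair_wall l m inf_le_left le_rfl))
      · rw [inf_eq_right.2 h1] at h0
        exact e2.1 (h0.trans (RStair_wall l m inf_le_right le_rfl))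
    · intro h0
      rcases le_total (γ a) (γ' a) with h1 | h1
      · rw [inf_eq_left.2 h1]
        exact (e1.2 h0).trans (RStair_wall l m le_rfl inf_le_left)
      · rw [inf_eq_right.2 h1]
        exact (e2.2 h0).trans (RStair_wall l m le_rfl inf_le_right)

theorem CT.between (h : CT c A γ γ') {ε : ι → ℤ} (h1 : γ ≤ ε) (h2 : ε ≤ γ ⊔ γ') :
    CT c A (ε ⊓ γ') ε := by
  have key : ∀ a, ((ε ⊓ γ') a = ε a ∧ γ a ≤ ε a ∧ ε a ≤ γ' a) ∨
      ((ε ⊓ γ') a = γ' a ∧ ε a = γ a ∧ γ' a ≤ γ a) := by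
    intro a
    have a1 : γ a ≤ ε a := h1 a
    have a2 : ε a ≤ max (γ a) (γ' a) := h2 a
    rw [Pi.inf_apply]
    rcases le_or_gt (ε a) (γ' a) with h3 | h3
    · exact Or.inl ⟨inf_eq_left.2 h3, a1, h3⟩
    · have a3 : ε a = γ a := by
        rcases le_max_iff.1 a2 with h4 | h4 <;> omega
      exact Or.inr ⟨inf_eq_right.2 h3.le, a3, by omega⟩
  refine ⟨fun a ha => ?_, fun a ha b hb l m hl hm e he => ?_⟩
  · rcases key a with ⟨k1, -⟩ | ⟨k1, k2, -⟩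
    · rw [k1]
    · rw [k1, k2]
      exact (h.1 a ha).symm
  · have e1 := h.2 a ha b hb l m hl hm e he
    rcases key a with ⟨k1, k2, k3⟩ | ⟨k1, k2, k3⟩ <;> rcases key b with ⟨j1, j2, j3⟩ | ⟨j1, j2, j3⟩
    · rw [k1, j1]
    · rw [k1, j1, j2]
      exact ⟨fun h0 => (e1.2 (h0.trans (RStair_wall l m k3 le_rfl))).trans
          (RStair_wall l m k2 le_rfl), fun h0 => h0.trans (RStair_wall l m le_rfl j3)⟩
    · rw [k1, j1, k2]
      exact ⟨fun h0 => h0.trans (RStair_wall l m k3 le_rfl), fun h0 =>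
        (e1.1 (h0.trans (RStair_wall l m le_rfl j2))).trans (RStair_wall l m le_rfl j3)⟩
    · rw [k1, j1, k2, j2]
      exact e1.symm

theorem exists_types : ∃ f : ℕ → ℕ, Cm f ∧ ∀ s c r : ℕ, c ≤ s → r ≤ s →
    ∃ ty : (Fin r → ℤ) → ℕ, (∀ γ, ty γ < f s) ∧
      ∀ γ γ', ty γ = ty γ' ↔ CT c Finset.univ γ γ' := by
  obtain ⟨f, hf, H⟩ := exists_cm2
    (g := fun c r => c.factorial ^ r * 2 ^ (r * (r * ((c + 1) * ((c + 1) * (2 * c + 1))))))
    (by fun_prop)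
  refine ⟨f, hf, fun s c r hc hr => ?_⟩
  classical
  have : NeZero c.factorial := ⟨c.factorial_ne_zero⟩
  let T := (Fin r → ZMod c.factorial) ×
    (Fin r × Fin r × Fin (c + 1) × Fin (c + 1) × Fin (2 * c + 1) → Bool)
  let t : (Fin r → ℤ) → T := fun γ => (fun a => (γ a : ZMod c.factorial), fun q =>
    decide ((((q.2.2.2.2 : ℕ) : ℤ) - c) ≤
      ((q.2.2.1 : ℕ) : ℤ) * γ q.1 - ((q.2.2.2.1 : ℕ) : ℤ) * γ q.2.1))
  have hT : Fintype.card T =
      c.factorial ^ r * 2 ^ (r * (r * ((c + 1) * ((c + 1) * (2 * c + 1))))) := by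
    simp only [T, Fintype.card_prod, Fintype.card_fun, ZMod.card, Fintype.card_fin,
      Fintype.card_bool]
  refine ⟨fun γ => (Fintype.equivFin T (t γ) : ℕ), fun γ => ?_, fun γ γ' => ?_⟩
  · exact (Fintype.equivFin T (t γ)).2.trans_le (hT ▸ H c r s hc hr)
  · rw [Fin.val_inj, (Fintype.equivFin T).injective.eq_iff, Prod.ext_iff]
    constructor
    · rintro ⟨h1, h2⟩
      refine ⟨fun a _ => (ZMod.intCast_eq_intCast_iff _ _ _).1 (congrFun h1 a),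
        fun a _ b _ l m hl hm e he => ?_⟩
      have he' := abs_le.1 he
      have h3 := congrFun h2 (a, b, ⟨l, by omega⟩, ⟨m, by omega⟩, ⟨(e + c).toNat, by omega⟩)
      have h4 : (((e + c).toNat : ℕ) : ℤ) - c = e := by omega
      simp only [t, h4] at h3
      exact decide_eq_decide.1 h3
    · rintro ⟨h1, h2⟩
      refine ⟨funext fun a => (ZMod.intCast_eq_intCast_iff _ _ _).2 (h1 a (Finset.mem_univ _)),
        funext fun q => decide_eq_decide.2 ?_⟩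
      have q1 := q.2.2.1.2
      have q2 := q.2.2.2.1.2
      have q3 := q.2.2.2.2.2
      exact h2 _ (Finset.mem_univ _) _ (Finset.mem_univ _) _ _ (by omega) (by omega) _
        (abs_le.2 ⟨by omega, by omega⟩)

/-- Finitely many points of a directed set have an upper bound in it. -/
theorem RStair_upper [Finite ι] {X : Set (ι → ℤ)} (hne : X.Nonempty)
    (hX : ∀ γ ∈ X, ∀ γ' ∈ X, γ ⊔ γ' ∈ X) (x : ι → ι → ℤ) (hx : ∀ i, x i ∈ X) :
    ∃ γ ∈ X, ∀ i, x i ≤ γ := by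
  classical
  have H : ∀ s : Finset ι, ∃ γ ∈ X, ∀ i ∈ s, x i ≤ γ := by
    intro s
    induction s using Finset.induction_on with
    | empty => exact hne.imp fun γ hγ => ⟨hγ, by simp⟩
    | insert a s _ ih =>
      obtain ⟨γ, hγ, h⟩ := ih
      refine ⟨x a ⊔ γ, hX _ (hx a) _ hγ, fun i hi => ?_⟩
      rcases Finset.mem_insert.1 hi with rfl | hi
      · exact le_sup_left
      · exact (h i hi).trans le_sup_right
  have := Fintype.ofFinite ι
  obtain ⟨γ, hγ, h⟩ := H Finset.univ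
  exact ⟨γ, hγ, fun i => h i (Finset.mem_univ _)⟩

theorem directed_sup [Finite ι] (X : Set (ι → ℤ)) (hne : X.Nonempty)
    (hX : ∀ γ ∈ X, ∀ γ' ∈ X, γ ⊔ γ' ∈ X) :
    ∃ (T : ι → Prop) (g : ι → ℤ), (∀ γ ∈ X, ∀ i, ¬ T i → γ i ≤ g i) ∧
      ∀ M : ℤ, ∃ γ ∈ X, ∀ i, (T i → M ≤ γ i) ∧ (¬ T i → γ i = g i) := by
  classical
  let T : ι → Prop := fun i => ∀ M : ℤ, ∃ γ ∈ X, M ≤ γ i
  have h1 : ∀ i, ∃ g : ℤ, ¬ T i → (∃ γ ∈ X, γ i = g) ∧ ∀ γ ∈ X, γ i ≤ g := by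
    intro i
    by_cases hi : T i
    · exact ⟨0, fun h => absurd hi h⟩
    · simp only [T, not_forall, not_exists, not_and, not_le] at hi
      obtain ⟨M, hM⟩ := hi
      obtain ⟨γ₀, h₀⟩ := hne
      obtain ⟨g, hg, hg'⟩ := Int.exists_greatest_of_bdd (P := fun z => ∃ γ ∈ X, γ i = z)
        ⟨M, fun z ⟨γ, hγ, e⟩ => e ▸ (hM γ hγ).le⟩ ⟨_, γ₀, h₀, rfl⟩
      exact ⟨g, fun _ => ⟨hg, fun γ hγ => hg' _ ⟨γ, hγ, rfl⟩⟩⟩
  choose g hg using h1
  refine ⟨T, g, fun γ hγ i hi => (hg i hi).2 γ hγ, fun M => ?_⟩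
  have h2 : ∀ i, ∃ γ ∈ X, (T i → M ≤ γ i) ∧ (¬ T i → γ i = g i) := by
    intro i
    by_cases hi : T i
    · obtain ⟨γ, hγ, h⟩ := hi M
      exact ⟨γ, hγ, fun _ => h, fun h' => absurd hi h'⟩
    · obtain ⟨γ, hγ, h⟩ := (hg i hi).1
      exact ⟨γ, hγ, fun h' => absurd h' hi, fun _ => h⟩
  choose x hx hx' using h2
  obtain ⟨γ, hγ, h⟩ := RStair_upper hne hX x hx
  exact ⟨γ, hγ, fun i => ⟨fun hi => ((hx' i).1 hi).trans (h i i), fun hi =>
    le_antisymm ((hg i hi).2 γ hγ) (((hx' i).2 hi).symm.le.trans (h i i))⟩⟩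

theorem directed_inf [Finite ι] (X : Set (ι → ℤ)) (hne : X.Nonempty)
    (hX : ∀ γ ∈ X, ∀ γ' ∈ X, γ ⊓ γ' ∈ X) :
    ∃ (T : ι → Prop) (g : ι → ℤ), (∀ γ ∈ X, ∀ i, ¬ T i → g i ≤ γ i) ∧
      ∀ M : ℤ, ∃ γ ∈ X, ∀ i, (T i → γ i ≤ M) ∧ (¬ T i → γ i = g i) := by
  obtain ⟨γ₀, h₀⟩ := hne
  obtain ⟨T, g, h1, h2⟩ := directed_sup {γ | -γ ∈ X} ⟨-γ₀, by simpa using h₀⟩
    (fun γ hγ γ' hγ' => by
      show -(γ ⊔ γ') ∈ X
      rw [neg_sup]
      exact hX _ hγ _ hγ')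
  refine ⟨T, -g, fun γ hγ i hi => ?_, fun M => ?_⟩
  · have := h1 (-γ) (by simpa using hγ) i hi
    simp only [Pi.neg_apply] at this ⊢
    omega
  · obtain ⟨γ, hγ, h⟩ := h2 (-M)
    refine ⟨-γ, hγ, fun i => ⟨fun hi => ?_, fun hi => ?_⟩⟩
    · have := (h i).1 hi
      simp only [Pi.neg_apply]
      omega
    · simp only [Pi.neg_apply, (h i).2 hi]

end

variable {p : ℕ} [hp : Fact p.Prime] {r : ℕ}

/-- The cuts reached by the coset `b + G`. -/
def DD (G : Set (Fin r → KK p)) (b : Fin r → KK p) : Set (Fin r → ℤ) :=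
  {γ | ∃ g ∈ G, ∀ i, Ge (γ i) ((b + g) i)}

variable {G : Set (Fin r → KK p)} {b : Fin r → KK p}

theorem dd_sup (hG : IsGrp G) {c : ℕ}
    (hT : ∀ γ γ', CT c Finset.univ γ γ' → Tr G 1 Finset.univ γ γ') {γ γ' : Fin r → ℤ}
    (h : γ ∈ DD G b) (h' : γ' ∈ DD G b) (hc : CT c Finset.univ γ γ') : γ ⊔ γ' ∈ DD G b := by
  have H : ∀ (k : ℕ) (ε : Fin r → ℤ), ε ∈ DD G b → γ ≤ ε → ε ≤ γ ⊔ γ' →
      ∑ i, ((γ ⊔ γ') i - ε i).toNat < k → γ ⊔ γ' ∈ DD G b := by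
    intro k
    induction k with
    | zero => intro _ _ _ _ h0; omega
    | succ k ih =>
      intro ε hε h1 h2 h3
      by_cases h4 : ∀ i, γ' i ≤ ε i
      · rwa [← le_antisymm h2 (sup_le h1 h4)]
      obtain ⟨g, hg, hx⟩ := hε
      obtain ⟨g', hg', hx'⟩ := h'
      have e1 : ∀ i, (g - g') i = (b + g) i - (b + g') i := fun i => by
        simp only [Pi.add_apply, Pi.sub_apply]
        ring
      obtain ⟨y, hy, hy'⟩ := hT _ _ (hc.between h1 h2) (g - g') (hG.sub_mem hg hg') fun i _ => by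
        rw [e1]
        exact ((hx i).mono inf_le_left).sub ((hx' i).mono inf_le_right)
      have e2 : ∀ i, (b + (g - y)) i = (b + g) i - y i := fun i => by
        simp only [Pi.add_apply, Pi.sub_apply]
        ring
      refine ih (fun i => if ε i < γ' i then ε i + 1 else ε i) ⟨g - y, hG.sub_mem hg hy, fun i => ?_⟩
        (fun i => ?_) (fun i => ?_) ?_
      · have h5 := (hx i).sub (hy' i (Finset.mem_univ _)).1
        rw [e2]
        beta_reduce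
        split_ifs with h6
        · refine h5.succ ?_
          have h7 := (hy' i (Finset.mem_univ _)).2 0 Nat.one_pos
          rw [Pi.inf_apply, inf_eq_left.2 h6.le, e1, Nat.cast_zero, add_zero,
            HahnSeries.coeff_sub, hx' i _ h6, sub_zero] at h7
          rw [HahnSeries.coeff_sub, h7, sub_self]
        · exact h5
      · have : γ i ≤ ε i := h1 i
        beta_reduce
        split_ifs <;> omega
      · have a1 : ε i ≤ (γ ⊔ γ') i := h2 i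
        have a2 : γ' i ≤ (γ ⊔ γ') i := le_sup_right (a := γ) (b := γ') i
        beta_reduce
        split_ifs <;> omega
      · refine lt_of_lt_of_le (Finset.sum_lt_sum (fun i _ => ?_) ?_) (Nat.lt_succ_iff.1 h3)
        · split_ifs <;> omega
        · obtain ⟨i, hi⟩ := not_forall.1 h4
          have a2 : γ' i ≤ (γ ⊔ γ') i := le_sup_right (a := γ) (b := γ') i
          refine ⟨i, Finset.mem_univ _, ?_⟩
          rw [if_pos (not_le.1 hi)]
          omega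
  exact H _ γ h le_rfl le_sup_left (Nat.lt_succ_self _)

open Classical in
/-- The probe with flag `k` on `T`, and the digits of `x` at the cuts `g` off `T`. -/
noncomputable def RStair_probe (T : Fin r → Prop) (k : ℕ) (g : Fin r → ℤ) (x : Fin r → KK p) :
    Pb p :=
  ⟨fun i => if h : i < r then (if T ⟨i, h⟩ then k else 1) else 0,
    fun i => if h : i < r then g ⟨i, h⟩ else 0,
    fun i m => if h : i < r then (x ⟨i, h⟩).coeff (g ⟨i, h⟩ + m) else 0⟩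

section

variable {T : Fin r → Prop} {k : ℕ} {g : Fin r → ℤ} {x : Fin r → KK p}

theorem RStair_fl_pos {i : Fin r} (h : T i) : (RStair_probe T k g x).fl i = k := by
  simp only [RStair_probe, i.2, dif_pos, Fin.eta, h, if_true]

theorem RStair_fl_neg {i : Fin r} (h : ¬ T i) : (RStair_probe T k g x).fl i = 1 := by
  simp only [RStair_probe, i.2, dif_pos, Fin.eta, h, if_false]

theorem RStair_g (i : Fin r) : (RStair_probe T k g x).g i = g i := by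
  simp only [RStair_probe, i.2, dif_pos, Fin.eta]

theorem RStair_u (i : Fin r) (m : ℕ) :
    (RStair_probe T k g x).u i m = (x i).coeff (g i + m) := by
  simp only [RStair_probe, i.2, dif_pos, Fin.eta]

theorem RStair_fl_lt (hk : k < 3) (i : ℕ) : (RStair_probe T k g x).fl i < 3 := by
  simp only [RStair_probe]
  split_ifs <;> omega

theorem RStair_win (n : ℕ) (hk : k ≠ 1) (h1 : ∀ i, T i → k = 2 → x i = 0)
    (h2 : ∀ i, ¬ T i → Ge (g i) (x i)) : Win n (RStair_probe T k g x) x := by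
  intro i
  by_cases hi : T i
  · rw [RStair_fl_pos hi]
    exact ⟨h1 i hi, fun e => absurd e hk⟩
  · rw [RStair_fl_neg hi, RStair_g]
    exact ⟨fun e => by omega, fun _ => ⟨h2 i hi, fun m _ => (RStair_u i m).symm⟩⟩

end

theorem RStair_empty (hG : IsGrp G) (n : ℕ) : ∃ c : Pb p, (∀ i, c.fl i < 3) ∧ Val G n b c :=
  ⟨⟨fun _ => 0, fun _ => 0, fun _ _ => 0⟩, fun _ => Nat.succ_pos 2, 0, hG.zero_mem,
    fun _ => ⟨fun e => absurd e (by simp), fun e => absurd e (by simp)⟩⟩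

theorem pos_probe {Φ : Filt p} {s : ℕ} (hG : PP Φ s G) (n : ℕ) (X : Set (Fin r → ℤ))
    (hX : ∀ γ ∈ X, ∀ γ' ∈ X, γ ⊔ γ' ∈ X) (hD : X ⊆ DD G b) :
    ∃ c : Pb p, (∀ i, c.fl i < 3) ∧ Val G n b c ∧
      ∀ γ ∈ X, ∀ i : Fin r, c.fl i = 2 ∨ (c.fl i = 1 ∧ γ i ≤ c.g i) := by
  have hG' := hG.isGrp
  rcases X.eq_empty_or_nonempty with rfl | hne
  · obtain ⟨c, h1, h2⟩ := RStair_empty (b := b) hG' n
    exact ⟨c, h1, h2, fun _ h => h.elim⟩
  obtain ⟨T, g, h1, h2⟩ := directed_sup X hne hX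
  have h3 : ∀ M : ℤ, ∃ y ∈ G, ∀ i, (T i → Ge M ((b + y) i)) ∧ (¬ T i → Ge (g i) ((b + y) i)) := by
    intro M
    obtain ⟨γ, hγ, h⟩ := h2 M
    obtain ⟨y, hy, hy'⟩ := hD hγ
    exact ⟨y, hy, fun i => ⟨fun hi => (hy' i).mono ((h i).1 hi), fun hi => (h i).2 hi ▸ hy' i⟩⟩
  obtain ⟨g₀, hg₀, h4⟩ := hG.closed T (-b) fun β => by
    obtain ⟨y, hy, h⟩ := h3 β
    refine ⟨y, hy, fun i hi => ?_⟩
    have e : (-b) i - y i = -(b + y) i := by
      simp only [Pi.add_apply, Pi.neg_apply]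
      ring
    rw [e]
    exact ((h i).1 hi).neg
  obtain ⟨f, hf, HL⟩ := lift_pp (p := p)
  obtain ⟨α, hα⟩ := (Set.finite_range g).bddAbove
  obtain ⟨β, hβ⟩ := exists_far_right (f s) (hf.pos s) α
  obtain ⟨y, hy, h5⟩ := h3 β
  have e1 : ∀ i, T i → (y - g₀) i = (b + y) i := fun i hi => by
    simp only [Pi.add_apply, Pi.sub_apply, h4 i hi, Pi.neg_apply]
    ring
  obtain ⟨z, hz, h6, h7⟩ := HL Φ s (Fin r) G hG α β hβ T (y - g₀) (hG'.sub_mem hy hg₀)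
    fun i hi => by
      rw [e1 i hi]
      exact (h5 i).1 hi
  have e2 : ∀ i, (b + (y - z)) i = (b + y) i - z i := fun i => by
    simp only [Pi.add_apply, Pi.sub_apply]
    ring
  refine ⟨RStair_probe T 2 g (b + (y - z)), RStair_fl_lt (by omega),
    ⟨y - z, hG'.sub_mem hy hz, RStair_win n (by omega) (fun i hi _ => ?_) fun i hi => ?_⟩,
    fun γ hγ i => ?_⟩
  · rw [e2, h6 i hi, e1 i hi, sub_self]
  · rw [e2]
    exact ((h5 i).2 hi).sub ((h7 i hi).mono (hα (Set.mem_range_self i)))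
  · by_cases hi : T i
    · exact Or.inl (RStair_fl_pos hi)
    · exact Or.inr ⟨RStair_fl_neg hi, by rw [RStair_g]; exact h1 γ hγ i hi⟩

theorem neg_probe (hG : IsGrp G) {n : ℕ} (hn : 0 < n) (X : Set (Fin r → ℤ))
    (hX : ∀ γ ∈ X, ∀ γ' ∈ X, γ ⊓ γ' ∈ X) (hD : ∀ γ ∈ X, γ ∉ DD G b) :
    ∃ c : Pb p, (∀ i, c.fl i < 3) ∧ Val G n b c ∧
      ∀ γ ∈ X, ¬ Tab G n c ∧ ∀ i : Fin r, c.fl i = 0 ∨ (c.fl i = 1 ∧ c.g i + n ≤ γ i) := by
  classical
  rcases X.eq_empty_or_nonempty with rfl | hne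
  · obtain ⟨c, h1, h2⟩ := RStair_empty (b := b) hG n
    exact ⟨c, h1, h2, fun _ h => h.elim⟩
  obtain ⟨T, g, h1, h2⟩ := directed_inf X hne hX
  let D : ℕ → Prop := fun d => ∃ y ∈ G, ∀ i, ¬ T i → Ge (g i - d * n) ((b + y) i)
  have h0 : ¬ D 0 := by
    rintro ⟨y, hy, h⟩
    obtain ⟨N, hN⟩ := exists_ge_fin (b + y)
    obtain ⟨γ, hγ, h'⟩ := h2 (-N)
    refine hD γ hγ ⟨y, hy, fun i => ?_⟩
    by_cases hi : T i
    · exact (hN i).mono ((h' i).1 hi)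
    · exact (h i hi).mono (by rw [(h' i).2 hi]; simp)
  have h3 : ∃ d, D d := by
    obtain ⟨N, hN⟩ := exists_ge_fin (b + 0)
    obtain ⟨α, hα⟩ := (Set.finite_range g).bddAbove
    refine ⟨(α + N).toNat, 0, hG.zero_mem, fun i _ => (hN i).mono ?_⟩
    have a1 : g i ≤ α := hα (Set.mem_range_self i)
    have a2 : α + N ≤ ((α + N).toNat : ℕ) := Int.self_le_toNat _
    have a3 : (1 : ℤ) ≤ n := by exact_mod_cast hn
    have a4 : (0 : ℤ) ≤ ((α + N).toNat : ℕ) := Int.natCast_nonneg _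
    nlinarith
  obtain ⟨d, hd⟩ : ∃ d, Nat.find h3 = d + 1 :=
    Nat.exists_eq_succ_of_ne_zero fun e => h0 (e ▸ Nat.find_spec h3)
  have h4 : ¬ D d := Nat.find_min h3 (by omega)
  obtain ⟨y, hy, h5⟩ : D (d + 1) := hd ▸ Nat.find_spec h3
  have e1 : ∀ i, g i - ((d + 1 : ℕ) : ℤ) * n + n = g i - d * n := fun i => by
    push_cast
    ring
  refine ⟨RStair_probe T 0 (fun i => g i - ((d + 1 : ℕ) : ℤ) * n) (b + y),
    RStair_fl_lt (by omega), ⟨y, hy, RStair_win n (by omega) (fun i _ e => by omega) h5⟩,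
    fun γ hγ => ⟨?_, fun i => ?_⟩⟩
  · rintro ⟨z, hz, h6⟩
    refine h4 ⟨y - z, hG.sub_mem hy hz, fun i hi => ?_⟩
    have e2 : (b + (y - z)) i = (b + y) i - z i := by
      simp only [Pi.add_apply, Pi.sub_apply]
      ring
    obtain ⟨h7, h8⟩ := (h6 i).2 (RStair_fl_neg hi)
    rw [RStair_g] at h7 h8
    rw [e2, ← e1]
    refine ((h5 i hi).sub h7).add_of_coeff fun m hm => ?_
    rw [HahnSeries.coeff_sub, h8 m hm, RStair_u, sub_self]
  · by_cases hi : T i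
    · exact Or.inl (RStair_fl_pos hi)
    · refine Or.inr ⟨RStair_fl_neg hi, ?_⟩
      rw [RStair_g, e1]
      have a1 := h1 γ hγ i hi
      have a2 : (0 : ℤ) ≤ d * n := by positivity
      omega

/-- A sequence of probes written one after the other. -/
theorem RStair_concat (r : ℕ) (c : ℕ → Pb p) (hc : ∀ j i, (c j).fl i < 3) :
    ∃ C : Pb p, (∀ i, C.fl i < 3) ∧ ∀ (j : ℕ) (i : Fin r), C.fl (j * r + i) = (c j).fl i ∧
      C.g (j * r + i) = (c j).g i ∧ C.u (j * r + i) = (c j).u i := by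
  refine ⟨⟨fun x => (c (x / r)).fl (x % r), fun x => (c (x / r)).g (x % r),
    fun x => (c (x / r)).u (x % r)⟩, fun x => hc _ _, fun j i => ?_⟩
  have e1 : (j * r + i) / r = j := by
    rw [mul_comm, Nat.mul_add_div i.pos, Nat.div_eq_of_lt i.2, add_zero]
  have e2 : (j * r + i) % r = i := by
    rw [Nat.mul_add_mod', Nat.mod_eq_of_lt i.2]
  simp only [e1, e2, and_self]

theorem exists_code : ∃ f : ℕ → ℕ, Cm f ∧ ∀ (Φ : Filt p) (s n r N : ℕ) (G : Set (Fin r → KK p))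
    (b : Fin r → KK p), PP Φ s G → 0 < n → n ≤ s → f s ≤ N →
    ∃ C : Pb p, (∀ i, C.fl i < 3) ∧ Code G n N b C := by
  obtain ⟨f₀, hf₀, H₀⟩ := tr_of_ct (p := p)
  obtain ⟨f₁, hf₁, H₁⟩ := exists_types
  obtain ⟨f, hf, H⟩ := exists_cm (g := fun s => f₁ (f₀ s) * (s + 1)) (by
    have := hf₀.ci
    have := hf₁.ci
    fun_prop)
  refine ⟨f, hf, fun Φ s n r N G b hG hn hns hN => ?_⟩
  have hG' := hG.isGrp
  have hr : r ≤ s := by simpa using hG.2.1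
  obtain ⟨ty, hty, hct⟩ := H₁ (f₀ s) (f₀ s) r le_rfl (hr.trans (hf₀.le s))
  have hT : ∀ γ γ', CT (f₀ s) Finset.univ γ γ' → Tr G 1 Finset.univ γ γ' := by
    intro γ γ' h
    have h1 := H₀ Φ s 1 (Fin r) G (fun _ => False) Finset.univ γ γ' hG (by omega) h
    rwa [show zer (fun _ => False) G = G from Set.ext fun x =>
      ⟨fun hx => hx.1, fun hx => ⟨hx, fun _ h => h.elim⟩⟩] at h1
  let X : ℕ → Set (Fin r → ℤ) := fun τ => {γ | γ ∈ DD G b ∧ ty γ = τ}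
  let Y : ℕ → ℕ → Set (Fin r → ℤ) := fun τ a =>
    {γ | ty γ = τ ∧ ∃ h : a < r, ∀ γ' ∈ X τ, γ' ⟨a, h⟩ < γ ⟨a, h⟩}
  have hX : ∀ τ, ∀ γ ∈ X τ, ∀ γ' ∈ X τ, γ ⊔ γ' ∈ X τ := by
    rintro τ γ ⟨h1, h2⟩ γ' ⟨h3, h4⟩
    have h5 := (hct γ γ').1 (h2.trans h4.symm)
    exact ⟨dd_sup hG' hT h1 h3 h5,
      ((hct _ γ').2 (h5.sup ((hct γ' γ').1 rfl))).trans h4⟩
  have hY : ∀ τ a, ∀ γ ∈ Y τ a, ∀ γ' ∈ Y τ a, γ ⊓ γ' ∈ Y τ a := by
    rintro τ a γ ⟨h1, h, h2⟩ γ' ⟨h3, _, h4⟩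
    have h5 := (hct γ γ').1 (h1.trans h3.symm)
    exact ⟨((hct _ γ').2 (h5.inf ((hct γ' γ').1 rfl))).trans h3, h,
      fun δ hδ => lt_inf_iff.2 ⟨h2 δ hδ, h4 δ hδ⟩⟩
  have hP : ∀ τ a : ℕ, ∃ c : Pb p, (∀ i, c.fl i < 3) ∧ Val G n b c ∧
      (a = r → ∀ γ ∈ X τ, ∀ i : Fin r, c.fl i = 2 ∨ (c.fl i = 1 ∧ γ i ≤ c.g i)) ∧
      ∀ γ ∈ Y τ a, ¬ Tab G n c ∧ ∀ i : Fin r, c.fl i = 0 ∨ (c.fl i = 1 ∧ c.g i + n ≤ γ i) := by
    intro τ a
    by_cases ha : a = r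
    · obtain ⟨c, h1, h2, h3⟩ := pos_probe (b := b) hG n (X τ) (hX τ) fun _ h => h.1
      exact ⟨c, h1, h2, fun _ => h3, fun γ ⟨_, h, _⟩ => absurd h (by omega)⟩
    · obtain ⟨c, h1, h2, h3⟩ := neg_probe (b := b) hG' hn (Y τ a) (hY τ a)
        fun γ ⟨h1, _, h2⟩ h3 => lt_irrefl _ (h2 γ ⟨h3, h1⟩)
      exact ⟨c, h1, h2, fun e => absurd e ha, h3⟩
  choose c hc1 hc2 hc3 hc4 using hP
  obtain ⟨C, hC, hC'⟩ := RStair_concat r (fun j => c (j / (r + 1)) (j % (r + 1)))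
    fun j i => hc1 _ _ i
  have hW : ∀ (j : ℕ) (x : Fin r → KK p),
      Win n (C.sub (j * r)) x ↔ Win n (c (j / (r + 1)) (j % (r + 1))) x := by
    intro j x
    refine forall_congr' fun i => ?_
    simp only [Pb.sub, (hC' j i).1, (hC' j i).2.1, (hC' j i).2.2]
  have hJ : ∀ τ a : ℕ, τ < f₁ (f₀ s) → a ≤ r →
      ∃ j, j < N ∧ j / (r + 1) = τ ∧ j % (r + 1) = a := by
    intro τ a h1 h2
    refine ⟨(r + 1) * τ + a, ?_, ?_, ?_⟩
    · have a1 : f₁ (f₀ s) * (s + 1) ≤ f s := H s s le_rfl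
      have a2 : (τ + 1) * (r + 1) ≤ f₁ (f₀ s) * (s + 1) := Nat.mul_le_mul h1 (by omega)
      nlinarith
    · rw [Nat.mul_add_div (Nat.succ_pos r), Nat.div_eq_of_lt (by omega), add_zero]
    · rw [Nat.mul_add_mod, Nat.mod_eq_of_lt (by omega)]
  refine ⟨C, hC, fun γ => ?_, fun j _ => ?_⟩
  · by_cases h1 : γ ∈ DD G b
    · obtain ⟨j, hj, e1, e2⟩ := hJ (ty γ) r (hty γ) le_rfl
      refine ⟨j, hj, Or.inl fun i => ?_⟩
      rw [(hC' j i).1, (hC' j i).2.1, e1, e2]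
      exact hc3 _ _ rfl γ ⟨h1, rfl⟩ i
    by_cases h2 : ∃ a, γ ∈ Y (ty γ) a
    · obtain ⟨a, ha⟩ := h2
      obtain ⟨j, hj, e1, e2⟩ := hJ (ty γ) a (hty γ) ha.2.1.le
      obtain ⟨h3, h4⟩ := hc4 _ _ γ ha
      refine ⟨j, hj, Or.inr ⟨fun ⟨x, hx, h5⟩ => h3 ⟨x, hx, ?_⟩, fun i => ?_⟩⟩
      · rwa [hW, e1, e2] at h5
      · rw [(hC' j i).1, (hC' j i).2.1, e1, e2]
        exact h4 i
    · refine absurd ?_ h1
      have h3 : ∀ a : Fin r, ∃ γ' ∈ X (ty γ), γ a ≤ γ' a := by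
        intro a
        by_contra h
        exact h2 ⟨a, rfl, a.2, fun γ' hγ' => not_le.1 fun h' => h ⟨γ', hγ', h'⟩⟩
      choose x hx hx' using h3
      rcases isEmpty_or_nonempty (Fin r) with h | ⟨⟨a⟩⟩
      · exact ⟨0, hG'.zero_mem, fun i => h.elim i⟩
      obtain ⟨δ, ⟨⟨y, hy, h4⟩, -⟩, h5⟩ := RStair_upper ⟨_, hx a⟩ (hX _) x hx
      exact ⟨y, hy, fun i => (h4 i).mono ((hx' i).trans (h5 i i))⟩
  · obtain ⟨y, hy, h⟩ := hc2 (j / (r + 1)) (j % (r + 1))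
    exact ⟨y, hy, (hW j _).2 h⟩

end Pool.Agent.Work.MP_db9079_lc
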