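import Pool.Agent.Work.MP_db9079_lc.RTerm
import Pool.Agent.Work.MP_db9079_lc.RInvar
import Pool.Agent.Work.MP_db9079_lc.RStair

/-!
Evaluation of formulas on codes.
-/

namespace Pool.Agent.Work.MP_db9079_lc

/-- Formulas over raw terms. -/
inductive Fm : Type
  | fal : Fm
  | zero (t : List Sy) : Fm
  | mul (n : ℕ) (t₁ t₂ t₃ : List Sy) : Fm
  | imp (φ ψ : Fm) : Fm
  | all (φ : Fm) : Fm

/-- The atoms use terms of `T` with variables `< k`, precision at most `n`, and at most `q`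
variables are used. -/
def Fm.Good (T : List (List Sy)) (q n : ℕ) : Fm → ℕ → Prop
  | .fal, _ => True
  | .zero t, k => t ∈ T ∧ Vars k t
  | .mul m t₁ t₂ t₃, k => m ≤ n ∧ (t₁ ∈ T ∧ Vars k t₁) ∧ (t₂ ∈ T ∧ Vars k t₂) ∧ t₃ ∈ T ∧ Vars k t₃
  | .imp φ ψ, k => φ.Good T q n k ∧ ψ.Good T q n k
  | .all φ, k => k < q ∧ φ.Good T q n (k + 1)

/-- Parameters: the list of terms, the number of variables, the precision. -/
abbrev Par : Type := List (List Sy) × ℕ × ℕ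

section Params

variable (f : ℕ → ℕ) (P : Par)

/-- The shape at level `j`. -/
def shp : ℕ → List (List Sy)
  | 0 => P.1
  | j + 1 => nextSh (shp j) (P.2.1 - j) (f (sz (shp j) + P.2.2))

/-- The number of probes at level `j`. -/
def nn (j : ℕ) : ℕ := f (sz (shp f P j) + P.2.2)

/-- The length of a code at level `j`. -/
def ln (j : ℕ) : ℕ := nn f P j * (shp f P j).length

/-- The degree of equivalence used at level `j`. -/
def kk : ℕ → ℕ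
  | 0 => 3
  | j + 1 => f (kk j + ln f P j + sz (shp f P j) + sz (shp f P (j + 1)) + P.2.2)

/-- The bound on the cuts at level `j`. -/
def bd (j : ℕ) : ℕ := (2 * ((List.range (P.2.1 + 1)).map (kk f P)).sum + 2) ^ (P.2.1 - j)

/-- The numerical codes at level `j`. -/
def cds (p j : ℕ) : List NP := codes p P.2.2 (bd f P 0) (bd f P j) (ln f P j)

end Params

variable {p : ℕ}

/-- The code says that `t` vanishes. -/
def ZeroAt (sh : List (List Sy)) (N : ℕ) (t : List Sy) (C : Pb p) : Prop :=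
  ∃ i, i < sh.length ∧ (sh.getD i [] = t ∧ ∃ j, j < N ∧ C.fl (j * sh.length + i) = 2)

/-- The position `x` of the code gives the valuation and the leading digits of `t`. -/
def LeadAt (sh : List (List Sy)) (N : ℕ) (t : List Sy) (C : Pb p) (x : ℕ) : Prop :=
  ∃ i, i < sh.length ∧ (sh.getD i [] = t ∧ ∃ j, j < N ∧
    (x = j * sh.length + i ∧ C.fl x = 1 ∧ C.u x 0 ≠ 0))

/-- The code says that `t₁ t₂ = t₃` with relative precision `m`. -/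
def MulAt (sh : List (List Sy)) (N m : ℕ) (t₁ t₂ t₃ : List Sy) (C : Pb p) : Prop :=
  ((ZeroAt sh N t₁ C ∨ ZeroAt sh N t₂ C) ∧ ZeroAt sh N t₃ C) ∨
    ∃ x₁, x₁ < N * sh.length ∧ ∃ x₂, x₂ < N * sh.length ∧ (LeadAt sh N t₁ C x₁ ∧
      LeadAt sh N t₂ C x₂ ∧ ((m = 0 ∧ ZeroAt sh N t₃ C) ∨ ∃ x₃, x₃ < N * sh.length ∧
        (LeadAt sh N t₃ C x₃ ∧ ((m = 0 ∧ C.g x₁ + C.g x₂ ≤ C.g x₃) ∨
          (0 < m ∧ C.g x₃ = C.g x₁ + C.g x₂ ∧ ∀ e, e < m →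
            C.u x₃ e = ∑ i ∈ Finset.range (e + 1), C.u x₁ i * C.u x₂ (e - i))))))

theorem RLevel_lt {N r i j : ℕ} (hj : j < N) (hi : i < r) : j * r + i < N * r :=
  calc j * r + i < j * r + r := by omega
    _ = (j + 1) * r := by ring
    _ ≤ N * r := Nat.mul_le_mul_right r hj

theorem RLevel_inv {sh : List (List Sy)} {N n : ℕ} {t : List Sy} {C D : Pb p} {x : ℕ}
    (hn : 0 < n) (hs : C.Same (N * sh.length) n D) (h : LeadAt sh N t C x) :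
    LeadAt sh N t D x := by
  obtain ⟨i, hi, ht, j, hj, rfl, h1, h2⟩ := h
  obtain ⟨e1, e2⟩ := hs _ (RLevel_lt hj hi)
  exact ⟨i, hi, ht, j, hj, rfl, e1 ▸ h1, e2 0 hn ▸ h2⟩

theorem ZeroAt.inv {sh : List (List Sy)} {N n : ℕ} {t : List Sy} {C D : Pb p}
    (hs : C.Same (N * sh.length) n D) (h : ZeroAt sh N t C) : ZeroAt sh N t D := by
  obtain ⟨i, hi, ht, j, hj, h1⟩ := h
  exact ⟨i, hi, ht, j, hj, (hs _ (RLevel_lt hj hi)).1 ▸ h1⟩

theorem MulAt.inv {sh : List (List Sy)} {N n m : ℕ} {t₁ t₂ t₃ : List Sy} {C D : Pb p}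
    (hn : 0 < n) (hm : m ≤ n) (hs : C.Same (N * sh.length) n D)
    (he : Eqv 3 (C.gv (N * sh.length)) (D.gv (N * sh.length))) (h : MulAt sh N m t₁ t₂ t₃ C) :
    MulAt sh N m t₁ t₂ t₃ D := by
  rcases h with ⟨h1, h2⟩ | ⟨x₁, l₁, x₂, l₂, h1, h2, h3⟩
  · exact Or.inl ⟨h1.imp (ZeroAt.inv hs) (ZeroAt.inv hs), h2.inv hs⟩
  · refine Or.inr ⟨x₁, l₁, x₂, l₂, RLevel_inv hn hs h1, RLevel_inv hn hs h2, ?_⟩
    rcases h3 with ⟨h3, h4⟩ | ⟨x₃, l₃, h3, h4⟩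
    · exact Or.inl ⟨h3, h4.inv hs⟩
    · refine Or.inr ⟨x₃, l₃, RLevel_inv hn hs h3, ?_⟩
      rcases h4 with ⟨h4, h5⟩ | ⟨h4, h5, h6⟩
      · exact Or.inl ⟨h4, (he.add_le_iff le_rfl ⟨x₁, l₁⟩ ⟨x₂, l₂⟩ ⟨x₃, l₃⟩).1 h5⟩
      · refine Or.inr ⟨h4, (he.add_eq_iff le_rfl ⟨x₁, l₁⟩ ⟨x₂, l₂⟩ ⟨x₃, l₃⟩).1 h5, fun e hlt => ?_⟩
        rw [← (hs _ l₃).2 e (by omega), h6 e hlt]
        refine Finset.sum_congr rfl fun i hi => ?_
        have := Finset.mem_range.1 hi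
        rw [(hs _ l₁).2 i (by omega), (hs _ l₂).2 (e - i) (by omega)]

variable [hp : Fact p.Prime]

/-- Truth of a formula when `k` variables are assigned. -/
def Fm.Sat : Fm → ℕ → (ℕ → KK p) → Prop
  | .fal, _, _ => False
  | .zero t, _, a => ev a t = 0
  | .mul n t₁ t₂ t₃, _, a => MRel n (ev a t₁) (ev a t₂) (ev a t₃)
  | .imp φ ψ, k, a => φ.Sat k a → ψ.Sat k a
  | .all φ, k, a => ∀ x, φ.Sat (k + 1) (Function.update a k x)

omit hp in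
theorem RLevel_idx {sh : List (List Sy)} {t : List Sy} (ht : t ∈ sh) :
    ∃ i, i < sh.length ∧ sh.getD i [] = t := by
  obtain ⟨i, hi, rfl⟩ := List.getElem_of_mem ht
  exact ⟨i, hi, List.getD_eq_getElem _ _ hi⟩

theorem zeroAt_iff {sh : List (List Sy)} {k n N : ℕ} {a : ℕ → KK p} {C : Pb p}
    (h : Code (GS p sh k) n N (evV sh a) C) {t : List Sy} (ht : t ∈ sh) (hv : Vars k t) :
    ZeroAt sh N t C ↔ ev a t = 0 := by
  constructor
  · rintro ⟨i, hi, rfl, hj⟩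
    exact (h.zero_iff (isGrp_GS sh k) (i := ⟨i, hi⟩) (GS_apply_eq_zero hv)).2 hj
  · intro h0
    obtain ⟨i, hi, rfl⟩ := RLevel_idx ht
    exact ⟨i, hi, rfl, (h.zero_iff (isGrp_GS sh k) (i := ⟨i, hi⟩) (GS_apply_eq_zero hv)).1 h0⟩

theorem RLevel_lead {sh : List (List Sy)} {k n N x : ℕ} {a : ℕ → KK p} {C : Pb p}
    (h : Code (GS p sh k) n N (evV sh a) C) (hn : 0 < n) {t : List Sy} (hv : Vars k t)
    (hx : LeadAt sh N t C x) : Ge (C.g x) (ev a t) ∧ (ev a t).coeff (C.g x) ≠ 0 ∧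
      ∀ m : ℕ, m < n → (ev a t).coeff (C.g x + m) = C.u x m := by
  obtain ⟨i, hi, rfl, j, hj, rfl, h1, h2⟩ := hx
  obtain ⟨h3, h4⟩ := h.lead (i := ⟨i, hi⟩) (GS_apply_eq_zero hv) hj h1
  refine ⟨h3, ?_, h4⟩
  have h5 := h4 0 hn
  rw [Nat.cast_zero, add_zero] at h5
  exact fun e => h2 (h5.symm.trans e)

theorem RLevel_exists {sh : List (List Sy)} {k n N : ℕ} {a : ℕ → KK p} {C : Pb p}
    (h : Code (GS p sh k) n N (evV sh a) C) (hn : 0 < n) {t : List Sy} (ht : t ∈ sh)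
    (hv : Vars k t) (h0 : ev a t ≠ 0) : ∃ x, x < N * sh.length ∧ LeadAt sh N t C x := by
  obtain ⟨i, hi, rfl⟩ := RLevel_idx ht
  obtain ⟨j, hj, h1⟩ := h.exists_lead (isGrp_GS sh k) hn (i := ⟨i, hi⟩) (GS_apply_eq_zero hv) h0
  exact ⟨_, RLevel_lt hj hi, i, hi, rfl, j, hj, rfl, h1⟩

theorem RLevel_le {a b : ℤ} {z : KK p} (h : Ge b z) (h0 : z.coeff a ≠ 0) : b ≤ a :=
  not_lt.1 fun h1 => h0 (h a h1)

theorem RLevel_window {n : ℕ} {g₁ g₂ : ℤ} {x y : KK p} {u v : ℕ → ZMod p} (hx : Ge g₁ x)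
    (hy : Ge g₂ y) (hu : ∀ m : ℕ, m < n → x.coeff (g₁ + m) = u m)
    (hv : ∀ m : ℕ, m < n → y.coeff (g₂ + m) = v m) {e : ℕ} (he : e < n) :
    (x * y).coeff (g₁ + g₂ + e) = ∑ i ∈ Finset.range (e + 1), u i * v (e - i) := by
  rw [coeff_mul_window hx hy]
  refine Finset.sum_congr rfl fun i hi => ?_
  have := Finset.mem_range.1 hi
  rw [hu i (by omega), hv (e - i) (by omega)]

theorem mulAt_iff {sh : List (List Sy)} {k n N m : ℕ} {a : ℕ → KK p} {C : Pb p}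
    (h : Code (GS p sh k) n N (evV sh a) C) (hn : 0 < n) (hm : m ≤ n) {t₁ t₂ t₃ : List Sy}
    (h₁ : t₁ ∈ sh) (v₁ : Vars k t₁) (h₂ : t₂ ∈ sh) (v₂ : Vars k t₂) (h₃ : t₃ ∈ sh)
    (v₃ : Vars k t₃) : MulAt sh N m t₁ t₂ t₃ C ↔ MRel m (ev a t₁) (ev a t₂) (ev a t₃) := by
  constructor
  · rintro (⟨z1, z3⟩ | ⟨x₁, -, x₂, -, l1, l2, h3⟩)
    · exact (mrel_zero (z1.imp (zeroAt_iff h h₁ v₁).1 (zeroAt_iff h h₂ v₂).1)).2
        ((zeroAt_iff h h₃ v₃).1 z3)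
    · obtain ⟨a1, a2, a3⟩ := RLevel_lead h hn v₁ l1
      obtain ⟨b1, b2, b3⟩ := RLevel_lead h hn v₂ l2
      rw [mrel_iff a1 a2 b1 b2]
      rcases h3 with ⟨rfl, z3⟩ | ⟨x₃, -, l3, h4⟩
      · rw [(zeroAt_iff h h₃ v₃).1 z3, sub_zero, Nat.cast_zero, add_zero]
        exact a1.mul b1
      · obtain ⟨c1, -, c3⟩ := RLevel_lead h hn v₃ l3
        rcases h4 with ⟨rfl, h5⟩ | ⟨-, h5, h6⟩
        · rw [Nat.cast_zero, add_zero]
          exact (a1.mul b1).sub (c1.mono h5)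
        · rw [h5] at c1 c3
          refine ((a1.mul b1).sub c1).add_of_coeff fun e he => ?_
          rw [HahnSeries.coeff_sub, RLevel_window a1 b1 a3 b3 (he.trans_le hm),
            c3 e (he.trans_le hm), h6 e he, sub_self]
  · intro hM
    by_cases h0 : ev a t₁ = 0 ∨ ev a t₂ = 0
    · exact Or.inl ⟨h0.imp (zeroAt_iff h h₁ v₁).2 (zeroAt_iff h h₂ v₂).2,
        (zeroAt_iff h h₃ v₃).2 ((mrel_zero h0).1 hM)⟩
    obtain ⟨x₁, k1, l1⟩ := RLevel_exists h hn h₁ v₁ fun e => h0 (Or.inl e)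
    obtain ⟨x₂, k2, l2⟩ := RLevel_exists h hn h₂ v₂ fun e => h0 (Or.inr e)
    obtain ⟨a1, a2, a3⟩ := RLevel_lead h hn v₁ l1
    obtain ⟨b1, b2, b3⟩ := RLevel_lead h hn v₂ l2
    rw [mrel_iff a1 a2 b1 b2] at hM
    have hz : Ge (C.g x₁ + C.g x₂) (ev a t₃) := by
      have := (a1.mul b1).sub (hM.mono (le_add_of_nonneg_right (Int.natCast_nonneg m)))
      rwa [sub_sub_cancel] at this
    refine Or.inr ⟨x₁, k1, x₂, k2, l1, l2, ?_⟩
    rcases Nat.eq_zero_or_pos m with hm0 | hm0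
    · by_cases z3 : ev a t₃ = 0
      · exact Or.inl ⟨hm0, (zeroAt_iff h h₃ v₃).2 z3⟩
      · obtain ⟨x₃, k3, l3⟩ := RLevel_exists h hn h₃ v₃ z3
        exact Or.inr ⟨x₃, k3, l3, Or.inl ⟨hm0, RLevel_le hz (RLevel_lead h hn v₃ l3).2.1⟩⟩
    · have hc : (ev a t₃).coeff (C.g x₁ + C.g x₂) ≠ 0 := by
        rw [← hM.coeff_eq (by omega), RBase_lead a1 b1]
        exact mul_ne_zero a2 b2
      obtain ⟨x₃, k3, l3⟩ := RLevel_exists h hn h₃ v₃ fun e => hc (by rw [e]; rfl)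
      obtain ⟨c1, c2, c3⟩ := RLevel_lead h hn v₃ l3
      have e3 : C.g x₃ = C.g x₁ + C.g x₂ := le_antisymm (RLevel_le c1 hc) (RLevel_le hz c2)
      refine Or.inr ⟨x₃, k3, l3, Or.inr ⟨hm0, e3, fun e he => ?_⟩⟩
      rw [← c3 e (he.trans_le hm), e3, ← hM.coeff_eq (by omega),
        RLevel_window a1 b1 a3 b3 (he.trans_le hm)]

/-- `C'` is a possible code at level `j` over the code `C` at level `j + 1`. -/
def Ext (f : ℕ → ℕ) (P : Par) (j : ℕ) (C C' : Pb p) : Prop :=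
  Cover (GS p (shp f P j) (P.2.1 - j)) P.2.2 (nn f P j) C' ∧
    Dec (GS p (shp f P (j + 1)) (P.2.1 - (j + 1))) P.2.2 (nn f P (j + 1)) C C'

/-- Evaluation on numerical codes. -/
def Fm.Ev (p : ℕ) [Fact p.Prime] (f : ℕ → ℕ) (P : Par) : Fm → ℕ → NP → Prop
  | .fal, _, _ => False
  | .zero t, j, D => ZeroAt (shp f P j) (nn f P j) t (toPb p (bd f P 0) D)
  | .mul m t₁ t₂ t₃, j, D => MulAt (shp f P j) (nn f P j) m t₁ t₂ t₃ (toPb p (bd f P 0) D)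
  | .imp φ ψ, j, D => φ.Ev p f P j D → ψ.Ev p f P j D
  | .all φ, j, D => ∀ D' ∈ cds f P p (j - 1),
      Ext f P (j - 1) (toPb p (bd f P 0) D) (toPb p (bd f P 0) D') → φ.Ev p f P (j - 1) D'

/-- The numerical code of the empty assignment. -/
def topCode (f : ℕ → ℕ) (P : Par) : NP :=
  List.replicate (ln f P P.2.1) (2, bd f P 0, List.replicate P.2.2 0)

omit hp in
theorem topCode_mem (h0 : 0 < p) (f : ℕ → ℕ) (P : Par) : topCode f P ∈ cds f P p P.2.1 := by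
  have h1 : bd f P P.2.1 = 1 := by rw [bd, Nat.sub_self, pow_zero]
  have h2 : 0 < bd f P 0 := Nat.pos_of_ne_zero (pow_ne_zero _ (by omega))
  rw [cds, codes, topCode, h1, mem_allL]
  refine ⟨List.length_replicate, fun b hb => ?_⟩
  rw [List.eq_of_mem_replicate hb]
  refine List.mem_flatMap.2 ⟨2, by simp, List.mem_flatMap.2 ⟨1, by simp,
    List.mem_map.2 ⟨List.replicate P.2.2 0, mem_allL.2 ⟨List.length_replicate, fun c hc => ?_⟩, ?_⟩⟩⟩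
  · rw [List.eq_of_mem_replicate hc]
    exact List.mem_range.2 h0
  · rw [show 1 + (bd f P 0 - 1) = bd f P 0 by omega]

end Pool.Agent.Work.MP_db9079_lc
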