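import Pool.Agent.Work.MP_db9079_lc.RAP

/-!
Positive primitive subgroups of a bounded size.
-/

namespace Pool.Agent.Work.MP_db9079_lc

variable {p : ℕ} [hp : Fact p.Prime]

/-- A subgroup, as a set. -/
structure IsGrp {ι : Type} (G : Set (ι → KK p)) : Prop where
  zero_mem : (0 : ι → KK p) ∈ G
  add_mem : ∀ {x y}, x ∈ G → y ∈ G → x + y ∈ G
  sub_mem : ∀ {x y}, x ∈ G → y ∈ G → x - y ∈ G

/-- `G` is defined by a system of size `s` with hidden variables. -/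
def PP (Φ : Filt p) (s : ℕ) {ι : Type} [Fintype ι] (G : Set (ι → KK p)) : Prop :=
  Φ.w ≤ s ∧ Fintype.card ι ≤ s ∧ ∃ (σ J : Type) (_ : Fintype σ) (_ : Fintype J)
    (P : J → (σ → KK p) → KK p) (Q : J → (ι → KK p) → KK p),
    Fintype.card σ ≤ s ∧ Fintype.card J ≤ s ∧ (∀ j, APs Φ s (P j)) ∧ (∀ j, APs Φ s (Q j)) ∧
      ∀ x, x ∈ G ↔ ∃ z, ∀ j, P j z = Q j x

/-- `V` is stable under the powers of `t ^ q` for some `0 < q ≤ c`. -/
def TS (c : ℕ) {ι : Type} (V : Set (ι → KK p)) : Prop :=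
  ∃ q : ℕ, 0 < q ∧ q ≤ c ∧ ∀ k : ℤ, ∀ v ∈ V, (fun i => tz p (k * q) * v i) ∈ V

/-- On the ball `B γ` the sets `G` and `V` agree modulo `B α`. -/
def Close {ι : Type} (G V : Set (ι → KK p)) (γ α : ℤ) : Prop :=
  (∀ g ∈ G, (∀ i, Ge γ (g i)) → ∃ v ∈ V, ∀ i, Ge α (g i - v i)) ∧
    ∀ v ∈ V, (∀ i, Ge γ (v i)) → ∃ g ∈ G, ∀ i, Ge α (g i - v i)

/-- The elements vanishing at the coordinates in `Z`. -/
def zer {ι : Type} (Z : ι → Prop) (G : Set (ι → KK p)) : Set (ι → KK p) :=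
  {x | x ∈ G ∧ ∀ i, Z i → x i = 0}

/-- The image under restriction along `e`. -/
def res {ι κ : Type} (e : κ → ι) (G : Set (ι → KK p)) : Set (κ → KK p) :=
  {y | ∃ x ∈ G, ∀ k, y k = x (e k)}

/-- `α` is far below `β`. -/
def Far (c : ℕ) (α β : ℤ) : Prop := α + c ≤ c * β ∧ c * (α + c) ≤ β

/-- Lifting: small at the coordinates in `H` lifts to small everywhere. -/
def Lft {ι : Type} (G : Set (ι → KK p)) (α β : ℤ) : Prop :=
  ∀ (H : ι → Prop), ∀ x ∈ G, (∀ i, H i → Ge β (x i)) →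
    ∃ y ∈ G, (∀ i, H i → y i = x i) ∧ ∀ i, ¬ H i → Ge α (y i)

theorem Far.anti {c c' : ℕ} {α β : ℤ} (h : Far c α β) (h1 : 0 < c') (hc : c' ≤ c) :
    Far c' α β := by
  obtain ⟨h2, h3⟩ := h
  have h4 : (1 : ℤ) ≤ c' := by exact_mod_cast h1
  have h5 : (c' : ℤ) ≤ c := by exact_mod_cast hc
  constructor
  · rcases le_total 0 β with e | e
    · rcases le_total 0 (α + c) with e' | e' <;> nlinarith
    · nlinarith
  · rcases le_total 0 (α + c) with e | e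
    · nlinarith
    · rcases le_total 0 β with e' | e' <;> nlinarith

theorem Far.mono {c : ℕ} {α α' β β' : ℤ} (h : Far c α β) (ha : α' ≤ α) (hb : β ≤ β') :
    Far c α' β' := by
  obtain ⟨h2, h3⟩ := h
  have h4 : (0 : ℤ) ≤ c := Int.natCast_nonneg c
  constructor <;> nlinarith

theorem exists_far_right (c : ℕ) (hc : 0 < c) (α : ℤ) : ∃ β : ℕ, Far c α β := by
  have h1 : (1 : ℤ) ≤ c := by exact_mod_cast hc
  refine ⟨c * (α + c).natAbs, ?_, ?_⟩
  all_goals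
    push_cast
    have h2 := le_abs_self (α + c)
    have h3 := abs_nonneg (α + c)
    nlinarith [mul_nonneg (mul_nonneg (sub_nonneg.2 h1) (sub_nonneg.2 h1)) h3]

variable {Φ : Filt p} {s s' : ℕ} {ι κ : Type}

theorem IsGrp.zer {G : Set (ι → KK p)} (h : IsGrp G) (Z : ι → Prop) : IsGrp (zer Z G) := by
  exact ⟨⟨h.zero_mem, fun _ _ => rfl⟩,
    fun hx hy => ⟨h.add_mem hx.1 hy.1, fun i hi => by
      rw [Pi.add_apply, hx.2 i hi, hy.2 i hi, add_zero]⟩,
    fun hx hy => ⟨h.sub_mem hx.1 hy.1, fun i hi => by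
      rw [Pi.sub_apply, hx.2 i hi, hy.2 i hi, sub_zero]⟩⟩

theorem TS.mono {V : Set (ι → KK p)} (h : TS s V) (hs : s ≤ s') : TS s' V := by
  obtain ⟨q, h1, h2, h3⟩ := h
  exact ⟨q, h1, h2.trans hs, h3⟩

theorem TS.zer {V : Set (ι → KK p)} (h : TS s V) (Z : ι → Prop) : TS s (zer Z V) := by
  obtain ⟨q, h1, h2, h3⟩ := h
  exact ⟨q, h1, h2, fun k v hv => ⟨h3 k v hv.1, fun i hi => by
    beta_reduce
    rw [hv.2 i hi, mul_zero]⟩⟩

variable [Fintype ι] {G : Set (ι → KK p)}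

theorem PP.mono (h : PP Φ s G) (hs : s ≤ s') : PP Φ s' G := by
  obtain ⟨h1, h2, σ, J, _, _, P, Q, h3, h4, h5, h6, h7⟩ := h
  exact ⟨h1.trans hs, h2.trans hs, σ, J, _, _, P, Q, h3.trans hs, h4.trans hs,
    fun j => (h5 j).monos hs, fun j => (h6 j).monos hs, h7⟩

theorem PP.isGrp (h : PP Φ s G) : IsGrp G := by
  obtain ⟨-, -, σ, J, _, _, P, Q, -, -, h5, h6, h7⟩ := h
  refine ⟨(h7 0).2 ⟨0, fun j => by rw [(h5 j).map_zero, (h6 j).map_zero]⟩, fun hx hy => ?_,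
    fun hx hy => ?_⟩
  all_goals
    obtain ⟨z, hz⟩ := (h7 _).1 hx
    obtain ⟨w, hw⟩ := (h7 _).1 hy
  · exact (h7 _).2 ⟨z + w, fun j => by rw [(h5 j).map_add, (h6 j).map_add, hz, hw]⟩
  · exact (h7 _).2 ⟨z - w, fun j => by rw [(h5 j).map_sub, (h6 j).map_sub, hz, hw]⟩

theorem PP.zer (h : PP Φ s G) (Z : ι → Prop) : PP Φ (2 * s + 1) (zer Z G) := by
  classical
  obtain ⟨h1, h2, σ, J, _, _, P, Q, h3, h4, h5, h6, h7⟩ := h
  refine ⟨by omega, by omega, σ, J ⊕ ι, _, inferInstance, Sum.elim P fun _ _ => 0,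
    Sum.elim Q fun i x => if Z i then x i else 0, by omega, by rw [Fintype.card_sum]; omega,
    ?_, ?_, fun x => ?_⟩
  · rintro (j | i)
    exacts [(h5 j).monos (by omega), IsAP.zero]
  · rintro (j | i)
    · exact (h6 j).monos (by omega)
    · by_cases e : Z i
      · exact (IsAP.coord i (by omega)).congr fun x => (if_pos e).symm
      · exact IsAP.zero.congr fun x => (if_neg e).symm
  · constructor
    · rintro ⟨hx, hx'⟩
      obtain ⟨z, hz⟩ := (h7 x).1 hx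
      refine ⟨z, ?_⟩
      rintro (j | i)
      · exact hz j
      · by_cases e : Z i
        · exact ((if_pos e).trans (hx' i e)).symm
        · exact (if_neg e).symm
    · rintro ⟨z, hz⟩
      exact ⟨(h7 x).2 ⟨z, fun j => hz (Sum.inl j)⟩,
        fun i e => (if_pos e).symm.trans (hz (Sum.inr i)).symm⟩

theorem PP.res [Fintype κ] (h : PP Φ s G) (e : κ → ι) (hκ : Fintype.card κ ≤ s) :
    PP Φ (2 * s + 1) (res e G) := by
  obtain ⟨h1, h2, σ, J, _, _, P, Q, h3, h4, h5, h6, h7⟩ := h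
  refine ⟨by omega, by omega, σ ⊕ ι, J ⊕ κ, inferInstance, inferInstance,
    Sum.elim (fun j w => P j (fun i => w (Sum.inl i)) - Q j (fun i => w (Sum.inr i)))
      fun k w => w (Sum.inr (e k)),
    Sum.elim (fun _ _ => 0) fun k y => y k, by rw [Fintype.card_sum]; omega,
    by rw [Fintype.card_sum]; omega, ?_, ?_, fun y => ?_⟩
  · rintro (j | k)
    · exact (((h5 j).comp_coord (S := fun w i => w (Sum.inl i))
        fun i => Or.inr ⟨_, fun _ => rfl⟩).sub ((h6 j).comp_coord (S := fun w i => w (Sum.inr i))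
          fun i => Or.inr ⟨_, fun _ => rfl⟩)).monos (by omega)
    · exact IsAP.coord _ (by omega)
  · rintro (j | k)
    exacts [IsAP.zero, IsAP.coord _ (by omega)]
  · constructor
    · rintro ⟨x, hx, hy⟩
      obtain ⟨z, hz⟩ := (h7 x).1 hx
      refine ⟨Sum.elim z x, ?_⟩
      rintro (j | k)
      exacts [sub_eq_zero.2 (hz j), (hy k).symm]
    · rintro ⟨w, hw⟩
      exact ⟨fun i => w (Sum.inr i), (h7 _).2 ⟨fun i => w (Sum.inl i),
        fun j => sub_eq_zero.1 (hw (Sum.inl j))⟩, fun k => (hw (Sum.inr k)).symm⟩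

theorem PP.comap [Fintype κ] (h : PP Φ s G) {S : (κ → KK p) → ι → KK p}
    (hS : ∀ i, APs Φ s (fun x => S x i)) (hκ : Fintype.card κ ≤ s) :
    PP Φ (s + s + p ^ s * s) {y | S y ∈ G} := by
  obtain ⟨h1, h2, σ, J, _, _, P, Q, h3, h4, h5, h6, h7⟩ := h
  exact ⟨by omega, by omega, σ, J, _, _, P, fun j y => Q j (S y), by omega, by omega,
    fun j => (h5 j).monos (by omega), fun j => (h6 j).comp_size hS, fun y => h7 (S y)⟩

theorem pp_range {σ : Type} [Fintype σ] (hw : Φ.w ≤ s) (h0 : 0 < s) (hι : Fintype.card ι ≤ s)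
    (hσ : Fintype.card σ ≤ s) {S : (σ → KK p) → ι → KK p} (hS : ∀ i, APs Φ s (fun x => S x i)) :
    PP Φ s (Set.range S) := by
  exact ⟨hw, hι, σ, ι, _, _, fun i z => S z i, fun i x => x i, hσ, hι, hS,
    fun i => IsAP.coord i h0, fun x => exists_congr fun z => funext_iff⟩

theorem pp_ker {J : Type} [Fintype J] (hw : Φ.w ≤ s) (hι : Fintype.card ι ≤ s)
    (hJ : Fintype.card J ≤ s) {Q : J → (ι → KK p) → KK p} (hQ : ∀ j, APs Φ s (Q j)) :
    PP Φ s {x | ∀ j, Q j x = 0} := by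
  exact ⟨hw, hι, Empty, J, inferInstance, _, fun _ _ => 0, Q, by simp, hJ, fun _ => IsAP.zero, hQ,
    fun x => ⟨fun hx => ⟨0, fun j => (hx j).symm⟩, fun ⟨_, hz⟩ j => (hz j).symm⟩⟩

end Pool.Agent.Work.MP_db9079_lc
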