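import Pool.Agent.Work.MP_db9079_lc.RRow
import Pool.Agent.Work.MP_db9079_lc.RPP

/-!
Consequences of row reduction at positive valuations.
-/

namespace Pool.Agent.Work.MP_db9079_lc

variable {p : ℕ} [hp : Fact p.Prime]

theorem RPos_lin {Φ : Filt p} {I κ : Type} [Fintype κ] {s : ℕ} (hs : 0 < s) (e : κ → I)
    (b : κ → KK p) (hb : ∀ i, b i ∈ Φ.R s) :
    APs Φ s (fun x : I → KK p => ∑ i, b i * x (e i)) :=
  IsAP.sum _ fun i _ => (IsAP.mon (e i) 0 (b i) hs (hb i)).congr fun x => by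
    rw [pow_zero, pow_one]

omit hp in
theorem RPos_card {J : Type} [Fintype J] {s : ℕ} (h : Fintype.card J ≤ s) :
    ∑ _j : J, (p + 2) ^ s ≤ s * (p + 2) ^ s := by
  rw [Finset.sum_const, smul_eq_mul]
  exact Nat.mul_le_mul_right _ h

/-- Near zero the image of a polynomial map is cut out by continuous additive equations. -/
theorem range_local : ∃ f : ℕ → ℕ, Cm f ∧ ∀ (Φ : Filt p) (s : ℕ) (σ J : Type) [Fintype σ]
    [Fintype J] (P : J → (σ → KK p) → KK p), Φ.w ≤ s → Fintype.card J ≤ s →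
    (∀ j, APs Φ s (P j)) →
    ∃ (J' : Type) (E : (J → KK p) → J' → KK p),
      (∀ ξ ξ' j, E (ξ - ξ') j = E ξ j - E ξ' j) ∧ (∀ z j, E (fun j => P j z) j = 0) ∧
      (∀ (ξ : J → KK p) (α : ℤ), 0 ≤ α → (∀ j, Ge (f s * α) (ξ j)) → ∀ j, Ge α (E ξ j)) ∧
      ∀ (ξ : J → KK p) (α : ℤ), 0 ≤ α → (∀ j, Ge (f s * (α + f s)) (ξ j)) → (∀ j, E ξ j = 0) →
        ∃ z : σ → KK p, (∀ i, Ge α (z i)) ∧ ∀ j, P j z = ξ j := by
  obtain ⟨r, hr, H⟩ := row_red (p := p)
  obtain ⟨f, hf, hg⟩ := exists_cm (g := fun s => p ^ (s * (p + 2) ^ s) +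
    2 * r (p ^ (s * (p + 2) ^ s) + s * (p + 2) ^ s + s + 1) + 1) (by have := hr.ci; fun_prop)
  refine ⟨f, hf, fun Φ s σ J _ _ P hw hJ hP => ?_⟩
  replace hg := hg s s le_rfl
  have hk := RPos_card (p := p) hJ
  generalize s * (p + 2) ^ s = k at hg hk
  obtain ⟨J₁, J', _, _, b, H₁, A, A', ho, hE⟩ := H Φ (p ^ k + k + s + 1) k σ (J × Fin (p ^ k)) J
    (fun _ => s) P (fun j η => ∑ l : Fin (p ^ k), tz p (l : ℕ) * η (j, l)) (by omega) (by omega)
    hk (fun j => (hP j).mono (fun _ => le_rfl) (by omega))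
    (fun j => RPos_lin (by omega) (fun l => (j, l)) _
      fun l => Φ.mono (by have := l.2; omega) (Φ.tz_mem l))
  generalize r (p ^ k + k + s + 1) = c at hg ho
  have h1 : ∀ (z : σ → KK p) (ξ : J → KK p), (∀ j, P j z = ξ j) ↔
      (∀ j, ∑ i, b j i * z i + H₁ j (fun i => z i ^ p) = A j fun q => cart k q.2 (ξ q.1)) ∧
        ∀ j, A' j (fun q => cart k q.2 (ξ q.1)) = 0 := fun z ξ => by
    rw [← hE]
    exact forall_congr' fun j => Eq.congr_right (eq_sum_cart k (ξ j))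
  have h2 : ∀ (ξ : J → KK p) (α : ℤ), 0 ≤ α → (∀ j, Ge (f s * α) (ξ j)) →
      ∀ q : J × Fin (p ^ k), Ge α (cart k q.2 (ξ q.1)) := fun ξ α hα h q => by
    refine Ge.cart ((h q.1).mono (mul_le_mul_of_nonneg_right ?_ hα)) _ q.2.2
    exact_mod_cast (by omega : p ^ k ≤ f s)
  refine ⟨J', fun ξ j => A' j fun q => cart k q.2 (ξ q.1), fun ξ ξ' j => ?_, fun z => ?_,
    fun ξ α hα h j => (ho.apA' j).ge_nonneg hα (h2 ξ α hα h), fun ξ α hα h h0 => ?_⟩
  · rw [← (ho.apA' j).map_sub]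
    exact congrArg _ (funext fun q => cart_sub _ _ _ _)
  · exact ((h1 z _).1 fun _ => rfl).2
  · obtain ⟨z, h3, h4⟩ := ho.hensel (fun j => A j fun q => cart k q.2 (ξ q.1)) (γ := α + f s)
      (by omega) fun j => (ho.apA j).ge_nonneg (by omega) (h2 ξ _ (by omega) h)
    exact ⟨z, fun i => (h3 i).mono (by omega), (h1 z ξ).2 ⟨h4, h0⟩⟩

theorem pur_pos : ∃ f : ℕ → ℕ, Cm f ∧ ∀ (Φ : Filt p) (s : ℕ) (σ J : Type) [Fintype σ]
    [Fintype J] (P : J → (σ → KK p) → KK p), Φ.w ≤ s → Fintype.card J ≤ s →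
    (∀ j, APs Φ s (P j)) →
    ∀ (z : σ → KK p) (α : ℤ), 0 ≤ α → (∀ j, Ge (f s * (α + f s)) (P j z)) →
      ∃ z' : σ → KK p, (∀ i, Ge α (z' i)) ∧ ∀ j, P j z' = P j z := by
  obtain ⟨f, hf, H⟩ := range_local (p := p)
  refine ⟨f, hf, fun Φ s σ J _ _ P hw hJ hP z α hα h => ?_⟩
  obtain ⟨J', E, -, h2, -, h4⟩ := H Φ s σ J P hw hJ hP
  exact h4 (fun j => P j z) α hα h (h2 z)

theorem closed_range (Φ : Filt p) (s : ℕ) {σ J : Type} [Fintype σ] [Fintype J]
    (P : J → (σ → KK p) → KK p) (hP : ∀ j, APs Φ s (P j)) (ξ : J → KK p)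
    (h : ∀ β : ℕ, ∃ z, ∀ j, Ge β (ξ j - P j z)) : ∃ z, ∀ j, P j z = ξ j := by
  obtain ⟨f, -, H⟩ := range_local (p := p)
  obtain ⟨J', E, h1, h2, h3, h4⟩ := H Φ (s + Φ.w + Fintype.card J) σ J P (by omega) (by omega)
    fun j => (hP j).monos (by omega)
  generalize f (s + Φ.w + Fintype.card J) = c at h3 h4
  have h5 : ∀ z j, E (ξ - fun j => P j z) j = E ξ j := fun z j => by rw [h1, h2, sub_zero]
  have h6 : ∀ j, E ξ j = 0 := fun j => eq_zero_of_ge fun n => by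
    obtain ⟨z, hz⟩ := h (c * n)
    rw [← h5 z]
    exact h3 _ n (by omega) (fun j => by exact_mod_cast hz j) j
  obtain ⟨z, hz⟩ := h (c * c)
  obtain ⟨z', -, hz'⟩ := h4 (ξ - fun j => P j z) 0 le_rfl
    (fun j => by rw [zero_add]; exact_mod_cast hz j) fun j => (h5 z j).trans (h6 j)
  refine ⟨z + z', fun j => ?_⟩
  rw [(hP j).map_add, hz', Pi.sub_apply, add_sub_cancel]

theorem PP.closed {Φ : Filt p} {s : ℕ} {ι : Type} [Fintype ι] {G : Set (ι → KK p)}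
    (hG : PP Φ s G) (T : ι → Prop) (x : ι → KK p)
    (h : ∀ β : ℕ, ∃ g ∈ G, ∀ i, T i → Ge β (x i - g i)) : ∃ g ∈ G, ∀ i, T i → g i = x i := by
  classical
  obtain ⟨-, -, σ, J, _, _, P, Q, -, -, hP, hQ, hG⟩ := hG
  obtain ⟨w, hw⟩ := closed_range Φ (s + 1) (σ := σ ⊕ ι) (J := J ⊕ ι)
    (Sum.elim (fun j w => P j (fun i => w (Sum.inl i)) - Q j fun i => w (Sum.inr i))
      fun i w => if T i then w (Sum.inr i) else 0)
    (by
      rintro (j | i)
      · exact IsAP.monos (((hP j).comp_coord fun i => Or.inr ⟨Sum.inl i, fun _ => rfl⟩).sub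
          ((hQ j).comp_coord fun i => Or.inr ⟨Sum.inr i, fun _ => rfl⟩)) (Nat.le_succ s)
      · by_cases e : T i
        · simp only [Sum.elim_inr, if_pos e]
          exact IsAP.coord _ (Nat.succ_pos s)
        · simp only [Sum.elim_inr, if_neg e]
          exact IsAP.zero)
    (Sum.elim (fun _ => 0) fun i => if T i then x i else 0)
    (fun β => by
      obtain ⟨g, h1, h2⟩ := h β
      obtain ⟨z, hz⟩ := (hG g).1 h1
      refine ⟨Sum.elim z g, ?_⟩
      rintro (j | i)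
      · simp only [Sum.elim_inl, Sum.elim_inr, hz, sub_self]
        exact ge_zero _
      · by_cases e : T i
        · simp only [Sum.elim_inr, if_pos e]
          exact h2 i e
        · simp only [Sum.elim_inr, if_neg e, sub_self]
          exact ge_zero _)
  refine ⟨fun i => w (Sum.inr i), (hG _).2 ⟨fun i => w (Sum.inl i), fun j => ?_⟩, fun i e => ?_⟩
  · exact sub_eq_zero.1 (hw (Sum.inl j))
  · simpa only [Sum.elim_inr, if_pos e] using hw (Sum.inr i)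

theorem pos_close : ∃ f : ℕ → ℕ, Cm f ∧ ∀ (Φ : Filt p) (s₀ s k : ℕ) (ι κ : Type) [Fintype ι]
    [Fintype κ] (G : Set (ι → KK p)) (S : (κ → KK p) → ι → KK p), PP Φ s₀ G →
    s₀ * (p + 2) ^ s₀ ≤ k → k ≤ s → s₀ ≤ s → Fintype.card κ ≤ s →
    (∀ i, APs Φ s (fun y => S y i)) →
    ∃ V : Set (κ → KK p), PP Φ (f s) V ∧ TS (f s) V ∧
      ∀ γ α : ℤ, f s ≤ γ → α + f s ≤ p * γ → Close {y | S (fun i => y i ^ p ^ k) ∈ G} V γ α := by
  obtain ⟨r, hr, H⟩ := row_red (p := p)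
  obtain ⟨f, hf, hg⟩ := exists_cm (g := fun s => 2 * r (s + s + p ^ s * s) +
    2 * r (r (s + s + p ^ s * s) * (p + 2) ^ r (s + s + p ^ s * s) + r (s + s + p ^ s * s) + s) + 1)
    (by have := hr.ci; fun_prop)
  refine ⟨f, hf, fun Φ s₀ s k ι κ _ _ G S hG hk hks hs hκ hS => ?_⟩
  replace hg := hg s s le_rfl
  have hlt := hf.lt s
  obtain ⟨hw, -, σ, J, _, _, P, Q, -, hJ, hP, hQ, hG⟩ := hG
  obtain ⟨J₁, J', _, _, b, H₁, A, A', ho, hE⟩ := H Φ (s + s + p ^ s * s) k σ κ J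
    (fun _ => s₀) P (fun j y => Q j (S y)) (by omega) (by omega) ((RPos_card hJ).trans hk)
    (fun j => (hP j).mono (fun _ => le_rfl) (by omega))
    (fun j => ((hQ j).monos hs).comp_size hS)
  generalize r (s + s + p ^ s * s) = c at hg ho
  obtain ⟨J₂, J'', _, _, b₂, H₂, A₂, A₂', ho₂, hE₂⟩ := H Φ (c * (p + 2) ^ c + c + s)
    (c * (p + 2) ^ c) κ Empty J' (fun _ => c) A' (fun _ _ => 0) (by omega) (by omega)
    (RPos_card ho.card') (fun j => (ho.apA' j).mono (fun _ => le_rfl) (by omega))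
    fun _ => IsAP.zero
  generalize r (c * (p + 2) ^ c + c + s) = d at hg ho₂
  have h1 : ∀ y : κ → KK p, (∀ j, A' j y = 0) ↔
      ∀ j, ∑ i, b₂ j i * y i + H₂ j (fun i => y i ^ p) = 0 := fun y => by
    refine (hE₂ y 0).trans ?_
    simp only [(ho₂.apA _).map_zero, (ho₂.apA' _).map_zero, implies_true, and_true]
  have hc := ho₂.card
  refine ⟨{y | ∀ j, ∑ i, b₂ j i * y i = 0}, pp_ker (by omega) (by omega) (by omega)
    fun j => RPos_lin (by omega) id _ fun i => Φ.mono (by omega) (ho₂.memb j i),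
    ⟨1, Nat.one_pos, by omega, fun m v hv j => ?_⟩, fun γ α hγ hα => ?_⟩
  · simp only [mul_left_comm (b₂ j _), ← Finset.mul_sum]
    rw [hv j, mul_zero]
  have hp2 : (2 : ℤ) ≤ p := by exact_mod_cast hp.out.two_le
  have h2 : 2 * γ ≤ p * γ := mul_le_mul_of_nonneg_right hp2 (by omega)
  have h3 : ∀ y : κ → KK p, (∀ i, Ge γ (y i)) → ∀ j, Ge (p * γ) (H₂ j fun i => y i ^ p) :=
    fun y hy j => (ho₂.apH j).ge_nonneg (by omega) fun i => (hy i).pow p
  constructor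
  · intro g hg' hγ'
    obtain ⟨z, hz⟩ := (hG _).1 hg'
    have h4 := (h1 g).1 ((hE z g).1 hz).2
    obtain ⟨e, h5, h6⟩ := ho₂.surj (fun j => -H₂ j fun i => g i ^ p) (p * γ)
      fun j => (h3 g hγ' j).neg
    refine ⟨g - e, fun j => ?_, fun i => ?_⟩
    · simp only [Pi.sub_apply, mul_sub, Finset.sum_sub_distrib]
      rw [h6, sub_neg_eq_add, h4]
    · rw [Pi.sub_apply, sub_sub_cancel]
      exact (h5 i).mono (by omega)
  · intro v hv hγ'
    obtain ⟨e, h5, h6⟩ := ho₂.hensel (fun j => -H₂ j fun i => v i ^ p) (γ := p * γ) (by omega)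
      fun j => (h3 v hγ' j).neg
    have h7 : ∀ i, Ge γ ((v + e) i) := fun i => (hγ' i).add ((h5 i).mono (by omega))
    have h8 : ∀ j, A' j (v + e) = 0 := (h1 _).2 fun j => by
      have h9 : (fun i => (v + e) i ^ p) = (fun i => v i ^ p) + fun i => e i ^ p :=
        funext fun i => frob_add _ _
      rw [h9, (ho₂.apH j).map_add]
      simp only [Pi.add_apply, mul_add, Finset.sum_add_distrib]
      linear_combination h6 j + hv j
    obtain ⟨z, -, hz⟩ := ho.hensel (fun j => A j (v + e)) (γ := γ) (by omega)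
      fun j => (ho.apA j).ge_nonneg (by omega) h7
    refine ⟨v + e, (hG _).2 ⟨z, (hE z _).2 ⟨hz, h8⟩⟩, fun i => ?_⟩
    rw [Pi.add_apply, add_sub_cancel_left]
    exact (h5 i).mono (by omega)

end Pool.Agent.Work.MP_db9079_lc
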