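import Pool.Agent.Work.MP_db9079_lc.RNeg
import Pool.Agent.Work.MP_db9079_lc.RPos

/-!
Purity of polynomial maps and lifting in positive primitive groups.
-/

namespace Pool.Agent.Work.MP_db9079_lc

variable {p : ℕ} [hp : Fact p.Prime]

theorem pur : ∃ f : ℕ → ℕ, Cm f ∧ ∀ (Φ : Filt p) (s : ℕ) (σ J : Type) [Fintype σ]
    [Fintype J] (P : J → (σ → KK p) → KK p), Φ.w ≤ s → Fintype.card σ ≤ s →
    Fintype.card J ≤ s → (∀ j, APs Φ s (P j)) →
    ∀ (z : σ → KK p) (α β : ℤ), Far (f s) α β → (∀ j, Ge β (P j z)) →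
      ∃ z' : σ → KK p, (∀ i, Ge α (z' i)) ∧ ∀ j, P j z' = P j z := by
  obtain ⟨fP, hP, HP⟩ := pur_pos (p := p)
  obtain ⟨fN, hN, HN⟩ := pur_neg (p := p)
  obtain ⟨f, hf, Hf⟩ := exists_cm (g := fun s => fP s * fP s + fN s * fN s + fP s + fN s)
    (by have := hP.ci; have := hN.ci; fun_prop)
  refine ⟨f, hf, fun Φ s σ J _ _ P hw hσ hJ hAP z α β hF hz => ?_⟩
  have h0 : (fP s : ℤ) * fP s + fN s * fN s + fP s + fN s ≤ f s := by
    exact_mod_cast Hf s s le_rfl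
  have h1 : (0 : ℤ) ≤ fP s := Nat.cast_nonneg _
  have h2 : (0 : ℤ) < fN s := by exact_mod_cast hN.pos s
  have h3 : (0 : ℤ) ≤ (fP s : ℤ) * fP s := mul_nonneg h1 h1
  have h4 : (0 : ℤ) ≤ (fN s : ℤ) * fN s := mul_nonneg h2.le h2.le
  obtain ⟨F1, F2⟩ := hF
  by_cases hα : 0 ≤ α
  · refine HP Φ s σ J P hw hJ hAP z α hα fun j => (hz j).mono (le_trans ?_ F2)
    exact mul_le_mul (by omega) (by omega) (by omega) (by omega)
  by_cases hβ : (fP s : ℤ) * fP s ≤ β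
  · obtain ⟨z', e1, e2⟩ := HP Φ s σ J P hw hJ hAP z 0 le_rfl fun j =>
      (hz j).mono (by rw [zero_add]; exact hβ)
    exact ⟨z', fun i => (e1 i).mono (by omega), e2⟩
  by_cases hβ' : β ≤ -(fN s : ℤ)
  · obtain ⟨z', e1, e2⟩ := HN Φ s σ J P hw hσ hAP z β hβ' hz
    refine ⟨z', fun i => (e1 i).mono ?_, e2⟩
    have : (f s : ℤ) * β ≤ fN s * β := mul_le_mul_of_nonpos_right (by omega) (by omega)
    omega
  · obtain ⟨z', e1, e2⟩ := HN Φ s σ J P hw hσ hAP z (-(fN s : ℤ)) le_rfl fun j =>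
      (hz j).mono (by omega)
    refine ⟨z', fun i => (e1 i).mono ?_, e2⟩
    have h5 : α + f s ≤ 0 := by
      by_contra hn
      have : (f s : ℤ) * 1 ≤ f s * (α + f s) := mul_le_mul_of_nonneg_left (by omega) (by omega)
      omega
    rw [mul_neg]
    omega

theorem RLift_far {c c' q : ℕ} {α β : ℤ} (h : Far c α β) (hβ : β ≤ 0) (h1 : 0 < c') (hq : 0 < q)
    (hc : q * c' ≤ c) : Far c' α (q * β) := by
  have a1 : (1 : ℤ) ≤ c' := by exact_mod_cast h1
  have a2 : (1 : ℤ) ≤ q := by exact_mod_cast hq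
  have a3 : (q : ℤ) * c' ≤ c := by exact_mod_cast hc
  have a4 : (c : ℤ) * β ≤ q * c' * β := mul_le_mul_of_nonpos_right a3 hβ
  have a5 : (1 : ℤ) * c' ≤ q * c' := mul_le_mul_of_nonneg_right a2 (by omega)
  have a6 : (q : ℤ) * β ≤ 0 := mul_nonpos_of_nonneg_of_nonpos (by omega) hβ
  have a7 : (c' : ℤ) * (q * β) ≤ 1 * (q * β) := mul_le_mul_of_nonpos_right a1 a6
  have a8 : α + c' ≤ c' * (q * β) := by
    have := h.1
    have e : (c' : ℤ) * (q * β) = q * c' * β := by ring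
    omega
  have a9 : (c' : ℤ) * (α + c') ≤ 1 * (α + c') := mul_le_mul_of_nonpos_right a1 (by omega)
  exact ⟨a8, by omega⟩

theorem lift_pp : ∃ f : ℕ → ℕ, Cm f ∧ ∀ (Φ : Filt p) (s : ℕ) (ι : Type) [Fintype ι]
    (G : Set (ι → KK p)), PP Φ s G → ∀ α β : ℤ, Far (f s) α β → Lft G α β := by
  classical
  obtain ⟨c, hc, Hc⟩ := pur (p := p)
  obtain ⟨f, hf, Hf⟩ := exists_cm (g := fun s => p ^ s * c (s + s))
    (by have := hc.ci; fun_prop)
  refine ⟨f, hf, fun Φ s ι _ G hG α β hF H x hx hxH => ?_⟩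
  obtain ⟨hw, hι, σ, J, _, _, P, Q, hσ, hJ, hP, hQ, hG⟩ := hG
  obtain ⟨z, hz⟩ := (hG x).1 hx
  have h0 : p ^ s * c (s + s) ≤ f s := Hf s s le_rfl
  obtain ⟨P', hP'⟩ : ∃ P' : J → (σ ⊕ ι → KK p) → KK p, P' = fun j w =>
      P j (fun i => w (Sum.inl i)) - Q j (fun i => if H i then 0 else w (Sum.inr i)) := ⟨_, rfl⟩
  have hAP : ∀ j, APs Φ (s + s) (P' j) := fun j => by
    rw [hP']
    refine IsAP.monos (IsAP.sub
      ((hP j).comp_coord (S := fun w i => w (Sum.inl i)) fun i => Or.inr ⟨_, fun _ => rfl⟩)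
      ((hQ j).comp_coord (S := fun w i => if H i then 0 else w (Sum.inr i)) fun i => ?_))
      (Nat.le_add_right _ _)
    by_cases h : H i
    · exact Or.inl fun _ => if_pos h
    · exact Or.inr ⟨_, fun _ => if_neg h⟩
  have e1 : ∀ j, P' j (Sum.elim z x) = Q j fun i => if H i then x i else 0 := fun j => by
    rw [hP']
    change P j z - Q j (fun i => if H i then 0 else x i) = _
    rw [hz, ← (hQ j).map_sub]
    congr 1
    funext i
    by_cases h : H i <;> simp [h]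
  have e2 : ∀ i, Ge β (if H i then x i else 0) := fun i => by
    by_cases h : H i
    · rw [if_pos h]
      exact hxH i h
    · rw [if_neg h]
      exact ge_zero _
  have key : ∃ β', Far (c (s + s)) α β' ∧ ∀ j, Ge β' (P' j (Sum.elim z x)) := by
    by_cases hβ : 0 ≤ β
    · refine ⟨β, hF.anti (hc.pos _) (le_trans ?_ h0), fun j => ?_⟩
      · exact Nat.le_mul_of_pos_left _ (pp_pos s)
      · rw [e1]
        exact (hQ j).ge_nonneg hβ e2
    · refine ⟨((p ^ s : ℕ) : ℤ) * β, RLift_far hF (by omega) (hc.pos _) (pp_pos s) h0, fun j => ?_⟩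
      rw [e1, Nat.cast_pow]
      exact (hQ j).ge_neg (by omega) e2
  obtain ⟨β', k1, k2⟩ := key
  obtain ⟨w, w1, w2⟩ := Hc Φ (s + s) (σ ⊕ ι) J P' (hw.trans (Nat.le_add_right _ _))
    (by rw [Fintype.card_sum]; omega) (by omega) hAP (Sum.elim z x) α β' k1 k2
  refine ⟨fun i => if H i then x i else w (Sum.inr i), (hG _).2 ⟨fun i => w (Sum.inl i), fun j => ?_⟩,
    fun i h => if_pos h, fun i h => ?_⟩
  · have := w2 j
    rw [e1, hP', sub_eq_iff_eq_add, ← (hQ j).map_add] at this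
    refine this.trans ?_
    congr 1
    funext i
    by_cases h : H i <;> simp [h]
  · simp only [if_neg h]
    exact w1 _

theorem lift_lin : ∃ f : ℕ → ℕ, Cm f ∧ ∀ (Φ : Filt p) (s : ℕ) (ι : Type) [Fintype ι]
    (V : Set (ι → KK p)), PP Φ s V → TS s V → ∀ α β : ℤ, α + f s ≤ β → Lft V α β := by
  obtain ⟨c, hc, Hc⟩ := lift_pp (p := p)
  obtain ⟨f, hf, Hf⟩ := exists_cm (g := fun s => c s + s) (by have := hc.ci; fun_prop)
  refine ⟨f, hf, fun Φ s ι _ V hV hT α β hF H x hx hxH => ?_⟩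
  obtain ⟨q, q0, qs, hq⟩ := hT
  have h0 : (c s : ℤ) + s ≤ f s := by exact_mod_cast Hf s s le_rfl
  have q1 : (0 : ℤ) < q := by exact_mod_cast q0
  have q2 : (q : ℤ) ≤ s := by exact_mod_cast qs
  obtain ⟨k, k1, k2⟩ : ∃ k : ℤ, 0 ≤ β + k * q ∧ β + k * q < q := by
    have e := Int.emod_add_ediv_mul β q
    refine ⟨-(β / q), ?_, ?_⟩
    · have := Int.emod_nonneg β q1.ne'
      rw [neg_mul]
      omega
    · have := Int.emod_lt_of_pos β q1
      rw [neg_mul]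
      omega
  have h1 : (0 : ℤ) ≤ c s := Nat.cast_nonneg _
  have h2 : Far (c s) (α + k * q) (β + k * q) :=
    ⟨le_trans (by omega) (mul_nonneg h1 k1),
      le_trans (mul_nonpos_of_nonneg_of_nonpos h1 (by omega)) k1⟩
  obtain ⟨y, y1, y2, y3⟩ := Hc Φ s ι V hV _ _ h2 H _ (hq k x hx) fun i h =>
    (ge_tz_mul_iff _ _ _).2 (by rw [add_sub_cancel_right]; exact hxH i h)
  refine ⟨_, hq (-k) y y1, fun i h => ?_, fun i h => (ge_tz_mul_iff _ _ _).2 ?_⟩
  · simp only [y2 i h]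
    rw [← mul_assoc, ← tz_add, neg_mul, neg_add_cancel, tz_zero, one_mul]
  · rw [neg_mul, sub_neg_eq_add]
    exact y3 i h

end Pool.Agent.Work.MP_db9079_lc
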