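import Pool.Agent.Work.MP_db9079_lc.RLevel
import Pool.Agent.Work.MP_db9079_lc.RLevelEqs

/-!
Correctness of the evaluation on numerical codes.
-/

namespace Pool.Agent.Work.MP_db9079_lc

open Pool.Agent.Lib.RelComp

theorem mem_shp {f : ℕ → ℕ} (hf : Cm f) {P : Par} {t : List Sy} (ht : t ∈ P.1) :
    ∀ j, Vars (P.2.1 - j) t → t ∈ shp f P j
  | 0, _ => ht
  | j + 1, h => mem_nextSh (hf.pos _) (mem_shp hf ht j (h.mono (by omega))) (h.mono (by omega))

theorem three_le_kk {f : ℕ → ℕ} (hf : Cm f) (P : Par) : ∀ j, 3 ≤ kk f P j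
  | 0 => le_rfl
  | j + 1 => by
    have := three_le_kk hf P j
    have h := hf.le (kk f P j + ln f P j + sz (shp f P j) + sz (shp f P (j + 1)) + P.2.2)
    rw [kk]; omega

theorem bd_le (f : ℕ → ℕ) (P : Par) (j : ℕ) : bd f P j ≤ bd f P 0 :=
  Nat.pow_le_pow_right (by omega) (by omega)

theorem kk_mul_le (f : ℕ → ℕ) (P : Par) {j : ℕ} (hj : j + 1 ≤ P.2.1) :
    kk f P (j + 1) * (bd f P (j + 1) + 1) ≤ bd f P j := by
  have h1 : kk f P (j + 1) ≤ ((List.range (P.2.1 + 1)).map (kk f P)).sum :=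
    List.single_le_sum (fun _ _ => Nat.zero_le _) _
      (List.mem_map.2 ⟨j + 1, List.mem_range.2 (by omega), rfl⟩)
  have h2 : bd f P j = (2 * ((List.range (P.2.1 + 1)).map (kk f P)).sum + 2) * bd f P (j + 1) := by
    rw [bd, bd, show P.2.1 - j = P.2.1 - (j + 1) + 1 by omega, pow_succ']
  have h3 : 1 ≤ bd f P (j + 1) := Nat.one_le_pow _ _ (by omega)
  rw [h2]
  nlinarith

theorem length_shp_succ (f : ℕ → ℕ) (P : Par) (j : ℕ) :
    (shp f P (j + 1)).length = ln f P j := length_nextSh _ _ _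

variable {p : ℕ}

theorem eqv_cast {κ : Type} {k r r' : ℕ} (h : r = r') {a b : κ → ℤ} {c d : Pb p}
    (H : Eqv k (Sum.elim a (c.gv r)) (Sum.elim b (d.gv r))) :
    Eqv k (Sum.elim a (c.gv r')) (Sum.elim b (d.gv r')) := h ▸ H

variable [hp : Fact p.Prime]

theorem val_shp (f : ℕ → ℕ) (P : Par) {j k : ℕ} (h : j + 1 + k = P.2.1) (a : ℕ → KK p) (C : Pb p) :
    Val (GS p (shp f P (j + 1)) k) P.2.2 (evV (shp f P (j + 1)) a) C ↔
      ∃ x, ∀ i, i < nn f P j → Val (GS p (shp f P j) (k + 1)) P.2.2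
        (evV (shp f P j) (Function.update a k x)) (C.sub (i * (shp f P j).length)) := by
  have e : shp f P (j + 1) = nextSh (shp f P j) (k + 1) (nn f P j) := by
    rw [shp, show P.2.1 - j = k + 1 by omega]; rfl
  have : ∀ sh, sh = nextSh (shp f P j) (k + 1) (nn f P j) →
      (Val (GS p sh k) P.2.2 (evV sh a) C ↔
        ∃ x, ∀ i, i < nn f P j → Val (GS p (shp f P j) (k + 1)) P.2.2
          (evV (shp f P j) (Function.update a k x)) (C.sub (i * (shp f P j).length))) := by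
    rintro _ rfl
    exact val_next _ _ _ _ _ _
  exact this _ e

theorem ev_correct : ∃ f : ℕ → ℕ, Cm f ∧ ∀ (P : Par) (φ : Fm) (a : ℕ → KK p), 0 < P.2.2 →
    φ.Good P.1 P.2.1 P.2.2 0 → (φ.Sat 0 a ↔ φ.Ev p f P P.2.1 (topCode f P)) := by
  obtain ⟨fG, hG, HG⟩ := gs_pp (p := p)
  obtain ⟨fC, hC, HC⟩ := exists_code (p := p)
  obtain ⟨fV, hV, HV⟩ := cover_inv (p := p)
  obtain ⟨fD, hD, HD⟩ := dec_inv (p := p)
  obtain ⟨h, hh, Hh⟩ := exists_ext
  have hGc := hG.ci
  have hCc := hC.ci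
  have hVc := hV.ci
  have hDc := hD.ci
  have hhc := hh.ci
  obtain ⟨f, hf, Hf⟩ := exists_cm (g := fun x => h (x + fV (fG x + x) + fD (fG x + x)) +
    fC (fG x + x)) (by fun_prop)
  refine ⟨f, hf, fun P φ a hn hφ => ?_⟩
  have key : ∀ (φ : Fm) (j k : ℕ) (a : ℕ → KK p) (C : Pb p) (D : NP), j + k = P.2.1 →
      φ.Good P.1 P.2.1 P.2.2 k →
      Code (GS p (shp f P j) k) P.2.2 (nn f P j) (evV (shp f P j) a) C → D ∈ cds f P p j →
      C.Same (ln f P j) P.2.2 (toPb p (bd f P 0) D) →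
      Eqv (kk f P j) (C.gv (ln f P j)) ((toPb p (bd f P 0) D).gv (ln f P j)) →
      (φ.Sat k a ↔ φ.Ev p f P j D) := by
    intro φ
    induction φ with
    | fal => intros; exact Iff.rfl
    | zero t =>
      intro j k a C D hjk hg hc _ hs _
      have hk : P.2.1 - j = k := by omega
      exact (zeroAt_iff hc (mem_shp hf hg.1 j (hk ▸ hg.2)) hg.2).symm.trans
        ⟨ZeroAt.inv hs, ZeroAt.inv hs.symm⟩
    | mul m t₁ t₂ t₃ =>
      intro j k a C D hjk hg hc _ hs he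
      have hk : P.2.1 - j = k := by omega
      obtain ⟨hm, ⟨m₁, v₁⟩, ⟨m₂, v₂⟩, m₃, v₃⟩ := hg
      have he3 := he.mono (three_le_kk hf P j)
      exact (mulAt_iff hc hn hm (mem_shp hf m₁ j (hk ▸ v₁)) v₁ (mem_shp hf m₂ j (hk ▸ v₂)) v₂
        (mem_shp hf m₃ j (hk ▸ v₃)) v₃).symm.trans
        ⟨MulAt.inv hn hm hs he3, MulAt.inv hn hm hs.symm he3.symm⟩
    | imp φ ψ ih1 ih2 =>
      intro j k a C D hjk hg hc hD hs he
      exact imp_congr (ih1 j k a C D hjk hg.1 hc hD hs he) (ih2 j k a C D hjk hg.2 hc hD hs he)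
    | all φ ih =>
      intro j k a C D hjk hg hc hDm hs he
      obtain ⟨j, rfl⟩ : ∃ j', j = j' + 1 := ⟨j - 1, by have := hg.1; omega⟩
      have hk1 : P.2.1 - j = k + 1 := by omega
      have hk0 : P.2.1 - (j + 1) = k := by omega
      obtain ⟨x, hx⟩ : ∃ x, x = kk f P j + ln f P j + sz (shp f P j) + sz (shp f P (j + 1)) +
        P.2.2 := ⟨_, rfl⟩
      have hkk : h (x + fV (fG x + x) + fD (fG x + x)) ≤ kk f P (j + 1) := by
        have := Hf x x le_rfl
        rw [kk, ← hx]; omega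
      obtain ⟨Φ₀, h₀⟩ := HG (shp f P j) (k + 1)
      obtain ⟨Φ₁, h₁⟩ := HG (shp f P (j + 1)) k
      have h₀' := h₀.mono (s' := fG x + x) ((hG.mono (by omega)).trans (Nat.le_add_right _ _))
      have h₁' := h₁.mono (s' := fG x + x) ((hG.mono (by omega)).trans (Nat.le_add_right _ _))
      have hr := length_shp_succ f P j
      simp only [Fm.Sat, Fm.Ev, Ext, Nat.add_sub_cancel, hk1, hk0]
      constructor
      · rintro hS D' hD' ⟨hcov, hdec⟩
        obtain ⟨M, hM⟩ : ∃ M : ℕ, ∀ i, |C.gv (ln f P (j + 1)) i| ≤ M := by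
          obtain ⟨M, hM⟩ := Finite.exists_le fun i => (C.gv (ln f P (j + 1)) i).natAbs
          exact ⟨M, fun i => by rw [← Int.natCast_natAbs]; exact_mod_cast hM i⟩
        obtain ⟨y, -, hy⟩ := Hh _ _ (ln f P j) _ _ M (by omega) (he.symm.mono hkk) hM
          ((toPb p (bd f P 0) D').gv (ln f P j))
        obtain ⟨C', hs', rfl⟩ := exists_with_cuts (ln f P j) P.2.2 (toPb p (bd f P 0) D') y
        have hy2 := hy.comp Sum.inr
        have hcov' := HV Φ₀ _ _ _ _ _ _ C' h₀' (by omega) hs'.symm (hy2.mono (by omega)) hcov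
        have hdec' := HD Φ₁ _ _ _ _ _ _ C _ C' h₁' (by omega) hs.symm (hr ▸ hs'.symm)
          (eqv_cast hr.symm (hy.mono (by omega))) hdec
        obtain ⟨z, hz⟩ := (val_shp f P hjk a C').1 ((hc.val_iff (isGrp_GS _ _) C').2 hdec')
        exact (ih j (k + 1) _ C' D' (by omega) hg.2 ⟨hcov', hz⟩ hD' hs'
          (hy2.symm.mono (by omega))).1 (hS z)
      · intro hE z
        obtain ⟨C', hfl, hc'⟩ := HC Φ₀ (fG (sz (shp f P j) + P.2.2) + (sz (shp f P j) + P.2.2))
          P.2.2 _ (nn f P j) _ (evV (shp f P j) (Function.update a k z))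
          (h₀.mono ((hG.mono (by omega)).trans (Nat.le_add_right _ _))) hn (by omega)
          (le_trans (Nat.le_add_left _ _) (Hf _ _ le_rfl))
        have hdec := (hc.val_iff (isGrp_GS _ _) C').1 ((val_shp f P hjk a C').2 ⟨z, hc'.2⟩)
        obtain ⟨y, hyb, hy⟩ := Hh _ _ (ln f P j) _ _ (bd f P (j + 1)) (by omega) (he.mono hkk)
          (abs_le_of_mem_codes (bd_le f P _) hDm) (C'.gv (ln f P j))
        obtain ⟨D', hD', hs', rfl⟩ := exists_mem_codes (n := P.2.2) (bd_le f P j) C' hfl y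
          fun i => (hyb i).trans (by
            have := (Nat.mul_le_mul_right (bd f P (j + 1) + 1) hkk).trans
              (kk_mul_le f P (j := j) (by omega))
            exact_mod_cast this)
        have hy2 := hy.comp Sum.inr
        exact (ih j (k + 1) _ C' D' (by omega) hg.2 hc' hD' hs' (hy2.mono (by omega))).2
          (hE D' hD' ⟨HV Φ₀ _ _ _ _ _ C' _ h₀' (by omega) hs' (hy2.mono (by omega)) hc'.1,
            HD Φ₁ _ _ _ _ _ C _ C' _ h₁' (by omega) hs (hr ▸ hs')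
              (eqv_cast hr.symm (hy.mono (by omega))) hdec⟩)
  refine key φ P.2.1 0 a (toPb p (bd f P 0) (topCode f P)) _ rfl hφ
    (code_top (isGrp_GS _ _) ⟨a, fun v hv => absurd hv (Nat.not_lt_zero v), rfl⟩ (hf.pos _)
      fun i hi => ?_) (topCode_mem hp.out.pos f P) (fun _ _ => ⟨rfl, fun _ _ => rfl⟩)
    (Eqv.refl _ _)
  have hi' : i < ln f P P.2.1 := hi
  simp [toPb, topCode, List.getD_eq_getElem?_getD, hi']

end Pool.Agent.Work.MP_db9079_lc
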