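import Pool.Agent.Work.MP_db9079_lc.RExt
import Pool.Agent.Work.MP_db9079_lc.RLang
import Pool.Agent.Work.MP_db9079_lc.RSound

/-!
The decision procedure.
-/

namespace Pool.Agent.Work.MP_db9079_lc

open FirstOrder Language Pool.Agent.Lib.RelComp

variable (p : ℕ) [hp : Fact p.Prime] (f : ℕ → ℕ)

/-- One step of the evaluation of a list of codes: `m` lists the stacks of the suffixes of `l`. -/
noncomputable def runStep (P : Par) (c : ℕ) (l : List ℕ) (m : List (List Tb)) : List Tb :=
  if c % 2 = 0 then tZero p f P ((1, []) :: (trT c ++ trT (l.getD 0 0))) :: m.getD 1 []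
  else if c % 4 = 1 then
    tMul p f P (c / 4) (trT (l.getD 1 0)) (trT (l.getD 2 0)) (trT (l.getD 3 0)) :: m.getD 4 []
  else if c = 3 then
    tImp p f P ((m.getD 0 []).getD 0 []) ((m.getD 0 []).getD 1 []) :: (m.getD 0 []).drop 2
  else if c = 7 then tAll p f P ((m.getD 0 []).getD 0 []) :: (m.getD 0 []).drop 1
  else [] :: m.getD 0 []

/-- The stacks of all suffixes. -/
noncomputable def memo (P : Par) (l : List ℕ) : List (List Tb) :=
  List.rec (motive := fun _ => List (List Tb)) ([] :: []) (fun c l m => runStep p f P c l m :: m) l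

/-- The table of the closure of a formula from the table of the formula. -/
noncomputable def tClose (P : Par) (T : Tb) : Tb :=
  tAll p f P (tImp p f P (tZero p f P tAS) (tImp p f P (tImp p f P (tZero p f P tOne) [])
    (tImp p f P (tMul p f P 1 tOne tOne tOne) T)))

/-- The decision procedure on lists of codes. -/
def Acc (l : List ℕ) : Prop :=
  ((parOf l).2.1, topCode f (parOf l)) ∈
    tClose p f (parOf l) (((memo p f (parOf l) l).getD 0 []).getD 0 [])

variable {p f}

theorem memo_cons (P : Par) (c : ℕ) (l : List ℕ) :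
    memo p f P (c :: l) = runStep p f P c l (memo p f P l) :: memo p f P l := rfl

theorem memo_fcodes (P : Par) {k : ℕ} (φ : Lang.BoundedFormula Empty k) (l : List ℕ) :
    (memo p f P (fcodes φ ++ l)).getD 0 [] = (trFm φ).tb p f P :: (memo p f P l).getD 0 [] := by
  induction φ generalizing l with
  | falsum =>
    rw [fcodes_falsum, List.singleton_append, memo_cons, List.getD_cons_zero, runStep,
      if_neg (by omega), if_neg (by omega), if_neg (by omega), if_neg (by omega)]
    rfl
  | equal t₁ t₂ =>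
    rw [fcodes_equal, List.cons_append, memo_cons, List.getD_cons_zero, runStep,
      if_pos (by rw [tcode]; omega), List.singleton_append, List.getD_cons_zero, trT_tcode,
      trT_tcode]
    rfl
  | rel R ts =>
    cases R with
    | mul n =>
      rw [fcodes_rel, List.cons_append, memo_cons, List.getD_cons_zero, runStep,
        if_neg (by omega), if_pos (by omega), show (4 * n + 1) / 4 = n by omega]
      simp only [List.cons_append, List.getD_cons_succ, List.getD_cons_zero, trT_tcode,
        memo_cons, List.nil_append]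
      rfl
  | imp φ ψ ih1 ih2 =>
    rw [fcodes_imp, List.cons_append, memo_cons, List.getD_cons_zero, runStep,
      if_neg (by omega), if_neg (by omega), if_pos rfl, List.append_assoc, ih1, ih2]
    rfl
  | all φ ih =>
    rw [fcodes_all, List.cons_append, memo_cons, List.getD_cons_zero, runStep,
      if_neg (by omega), if_neg (by omega), if_neg (by omega), if_pos rfl, ih]
    rfl

omit hp in
theorem ci_trSy : CI ∅ trSy := by
  unfold trSy; fun_prop

omit hp in
theorem ci_trT : CI ∅ trT := by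
  have := ci_trSy
  unfold trT; fun_prop

omit hp in
theorem ci_parOf : CI ∅ parOf := by
  have := ci_trT
  unfold parOf; fun_prop

section

variable {α : Type} [Primcodable α] {l : α → List ℕ}

omit hp in
theorem ci_tZero' (hf : CI ∅ f) {t : α → List Sy} (hl : CI ∅ l) (ht : CI ∅ t) :
    CI ∅ (fun a => tZero p f (parOf (l a)) (t a)) :=
  CI.comp (fun q : Par × List Sy => tZero p f q.1 q.2) (fun a => (parOf (l a), t a))
    (ci_tZero hf) (CI.pair (CI.comp _ _ ci_parOf hl) ht)

omit hp in
theorem ci_tMul' (hf : CI ∅ f) {m : α → ℕ} {t₁ t₂ t₃ : α → List Sy} (hl : CI ∅ l) (hm : CI ∅ m)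
    (h₁ : CI ∅ t₁) (h₂ : CI ∅ t₂) (h₃ : CI ∅ t₃) :
    CI ∅ (fun a => tMul p f (parOf (l a)) (m a) (t₁ a) (t₂ a) (t₃ a)) :=
  CI.comp (fun q : (Par × ℕ) × List Sy × List Sy × List Sy =>
    tMul p f q.1.1 q.1.2 q.2.1 q.2.2.1 q.2.2.2) (fun a => ((parOf (l a), m a), t₁ a, t₂ a, t₃ a))
    (ci_tMul hf) (CI.pair (CI.pair (CI.comp _ _ ci_parOf hl) hm) (CI.pair h₁ (CI.pair h₂ h₃)))

omit hp in
theorem ci_tImp' (hf : CI ∅ f) {T T' : α → Tb} (hl : CI ∅ l) (h : CI ∅ T) (h' : CI ∅ T') :
    CI ∅ (fun a => tImp p f (parOf (l a)) (T a) (T' a)) :=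
  CI.comp (fun q : Par × Tb × Tb => tImp p f q.1 q.2.1 q.2.2) (fun a => (parOf (l a), T a, T' a))
    (ci_tImp hf) (CI.pair (CI.comp _ _ ci_parOf hl) (CI.pair h h'))

theorem ci_tAll' (hf : CI ∅ f) {T : α → Tb} (hl : CI ∅ l) (h : CI ∅ T) :
    CI ∅ (fun a => tAll p f (parOf (l a)) (T a)) :=
  CI.comp (fun q : (List (List Sy) × ℕ × ℕ) × Tb => tAll p f (q.1.1, q.1.2.1, q.1.2.2 + 1) q.2)
    (fun a => (((parOf (l a)).1, (parOf (l a)).2.1, (l a).sum), T a)) (ci_tAll hf)
    (CI.pair (CI.pair (CI.comp _ _ ci_parOf hl).fst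
      (CI.pair (CI.comp _ _ ci_parOf hl).snd.fst (ci_sum hl))) h)

end

theorem cp_acc (hf : CI ∅ f) : CP ∅ (Acc p f) := by
  have h1 := ci_trT
  have hS : CI ∅ (fun q : List ℕ × ℕ × List ℕ × List (List Tb) =>
      runStep p f (parOf q.1) q.2.1 q.2.2.1 q.2.2.2) := by
    unfold runStep
    refine CI.ite (by fun_prop) (CI.cons (ci_tZero' hf (by fun_prop) (by fun_prop))
      (by fun_prop)) ?_
    refine CI.ite (by fun_prop) (CI.cons (ci_tMul' hf (by fun_prop) (by fun_prop) (by fun_prop)
      (by fun_prop) (by fun_prop)) (by fun_prop)) ?_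
    refine CI.ite (by fun_prop) (CI.cons (ci_tImp' hf (by fun_prop) (by fun_prop) (by fun_prop))
      (by fun_prop)) ?_
    exact CI.ite (by fun_prop) (CI.cons (ci_tAll' hf (by fun_prop) (by fun_prop)) (by fun_prop))
      (by fun_prop)
  have hm : CI ∅ (fun l : List ℕ => memo p f (parOf l) l) :=
    ci_listRec (h := fun l c t m => runStep p f (parOf l) c t m :: m) CI.id' (CI.const _)
      (CI.cons hS (by fun_prop))
  exact CP.mem (ci_tAll' hf CI.id' (ci_tImp' hf CI.id' (ci_tZero' hf CI.id' (CI.const _))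
    (ci_tImp' hf CI.id' (ci_tImp' hf CI.id' (ci_tZero' hf CI.id' (CI.const _)) (CI.const _))
      (ci_tImp' hf CI.id' (ci_tMul' hf CI.id' (CI.const _) (CI.const _) (CI.const _) (CI.const _))
        ((hm.getD (CI.const _) (CI.const _)).getD (CI.const _) (CI.const _))))))
    (CI.pair ci_parOf.snd.fst (CI.comp _ _ (ci_topCode hf) ci_parOf))

theorem reduct_decidable (p : ℕ) [Fact p.Prime] : ∃ Q : ℕ → Prop, ComputablePred Q ∧
    ∀ σ : Lang.Sentence, Q (Encodable.encode (BoundedFormula.listEncode σ)) ↔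
      Sentence.Realize (LaurentSeries (ZMod p)) σ := by
  obtain ⟨f, hf, h⟩ := ev_correct (p := p)
  refine ⟨fun e => Acc p f ((Encodable.decode (α := List ℕ) e).getD []),
    computablePred_of_cp (CP.comp _ _ (cp_acc hf.ci) (by fun_prop)), fun σ => ?_⟩
  have h1 := memo_fcodes (p := p) (f := f) (parOf (fcodes σ)) σ []
  rw [List.append_nil] at h1
  have h2 := Fm.mem_tb (p := p) (f := f) (parOf (fcodes σ)) (trFm σ).close (parOf (fcodes σ)).2.1
    (topCode f (parOf (fcodes σ)))
  rw [← sat_close σ 0, h _ _ 0 (Nat.succ_pos _) (good_close σ)]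
  simp only [decode_encode_listEncode, Option.getD_some, Acc, h1, List.getD_cons_zero]
  refine Iff.trans h2 ⟨fun h => h.2, fun h => ⟨⟨le_rfl, topCode_mem (Fact.out : p.Prime).pos _ _⟩, h⟩⟩

end Pool.Agent.Work.MP_db9079_lc
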