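import Pool.Agent.Work.MP_db9079_lc.RCol
import Pool.Agent.Work.MP_db9079_lc.RPP

/-!
Consequences of column reduction at negative valuations.
-/

namespace Pool.Agent.Work.MP_db9079_lc

variable {p : ℕ} [hp : Fact p.Prime]

section Aux

variable {Φ : Filt p} {c : ℕ} {I J : Type} [Fintype I] {P : J → (I → KK p) → KK p}
  {S : (I → KK p) → I → KK p} {ν : I → ℕ} {b : J → I → KK p}

theorem RNeg_tail (h : ColRed Φ c P S ν b) {x : I → KK p} {a : ℤ} (ha : a ≤ 0)
    (hx : ∀ i, ν i ≠ 0 → Ge (p * a) (x i ^ p ^ (ν i - 1))) (j : J) :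
    Ge a (P j (S x) - lead ν (b j) x) :=
  (h.tail j).ge fun i _ hk => Ge.of_pow_pow_lt (hx i (by omega)) ha hk

theorem RNeg_congr (h : ColRed Φ c P S ν b) {x y : I → KK p} (e : ∀ i, ν i ≠ 0 → x i = y i)
    (j : J) : P j (S x) = P j (S y) := by
  have h1 := (h.tail j).congr_arg (x := x) (y := y) fun i hi => e i (by omega)
  have h2 : lead ν (b j) x = lead ν (b j) y := by
    refine Finset.sum_congr rfl fun i _ => ?_
    by_cases hi : ν i = 0
    · rw [h.zerob j i hi, zero_mul, zero_mul]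
    · rw [e i hi]
  simpa [h2] using h1

theorem RNeg_lead_zero (ν : I → ℕ) (b : I → KK p) : lead ν b 0 = 0 :=
  Finset.sum_eq_zero fun i _ => by
    rw [Pi.zero_apply, zero_pow (pp_pos _).ne', mul_zero]

theorem RNeg_free (h : ColRed Φ c P S ν b) {x : I → KK p} (e : ∀ i, ν i ≠ 0 → x i = 0)
    (j : J) : P j (S x) = 0 := by
  rw [RNeg_congr h (y := 0) e j]
  simpa [RNeg_lead_zero] using (h.tail j).map_zero

end Aux

theorem ColRed.bound {Φ : Filt p} {c : ℕ} {I J : Type} [Fintype I] {P : J → (I → KK p) → KK p}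
    {S : (I → KK p) → I → KK p} {ν : I → ℕ} {b : J → I → KK p} (h : ColRed Φ c P S ν b)
    {x : I → KK p} {β : ℤ} (hβ : β ≤ -(c + 1)) (hx : ∀ j, Ge β (P j (S x))) :
    ∀ i, ν i ≠ 0 → Ge (β - c) (x i ^ p ^ (ν i - 1)) := by
  have hp2 : (2 : ℤ) ≤ p := by exact_mod_cast hp.out.two_le
  have key : ∀ n : ℕ, (∀ i, ν i ≠ 0 → Ge (β - c - n) (x i ^ p ^ (ν i - 1))) →
      ∀ i, ν i ≠ 0 → Ge (β - c) (x i ^ p ^ (ν i - 1)) := by
    intro n
    induction n with
    | zero => intro h0 i hi; simpa using h0 i hi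
    | succ n ih =>
      intro h0
      refine ih fun i hi => (h.indep x (β - n) (fun j => ?_) i hi).mono (by omega)
      have ht : Ge (β - n) (P j (S x) - lead ν (b j) x) :=
        RNeg_tail h (by omega) (fun i hi => (h0 i hi).mono (by push_cast; nlinarith)) j
      simpa using ((hx j).mono (by omega : β - n ≤ β)).sub ht
  obtain ⟨N, hN⟩ := exists_ge_fin fun i => x i ^ p ^ (ν i - 1)
  exact key N fun i _ => (hN i).mono (by omega)

theorem RNeg_rest {Φ : Filt p} {c : ℕ} {I J : Type} [Fintype I] {P : J → (I → KK p) → KK p}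
    {S : (I → KK p) → I → KK p} {ν : I → ℕ} {b : J → I → KK p} (h : ColRed Φ c P S ν b)
    {x : I → KK p} {β : ℤ} (hβ : β ≤ -(c + 1)) (hx : ∀ j, Ge β (P j (S x))) (i : I) :
    Ge (β - c) (if ν i = 0 then 0 else x i) := by
  by_cases hi : ν i = 0
  · rw [if_pos hi]
    exact ge_zero _
  · rw [if_neg hi]
    exact (h.bound hβ hx i hi).of_pow_pow (by omega)

theorem pur_neg : ∃ f : ℕ → ℕ, Cm f ∧ ∀ (Φ : Filt p) (s : ℕ) (I J : Type) [Fintype I]
    (P : J → (I → KK p) → KK p), Φ.w ≤ s → Fintype.card I ≤ s → (∀ j, APs Φ s (P j)) →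
    ∀ (z : I → KK p) (β : ℤ), β ≤ -(f s) → (∀ j, Ge β (P j z)) →
      ∃ z' : I → KK p, (∀ i, Ge (f s * β) (z' i)) ∧ ∀ j, P j z' = P j z := by
  classical
  obtain ⟨f0, hf0, hcol⟩ := col_red (p := p)
  obtain ⟨f, hf, hle⟩ := exists_cm (g := fun s => f0 s + 1 + 2 * p ^ f0 s)
    (by have := hf0.ci; fun_prop)
  refine ⟨f, hf, fun Φ s I J _ P hw hI hP z β hβ hz => ?_⟩
  obtain ⟨S, ν, b, h⟩ := hcol Φ s I J P hw hI hP
  obtain ⟨x, rfl⟩ := h.surj z
  have h1 : ((f0 s : ℤ) + 1 + 2 * (p : ℤ) ^ f0 s) ≤ f s := by exact_mod_cast hle s s le_rfl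
  have h2 := RBase_pos (p := p) (f0 s)
  have h3 : (0 : ℤ) ≤ f0 s := Int.natCast_nonneg _
  refine ⟨S fun i => if ν i = 0 then 0 else x i, fun i => ?_,
    fun j => RNeg_congr h (fun i hi => if_neg hi) j⟩
  refine ((h.apS i).ge_neg (δ := β - f0 s) (by omega)
    (RNeg_rest h (by omega) hz)).mono ?_
  nlinarith

/-- A positive primitive group is the image of a polynomial map up to a bounded error. -/
theorem pp_param : ∃ f : ℕ → ℕ, Cm f ∧ ∀ (Φ : Filt p) (s : ℕ) (ι : Type) [Fintype ι]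
    (G : Set (ι → KK p)), PP Φ s G →
    ∃ (I : Type) (_ : Fintype I) (S : ι → (I → KK p) → KK p), Fintype.card I ≤ f s ∧
      (∀ i, APs Φ (f s) (S i)) ∧ (∀ y, (fun i => S i y) ∈ G) ∧
      ∀ g ∈ G, ∃ y, ∀ i, Ge (-(f s)) (g i - S i y) := by
  classical
  obtain ⟨f0, hf0, hcol⟩ := col_red (p := p)
  obtain ⟨f, hf, hle⟩ := exists_cm
    (g := fun s => 2 * s + f0 (2 * s) + p ^ f0 (2 * s) * (2 * f0 (2 * s) + 1))
    (by have := hf0.ci; fun_prop)
  refine ⟨f, hf, fun Φ s ι _ G hG => ?_⟩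
  obtain ⟨hw, hι, σ, J, _, _, P, Q, hσ, -, hP, hQ, hG⟩ := hG
  have hI : Fintype.card (ι ⊕ σ) ≤ 2 * s := by rw [Fintype.card_sum]; omega
  obtain ⟨S, ν, b, h⟩ := hcol Φ (2 * s) (ι ⊕ σ) J
    (fun j w => P j (fun k => w (Sum.inr k)) - Q j (fun k => w (Sum.inl k))) (by omega) hI
    (fun j => IsAP.monos (s := s)
      (((hP j).comp_coord (S := fun w k => w (Sum.inr k)) fun k => Or.inr ⟨_, fun _ => rfl⟩).sub
        ((hQ j).comp_coord (S := fun w k => w (Sum.inl k)) fun k => Or.inr ⟨_, fun _ => rfl⟩))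
      (by omega))
  have h0 := hle s s le_rfl
  refine ⟨ι ⊕ σ, inferInstance, fun i y => S (fun k => if ν k = 0 then y k else 0) (Sum.inl i),
    by omega, fun i => ?_, fun y => ?_, fun g hg => ?_⟩
  · refine IsAP.monos (s := f0 (2 * s)) ((h.apS (Sum.inl i)).comp_coord
      (S := fun y k => if ν k = 0 then y k else 0) fun k => ?_) (by omega)
    by_cases hk : ν k = 0
    · exact Or.inr ⟨k, fun _ => if_pos hk⟩
    · exact Or.inl fun _ => if_neg hk
  · refine (hG _).2 ⟨fun k => S (fun k => if ν k = 0 then y k else 0) (Sum.inr k), fun j => ?_⟩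
    exact sub_eq_zero.1 (RNeg_free h (fun k hk => if_neg hk) j)
  · obtain ⟨z, hz⟩ := (hG g).1 hg
    obtain ⟨x, hx⟩ := h.surj (Sum.elim g z)
    refine ⟨x, fun i => ?_⟩
    have h1 := RNeg_rest h (x := x) (β := -(f0 (2 * s) + 1)) le_rfl fun j => by
      rw [hx]
      simpa [hz j] using ge_zero _
    have h2 := (h.apS (Sum.inl i)).ge_neg (by omega) h1
    have h3 := (h.apS (Sum.inl i)).map_add (fun k => if ν k = 0 then x k else 0)
      (fun k => if ν k = 0 then 0 else x k)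
    have h4 : ((fun k => if ν k = 0 then x k else 0) + fun k => if ν k = 0 then 0 else x k) = x := by
      funext k
      by_cases hk : ν k = 0 <;> simp [hk]
    simp only [h4, hx, Sum.elim_inl] at h3
    rw [h3, add_sub_cancel_left]
    refine h2.mono ?_
    have h5 : ((p : ℤ) ^ f0 (2 * s) * (2 * f0 (2 * s) + 1)) ≤ f s := by
      exact_mod_cast le_trans (Nat.le_add_left _ _) h0
    linarith

theorem neg_close : ∃ f : ℕ → ℕ, Cm f ∧ ∀ (Φ : Filt p) (s : ℕ) (ι : Type) [Fintype ι]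
    (G : Set (ι → KK p)), PP Φ s G →
    ∃ V : Set (ι → KK p), PP Φ (f s) V ∧ TS (f s) V ∧
      ∀ γ α : ℤ, p * α + f s ≤ γ → α ≤ -(f s) → Close G V γ α := by
  obtain ⟨f0, hf0, hcol⟩ := col_red (p := p)
  obtain ⟨f1, hf1, hpar⟩ := pp_param (p := p)
  obtain ⟨f, hf, hle⟩ := exists_cm (g := fun s => f1 s + f0 (f1 s) + 1 + p ^ f0 (f1 s))
    (by have := hf0.ci; have := hf1.ci; fun_prop)
  refine ⟨f, hf, fun Φ s ι _ G hG => ?_⟩
  obtain ⟨I, _, S, hI, hS, hmem, happ⟩ := hpar Φ s ι G hG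
  obtain ⟨T, ν, b, h⟩ := hcol Φ (f1 s) I ι S (hG.1.trans (hf1.le s)) hI hS
  have h0 := hle s s le_rfl
  have h1 := hf.le s
  have hq := pp_pos (p := p) (f0 (f1 s))
  refine ⟨Set.range fun x i => lead ν (b i) x, ?_, ⟨p ^ f0 (f1 s), hq, by omega, ?_⟩,
    fun γ α hγ hα => ⟨fun g hg hge => ?_, ?_⟩⟩
  · exact pp_range (hG.1.trans h1) (hf.pos s) (hG.2.1.trans h1) (by omega) fun i =>
      (IsAP.lead_ap (h.memb i) (h.zerob i)).mono (fun k => (h.nu_le k).trans (by omega)) (by omega)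
  · rintro k _ ⟨x, rfl⟩
    refine ⟨fun m => tz p (k * (p : ℤ) ^ (f0 (f1 s) - (ν m - 1))) * x m, funext fun i => ?_⟩
    simp only [lead, Finset.mul_sum]
    refine Finset.sum_congr rfl fun m _ => ?_
    have h2 : ν m - 1 + (f0 (f1 s) - (ν m - 1)) = f0 (f1 s) := by have := h.nu_le m; omega
    have h3 : ((p ^ (ν m - 1) : ℕ) : ℤ) * (k * (p : ℤ) ^ (f0 (f1 s) - (ν m - 1))) =
        k * ((p ^ f0 (f1 s) : ℕ) : ℤ) := by
      conv_rhs => rw [← h2]
      push_cast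
      ring
    rw [mul_pow, tz_pow, h3]
    ring
  · by_cases hc : α ≤ γ
    · refine ⟨_, ⟨0, rfl⟩, fun i => ?_⟩
      simpa [RNeg_lead_zero] using (hge i).mono hc
    · obtain ⟨y, hy⟩ := happ g hg
      obtain ⟨x, rfl⟩ := h.surj y
      have h2 := h.bound (x := x) (β := γ) (by omega) fun i => by
        simpa using (hge i).sub ((hy i).mono (by omega))
      refine ⟨_, ⟨x, rfl⟩, fun i => ?_⟩
      have h3 := RNeg_tail h (a := α) (by omega) (fun m hm => (h2 m hm).mono (by omega)) i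
      simpa using ((hy i).mono (by omega : α ≤ -(f1 s : ℤ))).add h3
  · rintro _ ⟨x, rfl⟩ hge
    exact ⟨_, hmem (T x), RNeg_tail h (by omega)
      fun m hm => (h.indep x γ hge m hm).mono (by omega)⟩

end Pool.Agent.Work.MP_db9079_lc
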