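import Pool.Agent.Work.MP_db9079_lc.RInv

/-!
Probes and codes for cosets.
-/

namespace Pool.Agent.Work.MP_db9079_lc

/-- A probe: for each coordinate a flag (`1` window, `2` zero, otherwise nothing), a cut and
digits. -/
structure Pb (p : ℕ) where
  fl : ℕ → ℕ
  g : ℕ → ℤ
  u : ℕ → ℕ → ZMod p

variable {p : ℕ}

/-- The probe starting at position `o`. -/
def Pb.sub (C : Pb p) (o : ℕ) : Pb p :=
  ⟨fun i => C.fl (o + i), fun i => C.g (o + i), fun i => C.u (o + i)⟩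

/-- The digits of the probe `d` seen at the cuts of `c`. -/
def shiftU (n : ℕ) (c d : Pb p) (i m : ℕ) : ZMod p :=
  ∑ e ∈ Finset.range n, if d.fl i = 1 ∧ d.g i + e = c.g i + m then d.u i e else 0

/-- Subtracting the digits of `d`. -/
def Pb.diff (n : ℕ) (c d : Pb p) : Pb p := ⟨c.fl, c.g, fun i m => c.u i m - shiftU n c d i m⟩

/-- The cuts of `c` are below those of `d`. -/
def Pb.Le (r : ℕ) (c d : Pb p) : Prop :=
  ∀ i, i < r → (c.fl i ≠ 1 ∧ c.fl i ≠ 2) ∨ d.fl i = 2 ∨ (c.fl i = 1 ∧ d.fl i = 1 ∧ c.g i ≤ d.g i)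

/-- Same flags and digits. -/
def Pb.Same (len n : ℕ) (C D : Pb p) : Prop :=
  ∀ i, i < len → C.fl i = D.fl i ∧ ∀ m, m < n → C.u i m = D.u i m

/-- The vector of cuts. -/
def Pb.gv (len : ℕ) (C : Pb p) : Fin len → ℤ := fun i => C.g i

variable [hp : Fact p.Prime] {r : ℕ}

/-- `x` satisfies the probe `c`. -/
def Win (n : ℕ) (c : Pb p) (x : Fin r → KK p) : Prop :=
  ∀ i : Fin r, (c.fl i = 2 → x i = 0) ∧ (c.fl i = 1 → Ge (c.g i) (x i) ∧
    ∀ m : ℕ, m < n → (x i).coeff (c.g i + m) = c.u i m)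

/-- The probe is satisfied in the coset `b + G`. -/
def Val (G : Set (Fin r → KK p)) (n : ℕ) (b : Fin r → KK p) (c : Pb p) : Prop :=
  ∃ g ∈ G, Win n c (b + g)

/-- The probe is satisfied in `G`. -/
def Tab (G : Set (Fin r → KK p)) (n : ℕ) (c : Pb p) : Prop := ∃ g ∈ G, Win n c g

/-- Each vector of cuts is below a probe, or above a probe which is not satisfied in `G`. -/
def Cover (G : Set (Fin r → KK p)) (n N : ℕ) (C : Pb p) : Prop :=
  ∀ γ : Fin r → ℤ, ∃ j, j < N ∧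
    ((∀ i : Fin r, C.fl (j * r + i) = 2 ∨ (C.fl (j * r + i) = 1 ∧ γ i ≤ C.g (j * r + i))) ∨
      (¬ Tab G n (C.sub (j * r)) ∧
        ∀ i : Fin r, C.fl (j * r + i) = 0 ∨ (C.fl (j * r + i) = 1 ∧ C.g (j * r + i) + n ≤ γ i)))

/-- Validity of a probe read off from a code. -/
def Dec (G : Set (Fin r → KK p)) (n N : ℕ) (C c : Pb p) : Prop :=
  ∃ j, j < N ∧ Pb.Le r c (C.sub (j * r)) ∧ Tab G n (c.diff n (C.sub (j * r)))

/-- `C` is a code of the coset `b + G`. -/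
def Code (G : Set (Fin r → KK p)) (n N : ℕ) (b : Fin r → KK p) (C : Pb p) : Prop :=
  Cover G n N C ∧ ∀ j, j < N → Val G n b (C.sub (j * r))

variable {G : Set (Fin r → KK p)} {n N : ℕ} {b : Fin r → KK p} {C : Pb p}

theorem Win.congr {c d : Pb p} {x : Fin r → KK p} (h : Win n c x) (hs : c.Same r n d)
    (hg : ∀ i, i < r → c.g i = d.g i) : Win n d x := by
  intro i
  obtain ⟨e1, e2⟩ := hs i i.2
  rw [← e1, ← hg i i.2]
  exact ⟨(h i).1, fun k => ⟨((h i).2 k).1, fun m hm => e2 m hm ▸ ((h i).2 k).2 m hm⟩⟩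

theorem Code.pos (hG : IsGrp G) (h : Code G n N b C) {g : Fin r → KK p} (hg : g ∈ G)
    {γ : Fin r → ℤ} (hγ : ∀ i, Ge (γ i) ((b + g) i)) : ∃ j, j < N ∧
      ∀ i : Fin r, C.fl (j * r + i) = 2 ∨ (C.fl (j * r + i) = 1 ∧ γ i ≤ C.g (j * r + i)) := by
  obtain ⟨j, hj, k | ⟨k1, k2⟩⟩ := h.1 γ
  · exact ⟨j, hj, k⟩
  obtain ⟨g', hg', hw⟩ := h.2 j hj
  refine (k1 ⟨g' - g, hG.sub_mem hg' hg, fun i => ?_⟩).elim
  have e : (g' - g) i = (b + g') i - (b + g) i := by simp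
  refine ⟨fun k => ?_, fun k => ?_⟩ <;> simp only [Pb.sub] at k
  · rcases k2 i with k3 | k3 <;> omega
  obtain ⟨-, k3⟩ := (k2 i).resolve_left (by omega)
  obtain ⟨w1, w2⟩ := (hw i).2 k
  rw [e]
  refine ⟨w1.sub ((hγ i).mono ?_), fun m hm => ?_⟩
  · simp only [Pb.sub]
    omega
  · rw [HahnSeries.coeff_sub, w2 m hm, hγ i _ (by simp only [Pb.sub]; omega), sub_zero]

theorem RProbe_le (hG : IsGrp G) (h : Code G n N b C) {g : Fin r → KK p} (hg : g ∈ G) {c : Pb p}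
    (hw : Win n c (b + g)) : ∃ j, j < N ∧ Pb.Le r c (C.sub (j * r)) := by
  obtain ⟨M, hM⟩ := Finite.bddAbove_range fun q : Fin N × Fin r => C.g (q.1 * r + q.2)
  obtain ⟨M', hM'⟩ := exists_ge_fin (b + g)
  obtain ⟨j, hj, k⟩ := h.pos hG hg
    (γ := fun i => if c.fl i = 1 then c.g i else if c.fl i = 2 then M + 1 else -M') fun i => by
      split_ifs with h1 h2
      · exact ((hw i).2 h1).1
      · rw [(hw i).1 h2]
        exact ge_zero _
      · exact hM' i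
  refine ⟨j, hj, fun i hi => ?_⟩
  have h0 : C.g (j * r + i) ≤ M := hM ⟨(⟨j, hj⟩, ⟨i, hi⟩), rfl⟩
  have := k ⟨i, hi⟩
  simp only [Pb.sub] at this ⊢
  split_ifs at this <;> omega

theorem RProbe_key {c d : Pb p} {x : Fin r → KK p} (hw : Win n d x) (hl : Pb.Le r c d)
    (i : Fin r) : (c.fl i = 2 → x i = 0) ∧ (c.fl i = 1 → Ge (c.g i) (x i) ∧
      ∀ m : ℕ, m < n → (x i).coeff (c.g i + m) = shiftU n c d i m) := by
  have h := hl i i.2
  refine ⟨fun k => (hw i).1 (by omega), fun k => ?_⟩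
  rcases h with h | h | ⟨-, h1, h2⟩
  · exact (h.1 k).elim
  · rw [(hw i).1 h]
    exact ⟨ge_zero _, fun m _ => by simp [shiftU, h]⟩
  obtain ⟨w1, w2⟩ := (hw i).2 h1
  refine ⟨w1.mono h2, fun m hm => ?_⟩
  by_cases h3 : c.g i + m < d.g i
  · rw [w1 _ h3]
    exact (Finset.sum_eq_zero fun e _ => if_neg (by omega)).symm
  · obtain ⟨e, he⟩ := Int.eq_ofNat_of_zero_le (a := c.g i + m - d.g i) (by omega)
    rw [shiftU, Finset.sum_eq_single e (fun e' _ k => if_neg (by omega))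
      (fun k => (k (Finset.mem_range.2 (by omega))).elim), if_pos ⟨h1, by omega⟩,
      ← w2 e (by omega)]
    congr 1
    omega

theorem Code.val_iff (hG : IsGrp G) (h : Code G n N b C) (c : Pb p) :
    Val G n b c ↔ Dec G n N C c := by
  constructor
  · rintro ⟨g, hg, hw⟩
    obtain ⟨j, hj, hl⟩ := RProbe_le hG h hg hw
    obtain ⟨g', hg', hw'⟩ := h.2 j hj
    refine ⟨j, hj, hl, g - g', hG.sub_mem hg hg', fun i => ?_⟩
    obtain ⟨k1, k2⟩ := RProbe_key hw' hl i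
    rw [show (g - g') i = (b + g) i - (b + g') i by simp]
    refine ⟨fun k => by rw [(hw i).1 k, k1 k, sub_zero], fun k =>
      ⟨((hw i).2 k).1.sub (k2 k).1, fun m hm => ?_⟩⟩
    simp only [Pb.diff]
    rw [HahnSeries.coeff_sub, ((hw i).2 k).2 m hm, (k2 k).2 m hm]
  · rintro ⟨j, hj, hl, g, hg, hw⟩
    obtain ⟨g', hg', hw'⟩ := h.2 j hj
    refine ⟨g' + g, hG.add_mem hg' hg, fun i => ?_⟩
    obtain ⟨k1, k2⟩ := RProbe_key hw' hl i
    rw [show (b + (g' + g)) i = (b + g') i + g i by simp [add_assoc]]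
    refine ⟨fun k => by rw [(hw i).1 k, k1 k, add_zero], fun k =>
      ⟨(k2 k).1.add ((hw i).2 k).1, fun m hm => ?_⟩⟩
    have := ((hw i).2 k).2 m hm
    simp only [Pb.diff] at this
    rw [HahnSeries.coeff_add, this, (k2 k).2 m hm, add_sub_cancel]

theorem Code.zero_iff (hG : IsGrp G) (h : Code G n N b C) {i : Fin r} (hi : ∀ g ∈ G, g i = 0) :
    b i = 0 ↔ ∃ j, j < N ∧ C.fl (j * r + i) = 2 := by
  constructor
  · intro hb
    obtain ⟨j, hj, hl⟩ := RProbe_le hG h hG.zero_mem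
      (c := ⟨fun k => if k = i then 2 else 0, 0, 0⟩) fun k => by
        by_cases e : (k : ℕ) = i
        · simp [Fin.ext e, hb]
        · simp [e]
    exact ⟨j, hj, by simpa [Pb.sub] using hl i i.2⟩
  · rintro ⟨j, hj, hf⟩
    obtain ⟨g, hg, hw⟩ := h.2 j hj
    simpa [hi g hg] using (hw i).1 hf

theorem Code.lead (h : Code G n N b C) {i : Fin r} (hi : ∀ g ∈ G, g i = 0) {j : ℕ} (hj : j < N)
    (hf : C.fl (j * r + i) = 1) : Ge (C.g (j * r + i)) (b i) ∧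
      ∀ m : ℕ, m < n → (b i).coeff (C.g (j * r + i) + m) = C.u (j * r + i) m := by
  obtain ⟨g, hg, hw⟩ := h.2 j hj
  simpa [hi g hg, Pb.sub] using (hw i).2 hf

theorem Code.exists_lead (hG : IsGrp G) (h : Code G n N b C) (hn : 0 < n) {i : Fin r}
    (hi : ∀ g ∈ G, g i = 0) (hb : b i ≠ 0) :
    ∃ j, j < N ∧ C.fl (j * r + i) = 1 ∧ C.u (j * r + i) 0 ≠ 0 := by
  obtain ⟨γ, h1, h2⟩ := MP_db9079_lc.exists_lead hb
  obtain ⟨j, hj, hl⟩ := RProbe_le hG h hG.zero_mem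
    (c := ⟨fun k => if k = i then 1 else 0, fun _ => γ, fun _ m => (b i).coeff (γ + m)⟩) fun k => by
      by_cases e : (k : ℕ) = i
      · simp [Fin.ext e, h1]
      · simp [e]
  have h3 : C.fl (j * r + i) = 2 ∨ C.fl (j * r + i) = 1 ∧ γ ≤ C.g (j * r + i) := by
    simpa [Pb.sub] using hl i i.2
  obtain ⟨h4, h5⟩ := h3.resolve_left fun k => hb ((h.zero_iff hG hi).2 ⟨j, hj, k⟩)
  obtain ⟨h6, h7⟩ := h.lead hi hj h4
  refine ⟨j, hj, h4, ?_⟩
  rw [← h7 0 hn, Nat.cast_zero, add_zero, ← h5.antisymm (not_lt.1 fun k => h2 (h6 _ k))]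
  exact h2

theorem code_top (hG : IsGrp G) (hb : b ∈ G) (hN : 0 < N) (hC : ∀ i, i < N * r → C.fl i = 2) :
    Code G n N b C := by
  have k : ∀ j, j < N → ∀ i : Fin r, C.fl (j * r + i) = 2 := fun j hj i =>
    hC _ (lt_of_lt_of_le (by rw [Nat.succ_mul]; omega) (Nat.mul_le_mul_right r hj))
  refine ⟨fun γ => ⟨0, hN, Or.inl fun i => Or.inl (k 0 hN i)⟩, fun j hj =>
    ⟨0 - b, hG.sub_mem hG.zero_mem hb, fun i => ⟨fun _ => by simp, fun e => ?_⟩⟩⟩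
  have := k j hj i
  simp only [Pb.sub] at e
  omega

theorem tab_ct : ∃ f : ℕ → ℕ, Cm f ∧ ∀ (Φ : Filt p) (s n r : ℕ) (G : Set (Fin r → KK p))
    (c d : Pb p), PP Φ s G → n ≤ s → c.Same r n d → CT (f s) Finset.univ (c.gv r) (d.gv r) →
    Tab G n c → Tab G n d := by
  obtain ⟨f, hf, H⟩ := tr_of_ct (p := p)
  refine ⟨f, hf, ?_⟩
  rintro Φ s n r G c d hG hn hs hc ⟨g, hg, hw⟩
  obtain ⟨x, hx, k⟩ := H Φ s n (Fin r) G (fun i => c.fl i = 2)
    (Finset.univ.filter fun i : Fin r => c.fl i = 1) _ _ hG hn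
    (hc.mono le_rfl (Finset.subset_univ _)) g ⟨hg, fun i => (hw i).1⟩
    fun i hi => ((hw i).2 (Finset.mem_filter.1 hi).2).1
  refine ⟨x, hx.1, fun i => ?_⟩
  obtain ⟨e1, e2⟩ := hs i i.2
  rw [← e1]
  refine ⟨hx.2 i, fun e => ?_⟩
  obtain ⟨k1, k2⟩ := k i (Finset.mem_filter.2 ⟨Finset.mem_univ _, e⟩)
  exact ⟨k1, fun m hm => (k2 m hm).trans ((((hw i).2 e).2 m hm).trans (e2 m hm))⟩

end Pool.Agent.Work.MP_db9079_lc
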