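import Pool.Agent.Work.MP_db9079_lc.RAP
import Pool.Agent.Work.MP_db9079_lc.RGauss
import Pool.Agent.Work.MP_db9079_lc.RCm

/-!
Row reduction of a system of additive polynomials.
-/

namespace Pool.Agent.Work.MP_db9079_lc

open Pool.Agent.Lib.RelComp

variable {p : ℕ} [hp : Fact p.Prime]

/-- A reduced system `b z + H (z ^ p) = A η`, `A' η = 0` with boundedly surjective linear part. -/
structure RowOut (Φ : Filt p) (c : ℕ) {σ ι J J' : Type} [Fintype σ] [Fintype J] [Fintype J']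
    (b : J → σ → KK p) (H : J → (σ → KK p) → KK p) (A : J → (ι → KK p) → KK p)
    (A' : J' → (ι → KK p) → KK p) : Prop where
  card : Fintype.card J ≤ c
  card' : Fintype.card J' ≤ c
  memb : ∀ j i, b j i ∈ Φ.R c
  apH : ∀ j, APs Φ c (H j)
  apA : ∀ j, APs Φ c (A j)
  apA' : ∀ j, APs Φ c (A' j)
  surj : ∀ (y : J → KK p) (γ : ℤ), (∀ j, Ge γ (y j)) →
    ∃ x : σ → KK p, (∀ i, Ge (γ - c) (x i)) ∧ ∀ j, ∑ i, b j i * x i = y j

/-- The relation `E` between unknowns and parameters is given by a reduced system. -/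
def Reduced (Φ : Filt p) (c : ℕ) {σ ι : Type} [Fintype σ]
    (E : (σ → KK p) → (ι → KK p) → Prop) : Prop :=
  ∃ (J J' : Type) (_ : Fintype J) (_ : Fintype J') (b : J → σ → KK p)
    (H : J → (σ → KK p) → KK p) (A : J → (ι → KK p) → KK p) (A' : J' → (ι → KK p) → KK p),
    RowOut Φ c b H A A' ∧ ∀ z η, E z η ↔
      (∀ j, ∑ i, b j i * z i + H j (fun i => z i ^ p) = A j η) ∧ ∀ j, A' j η = 0

theorem Reduced.mono {Φ : Filt p} {c c' : ℕ} {σ ι : Type} [Fintype σ]
    {E : (σ → KK p) → (ι → KK p) → Prop} (h : Reduced Φ c E) (hc : c ≤ c') : Reduced Φ c' E := by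
  obtain ⟨J, J', _, _, b, H, A, A', h, e⟩ := h
  refine ⟨J, J', _, _, b, H, A, A', ⟨h.card.trans hc, h.card'.trans hc,
    fun j i => Φ.mono hc (h.memb j i), fun j => (h.apH j).monos hc, fun j => (h.apA j).monos hc,
    fun j => (h.apA' j).monos hc, fun y γ hy => ?_⟩, e⟩
  obtain ⟨x, hx, hx'⟩ := h.surj y γ hy
  exact ⟨x, fun i => (hx i).mono (by omega), hx'⟩

theorem Reduced.frob {Φ : Filt p} {c : ℕ} {σ ι : Type} [Fintype σ]
    {E : (σ → KK p) → (ι → KK p) → Prop} (h : Reduced Φ c E) (k : ℕ) :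
    Reduced Φ (c + k) (fun z η => E z (fun i => η i ^ p ^ k)) := by
  obtain ⟨J, J', _, _, b, H, A, A', h, e⟩ := h
  have hc : c ≤ c + k := Nat.le_add_right _ _
  refine ⟨J, J', _, _, b, H, fun j η => A j (fun i => η i ^ p ^ k),
    fun j η => A' j (fun i => η i ^ p ^ k), ⟨h.card.trans hc, h.card'.trans hc,
    fun j i => Φ.mono hc (h.memb j i), fun j => (h.apH j).monos hc,
    fun j => ((h.apA j).comp_frob k).mono (fun _ => le_rfl) hc,
    fun j => ((h.apA' j).comp_frob k).mono (fun _ => le_rfl) hc, fun y γ hy => ?_⟩,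
    fun z η => e z _⟩
  obtain ⟨x, hx, hx'⟩ := h.surj y γ hy
  exact ⟨x, fun i => (hx i).mono (by push_cast; omega), hx'⟩

theorem row_step : ∃ u : ℕ → ℕ, Cm u ∧ ∀ (Φ : Filt p) (s : ℕ) (σ ι J : Type) [Fintype σ]
    [Fintype J] (ν : J → ℕ) (P : J → (σ → KK p) → KK p) (A : J → (ι → KK p) → KK p),
    Φ.w ≤ s → ∑ j, (p + 2) ^ ν j ≤ s → (∀ j, IsAP Φ (fun _ => ν j) s (P j)) →
    (∀ j, APs Φ s (A j)) →
    Reduced Φ (u s) (fun z η => ∀ j, P j z = A j η) ∨
    ∃ (J' : Type) (_ : Fintype J') (ν' : J' → ℕ) (P' : J' → (σ → KK p) → KK p)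
      (A' : J' → (ι → KK p) → KK p), ∑ j, (p + 2) ^ ν' j < ∑ j, (p + 2) ^ ν j ∧
      (∀ j, IsAP Φ (fun _ => ν' j) (u s) (P' j)) ∧ (∀ j, APs Φ (u s) (A' j)) ∧
      ∀ z η, (∀ j, P j z = A j (fun i => η i ^ p)) ↔ ∀ j, P' j z = A' j η := by
  obtain ⟨u, hu, Hu⟩ := exists_cm (g := fun s => s + 1 + (2 ^ s * s + s) +
    s * gf p s (2 ^ s * s)) (by unfold gf; fun_prop)
  refine ⟨u, hu, fun Φ s σ ι J _ _ ν P A hw hpot hP hA => ?_⟩
  classical
  have H := Hu s s le_rfl
  have hcard : Fintype.card J ≤ s := by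
    refine le_trans ?_ hpot
    rw [← Finset.card_univ, Finset.card_eq_sum_ones]
    exact Finset.sum_le_sum fun j _ => Nat.one_le_pow _ _ (by omega)
  have hν : ∀ j, ν j ≤ s := fun j =>
    ((Nat.lt_pow_self (by omega : 1 < p + 2)).le.trans (Finset.single_le_sum
      (f := fun j => (p + 2) ^ ν j) (fun _ _ => Nat.zero_le _) (Finset.mem_univ j))).trans hpot
  choose b H hb hH hPe using fun j => (hP j).trail_dec
  rcases gauss_row Φ (J := {j // ν j ≠ 0}) (N := s) hw ((Fintype.card_subtype_le _).trans hcard)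
    (fun j => b j) (fun j i => hb j i) with ⟨d, ⟨j₁, hj₁⟩, hd, hr⟩ | h
  swap
  · left
    refine ⟨{j // ν j ≠ 0}, {j // ν j = 0}, inferInstance, inferInstance, fun j => b j,
      fun j => H j, fun j => A j, fun j => A j,
      ⟨(Fintype.card_subtype_le _).trans (by omega), (Fintype.card_subtype_le _).trans (by omega),
        fun j i => Φ.mono (by omega) (hb j i),
        fun j => (hH j).mono (fun _ => by have := hν j; omega) (by omega),
        fun j => (hA j).monos (by omega), fun j => (hA j).monos (by omega), fun y γ hy => ?_⟩,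
      fun z η => ⟨fun e => ⟨fun j => (hPe j z).symm.trans (e j), fun j =>
        (e j).symm.trans ((hP j).eq_zero (fun _ => j.2) z)⟩, fun e j => ?_⟩⟩
    · obtain ⟨x, hx, hx'⟩ := h y γ hy
      exact ⟨x, fun i => (hx i).mono (by omega), hx'⟩
    · by_cases h0 : ν j = 0
      · exact ((hP j).eq_zero (fun _ => h0) z).trans (e.2 ⟨j, h0⟩).symm
      · exact (hPe j z).trans (e.1 ⟨j, h0⟩)
  right
  obtain ⟨j₀, hj₀, hmax⟩ := Finset.exists_max_image (Finset.univ.filter fun j => d j ≠ 0)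
    (fun j => ν j) ⟨j₁, by simpa using hj₁⟩
  simp only [Finset.mem_filter, Finset.mem_univ, true_and] at hj₀ hmax
  have hν₀ := j₀.2
  have hH' : IsAP Φ (fun _ => ν j₀ - 1) (2 ^ s * s + s) (fun z => ∑ j, d j * H j z) :=
    IsAP.sum _ fun j _ => by
      by_cases h0 : d j = 0
      · exact IsAP.zero.congr fun z => by rw [h0, zero_mul]
      · exact (IsAP.smul (hd j) (hH j)).mono (fun _ => by have := hmax j h0; omega) le_rfl
  have hA' : IsAP Φ (fun _ => s) (2 ^ s * s + s) (fun η => ∑ j, d j * A j η) :=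
    IsAP.sum _ fun j _ => IsAP.smul (hd j) (hA j)
  have hsum : ∀ z, ∑ j, d j * P j z = ∑ j, d j * H j (fun i => z i ^ p) := fun z => by
    simp only [hPe, mul_add, Finset.sum_add_distrib, Finset.mul_sum]
    rw [Finset.sum_comm, Finset.sum_eq_zero fun i _ => ?_, zero_add]
    simp only [← mul_assoc]
    rw [← Finset.sum_mul, hr i, zero_mul]
  refine ⟨J ⊕ Fin p, inferInstance,
    Sum.elim (fun j => if j = j₀ then 0 else ν j) fun _ => ν j₀ - 1,
    Sum.elim (fun j z => if j = j₀ then 0 else P j z)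
      fun l z => cart 1 l (∑ j, d j * H j (fun i => z i ^ p)),
    Sum.elim (fun j η => if j = j₀ then 0 else A j (fun i => η i ^ p))
      fun l η => cart 1 l (∑ j, d j * A j (fun i => η i ^ p)), ?_, ?_, ?_, fun z η => ?_⟩
  · rw [Fintype.sum_sum_type, ← Finset.add_sum_erase _ _ (Finset.mem_univ (j₀ : J)),
      ← Finset.add_sum_erase _ (fun j => (p + 2) ^ ν j) (Finset.mem_univ (j₀ : J))]
    have h1 : ∑ j ∈ Finset.univ.erase (j₀ : J), (p + 2) ^ (Sum.elim
        (fun j : J => if j = j₀ then 0 else ν j) (fun _ : Fin p => ν j₀ - 1) (Sum.inl j)) =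
        ∑ j ∈ Finset.univ.erase (j₀ : J), (p + 2) ^ ν j :=
      Finset.sum_congr rfl fun j hj => by simp [Finset.ne_of_mem_erase hj]
    have h2 : (p + 2) ^ ν j₀ = (p + 2) * (p + 2) ^ (ν j₀ - 1) := by
      rw [← pow_succ']; congr 1; omega
    have h3 : 1 ≤ (p + 2) ^ (ν j₀ - 1) := Nat.one_le_pow _ _ (by omega)
    rw [h1, h2]
    simp only [Sum.elim_inl, Sum.elim_inr, if_true, pow_zero, Finset.sum_const, Finset.card_univ,
      Fintype.card_fin, smul_eq_mul]
    nlinarith
  · rintro (j | l)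
    · by_cases h : j = j₀
      · simp only [Sum.elim_inl, h, if_true]; exact IsAP.zero
      · simp only [Sum.elim_inl, h, if_false]; exact (hP j).mono (fun _ => le_rfl) (by omega)
    · exact (hH'.cart l.2).mono (fun _ => le_rfl) (by omega)
  · rintro (j | l)
    · by_cases h : j = j₀
      · simp only [Sum.elim_inl, h, if_true]; exact IsAP.zero
      · simp only [Sum.elim_inl, h, if_false]
        exact (((hA j).comp_frob 1).congr fun x => by simp only [pow_one]).mono
          (fun _ => by omega) (by omega)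
    · exact (hA'.cart l.2).mono (fun _ => by omega) (by omega)
  · constructor
    · rintro e (j | l)
      · simp only [Sum.elim_inl, e]
      · simp only [Sum.elim_inr, ← hsum, e]
    · intro e j
      have e1 : ∀ j : J, j ≠ j₀ → P j z = A j (fun i => η i ^ p) := fun j h => by
        simpa [h] using e (Sum.inl j)
      by_cases h : j = j₀
      · have e2 : ∑ j, d j * P j z = ∑ j, d j * A j (fun i => η i ^ p) := by
          rw [hsum]
          exact eq_of_cart_eq 1 fun l hl => e (Sum.inr ⟨l, by simpa using hl⟩)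
        rw [← Finset.add_sum_erase _ _ (Finset.mem_univ j₀),
          ← Finset.add_sum_erase _ _ (Finset.mem_univ j₀), Finset.sum_congr rfl fun j hj => by
            rw [e1 j fun h => Finset.ne_of_mem_erase hj (Subtype.ext h)]] at e2
        rw [h]
        exact mul_left_cancel₀ hj₀ (add_right_cancel e2)
      · exact e1 j h

theorem row_red : ∃ f : ℕ → ℕ, Cm f ∧ ∀ (Φ : Filt p) (s k : ℕ) (σ ι J : Type) [Fintype σ]
    [Fintype J] (ν : J → ℕ) (P : J → (σ → KK p) → KK p) (A : J → (ι → KK p) → KK p),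
    Φ.w ≤ s → k ≤ s → ∑ j, (p + 2) ^ ν j ≤ k → (∀ j, IsAP Φ (fun _ => ν j) s (P j)) →
    (∀ j, APs Φ s (A j)) →
    Reduced Φ (f s) (fun z η => ∀ j, P j z = A j (fun i => η i ^ p ^ k)) := by
  obtain ⟨u, hu, Hu⟩ := row_step (p := p)
  have huc := hu.ci
  obtain ⟨v, hv, Hv⟩ := exists_cm (g := fun s => u s + s) (by fun_prop)
  have key : ∀ (k : ℕ) (Φ : Filt p) (s : ℕ) (σ ι J : Type) [Fintype σ] [Fintype J] (ν : J → ℕ)
      (P : J → (σ → KK p) → KK p) (A : J → (ι → KK p) → KK p), Φ.w ≤ s → k ≤ s →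
      ∑ j, (p + 2) ^ ν j ≤ k → (∀ j, IsAP Φ (fun _ => ν j) s (P j)) → (∀ j, APs Φ s (A j)) →
      Reduced Φ (v^[k + 1] s) (fun z η => ∀ j, P j z = A j (fun i => η i ^ p ^ k)) := by
    intro k
    induction k with
    | zero =>
      intro Φ s σ ι J _ _ ν P A hw hk hpot hP hA
      rcases Hu Φ s σ ι J ν P A hw (hpot.trans hk) hP hA with h | ⟨J', _, ν', -, -, h, -⟩
      · exact (h.frob 0).mono (le_trans (Nat.le_add_right _ _) (Hv s s le_rfl))
      · omega
    | succ k ih =>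
      intro Φ s σ ι J _ _ ν P A hw hk hpot hP hA
      have h1 := Hv s s le_rfl
      rcases Hu Φ s σ ι J ν P A hw (hpot.trans hk) hP hA with h |
        ⟨J', _, ν', P', A', h, hP', hA', e⟩
      · exact (h.frob (k + 1)).mono (le_trans (by omega : _ ≤ v s)
          (hv.iterate_mono (k := 1) (by omega) le_rfl))
      · have := ih Φ (v s) σ ι J' ν' P' A' (by omega) (by omega) (by omega)
          (fun j => (hP' j).mono (fun _ => le_rfl) (by omega)) fun j => (hA' j).monos (by omega)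
        rw [Function.iterate_succ_apply]
        convert this using 3 with z η
        rw [← e]
        simp only [pow_succ, pow_mul]
  obtain ⟨f, hf, Hf⟩ := hv.exists_iterate (k := fun s => s + 1) (by fun_prop)
  exact ⟨f, hf, fun Φ s k σ ι J _ _ ν P A hw hk hpot hP hA =>
    (key k Φ s σ ι J ν P A hw hk hpot hP hA).mono
      ((hv.iterate_mono (by omega) le_rfl).trans (Hf s))⟩

/-- Hensel's lemma for a reduced system. -/
theorem RowOut.hensel {Φ : Filt p} {c : ℕ} {σ ι J J' : Type} [Fintype σ] [Fintype J] [Fintype J']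
    {b : J → σ → KK p} {H : J → (σ → KK p) → KK p} {A : J → (ι → KK p) → KK p}
    {A' : J' → (ι → KK p) → KK p} (h : RowOut Φ c b H A A') (ζ : J → KK p) {γ : ℤ}
    (hγ : 2 * c + 1 ≤ γ) (hζ : ∀ j, Ge γ (ζ j)) :
    ∃ z : σ → KK p, (∀ i, Ge (γ - c) (z i)) ∧
      ∀ j, ∑ i, b j i * z i + H j (fun i => z i ^ p) = ζ j := by
  have hp2 : (2 : ℤ) ≤ p := by exact_mod_cast hp.out.two_le
  refine exists_of_approx (fun z j => ∑ i, b j i * z i + H j (fun i => z i ^ p))
    (fun x y j => ?_) γ c (fun δ x hδ hx j => ?_) (fun δ ρ hδ hρ => ?_) ζ hζ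
  · have : (fun i => (x + y) i ^ p) = (fun i => x i ^ p) + fun i => y i ^ p :=
      funext fun i => add_pow_char _ _ _
    rw [this, (h.apH j).map_add]
    simp only [Pi.add_apply, mul_add, Finset.sum_add_distrib]
    ring
  · refine (Ge.sum _ fun i _ => Ge.mul_left (Φ.ge (h.memb j i)) (hx i)).add
      ((h.apH j).ge_nonneg (by omega) fun i => ?_)
    simpa using (hx i).pow_pow_nonneg (by omega) 1
  · obtain ⟨x, hx, hx'⟩ := h.surj ρ δ hρ
    refine ⟨x, hx, fun j => ?_⟩
    have : ρ j - (∑ i, b j i * x i + H j fun i => x i ^ p) = -H j fun i => x i ^ p := by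
      rw [hx']; ring
    rw [this]
    refine ((h.apH j).ge_nonneg (by omega) fun i => ((hx i).pow p).mono ?_).neg
    nlinarith

end Pool.Agent.Work.MP_db9079_lc
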