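import Pool.Agent.Work.MP_db9079_lc.RDigit
import Pool.Agent.Work.MP_db9079_lc.RInvar

/-!
It is decidable whether a probe is satisfied in the group of a shape.
-/

namespace Pool.Agent.Work.MP_db9079_lc

open Pool.Agent.Lib.RelComp

variable {p : ℕ} [hp : Fact p.Prime]

theorem RTab_mem {sh : List (List Sy)} {i : ℕ} (hi : i < sh.length) : sh.getD i [] ∈ sh := by
  rw [List.getD_eq_getElem _ _ hi]
  exact List.getElem_mem hi

theorem tab_bound : ∃ f : ℕ → ℕ, Cm f ∧ ∀ (sh : List (List Sy)) (k n x : ℕ) (c : Pb p),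
    sz sh ≤ x → n ≤ x → (∀ i, i < sh.length → |c.g i| ≤ x) →
    (Tab (GS p sh k) n c ↔ ∃ y : ℕ → KK p, (∀ v, v < k ∨ sz sh ≤ v → y v = 0) ∧
      (∀ v, Ge (-(f x : ℤ)) (y v)) ∧ ∀ i, i < sh.length →
        (c.fl i = 2 → Ge (f x) (ev y (sh.getD i []))) ∧
        (c.fl i = 1 → Ge (c.g i) (ev y (sh.getD i [])) ∧
          ∀ m : ℕ, m < n → (ev y (sh.getD i [])).coeff (c.g i + m) = c.u i m)) := by
  obtain ⟨f1, c1, h1⟩ := exists_ap (p := p)
  obtain ⟨f2, c2, h2⟩ := pur (p := p)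
  obtain ⟨f3, c3, h3⟩ := gs_pp (p := p)
  obtain ⟨f4, c4, h4⟩ := lift_pp (p := p)
  obtain ⟨f, cf, hf⟩ := exists_cm
    (g := fun x => f2 (f1 x) * x + f2 (f1 x) + f4 (f3 x) * (2 * x + f4 (f3 x))) (by
      have := c1.ci
      have := c2.ci
      have := c3.ci
      have := c4.ci
      fun_prop)
  refine ⟨f, cf, fun sh k n x c hx hn hg => ⟨?_, ?_⟩⟩
  · rintro ⟨_, ⟨y, hy, rfl⟩, hw⟩
    obtain ⟨Φ, hΦ, hA⟩ := h1 sh
    have hs : f1 (sz sh) ≤ f1 x := c1.mono hx
    have hx1 := c1.le x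
    have hC := c2.pos (f1 x)
    have hfx := hf x x le_rfl
    obtain ⟨z, hz, hP⟩ := h2 Φ (f1 x) (Fin (sz sh)) (Fin sh.length)
      (fun i z => if c.fl i = 1 ∨ c.fl i = 2 then ev (extZ k z) (sh.getD i []) else 0)
      (hΦ.trans hs) (by rw [Fintype.card_fin]; omega)
      (by rw [Fintype.card_fin]; linarith [length_le_sz sh]) (fun i => by
        split_ifs
        · exact (hA _ (RTab_mem i.2) k).monos hs
        · exact IsAP.zero) (fun v => y v) (-(f2 (f1 x) * x + f2 (f1 x) : ℕ)) (-x) (by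
        generalize f2 (f1 x) = C at hC
        have h5 : (1 : ℤ) ≤ C := by exact_mod_cast hC
        have h6 : (0 : ℤ) ≤ x := Int.natCast_nonneg x
        have h7 : (1 : ℤ) * x ≤ C * C * x := mul_le_mul_of_nonneg_right (by nlinarith) h6
        constructor <;> push_cast <;> linarith) (fun i => by
        split_ifs with h5
        · rw [ev_extZ (RTab_mem i.2) hy]
          rcases h5 with h5 | h5
          · exact ((hw i).2 h5).1.mono (abs_le.1 (hg i i.2)).1
          · have h6 : ev y (sh.getD i []) = 0 := (hw i).1 h5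
            rw [h6]
            exact ge_zero _
        · exact ge_zero _)
    have he : ∀ i : Fin sh.length, c.fl i = 1 ∨ c.fl i = 2 →
        ev (extZ k z) (sh.getD i []) = evV sh y i := fun i hi => by
      have h5 := hP i
      rw [if_pos hi, if_pos hi, ev_extZ (RTab_mem i.2) hy] at h5
      exact h5
    refine ⟨extZ k z, fun v hv => dif_neg (by omega), fun v => ?_, fun i hi => ⟨fun h5 => ?_,
      fun h5 => ?_⟩⟩
    · unfold extZ
      split_ifs
      · exact (hz _).mono (by omega)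
      · exact ge_zero _
    · rw [he ⟨i, hi⟩ (Or.inr h5), (hw ⟨i, hi⟩).1 h5]
      exact ge_zero _
    · rw [he ⟨i, hi⟩ (Or.inl h5)]
      exact (hw ⟨i, hi⟩).2 h5
  · rintro ⟨y, hy, -, hw⟩
    obtain ⟨Φ, hΦ⟩ := h3 sh k
    have hG : evV sh y ∈ GS p sh k := ⟨y, fun v hv => hy v (Or.inl hv), rfl⟩
    have hd := c4.pos (f3 x)
    have hfx := hf x x le_rfl
    obtain ⟨w, hw1, hw2, hw3⟩ := h4 Φ (f3 x) _ _ (hΦ.mono (c3.mono hx)) (2 * x) (f x) (by
      generalize f4 (f3 x) = d at hd hfx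
      have h5 : d * (2 * x + d) ≤ f x := by omega
      have h6 : 2 * x + d ≤ d * f x := by nlinarith
      exact ⟨by exact_mod_cast h6, by exact_mod_cast h5⟩) (fun i => c.fl i = 2) _ hG
      fun i hi => (hw i i.2).1 hi
    refine ⟨_, (isGrp_GS sh k).sub_mem hG hw1, fun i => ⟨fun h5 => ?_, fun h5 => ?_⟩⟩
    · rw [Pi.sub_apply, hw2 i h5, sub_self]
    · have h6 := hw3 i (by omega)
      have h7 := (abs_le.1 (hg i i.2)).2
      obtain ⟨h8, h9⟩ := (hw i i.2).2 h5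
      refine ⟨Ge.sub h8 (h6.mono (by omega)), fun m hm => ?_⟩
      rw [Pi.sub_apply, HahnSeries.coeff_sub, h6 _ (by omega), sub_zero]
      exact h9 m hm

/-- Brute force search with witnesses in `B (-C)`, offset `L` and `M` digits. -/
def TabB (p : ℕ) (sh : List (List Sy)) (k n B : ℕ) (D : NP) (C L M : ℕ) : Prop :=
  ∃ y, y ∈ allL (allL (List.range p) M) (sz sh) ∧
    ((∀ v, v < sz sh → ∀ m, m < M → (v < k ∨ m < L - C) → (y.getD v []).getD m 0 = 0) ∧
      ∀ i, i < sh.length →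
        (((D.getD i (0, 0, [])).1 = 2 → ∀ m, m < L + C →
            (evD p L M y (sh.getD i [])).getD m 0 % p = 0) ∧
          ((D.getD i (0, 0, [])).1 = 1 →
            (∀ m, m < L + (D.getD i (0, 0, [])).2.1 - B →
              (evD p L M y (sh.getD i [])).getD m 0 % p = 0) ∧
            ∀ m, m < n → (evD p L M y (sh.getD i [])).getD (L + (D.getD i (0, 0, [])).2.1 - B + m) 0
              % p = (D.getD i (0, 0, [])).2.2.getD m 0 % p)))

theorem RTab_ge {L M K : ℕ} {d : List ℕ} {x : KK p} (h : Ge (-(L : ℤ)) x ∧ Rep L M d x)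
    (hK : K ≤ M) {a : ℤ} (ha : a = K - L) : Ge a x ↔ ∀ m, m < K → d.getD m 0 % p = 0 := by
  refine ⟨fun h1 m hm => ?_, fun h1 j hj => ?_⟩
  · rw [← Nat.dvd_iff_mod_eq_zero, ← ZMod.natCast_eq_zero_iff, ← h.2 m (by omega)]
    exact h1 _ (by omega)
  · rcases lt_or_ge j (-(L : ℤ)) with h2 | h2
    · exact h.1 j h2
    · obtain ⟨m, rfl⟩ : ∃ m : ℕ, j = m - L := ⟨(j + L).toNat, by omega⟩
      rw [h.2 m (by omega), ZMod.natCast_eq_zero_iff, Nat.dvd_iff_mod_eq_zero]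
      exact h1 m (by omega)

theorem RTab_key {L C n B g : ℕ} (hB : B ≤ L) (hg : g ≤ C) (hn : n ≤ C) (u : List ℕ) {d : List ℕ}
    {x : KK p} (h : Ge (-(L : ℤ)) x ∧ Rep L (L + 2 * C) d x) :
    (Ge C x ↔ ∀ m, m < L + C → d.getD m 0 % p = 0) ∧
      ((Ge ((g : ℤ) - B) x ∧ ∀ m : ℕ, m < n → x.coeff ((g : ℤ) - B + m) = (u.getD m 0 : ℕ)) ↔
        (∀ m, m < L + g - B → d.getD m 0 % p = 0) ∧
          ∀ m, m < n → d.getD (L + g - B + m) 0 % p = u.getD m 0 % p) := by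
  refine ⟨RTab_ge h (by omega) (by omega), and_congr (RTab_ge h (by omega) (by omega))
    (forall₂_congr fun m hm => ?_)⟩
  rw [← ZMod.natCast_eq_natCast_iff', ← h.2 _ (by omega),
    show ((L + g - B + m : ℕ) : ℤ) - L = g - B + m by omega]

theorem tab_iff_tabB : ∃ f : ℕ → ℕ, Cm f ∧ ∀ (sh : List (List Sy)) (k n B : ℕ) (D : NP) (x : ℕ),
    x = sz sh + n + B + (D.map fun e => e.2.1).sum →
    (Tab (GS p sh k) n (toPb p B D) ↔
      TabB p sh k n B D (f x) (p ^ x * f x) (p ^ x * f x + 2 * f x)) := by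
  obtain ⟨f, cf, hf⟩ := tab_bound (p := p)
  refine ⟨f, cf, fun sh k n B D x hx => ?_⟩
  have hg : ∀ i, (D.getD i (0, 0, [])).2.1 ≤ (D.map fun e => e.2.1).sum := fun i => by
    rcases lt_or_ge i D.length with hi | hi
    · rw [List.getD_eq_getElem _ _ hi]
      exact rcm_le_sum (List.mem_map_of_mem (List.getElem_mem hi))
    · rw [List.getD_eq_default _ _ hi]
      exact Nat.zero_le _
  have hC := cf.lt x
  have hL : f x ≤ p ^ x * f x := Nat.le_mul_of_pos_left _ (pp_pos x)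
  have hT : ∀ i, i < sh.length → p ^ (sh.getD i []).length * f x ≤ p ^ x * f x := fun i hi =>
    Nat.mul_le_mul_right _ (Nat.pow_le_pow_right hp.out.pos
      ((length_le_sz_of_mem (RTab_mem hi)).trans (by omega)))
  rw [hf sh k n x _ (by omega) (by omega) fun i _ => by
    have := hg i
    exact abs_le.2 ⟨by simp only [toPb]; omega, by simp only [toPb]; omega⟩]
  generalize p ^ x * f x = L at hL hT
  generalize f x = C at hC hL hT
  have key := fun (y : ℕ → KK p) (d : List (List ℕ)) hy hd i hi =>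
    RTab_key (n := n) (B := B) (g := (D.getD i (0, 0, [])).2.1) (by omega) (by have := hg i; omega)
      (by have := hg i; omega) (D.getD i (0, 0, [])).2.2
      (rep_ev (y := y) (d := d) (M := L + 2 * C) (by omega) (hT i hi) hy hd)
  constructor
  · rintro ⟨y, h1, h2, h3⟩
    choose d d1 d2 d3 using fun v => exists_digits L (L + 2 * C) (y v)
    have e1 : ∀ v, v < sz sh → ((List.range (sz sh)).map d).getD v [] = d v := fun v hv => by
      rw [List.getD_eq_getElem _ _ (by simpa using hv)]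
      simp
    have e2 : ∀ v, Rep L (L + 2 * C) (((List.range (sz sh)).map d).getD v []) (y v) := fun v => by
      rcases lt_or_ge v (sz sh) with hv | hv
      · rw [e1 v hv]
        exact d2 v
      · rw [List.getD_eq_default _ _ (by simpa using hv), h1 v (Or.inr hv)]
        intro m _
        simp
    refine ⟨(List.range (sz sh)).map d, mem_allL.2 ⟨by simp, fun b hb => ?_⟩,
      fun v hv m hm h4 => ?_, fun i hi => ?_⟩
    · obtain ⟨v, -, rfl⟩ := List.mem_map.1 hb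
      exact d1 v
    · rw [e1 v hv]
      refine d3 v m ?_
      rcases h4 with h4 | h4
      · rw [h1 v (Or.inl h4), HahnSeries.coeff_zero]
      · exact h2 v _ (by omega)
    · obtain ⟨k1, k2⟩ := key y _ h2 e2 i hi
      exact ⟨fun h => k1.1 ((h3 i hi).1 h), fun h => k2.1 ((h3 i hi).2 h)⟩
  · rintro ⟨d, h1, h2, h3⟩
    obtain ⟨h4, h5⟩ := mem_allL.1 h1
    have e1 : ∀ v, sz sh ≤ v → ∀ m, (d.getD v []).getD m 0 = 0 := fun v hv m => by
      rw [List.getD_eq_default d _ (by omega)]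
      rfl
    choose y y1 y2 y3 using fun v => exists_rep (p := p) L (L + 2 * C) (d.getD v []) hL
      fun m hm => (lt_or_ge v (sz sh)).elim (fun hv => h2 v hv m (by omega) (Or.inr hm))
        fun hv => e1 v hv m
    refine ⟨y, fun v hv => y3 v fun m => ?_, y1, fun i hi => ?_⟩
    · rcases lt_or_ge v (sz sh) with h6 | h6
      · rcases lt_or_ge m (L + 2 * C) with h7 | h7
        · exact h2 v h6 m h7 (Or.inl (by omega))
        · refine List.getD_eq_default _ _ ?_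
          rw [List.getD_eq_getElem d _ (by omega), (mem_allL.1 (h5 _ (List.getElem_mem _))).1]
          exact h7
      · exact e1 v h6 m
    · obtain ⟨k1, k2⟩ := key y _ y1 y2 i hi
      exact ⟨fun h => k1.2 ((h3 i hi).1 h), fun h => k2.2 ((h3 i hi).2 h)⟩

omit hp in
theorem RTab_cp_zero {α : Type} [Primcodable α] {d : α → List ℕ} {K : α → ℕ} (hd : CI ∅ d)
    (hK : CI ∅ K) : CP ∅ (fun a => ∀ m, m < K a → (d a).getD m 0 % p = 0) :=
  cp_allLt hK (by fun_prop)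

omit hp in
theorem RTab_cp_row : CP ∅ (fun q : (List ℕ × ℕ × ℕ × List ℕ) × (ℕ × ℕ) × ℕ × ℕ =>
    (q.1.2.1 = 2 → ∀ m, m < q.2.2.2 + q.2.2.1 → q.1.1.getD m 0 % p = 0) ∧
      (q.1.2.1 = 1 → (∀ m, m < q.2.2.2 + q.1.2.2.1 - q.2.1.2 → q.1.1.getD m 0 % p = 0) ∧
        ∀ m, m < q.2.1.1 → q.1.1.getD (q.2.2.2 + q.1.2.2.1 - q.2.1.2 + m) 0 % p =
          q.1.2.2.2.getD m 0 % p)) :=
  CP.and (CP.imp (by fun_prop) (RTab_cp_zero (by fun_prop) (by fun_prop)))
    (CP.imp (by fun_prop) (CP.and (RTab_cp_zero (by fun_prop) (by fun_prop))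
      (cp_allLt (by fun_prop) (by fun_prop))))

theorem RTab_cp : CP ∅ (fun q : ((List (List Sy) × ℕ) × (ℕ × ℕ) × NP) × ℕ × ℕ × ℕ =>
    TabB p q.1.1.1 q.1.1.2 q.1.2.1.1 q.1.2.1.2 q.1.2.2 q.2.1 q.2.2.1 q.2.2.2) := by
  have h0 : CI ∅ (fun q : ((((List (List Sy) × ℕ) × (ℕ × ℕ) × NP) × ℕ × ℕ × ℕ) ×
      List (List ℕ)) × ℕ =>
      ((q.1.1.2.2.1, q.1.1.2.2.2), q.1.2, q.1.1.1.1.1.getD q.2 [])) := by fun_prop
  have h1 := CI.comp _ _ (ci_evD (p := p)) h0
  have h2 : CI ∅ (fun q : ((((List (List Sy) × ℕ) × (ℕ × ℕ) × NP) × ℕ × ℕ × ℕ) ×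
      List (List ℕ)) × ℕ => q.1.1.1.2.2.getD q.2 (0, 0, [])) := by fun_prop
  have h3 : CI ∅ (fun q : ((((List (List Sy) × ℕ) × (ℕ × ℕ) × NP) × ℕ × ℕ × ℕ) ×
      List (List ℕ)) × ℕ => (q.1.1.1.2.1, q.1.1.2.1, q.1.1.2.2.1)) := by fun_prop
  have h4 := CP.comp _ _ (RTab_cp_row (p := p)) (CI.pair (CI.pair h1 h2) h3)
  unfold TabB
  refine CP.exMem (by fun_prop) (CP.and (cp_allLt (by fun_prop) (cp_allLt (by fun_prop)
    (CP.imp (by fun_prop) (by fun_prop)))) (cp_allLt (by fun_prop) ?_))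
  exact h4.congr fun _ => Iff.rfl

theorem cp_tab : CP ∅ (fun q : (List (List Sy) × ℕ) × (ℕ × ℕ) × NP =>
    Tab (GS p q.1.1 q.1.2) q.2.1.1 (toPb p q.2.1.2 q.2.2)) := by
  obtain ⟨f, cf, hf⟩ := tab_iff_tabB (p := p)
  have h1 := cf.ci
  have h2 : CI ∅ (fun q : (List (List Sy) × ℕ) × (ℕ × ℕ) × NP =>
      sz q.1.1 + q.2.1.1 + q.2.1.2 + (q.2.2.map fun e => e.2.1).sum) := by fun_prop
  have h3 : CI ∅ (fun q : ((List (List Sy) × ℕ) × (ℕ × ℕ) × NP) × ℕ =>
      (q.1, f q.2, p ^ q.2 * f q.2, p ^ q.2 * f q.2 + 2 * f q.2)) := by fun_prop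
  exact (CP.comp _ _ (CP.comp _ _ RTab_cp h3) (CI.pair CI.id' h2)).congr fun q =>
    (hf q.1.1 q.1.2 q.2.1.1 q.2.1.2 q.2.2 _ rfl).symm

end Pool.Agent.Work.MP_db9079_lc
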