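import Pool.Agent.Work.MP_db9079_lc.RLevel
import Pool.Agent.Work.MP_db9079_lc.RLevelEqs
import Pool.Agent.Work.MP_db9079_lc.RTab

/-!
Truth tables over all numerical codes, and their computability.
-/

namespace Pool.Agent.Work.MP_db9079_lc

open Pool.Agent.Lib.RelComp

/-- Truth tables: lists of levels with codes. -/
abbrev Tb : Type := List (ℕ × NP)

variable (p : ℕ) (f : ℕ → ℕ)

/-- All codes at all levels. -/
def univT (P : Par) : Tb :=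
  (List.range (P.2.1 + 1)).flatMap fun j => (cds f P p j).map fun D => (j, D)

/-- Table of an equation. -/
noncomputable def tZero (P : Par) (t : List Sy) : Tb :=
  filt (fun x => ZeroAt (shp f P x.1) (nn f P x.1) t (toPb p (bd f P 0) x.2)) (univT p f P)

/-- Table of an approximate multiplication. -/
noncomputable def tMul (P : Par) (m : ℕ) (t₁ t₂ t₃ : List Sy) : Tb :=
  filt (fun x => MulAt (shp f P x.1) (nn f P x.1) m t₁ t₂ t₃ (toPb p (bd f P 0) x.2)) (univT p f P)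

/-- Table of an implication. -/
noncomputable def tImp (P : Par) (T T' : Tb) : Tb := filt (fun x => x ∈ T → x ∈ T') (univT p f P)

theorem rrun_mem_univT (P : Par) (j : ℕ) (D : NP) :
    (j, D) ∈ univT p f P ↔ j ≤ P.2.1 ∧ D ∈ cds f P p j := by
  simp only [univT, List.mem_flatMap, List.mem_range, List.mem_map, Prod.mk.injEq]
  constructor
  · rintro ⟨i, hi, E, hE, rfl, rfl⟩
    exact ⟨by omega, hE⟩
  · rintro ⟨h1, h2⟩
    exact ⟨j, by omega, D, h2, rfl, rfl⟩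

theorem rrun_cast_sum (g : ℕ → ℕ) (n : ℕ) :
    ((((List.range n).map g).sum : ℕ) : ZMod p) = ∑ i ∈ Finset.range n, (g i : ZMod p) := by
  induction n with
  | zero => simp
  | succ n ih => rw [List.range_succ, List.map_append, List.sum_append, Nat.cast_add, ih,
      Finset.sum_range_succ]; simp
variable [hp : Fact p.Prime]

/-- Table of a universal quantifier. -/
noncomputable def tAll (P : Par) (T : Tb) : Tb :=
  filt (fun x => ∀ D' ∈ cds f P p (x.1 - 1),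
    Ext f P (x.1 - 1) (toPb p (bd f P 0) x.2) (toPb p (bd f P 0) D') → (x.1 - 1, D') ∈ T)
    (univT p f P)

/-- Table of a formula. -/
noncomputable def Fm.tb (P : Par) : Fm → Tb
  | .fal => []
  | .zero t => tZero p f P t
  | .mul m t₁ t₂ t₃ => tMul p f P m t₁ t₂ t₃
  | .imp φ ψ => tImp p f P (φ.tb P) (ψ.tb P)
  | .all φ => tAll p f P (φ.tb P)

variable {p f}

theorem Fm.mem_tb (P : Par) (φ : Fm) (j : ℕ) (D : NP) :
    (j, D) ∈ φ.tb p f P ↔ (j ≤ P.2.1 ∧ D ∈ cds f P p j) ∧ φ.Ev p f P j D := by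
  induction φ generalizing j D with
  | fal => simp [Fm.tb, Fm.Ev]
  | zero t => simp only [Fm.tb, Fm.Ev, tZero, mem_filt, rrun_mem_univT]
  | mul m t₁ t₂ t₃ => simp only [Fm.tb, Fm.Ev, tMul, mem_filt, rrun_mem_univT]
  | imp φ ψ ih₁ ih₂ =>
    simp only [Fm.tb, Fm.Ev, tImp, mem_filt, rrun_mem_univT, ih₁, ih₂]
    tauto
  | all φ ih =>
    simp only [Fm.tb, Fm.Ev, tAll, mem_filt, rrun_mem_univT, ih]
    refine and_congr_right fun h => forall₂_congr fun D' hD' => imp_congr_right fun _ => ?_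
    exact ⟨fun h' => h'.2, fun h' => ⟨⟨by omega, hD'⟩, h'⟩⟩

omit hp

theorem rrun_comp₀ {α σ : Type} [Primcodable α] [Primcodable σ] (F : Par → ℕ → σ)
    (hF : CI ∅ (fun q : Par × ℕ => F q.1 q.2)) (P : α → Par) (j : α → ℕ) (hP : CI ∅ P)
    (hj : CI ∅ j) : CI ∅ (fun a => F (P a) (j a)) :=
  CI.comp (fun q : Par × ℕ => F q.1 q.2) (fun a => (P a, j a)) hF (CI.pair hP hj)

theorem ci_shp (hf : CI ∅ f) : CI ∅ (fun q : Par × ℕ => shp f q.1 q.2) := by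
  refine CI.of_rec (F := fun (P : Par) j => shp f P j)
    (h := fun P j x => nextSh x (P.2.1 - j) (f (sz x + P.2.2))) ?_ ?_ (fun _ _ => rfl)
  · show CI ∅ (fun P : Par => P.1)
    fun_prop
  · fun_prop

theorem ci_nn (hf : CI ∅ f) : CI ∅ (fun q : Par × ℕ => nn f q.1 q.2) := by
  have h := ci_shp hf
  unfold nn
  exact CI.comp f _ hf (CI.add (ci_sz h) (by fun_prop))

theorem ci_ln (hf : CI ∅ f) : CI ∅ (fun q : Par × ℕ => ln f q.1 q.2) := by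
  unfold ln
  exact CI.mul (ci_nn hf) (CI.length (ci_shp hf))

theorem ci_kk (hf : CI ∅ f) : CI ∅ (fun q : Par × ℕ => kk f q.1 q.2) := by
  refine CI.of_rec (F := fun (P : Par) j => kk f P j)
    (h := fun P j x => f (x + ln f P j + sz (shp f P j) + sz (shp f P (j + 1)) + P.2.2))
    ((CI.const 3).congr fun P => by rw [kk]) ?_ (fun _ _ => by rw [kk])
  have h1 : CI ∅ (fun q : Par × ℕ × ℕ => ln f q.1 q.2.1) :=
    rrun_comp₀ (ln f) (ci_ln hf) (fun q : Par × ℕ × ℕ => q.1) (fun q => q.2.1)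
      (by fun_prop) (by fun_prop)
  have h2 : CI ∅ (fun q : Par × ℕ × ℕ => shp f q.1 q.2.1) :=
    rrun_comp₀ (shp f) (ci_shp hf) (fun q : Par × ℕ × ℕ => q.1) (fun q => q.2.1)
      (by fun_prop) (by fun_prop)
  have h3 : CI ∅ (fun q : Par × ℕ × ℕ => shp f q.1 (q.2.1 + 1)) :=
    rrun_comp₀ (shp f) (ci_shp hf) (fun q : Par × ℕ × ℕ => q.1) (fun q => q.2.1 + 1)
      (by fun_prop) (by fun_prop)
  exact CI.comp f _ hf (CI.add (CI.add (CI.add (CI.add (by fun_prop) h1) (ci_sz h2)) (ci_sz h3))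
    (by fun_prop))

theorem ci_bd (hf : CI ∅ f) : CI ∅ (fun q : Par × ℕ => bd f q.1 q.2) := by
  have h1 : CI ∅ (fun q : (Par × ℕ) × ℕ => kk f q.1.1 q.2) :=
    rrun_comp₀ (kk f) (ci_kk hf) (fun q : (Par × ℕ) × ℕ => q.1.1) (fun q => q.2)
      (by fun_prop) (by fun_prop)
  have h2 : CI ∅ (fun q : Par × ℕ => (List.range (q.1.2.1 + 1)).map (kk f q.1)) :=
    CI.map (g := fun (q : Par × ℕ) i => kk f q.1 i) (by fun_prop) h1
  unfold bd
  exact ci_pow (CI.add (CI.mul (CI.const _) (ci_sum h2)) (CI.const _)) (by fun_prop)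

theorem ci_cds (hf : CI ∅ f) : CI ∅ (fun q : Par × ℕ => cds f q.1 p q.2) := by
  have h0 : CI ∅ (fun q : Par × ℕ => bd f q.1 0) :=
    rrun_comp₀ (bd f) (ci_bd hf) (fun q : Par × ℕ => q.1) (fun _ => 0)
      (by fun_prop) (by fun_prop)
  have hc : CI ∅ (fun q : (ℕ × ℕ) × ℕ × ℕ => codes p q.1.1 q.1.2 q.2.1 q.2.2) := by
    unfold codes
    fun_prop
  unfold cds
  exact CI.comp (fun q : (ℕ × ℕ) × ℕ × ℕ => codes p q.1.1 q.1.2 q.2.1 q.2.2)
    (fun q : Par × ℕ => ((q.1.2.2, bd f q.1 0), bd f q.1 q.2, ln f q.1 q.2)) hc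
    (CI.pair (CI.pair (by fun_prop) h0) (CI.pair (ci_bd hf) (ci_ln hf)))

theorem ci_univT (hf : CI ∅ f) : CI ∅ (univT p f) := by
  unfold univT
  exact CI.flatMap (l := fun P : Par => List.range (P.2.1 + 1))
    (g := fun P j => (cds f P p j).map fun D => (j, D)) (by fun_prop)
    (CI.map (g := fun (q : Par × ℕ) (D : NP) => (q.2, D)) (ci_cds hf) (by fun_prop))

theorem ci_topCode (hf : CI ∅ f) : CI ∅ (topCode f) := by
  have h0 : CI ∅ (fun P : Par => bd f P 0) :=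
    rrun_comp₀ (bd f) (ci_bd hf) (fun P : Par => P) (fun _ => 0) (by fun_prop) (by fun_prop)
  have h1 : CI ∅ (fun P : Par => ln f P P.2.1) :=
    rrun_comp₀ (ln f) (ci_ln hf) (fun P : Par => P) (fun P => P.2.1) (by fun_prop) (by fun_prop)
  unfold topCode
  exact ci_replicate h1 (CI.pair (CI.const _) (CI.pair h0 (by fun_prop)))

theorem cp_zeroAt : CP ∅ (fun q : (List (List Sy) × ℕ) × List Sy × ℕ × NP =>
    ZeroAt q.1.1 q.1.2 q.2.1 (toPb p q.2.2.1 q.2.2.2)) := by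
  unfold ZeroAt toPb
  fun_prop

theorem rrun_zeroAt {α : Type} [Primcodable α] {sh : α → List (List Sy)} {N B : α → ℕ}
    {t : α → List Sy} {D : α → NP} (h1 : CI ∅ sh) (h2 : CI ∅ N) (h3 : CI ∅ B) (h4 : CI ∅ t)
    (h5 : CI ∅ D) : CP ∅ (fun a => ZeroAt (sh a) (N a) (t a) (toPb p (B a) (D a))) :=
  CP.comp _ (fun a => ((sh a, N a), t a, B a, D a)) (cp_zeroAt (p := p))
    (CI.pair (CI.pair h1 h2) (CI.pair h4 (CI.pair h3 h5)))

theorem cp_leadAt : CP ∅ (fun q : ((List (List Sy) × ℕ) × List Sy × ℕ × NP) × ℕ =>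
    LeadAt q.1.1.1 q.1.1.2 q.1.2.1 (toPb p q.1.2.2.1 q.1.2.2.2) q.2) := by
  have : CP ∅ (fun q : ((List (List Sy) × ℕ) × List Sy × ℕ × NP) × ℕ =>
      ∃ i, i < q.1.1.1.length ∧ (q.1.1.1.getD i [] = q.1.2.1 ∧ ∃ j, j < q.1.1.2 ∧
        (q.2 = j * q.1.1.1.length + i ∧ (q.1.2.2.2.getD q.2 (0, 0, [])).1 = 1 ∧
          ¬ ((q.1.2.2.2.getD q.2 (0, 0, [])).2.2.getD 0 0 % p = 0)))) := by
    fun_prop
  refine this.congr fun q => ?_
  simp only [LeadAt, toPb, ne_eq, ZMod.natCast_eq_zero_iff, Nat.dvd_iff_mod_eq_zero]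

theorem rrun_leadAt {α : Type} [Primcodable α] {sh : α → List (List Sy)} {N B x : α → ℕ}
    {t : α → List Sy} {D : α → NP} (h1 : CI ∅ sh) (h2 : CI ∅ N) (h3 : CI ∅ B) (h4 : CI ∅ t)
    (h5 : CI ∅ D) (h6 : CI ∅ x) :
    CP ∅ (fun a => LeadAt (sh a) (N a) (t a) (toPb p (B a) (D a)) (x a)) :=
  CP.comp _ (fun a => (((sh a, N a), t a, B a, D a), x a)) (cp_leadAt (p := p))
    (CI.pair (CI.pair (CI.pair h1 h2) (CI.pair h4 (CI.pair h3 h5))) h6)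

theorem cp_mulAt : CP ∅ (fun q : (List (List Sy) × ℕ × ℕ) × (List Sy × List Sy × List Sy) × ℕ × NP =>
    MulAt q.1.1 q.1.2.1 q.1.2.2 q.2.1.1 q.2.1.2.1 q.2.1.2.2 (toPb p q.2.2.1 q.2.2.2)) := by
  have hN : CP ∅ (fun q : (ℕ × ℕ × NP) × ℕ × ℕ × ℕ =>
      (q.1.1 = 0 ∧ (toPb p q.1.2.1 q.1.2.2).g q.2.1 + (toPb p q.1.2.1 q.1.2.2).g q.2.2.1 ≤
        (toPb p q.1.2.1 q.1.2.2).g q.2.2.2) ∨
      (0 < q.1.1 ∧ (toPb p q.1.2.1 q.1.2.2).g q.2.2.2 = (toPb p q.1.2.1 q.1.2.2).g q.2.1 +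
        (toPb p q.1.2.1 q.1.2.2).g q.2.2.1 ∧ ∀ e, e < q.1.1 →
          (toPb p q.1.2.1 q.1.2.2).u q.2.2.2 e = ∑ i ∈ Finset.range (e + 1),
            (toPb p q.1.2.1 q.1.2.2).u q.2.1 i * (toPb p q.1.2.1 q.1.2.2).u q.2.2.1 (e - i))) := by
    have h1 : CP ∅ (fun q : (ℕ × ℕ × NP) × ℕ × ℕ × ℕ =>
        (q.1.2.2.getD q.2.1 (0, 0, [])).2.1 + (q.1.2.2.getD q.2.2.1 (0, 0, [])).2.1 ≤
          (q.1.2.2.getD q.2.2.2 (0, 0, [])).2.1 + q.1.2.1) := by fun_prop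
    have h2 : CP ∅ (fun q : (ℕ × ℕ × NP) × ℕ × ℕ × ℕ =>
        (q.1.2.2.getD q.2.1 (0, 0, [])).2.1 + (q.1.2.2.getD q.2.2.1 (0, 0, [])).2.1 =
          (q.1.2.2.getD q.2.2.2 (0, 0, [])).2.1 + q.1.2.1) := by fun_prop
    have h3 : CP ∅ (fun q : (ℕ × ℕ × NP) × ℕ × ℕ × ℕ => ∀ e, e < q.1.1 →
        (q.1.2.2.getD q.2.2.2 (0, 0, [])).2.2.getD e 0 % p =
          ((List.range (e + 1)).map fun i => (q.1.2.2.getD q.2.1 (0, 0, [])).2.2.getD i 0 *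
            (q.1.2.2.getD q.2.2.1 (0, 0, [])).2.2.getD (e - i) 0).sum % p) :=
      cp_allLt (by fun_prop) (by fun_prop)
    refine CP.or (CP.and (by fun_prop) (h1.congr fun q => ?_))
      (CP.and (by fun_prop) (CP.and (h2.congr fun q => ?_) (h3.congr fun q => ?_)))
    · simp only [toPb]
      omega
    · simp only [toPb]
      omega
    · refine forall_congr' fun e => imp_congr_right fun _ => ?_
      rw [← ZMod.natCast_eq_natCast_iff', rrun_cast_sum]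
      simp only [toPb, Nat.cast_mul]
  unfold MulAt
  refine CP.or (CP.and (CP.or (rrun_zeroAt ?_ ?_ ?_ ?_ ?_) (rrun_zeroAt ?_ ?_ ?_ ?_ ?_))
    (rrun_zeroAt ?_ ?_ ?_ ?_ ?_)) (CP.exLt ?_ (CP.exLt ?_ (CP.and (rrun_leadAt ?_ ?_ ?_ ?_ ?_ ?_)
      (CP.and (rrun_leadAt ?_ ?_ ?_ ?_ ?_ ?_) (CP.or (CP.and ?_ (rrun_zeroAt ?_ ?_ ?_ ?_ ?_))
        (CP.exLt ?_ (CP.and (rrun_leadAt ?_ ?_ ?_ ?_ ?_ ?_)
        (CP.comp _ (fun q : ((((List (List Sy) × ℕ × ℕ) × (List Sy × List Sy × List Sy) × ℕ × NP)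
          × ℕ) × ℕ) × ℕ => ((q.1.1.1.1.2.2, q.1.1.1.2.2.1, q.1.1.1.2.2.2), q.1.1.2, q.1.2, q.2))
          hN ?_))))))))
  all_goals fun_prop

theorem rrun_mulAt {α : Type} [Primcodable α] {sh : α → List (List Sy)} {N B m : α → ℕ}
    {t₁ t₂ t₃ : α → List Sy} {D : α → NP} (h1 : CI ∅ sh) (h2 : CI ∅ N) (h3 : CI ∅ B)
    (hm : CI ∅ m) (k₁ : CI ∅ t₁) (k₂ : CI ∅ t₂) (k₃ : CI ∅ t₃) (h5 : CI ∅ D) :
    CP ∅ (fun a => MulAt (sh a) (N a) (m a) (t₁ a) (t₂ a) (t₃ a) (toPb p (B a) (D a))) :=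
  CP.comp _ (fun a => ((sh a, N a, m a), (t₁ a, t₂ a, t₃ a), B a, D a)) (cp_mulAt (p := p))
    (CI.pair (CI.pair h1 (CI.pair h2 hm)) (CI.pair (CI.pair k₁ (CI.pair k₂ k₃)) (CI.pair h3 h5)))

theorem rrun_comp {α σ : Type} [Primcodable α] [Primcodable σ] {F : Par → ℕ → σ}
    (hF : CI ∅ (fun q : Par × ℕ => F q.1 q.2)) {P : α → Par} {j : α → ℕ} (hP : CI ∅ P)
    (hj : CI ∅ j) : CI ∅ (fun a => F (P a) (j a)) :=
  CI.comp _ (fun a => (P a, j a)) hF (CI.pair hP hj)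

theorem ci_tZero (hf : CI ∅ f) : CI ∅ (fun q : Par × List Sy => tZero p f q.1 q.2) := by
  unfold tZero
  refine ci_filt (CI.comp (univT p f) _ (ci_univT hf) (by fun_prop))
    (rrun_zeroAt (rrun_comp (F := shp f) (ci_shp hf) ?_ ?_)
      (rrun_comp (F := nn f) (ci_nn hf) ?_ ?_) (rrun_comp (F := bd f) (ci_bd hf) ?_ ?_) ?_ ?_)
  all_goals fun_prop

theorem ci_tMul (hf : CI ∅ f) : CI ∅ (fun q : (Par × ℕ) × List Sy × List Sy × List Sy =>
    tMul p f q.1.1 q.1.2 q.2.1 q.2.2.1 q.2.2.2) := by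
  unfold tMul
  refine ci_filt (CI.comp (univT p f) _ (ci_univT hf) (by fun_prop))
    (rrun_mulAt (rrun_comp (F := shp f) (ci_shp hf) ?_ ?_)
      (rrun_comp (F := nn f) (ci_nn hf) ?_ ?_) (rrun_comp (F := bd f) (ci_bd hf) ?_ ?_)
      ?_ ?_ ?_ ?_ ?_)
  all_goals fun_prop

theorem ci_tImp (hf : CI ∅ f) : CI ∅ (fun q : Par × Tb × Tb => tImp p f q.1 q.2.1 q.2.2) := by
  exact ci_filt (CI.comp _ (fun q : Par × Tb × Tb => q.1) (ci_univT hf) (by fun_prop))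
    (CP.imp (by fun_prop) (by fun_prop))

end Pool.Agent.Work.MP_db9079_lc
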