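import Pool.Agent.Work.MP_db9079_lc.RLift

/-!
Transfer of windows, types of cut vectors, splitting at gaps.
-/

namespace Pool.Agent.Work.MP_db9079_lc

variable {p : ℕ} [hp : Fact p.Prime] {ι : Type}

/-- Every family of `n` leading digits realised in `G` at the cuts `γ` is realised at `γ'`
(only the coordinates in `A` matter). -/
def Tr (G : Set (ι → KK p)) (n : ℕ) (A : Finset ι) (γ γ' : ι → ℤ) : Prop :=
  ∀ x ∈ G, (∀ i ∈ A, Ge (γ i) (x i)) → ∃ x' ∈ G, ∀ i ∈ A, Ge (γ' i) (x' i) ∧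
    ∀ m : ℕ, m < n → (x' i).coeff (γ' i + m) = (x i).coeff (γ i + m)

/-- Same congruences and same position with respect to the small walls. -/
def CT (c : ℕ) (A : Finset ι) (γ γ' : ι → ℤ) : Prop :=
  (∀ a ∈ A, γ a ≡ γ' a [ZMOD (c.factorial : ℤ)]) ∧ ∀ a ∈ A, ∀ b ∈ A, ∀ l m : ℕ, l ≤ c → m ≤ c →
    ∀ e : ℤ, |e| ≤ c → (e ≤ l * γ a - m * γ b ↔ e ≤ l * γ' a - m * γ' b)

/-- Each cut except the smallest is not separated from some smaller cut. -/
def NoGap (Sep : ℤ → ℤ → Prop) (n : ℕ) (A : Finset ι) (γ : ι → ℤ) : Prop :=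
  ∀ b ∈ A, (∃ a ∈ A, γ a < γ b) → ∃ a ∈ A, γ a < γ b ∧ ¬ Sep (γ a + n) (γ b)

variable {c c' : ℕ} {A A' : Finset ι} {γ γ' γ'' : ι → ℤ}

theorem CT.refl (c : ℕ) (A : Finset ι) (γ : ι → ℤ) : CT c A γ γ :=
  ⟨fun _ _ => Int.ModEq.refl _, fun _ _ _ _ _ _ _ _ _ _ => Iff.rfl⟩

theorem CT.symm (h : CT c A γ γ') : CT c A γ' γ :=
  ⟨fun a ha => (h.1 a ha).symm,
    fun a ha b hb l m hl hm e he => (h.2 a ha b hb l m hl hm e he).symm⟩

theorem CT.trans (h : CT c A γ γ') (h' : CT c A γ' γ'') : CT c A γ γ'' :=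
  ⟨fun a ha => (h.1 a ha).trans (h'.1 a ha), fun a ha b hb l m hl hm e he =>
    (h.2 a ha b hb l m hl hm e he).trans (h'.2 a ha b hb l m hl hm e he)⟩

theorem CT.mono (h : CT c A γ γ') (hc : c' ≤ c) (hA : A' ⊆ A) : CT c' A' γ γ' := by
  refine ⟨fun a ha => (h.1 a (hA ha)).of_dvd ?_, fun a ha b hb l m hl hm e he =>
    h.2 a (hA ha) b (hA hb) l m (hl.trans hc) (hm.trans hc) e (he.trans (by exact_mod_cast hc))⟩
  exact_mod_cast Nat.factorial_dvd_factorial hc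

theorem RSplit_le_iff (h : CT c A γ γ') (h1 : 0 < c) {a : ι} (ha : a ∈ A) {e : ℤ}
    (he : |e| ≤ c) : (e ≤ γ a ↔ e ≤ γ' a) ∧ (γ a ≤ e ↔ γ' a ≤ e) := by
  have h2 := h.2 a ha a ha 1 0 h1 (Nat.zero_le _) e he
  have h3 := h.2 a ha a ha 0 1 (Nat.zero_le _) h1 (-e) (by rwa [abs_neg])
  push_cast at h2 h3
  constructor
  · simpa using h2
  · simpa using h3

theorem RSplit_sub (h : CT c A γ γ') (h1 : 0 < c) {a b : ι} (ha : a ∈ A) (hb : b ∈ A) {e : ℤ}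
    (he : |e| ≤ c) : e ≤ γ a - γ b ↔ e ≤ γ' a - γ' b := by
  simpa using h.2 a ha b hb 1 1 h1 h1 e he

theorem CT.eq_of_abs_le (h : CT c A γ γ') {a : ι} (ha : a ∈ A) (hb : |γ a| < c) :
    γ' a = γ a := by
  have h1 : 0 < c := by
    have := abs_nonneg (γ a)
    omega
  obtain ⟨h2, h3⟩ := RSplit_le_iff h h1 ha hb.le
  exact le_antisymm (h3.1 le_rfl) (h2.1 le_rfl)

theorem CT.le_iff (h : CT c A γ γ') (h1 : 0 < c) {a : ι} (ha : a ∈ A) {e : ℤ} (he : |e| ≤ c) :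
    (e ≤ γ a ↔ e ≤ γ' a) ∧ (γ a ≤ e ↔ γ' a ≤ e) :=
  RSplit_le_iff h h1 ha he

theorem CT.sub_eq (h : CT c A γ γ') {a b : ι} (ha : a ∈ A) (hb : b ∈ A) (hab : |γ a - γ b| < c) :
    γ' a - γ' b = γ a - γ b := by
  have h1 : 0 < c := by
    have := abs_nonneg (γ a - γ b)
    omega
  have h2 := (RSplit_sub h h1 ha hb hab.le).1 le_rfl
  have h3 := (RSplit_sub h h1 hb ha (e := γ b - γ a) (by rw [abs_sub_comm]; exact hab.le)).1 le_rfl
  omega

theorem CT.far {d n : ℕ} (h : CT c A γ γ') (hc : d * (n + d) + n + d ≤ c) (h1 : 0 < c) {a b : ι}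
    (ha : a ∈ A) (hb : b ∈ A) (hf : Far d (γ a + n) (γ b)) : Far d (γ' a + n) (γ' b) := by
  have hd : d ≤ c := by omega
  have hc' : (d : ℤ) * (n + d) + n + d ≤ c := by exact_mod_cast hc
  have h0 : (0 : ℤ) ≤ d * (n + d) := by positivity
  have h2 := (h.2 b hb a ha d 1 hd h1 (n + d)
    (by rw [abs_of_nonneg (by positivity)]; linarith)).1 (by push_cast; linarith [hf.1])
  have h3 := (h.2 b hb a ha 1 d h1 hd (d * (n + d))
    (by rw [abs_of_nonneg h0]; omega)).1 (by push_cast; linarith [hf.2])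
  push_cast at h2 h3
  exact ⟨by linarith, by linarith⟩

theorem CT.subtype (h : CT c A γ γ') :
    CT c (Finset.univ : Finset A) (fun a => γ a) (fun a => γ' a) :=
  ⟨fun a _ => h.1 a a.2, fun a _ b _ => h.2 a a.2 b b.2⟩

theorem Tr.of_eq (G : Set (ι → KK p)) (n : ℕ) (h : ∀ a ∈ A, γ' a = γ a) : Tr G n A γ γ' := by
  intro x hx h1
  refine ⟨x, hx, fun i hi => ?_⟩
  rw [h i hi]
  exact ⟨h1 i hi, fun _ _ => rfl⟩

theorem Tr.of_res {G : Set (ι → KK p)} {n : ℕ}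
    (h : Tr (res (fun a : A => (a : ι)) G) n Finset.univ (fun a => γ a) (fun a => γ' a)) :
    Tr G n A γ γ' := by
  intro x hx h1
  obtain ⟨y, ⟨x', hx', e⟩, h2⟩ := h (fun a : A => x a) ⟨x, hx, fun _ => rfl⟩ fun i _ => h1 i i.2
  refine ⟨x', hx', fun i hi => ?_⟩
  have h3 := h2 ⟨i, hi⟩ (Finset.mem_univ _)
  rw [e] at h3
  exact h3

theorem Close.tr [Fintype ι] {G V : Set (ι → KK p)} {n : ℕ} {β α β' α' : ℤ} (h : Close G V β α)
    (h' : Close G V β' α') (hγ : ∀ i, β ≤ γ i ∧ γ i + n ≤ α) (hγ' : ∀ i, β' ≤ γ' i ∧ γ' i + n ≤ α')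
    (hV : Tr V n Finset.univ γ γ') : Tr G n Finset.univ γ γ' := by
  intro x hx h1
  obtain ⟨v, hv, h2⟩ := h.1 x hx fun i => (h1 i (Finset.mem_univ _)).mono (hγ i).1
  obtain ⟨v', hv', h3⟩ := hV v hv fun i hi => by
    have := hγ i
    simpa using (h1 i hi).sub ((h2 i).mono (by omega))
  obtain ⟨g, hg, h4⟩ := h'.2 v' hv' fun i => (h3 i (Finset.mem_univ _)).1.mono (hγ' i).1
  refine ⟨g, hg, fun i hi => ⟨?_, fun m hm => ?_⟩⟩
  · have := hγ' i
    simpa using ((h4 i).mono (by omega)).add (h3 i hi).1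
  · have h5 := hγ i
    have h6 := hγ' i
    rw [(h4 i).coeff_eq (by omega), (h3 i hi).2 m hm, (h2 i).coeff_eq (by omega)]

theorem split_ind {G : Set (ι → KK p)} (hG : IsGrp G) (Sep : ℤ → ℤ → Prop)
    (hmono : ∀ α β β', β ≤ β' → Sep α β → Sep α β')
    (hl : ∀ (Z : ι → Prop) (α β : ℤ), Sep α β → Lft (zer Z G) α β) (n : ℕ) (A₀ : Finset ι)
    (γ γ' : ι → ℤ)
    (hinv : ∀ a ∈ A₀, ∀ b ∈ A₀, Sep (γ a + n) (γ b) → Sep (γ' a + n) (γ' b))
    (hbase : ∀ (Z : ι → Prop) (A : Finset ι), A ⊆ A₀ → NoGap Sep n A γ → Tr (zer Z G) n A γ γ')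
    (Z : ι → Prop) (A : Finset ι) (hA : A ⊆ A₀) : Tr (zer Z G) n A γ γ' := by
  classical
  induction A using Finset.strongInductionOn generalizing Z with
  | _ A ih =>
  by_cases hN : NoGap Sep n A γ
  · exact hbase Z A hA hN
  simp only [NoGap, not_forall, not_exists, not_and, not_not] at hN
  obtain ⟨b, hb, ⟨a₁, ha₁, ha₁'⟩, hsep⟩ := hN
  set L := A.filter fun a => γ a < γ b with hL
  set H := A.filter fun a => γ b ≤ γ a with hH
  have mL : ∀ i, i ∈ L ↔ i ∈ A ∧ γ i < γ b := fun i => Finset.mem_filter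
  have mH : ∀ i, i ∈ H ↔ i ∈ A ∧ γ b ≤ γ i := fun i => Finset.mem_filter
  have bH : b ∈ H := (mH b).2 ⟨hb, le_rfl⟩
  have aL : a₁ ∈ L := (mL a₁).2 ⟨ha₁, ha₁'⟩
  have nH : ∀ i ∈ L, i ∉ H := fun i h1 h2 => absurd ((mH i).1 h2).2 (not_le.2 ((mL i).1 h1).2)
  have sL : L ⊂ A := Finset.filter_ssubset.2 ⟨b, hb, lt_irrefl _⟩
  have sH : H ⊂ A := Finset.filter_ssubset.2 ⟨a₁, ha₁, not_le.2 ha₁'⟩
  intro x hx h1
  obtain ⟨a₀, ha₀, hmax⟩ := L.exists_max_image γ ⟨a₁, aL⟩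
  obtain ⟨x₁, hx₁, e₁, g₁⟩ := hl Z _ _ (hsep a₀ ((mL _).1 ha₀).1 ((mL _).1 ha₀).2)
    (fun i => i ∈ H) x hx fun i hi => (h1 i ((mH i).1 hi).1).mono ((mH i).1 hi).2
  obtain ⟨x₀', hx₀', g₀⟩ := ih L sL (fun i => Z i ∨ i ∈ H) (sL.subset.trans hA) (x - x₁)
    ⟨hG.sub_mem hx.1 hx₁.1, fun i hi => by
      rcases hi with hi | hi
      · rw [Pi.sub_apply, hx.2 i hi, hx₁.2 i hi, sub_zero]
      · rw [Pi.sub_apply, e₁ i hi, sub_self]⟩
    fun i hi => by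
      have := hmax i hi
      exact (h1 i ((mL i).1 hi).1).sub ((g₁ i (nH i hi)).mono (by omega))
  obtain ⟨x₁', hx₁', g₂⟩ := ih H sH Z (sH.subset.trans hA) x hx fun i hi => h1 i ((mH i).1 hi).1
  obtain ⟨a₀', ha₀', hmax'⟩ := L.exists_max_image γ' ⟨a₁, aL⟩
  obtain ⟨b₀', hb₀', hmin'⟩ := H.exists_min_image γ' ⟨b, bH⟩
  have h2 : Sep (γ' a₀' + n) (γ' b₀') :=
    hinv a₀' (hA ((mL _).1 ha₀').1) b₀' (hA ((mH _).1 hb₀').1)
      (hmono _ _ _ ((mH _).1 hb₀').2 (hsep a₀' ((mL _).1 ha₀').1 ((mL _).1 ha₀').2))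
  obtain ⟨x₂, hx₂, e₂, g₃⟩ := hl Z _ _ h2 (fun i => i ∈ H) x₁' hx₁'
    fun i hi => (g₂ i hi).1.mono (hmin' i hi)
  refine ⟨x₀' + x₂, ⟨hG.add_mem hx₀'.1 hx₂.1, fun i hi => ?_⟩, fun i hi => ?_⟩
  · rw [Pi.add_apply, hx₀'.2 i (Or.inl hi), hx₂.2 i hi, add_zero]
  · rw [Pi.add_apply]
    by_cases hi' : γ i < γ b
    · have h3 := (mL i).2 ⟨hi, hi'⟩
      have h4 := hmax i h3
      have h5 := hmax' i h3
      refine ⟨(g₀ i h3).1.add ((g₃ i (nH i h3)).mono (by omega)), fun m hm => ?_⟩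
      rw [HahnSeries.coeff_add, (g₀ i h3).2 m hm, g₃ i (nH i h3) _ (by omega), add_zero,
        Pi.sub_apply, HahnSeries.coeff_sub, g₁ i (nH i h3) _ (by omega), sub_zero]
    · have h3 := (mH i).2 ⟨hi, not_lt.1 hi'⟩
      rw [hx₀'.2 i (Or.inr h3), zero_add, e₂ i h3]
      exact g₂ i h3

theorem chain {Sep : ℤ → ℤ → Prop} {n : ℕ} (h : NoGap Sep n A γ) {a₀ : ι}
    (hmin : ∀ a ∈ A, γ a₀ ≤ γ a) (Q : ℕ → ℤ → Prop) (h0 : Q 0 (γ a₀))
    (hmono : ∀ i y, Q i y → Q (i + 1) y)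
    (hstep : ∀ i x y, Q i x → x < y → ¬ Sep (x + n) y → Q (i + 1) y) (ha₀ : a₀ ∈ A) :
    ∀ b ∈ A, Q A.card (γ b) := by
  classical
  have hm : ∀ i j y, i ≤ j → Q i y → Q j y := fun i j y hij hq => by
    induction j, hij using Nat.le_induction with
    | base => exact hq
    | succ j _ ih => exact hmono _ _ ih
  have key : ∀ k, ∀ b ∈ A, (A.filter fun a => γ a < γ b).card = k → Q k (γ b) := by
    intro k
    induction k using Nat.strong_induction_on with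
    | _ k ih =>
    intro b hb hk
    by_cases h1 : ∃ a ∈ A, γ a < γ b
    · obtain ⟨a, ha, h2, h3⟩ := h b hb h1
      have h4 : (A.filter fun x => γ x < γ a).card < k := by
        rw [← hk]
        refine Finset.card_lt_card ⟨fun x hx => ?_, fun e => ?_⟩
        · rw [Finset.mem_filter] at hx ⊢
          exact ⟨hx.1, hx.2.trans h2⟩
        · exact lt_irrefl _ (Finset.mem_filter.1 (e (Finset.mem_filter.2 ⟨ha, h2⟩))).2
      exact hm _ _ _ h4 (hstep _ _ _ (ih _ h4 a ha rfl) h2 h3)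
    · have h2 : γ b = γ a₀ := le_antisymm (not_lt.1 fun e => h1 ⟨a₀, ha₀, e⟩) (hmin b hb)
      rw [h2]
      exact hm _ _ _ (Nat.zero_le _) h0
  exact fun b hb => hm _ _ _ (Finset.card_filter_le _ _) (key _ b hb rfl)

theorem RSplit_step {d n : ℕ} (hd : 0 < d) {x y D : ℤ} (hD : D = (d + 1) * (n + d + 1))
    (hxy : x < y) (hf : ¬ Far d (x + n) y) :
    |y| + 1 ≤ D * (|x| + 1) ∧ |x| + 1 ≤ D * (|y| + 1) ∧ (x < 0 → 0 ≤ y → |x| + 1 ≤ D) := by
  have h1 : (1 : ℤ) ≤ d := by exact_mod_cast hd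
  have h2 : (0 : ℤ) ≤ n := by positivity
  rw [Far, not_and_or, not_le, not_le] at hf
  generalize (d : ℤ) = e at *
  generalize (n : ℤ) = k at *
  have h3 : 0 ≤ e * k := by positivity
  have h4 : e * (k + e) + k + e + 1 ≤ D := by rw [hD]; nlinarith
  have h5 : 0 ≤ e * (k + e) := by positivity
  have h6 : ∀ u : ℤ, 0 ≤ u → e * u + e * (k + e) + k + e + 1 ≤ D * (u + 1) := fun u hu => by
    have := mul_le_mul_of_nonneg_right (show e ≤ D by linarith) hu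
    linarith
  have h7 : ∀ u : ℤ, 0 ≤ u → u ≤ e * u := fun u hu => by nlinarith
  have hx := h6 _ (abs_nonneg x)
  have hy := h6 _ (abs_nonneg y)
  have hx' := h7 _ (abs_nonneg x)
  have hy' := h7 _ (abs_nonneg y)
  rcases lt_or_ge x 0 with a1 | a1 <;> rcases lt_or_ge y 0 with a2 | a2
  · rw [abs_of_neg a1, abs_of_neg a2] at *
    refine ⟨by linarith, ?_, fun _ h => absurd h (not_le.2 a2)⟩
    rcases hf with hf | hf <;> linarith
  · rw [abs_of_neg a1, abs_of_nonneg a2] at *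
    have h8 : -x ≤ k + e := by
      rcases hf with hf | hf
      · linarith
      · have : 0 < x + k + e := by
          by_contra h9
          have := mul_nonpos_of_nonneg_of_nonpos (show 0 ≤ e by linarith) (not_lt.1 h9)
          linarith
        linarith
    refine ⟨?_, by linarith, fun _ _ => by linarith⟩
    rcases hf with hf | hf <;> linarith
  · exact absurd hxy (by linarith)
  · rw [abs_of_nonneg a1, abs_of_nonneg a2] at *
    refine ⟨?_, by linarith, fun h => absurd h (not_lt.2 a1)⟩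
    rcases hf with hf | hf <;> linarith

/-- Shape of a family of cuts without a large gap. -/
theorem nogap_far : ∃ f : ℕ → ℕ, Cm f ∧ ∀ (ι : Type) (s d n : ℕ) (A : Finset ι) (γ : ι → ℤ),
    0 < d → d ≤ s → n ≤ s → A.card ≤ s → NoGap (Far d) n A γ →
    (∀ a ∈ A, ∀ b ∈ A, |γ a| + 1 ≤ f s * (|γ b| + 1)) ∧
      ((∀ a ∈ A, γ a < 0) ∨ (∀ a ∈ A, 0 ≤ γ a) ∨ ∀ a ∈ A, |γ a| ≤ f s) := by
  obtain ⟨f, hf, hg⟩ := exists_cm (g := fun s => ((s + 1) * (s + s + 1)) ^ (s + s + 1))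
    (by fun_prop)
  refine ⟨f, hf, fun ι s d n A γ hd hds hns hA h => ?_⟩
  rcases A.eq_empty_or_nonempty with rfl | hne
  · simp
  obtain ⟨a₀, ha₀, hmin⟩ := A.exists_min_image γ hne
  obtain ⟨D, hD⟩ : ∃ D : ℤ, D = (d + 1) * (n + d + 1) := ⟨_, rfl⟩
  have h1 : 1 ≤ D := by
    rw [hD]
    exact one_le_mul_of_one_le_of_one_le (by omega) (by omega)
  have h0 : 0 ≤ D := by linarith
  have h2 : ∀ i j, i ≤ j → D ^ i ≤ D ^ j := fun i j e => pow_le_pow_right₀ h1 e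
  have h3 : D ^ (s + s + 1) ≤ f s := by
    have e1 : (((s + 1) * (s + s + 1)) ^ (s + s + 1) : ℤ) ≤ f s := by exact_mod_cast hg s s le_rfl
    refine le_trans (pow_le_pow_left₀ h0 ?_ _) e1
    rw [hD]
    exact mul_le_mul (by omega) (by omega) (by positivity) (by positivity)
  have h4 := chain h hmin (fun i y => |y| + 1 ≤ D ^ i * (|γ a₀| + 1) ∧
      |γ a₀| + 1 ≤ D ^ i * (|y| + 1) ∧ (γ a₀ < 0 → 0 ≤ y → |γ a₀| + 1 ≤ D ^ (i + 1)))
    ⟨by simp, by simp, fun e1 e2 => absurd e2 (not_le.2 e1)⟩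
    (fun i y ⟨q1, q2, q3⟩ =>
      ⟨q1.trans (mul_le_mul_of_nonneg_right (h2 _ _ (Nat.le_succ i)) (by positivity)),
        q2.trans (mul_le_mul_of_nonneg_right (h2 _ _ (Nat.le_succ i)) (by positivity)),
        fun e1 e2 => (q3 e1 e2).trans (h2 _ _ (Nat.le_succ _))⟩)
    (fun i x y ⟨q1, q2, q3⟩ hxy hf => by
      obtain ⟨r1, r2, r3⟩ := RSplit_step hd hD hxy hf
      have hp : 0 ≤ D ^ i := by positivity
      refine ⟨?_, ?_, fun e1 e2 => ?_⟩
      · rw [pow_succ', mul_assoc]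
        exact r1.trans (mul_le_mul_of_nonneg_left q1 h0)
      · rw [pow_succ, mul_assoc]
        exact q2.trans (mul_le_mul_of_nonneg_left r2 hp)
      · refine le_trans ?_ (h2 _ _ (Nat.le_succ _))
        rcases lt_or_ge x 0 with e3 | e3
        · rw [pow_succ]
          exact q2.trans (mul_le_mul_of_nonneg_left (r3 e3 e2) hp)
        · exact q3 e1 e3) ha₀
  have hp : 0 ≤ D ^ A.card := by positivity
  refine ⟨fun a ha b hb => ?_, ?_⟩
  · refine (h4 a ha).1.trans ((mul_le_mul_of_nonneg_left (h4 b hb).2.1 hp).trans ?_)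
    rw [← mul_assoc, ← pow_add]
    exact mul_le_mul_of_nonneg_right ((h2 _ _ (by omega)).trans h3) (by positivity)
  · rcases lt_or_ge (γ a₀) 0 with e1 | e1
    · by_cases e2 : ∀ a ∈ A, γ a < 0
      · exact Or.inl e2
      · push Not at e2
        obtain ⟨b, hb, e2⟩ := e2
        refine Or.inr (Or.inr fun a ha => ?_)
        have e3 := (h4 a ha).1.trans (mul_le_mul_of_nonneg_left ((h4 b hb).2.2 e1 e2) hp)
        rw [← pow_add] at e3
        have e4 := (h2 (A.card + (A.card + 1)) _ (by omega)).trans h3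
        linarith
    · exact Or.inr (Or.inl fun a ha => e1.trans (hmin a ha))

theorem lin_inv : ∃ f : ℕ → ℕ, Cm f ∧ ∀ (Φ : Filt p) (s n : ℕ) (ι : Type) [Fintype ι]
    (V : Set (ι → KK p)) (γ γ' : ι → ℤ), PP Φ s V → TS s V → n ≤ s →
    CT (f s) Finset.univ γ γ' → Tr V n Finset.univ γ γ' := by
  obtain ⟨f₀, hf₀, hl⟩ := lift_lin (p := p)
  obtain ⟨f, hf, hg⟩ := exists_cm
    (g := fun s => s * (s + f₀ (2 * s + 1)) + (s + f₀ (2 * s + 1)) + 1)
    (by have := hf₀.ci; fun_prop)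
  refine ⟨f, hf, fun Φ s n ι _ V γ γ' hV hT hn hC => ?_⟩
  have h1 := hg s s le_rfl
  have h2 : ∀ (Z : ι → Prop) (α β : ℤ), α + f₀ (2 * s + 1) ≤ β → Lft (zer Z V) α β :=
    fun Z α β => hl Φ (2 * s + 1) ι (zer Z V) (hV.zer Z) ((hT.zer Z).mono (by omega)) α β
  generalize f₀ (2 * s + 1) = c at h1 h2
  have h3 : (s : ℤ) * (s + c) + (s + c) + 1 ≤ f s := by exact_mod_cast h1
  have h4 : (n : ℤ) ≤ s := by exact_mod_cast hn
  have h5 : (0 : ℤ) ≤ s * (s + c) := by positivity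
  have h6 := split_ind hV.isGrp (fun α β => α + c ≤ β) (fun α β β' e1 e2 => e2.trans e1) h2 n
    Finset.univ γ γ' (fun a ha b hb e => ?_) (fun Z A hA hN => ?_) (fun _ => False) Finset.univ
    le_rfl
  · have e : zer (fun _ => False) V = V := by
      ext x
      simp [zer]
    rwa [e] at h6
  · have := (RSplit_sub hC (hf.pos s) hb ha (e := n + c)
      (by rw [abs_of_nonneg (by positivity)]; linarith)).1 (by linarith)
    linarith
  rcases A.eq_empty_or_nonempty with rfl | hne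
  · exact Tr.of_eq _ _ (by simp)
  obtain ⟨a₀, ha₀, hmin⟩ := A.exists_min_image γ hne
  have h7 := chain hN hmin (fun i y => y ≤ γ a₀ + i * (n + c)) (by simp)
    (fun i y e => by
      have : (0 : ℤ) ≤ n + c := by positivity
      push_cast
      linarith)
    (fun i x y e1 _ e2 => by
      push_cast
      linarith) ha₀
  have h8 : (A.card : ℤ) * (n + c) ≤ s * (s + c) :=
    mul_le_mul (by exact_mod_cast A.card_le_univ.trans hV.2.1) (by linarith) (by positivity)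
      (by positivity)
  have h9 : ∀ b ∈ A, γ' b - γ' a₀ = γ b - γ a₀ := fun b hb => by
    refine hC.sub_eq (hA hb) (hA ha₀) ?_
    have e1 := h7 b hb
    have e2 := hmin b hb
    have e3 : (0 : ℤ) ≤ s + c := by positivity
    rw [abs_of_nonneg (by linarith)]
    linarith
  obtain ⟨q, hq, hqs, hz⟩ := hT.zer Z
  obtain ⟨k, hk⟩ : (q : ℤ) ∣ γ' a₀ - γ a₀ :=
    Dvd.dvd.trans (by exact_mod_cast Nat.dvd_factorial hq (hqs.trans (hf.le s)))
      (hC.1 a₀ (hA ha₀)).dvd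
  intro x hx hge
  refine ⟨_, hz k x hx, fun i hi => ?_⟩
  have e : γ' i - k * q = γ i := by linarith [h9 i hi]
  refine ⟨(ge_tz_mul_iff _ _ _).2 (e ▸ hge i hi), fun m _ => ?_⟩
  rw [coeff_tz_mul, ← e]
  congr 1
  ring

end Pool.Agent.Work.MP_db9079_lc
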