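import Pool.Agent.Work.MP_db9079_lc.RDefs
import Pool.Agent.Work.MP_db9079_lc.RCm

/-!
Terms as lists of symbols, evaluated by a stack machine; shapes.
-/

namespace Pool.Agent.Work.MP_db9079_lc

open Pool.Agent.Lib.RelComp

/-- Symbols: `0` add, `1` subtract, `2` Frobenius, `3` scalar, `v + 4` the variable `v`. -/
abbrev Sy : Type := ℕ × Aut

/-- Operations of a stack machine. -/
structure Ops (β : Type) where
  add : β → β → β
  sub : β → β → β
  fr : β → β
  sc : Aut → β → β
  d : β

/-- One step of the stack machine. -/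
def stkStep {β : Type} (o : Ops β) (y : ℕ → β) (s : Sy) (st : List β) : List β :=
  if s.1 = 0 then o.add (st.getD 0 o.d) (st.getD 1 o.d) :: st.drop 2
  else if s.1 = 1 then o.sub (st.getD 0 o.d) (st.getD 1 o.d) :: st.drop 2
  else if s.1 = 2 then o.fr (st.getD 0 o.d) :: st.drop 1
  else if s.1 = 3 then o.sc s.2 (st.getD 0 o.d) :: st.drop 1
  else y (s.1 - 4) :: st

/-- The stack after reading a list of symbols from the right. -/
def stk {β : Type} (o : Ops β) (y : ℕ → β) (t : List Sy) : List β := t.foldr (stkStep o y) []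

theorem rstk_cons {β : Type} (o : Ops β) (y : ℕ → β) (s : Sy) (t : List Sy) :
    stk o y (s :: t) = stkStep o y s (stk o y t) := rfl

theorem rstk_drop {β : Type} (l : List β) (d : β) (n i : ℕ) :
    (l.drop n).getD i d = l.getD (n + i) d := by
  simp only [List.getD_eq_getElem?_getD, List.getElem?_drop]

theorem rstk_push {β β' : Type} {R : β → β' → Prop} {a d : β} {a' d' : β'} {l : List β}
    {l' : List β'} (n : ℕ) (ha : R a a') (h : ∀ i, R (l.getD i d) (l'.getD i d')) (i : ℕ) :
    R ((a :: l.drop n).getD i d) ((a' :: l'.drop n).getD i d') := by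
  cases i with
  | zero => exact ha
  | succ i =>
    rw [List.getD_cons_succ, List.getD_cons_succ, rstk_drop, rstk_drop]
    exact h _

/-- Logical relations for the stack machine. -/
theorem stk_rel {β β' : Type} (o : Ops β) (o' : Ops β') (y : ℕ → β) (y' : ℕ → β')
    (R : ℕ → β → β' → Prop) (t : List Sy)
    (hmono : ∀ l a a', R l a a' → R (l + 1) a a') (hd : R 0 o.d o'.d)
    (hadd : ∀ l a a' b b', l < t.length → R l a a' → R l b b' →
      R (l + 1) (o.add a b) (o'.add a' b'))
    (hsub : ∀ l a a' b b', l < t.length → R l a a' → R l b b' →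
      R (l + 1) (o.sub a b) (o'.sub a' b'))
    (hfr : ∀ l a a', l < t.length → R l a a' → R (l + 1) (o.fr a) (o'.fr a'))
    (hsc : ∀ s ∈ t, ∀ l a a', l < t.length → R l a a' → R (l + 1) (o.sc s.2 a) (o'.sc s.2 a'))
    (hv : ∀ s ∈ t, 4 ≤ s.1 → R 0 (y (s.1 - 4)) (y' (s.1 - 4))) (i : ℕ) :
    R t.length ((stk o y t).getD i o.d) ((stk o' y' t).getD i o'.d) := by
  have hup : ∀ l a a', R 0 a a' → R l a a' := by
    intro l a a' h
    induction l with
    | zero => exact h
    | succ l ih => exact hmono _ _ _ ih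
  have key : ∀ u : List Sy, u.length ≤ t.length → (∀ s ∈ u, s ∈ t) → ∀ i,
      R u.length ((stk o y u).getD i o.d) ((stk o' y' u).getD i o'.d) := by
    intro u
    induction u with
    | nil => exact fun _ _ _ => hd
    | cons s u ih =>
      intro h1 h2 i
      have hl : u.length < t.length := h1
      have hs : s ∈ t := h2 s List.mem_cons_self
      have h3 := ih hl.le fun s hs => h2 s (List.mem_cons_of_mem _ hs)
      have h4 := fun i => hmono _ _ _ (h3 i)
      rw [rstk_cons, rstk_cons, List.length_cons]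
      unfold stkStep
      split_ifs with e0 e1 e2 e3
      · exact rstk_push 2 (hadd _ _ _ _ _ hl (h3 0) (h3 1)) h4 i
      · exact rstk_push 2 (hsub _ _ _ _ _ hl (h3 0) (h3 1)) h4 i
      · exact rstk_push 1 (hfr _ _ _ hl (h3 0)) h4 i
      · exact rstk_push 1 (hsc s hs _ _ _ hl (h3 0)) h4 i
      · exact rstk_push 0 (hup _ _ _ (hv s hs (by omega))) h4 i
  exact key t le_rfl (fun _ h => h) i

/-- Renaming of the variables `≥ k` for the copy number `j` out of `N`. -/
def ren (k N j : ℕ) (s : Sy) : Sy := if k + 4 ≤ s.1 then ((s.1 - 4) * N + j + 4, s.2) else s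

theorem stk_ren {β : Type} (o : Ops β) (y : ℕ → β) (k N j : ℕ) (t : List Sy) :
    stk o y (t.map (ren k N j)) = stk o (fun v => y (if v < k then v else v * N + j)) t := by
  induction t with
  | nil => rfl
  | cons s t ih =>
    rw [List.map_cons, rstk_cons, rstk_cons, ih]
    unfold ren
    split_ifs with h
    · unfold stkStep
      rw [if_neg (by omega), if_neg (by omega), if_neg (by omega), if_neg (by omega),
        if_neg (by omega), if_neg (by omega), if_neg (by omega), if_neg (by omega)]
      simp only [if_neg (show ¬ s.1 - 4 < k by omega), Nat.add_sub_cancel]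
    · unfold stkStep
      split_ifs with e0 e1 e2 e3
      · rfl
      · rfl
      · rfl
      · rfl
      · simp only [if_pos (show s.1 - 4 < k by omega)]

/-- All variables are `< k`. -/
def Vars (k : ℕ) (t : List Sy) : Prop := ∀ s ∈ t, s.1 < k + 4

theorem Vars.mono {k k' : ℕ} {t : List Sy} (h : Vars k t) (hk : k ≤ k') : Vars k' t :=
  fun s hs => by have := h s hs; omega

theorem Vars.map_ren {k : ℕ} {t : List Sy} (h : Vars k t) (N j : ℕ) : t.map (ren k N j) = t := by
  conv_rhs => rw [← List.map_id t]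
  exact List.map_congr_left fun s hs => if_neg (not_le.2 (h s hs))

/-- `N` copies of a shape with the variables `≥ k` renamed apart. -/
def nextSh (sh : List (List Sy)) (k N : ℕ) : List (List Sy) :=
  (List.range N).flatMap fun j => sh.map fun t => t.map (ren k N j)

theorem rstk_succ (sh : List (List Sy)) (k M N : ℕ) :
    ((List.range (N + 1)).flatMap fun j => sh.map fun t => t.map (ren k M j)) =
      ((List.range N).flatMap fun j => sh.map fun t => t.map (ren k M j)) ++
        sh.map fun t => t.map (ren k M N) := by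
  rw [List.range_succ, List.flatMap_append, List.flatMap_singleton]

theorem rstk_length (sh : List (List Sy)) (k M N : ℕ) :
    ((List.range N).flatMap fun j => sh.map fun t => t.map (ren k M j)).length =
      N * sh.length := by
  induction N with
  | zero => simp
  | succ N ih => rw [rstk_succ, List.length_append, ih, List.length_map, Nat.succ_mul]

theorem rstk_getD (sh : List (List Sy)) (k M N : ℕ) {j i : ℕ} (hj : j < N) (hi : i < sh.length) :
    ((List.range N).flatMap fun j => sh.map fun t => t.map (ren k M j)).getD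
      (j * sh.length + i) [] = (sh.getD i []).map (ren k M j) := by
  induction N with
  | zero => omega
  | succ N ih =>
    rw [rstk_succ]
    rcases (Nat.lt_succ_iff.1 hj).eq_or_lt with rfl | h
    · rw [List.getD_append_right _ _ _ _ (by rw [rstk_length]; omega), rstk_length,
        Nat.add_sub_cancel_left, List.getD_eq_getElem?_getD, List.getD_eq_getElem?_getD,
        List.getElem?_map, List.getElem?_eq_getElem hi]
      rfl
    · rw [List.getD_append _ _ _ _ ?_, ih h]
      have h1 : (j + 1) * sh.length ≤ N * sh.length := Nat.mul_le_mul_right _ h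
      rw [rstk_length]
      rw [Nat.succ_mul] at h1
      omega

theorem length_nextSh (sh : List (List Sy)) (k N : ℕ) :
    (nextSh sh k N).length = N * sh.length := by
  exact rstk_length sh k N N

theorem getD_nextSh (sh : List (List Sy)) (k N : ℕ) {j i : ℕ} (hj : j < N) (hi : i < sh.length) :
    (nextSh sh k N).getD (j * sh.length + i) [] = (sh.getD i []).map (ren k N j) := by
  exact rstk_getD sh k N N hj hi

theorem mem_nextSh {sh : List (List Sy)} {k N : ℕ} (hN : 0 < N) {t : List Sy} (ht : t ∈ sh)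
    (hv : Vars k t) : t ∈ nextSh sh k N := by
  exact List.mem_flatMap.2 ⟨0, List.mem_range.2 hN, List.mem_map.2 ⟨t, ht, hv.map_ren N 0⟩⟩

/-- Size of a shape. -/
def sz (sh : List (List Sy)) : ℕ :=
  (sh.map fun t => (t.map fun s => s.1 + s.2.length + 2).sum + 1).sum

theorem rstk_sz (t : List Sy) (sh : List (List Sy)) :
    sz (t :: sh) = (t.map fun s => s.1 + s.2.length + 2).sum + 1 + sz sh := by
  simp only [sz, List.map_cons, List.sum_cons]

theorem rstk_mem {sh : List (List Sy)} {t : List Sy} (ht : t ∈ sh) :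
    (t.map fun s => s.1 + s.2.length + 2).sum + 1 ≤ sz sh :=
  rcm_le_sum (List.mem_map.2 ⟨t, ht, rfl⟩)

theorem rstk_len (t : List Sy) : t.length ≤ (t.map fun s => s.1 + s.2.length + 2).sum := by
  induction t with
  | nil => simp
  | cons s t ih =>
    simp only [List.length_cons, List.map_cons, List.sum_cons]
    omega

theorem rstk_aut (t : List Sy) :
    (t.map fun s => s.2.length + 1).sum ≤ (t.map fun s => s.1 + s.2.length + 2).sum := by
  induction t with
  | nil => simp
  | cons s t ih =>
    simp only [List.map_cons, List.sum_cons]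
    omega

theorem length_le_sz (sh : List (List Sy)) : sh.length ≤ sz sh := by
  induction sh with
  | nil => simp
  | cons t sh ih =>
    rw [rstk_sz, List.length_cons]
    omega

theorem length_le_sz_of_mem {sh : List (List Sy)} {t : List Sy} (ht : t ∈ sh) :
    t.length ≤ sz sh := by
  have h1 := rstk_mem ht
  have h2 := rstk_len t
  omega

theorem vars_sz {sh : List (List Sy)} {t : List Sy} (ht : t ∈ sh) : Vars (sz sh) t := by
  intro s hs
  have h1 := rstk_mem ht
  have h2 : s.1 + s.2.length + 2 ≤ (t.map fun s => s.1 + s.2.length + 2).sum :=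
    rcm_le_sum (List.mem_map.2 ⟨s, hs, rfl⟩)
  omega

theorem sum_aut_le_sz (sh : List (List Sy)) :
    (sh.flatten.map fun s => s.2.length + 1).sum ≤ sz sh := by
  induction sh with
  | nil => simp
  | cons t sh ih =>
    rw [rstk_sz, List.flatten_cons, List.map_append, List.sum_append]
    have := rstk_aut t
    omega

variable {α β : Type} [Primcodable α] [Primcodable β] {O : Set (ℕ →. ℕ)}

@[fun_prop] theorem ci_sz {sh : α → List (List Sy)} (h : CI O sh) : CI O (fun a => sz (sh a)) := by
  have h1 : CI O (fun t : List Sy => (t.map fun s => s.1 + s.2.length + 2).sum + 1) := by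
    fun_prop
  exact ci_sum (CI.map h (CI.comp _ Prod.snd h1 (CI.snd CI.id')))

theorem rstk_ci_ren : CI O (fun q : (ℕ × ℕ × ℕ) × Sy => ren q.1.1 q.1.2.1 q.1.2.2 q.2) := by
  unfold ren
  exact CI.ite (by fun_prop) (by fun_prop) (by fun_prop)

theorem rstk_ci_map :
    CI O (fun q : (ℕ × ℕ × ℕ) × List Sy => q.2.map (ren q.1.1 q.1.2.1 q.1.2.2)) :=
  CI.map (l := fun q : (ℕ × ℕ × ℕ) × List Sy => q.2)
    (g := fun (q : (ℕ × ℕ × ℕ) × List Sy) (s : Sy) => ren q.1.1 q.1.2.1 q.1.2.2 s) (by fun_prop)
    (CI.comp (fun q : (ℕ × ℕ × ℕ) × Sy => ren q.1.1 q.1.2.1 q.1.2.2 q.2)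
      (fun r : ((ℕ × ℕ × ℕ) × List Sy) × Sy => (r.1.1, r.2)) rstk_ci_ren (by fun_prop))

@[fun_prop] theorem ci_nextSh {sh : α → List (List Sy)} {k N : α → ℕ} (h : CI O sh) (hk : CI O k)
    (hN : CI O N) : CI O (fun a => nextSh (sh a) (k a) (N a)) := by
  unfold nextSh
  have h3 : CI O (fun r : (α × ℕ) × List Sy => r.2.map (ren (k r.1.1) (N r.1.1) r.1.2)) :=
    CI.comp (fun q : (ℕ × ℕ × ℕ) × List Sy => q.2.map (ren q.1.1 q.1.2.1 q.1.2.2))
      (fun r : (α × ℕ) × List Sy => ((k r.1.1, N r.1.1, r.1.2), r.2)) rstk_ci_map (by fun_prop)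
  have h4 : CI O (fun q : α × ℕ => (sh q.1).map fun t => t.map (ren (k q.1) (N q.1) q.2)) :=
    CI.map (l := fun q : α × ℕ => sh q.1)
      (g := fun (q : α × ℕ) (t : List Sy) => t.map (ren (k q.1) (N q.1) q.2)) (by fun_prop) h3
  exact CI.flatMap (l := fun a => List.range (N a))
    (g := fun a j => (sh a).map fun t => t.map (ren (k a) (N a) j)) (CI.range hN) h4

theorem ci_stk {o : α → Ops β} {y : α → ℕ → β} {t : α → List Sy}
    (hadd : CI O (fun q : α × β × β => (o q.1).add q.2.1 q.2.2))
    (hsub : CI O (fun q : α × β × β => (o q.1).sub q.2.1 q.2.2))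
    (hfr : CI O (fun q : α × β => (o q.1).fr q.2))
    (hsc : CI O (fun q : α × Aut × β => (o q.1).sc q.2.1 q.2.2))
    (hd : CI O (fun a => (o a).d)) (hy : CI O (fun q : α × ℕ => y q.1 q.2)) (ht : CI O t) :
    CI O (fun a => stk (o a) (y a) (t a)) := by
  refine ci_foldr (h := fun a => stkStep (o a) (y a)) (g := fun _ => []) ht (CI.const _) ?_
  have hd' : CI O (fun q : α × Sy × List β => (o q.1).d) :=
    CI.comp (fun a => (o a).d) Prod.fst hd (CI.fst CI.id')
  have g0 : CI O (fun q : α × Sy × List β => q.2.2.getD 0 (o q.1).d) :=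
    CI.getD (by fun_prop) (CI.const _) hd'
  have g1 : CI O (fun q : α × Sy × List β => q.2.2.getD 1 (o q.1).d) :=
    CI.getD (by fun_prop) (CI.const _) hd'
  have d1 : CI O (fun q : α × Sy × List β => q.2.2.drop 1) := by fun_prop
  have d2 : CI O (fun q : α × Sy × List β => q.2.2.drop 2) := by fun_prop
  have f1 : CI O (fun q : α × Sy × List β => q.1) := by fun_prop
  unfold stkStep
  refine CI.ite (by fun_prop) (CI.cons (CI.comp _ _ hadd (f1.pair (g0.pair g1))) d2) ?_
  refine CI.ite (by fun_prop) (CI.cons (CI.comp _ _ hsub (f1.pair (g0.pair g1))) d2) ?_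
  refine CI.ite (by fun_prop) (CI.cons (CI.comp _ _ hfr (f1.pair g0)) d1) ?_
  refine CI.ite (by fun_prop) (CI.cons (CI.comp _ _ hsc
    (f1.pair (CI.pair (f := fun q : α × Sy × List β => q.2.1.2) (by fun_prop) g0))) d1) ?_
  exact CI.cons (CI.comp _ (fun q : α × Sy × List β => (q.1, q.2.1.1 - 4)) hy (by fun_prop))
    (by fun_prop)

/-- One step of reading. -/
def rstkRead (p : ℕ) (A : Aut) (x : ℕ × ℕ) : ℕ × ℕ :=
  if x.2 = 0 then x else ((A.getD x.1 (0, [])).2.getD (x.2 % p) 0, x.2 / p)

theorem rstk_read {p : ℕ} (hp : 2 ≤ p) (A : Aut) (m s n : ℕ) (h : n ≤ m) :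
    ((rstkRead p A)^[m] (s, n)).1 =
      (Nat.digits p n).foldl (fun s d => (A.getD s (0, [])).2.getD d 0) s := by
  induction m generalizing s n with
  | zero =>
    obtain rfl : n = 0 := by omega
    simp
  | succ m ih =>
    rw [Function.iterate_succ_apply]
    rcases Nat.eq_zero_or_pos n with rfl | hn
    · exact ih s 0 (Nat.zero_le _)
    · have h1 : n / p < n := Nat.div_lt_self hn hp
      rw [Nat.digits_def' hp hn, List.foldl_cons, ← ih _ _ (by omega), rstkRead,
        if_neg (by omega)]

theorem ci_autOut {p : ℕ} (hp : 2 ≤ p) :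
    CI O (fun q : Aut × ℕ => autOut p q.1 0 q.2) := by
  have h1 : CI O (fun q : (Aut × ℕ) × ℕ × ℕ => rstkRead p q.1.1 q.2) := by
    unfold rstkRead
    exact CI.ite (by fun_prop) (by fun_prop) (by fun_prop)
  have h2 := ci_iterate (O := O) (F := fun q : Aut × ℕ => rstkRead p q.1) (n := fun q => q.2)
    (x := fun q => (0, q.2)) h1 (by fun_prop) (by fun_prop)
  have h3 : CI O (fun q : Aut × ℕ =>
      (q.1.getD ((rstkRead p q.1)^[q.2] (0, q.2)).1 (0, [])).1) :=
    CI.fst (CI.getD (by fun_prop) (CI.fst h2) (CI.const _))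
  exact h3.congr fun q => by rw [rstk_read hp _ _ _ _ le_rfl, autOut]

end Pool.Agent.Work.MP_db9079_lc
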