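import Pool.Agent.Work.MP_db9079_lc.RStk
import Pool.Agent.Work.MP_db9079_lc.RProbe

/-!
Evaluation of terms in the field of Laurent series; the groups attached to a shape.
-/

namespace Pool.Agent.Work.MP_db9079_lc

variable {p : ℕ} [hp : Fact p.Prime]

/-- The operations on Laurent series. -/
noncomputable def opsK (p : ℕ) [Fact p.Prime] : Ops (KK p) :=
  ⟨fun a b => a + b, fun a b => a - b, fun a => a ^ p, fun A a => autSeries p A * a, 0⟩

/-- Value of a term. -/
noncomputable def ev (y : ℕ → KK p) (t : List Sy) : KK p := (stk (opsK p) y t).getD 0 0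

/-- Values of the terms of a shape. -/
noncomputable def evV (sh : List (List Sy)) (y : ℕ → KK p) : Fin sh.length → KK p :=
  fun i => ev y (sh.getD i [])

/-- Values of a shape when the variables `< k` vanish. -/
def GS (p : ℕ) [Fact p.Prime] (sh : List (List Sy)) (k : ℕ) : Set (Fin sh.length → KK p) :=
  {x | ∃ y : ℕ → KK p, (∀ v, v < k → y v = 0) ∧ x = evV sh y}

/-- Extension by zero of an assignment of the variables in `[k, M)`. -/
noncomputable def extZ (k : ℕ) {M : ℕ} (z : Fin M → KK p) (v : ℕ) : KK p :=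
  if h : k ≤ v ∧ v < M then z ⟨v, h.2⟩ else 0

/-- The series of the outputs from state `s`. -/
noncomputable def RTerm_ser (p : ℕ) (A : Aut) (s : ℕ) : KK p :=
  HahnSeries.ofPowerSeries ℤ (ZMod p) (PowerSeries.mk fun n => (autOut p A s n : ZMod p))

theorem RTerm_coeff (A : Aut) (s m : ℕ) :
    (RTerm_ser p A s).coeff (m : ℤ) = (autOut p A s m : ZMod p) := by
  rw [RTerm_ser, HahnSeries.ofPowerSeries_apply_coeff, PowerSeries.coeff_mk]

theorem RTerm_ge (A : Aut) (s : ℕ) : Ge 0 (RTerm_ser p A s) := by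
  intro n hn
  rw [RTerm_ser, PowerSeries.coeff_coe, if_pos hn]

omit hp in
theorem RTerm_out_min (A : Aut) (s n : ℕ) : autOut p A s n = autOut p A (min s A.length) n := by
  rcases le_total s A.length with h | h
  · rw [min_eq_left h]
  · rw [min_eq_right h]
    have h1 : A.getD s (0, []) = (0, []) := List.getD_eq_default _ _ h
    have h2 : A.getD A.length (0, []) = (0, []) := List.getD_eq_default _ _ le_rfl
    unfold autOut
    cases Nat.digits p n with
    | nil => rw [List.foldl_nil, List.foldl_nil, h1, h2]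
    | cons d l => rw [List.foldl_cons, List.foldl_cons, h1, h2]

theorem RTerm_out_step (A : Aut) (s : ℕ) {j m : ℕ} (hj : j < p) (hm : m ≠ 0) :
    autOut p A s (j + p * m) = autOut p A ((A.getD s (0, [])).2.getD j 0) m := by
  unfold autOut
  rw [Nat.digits_add p hp.out.one_lt j m hj (Or.inr hm), List.foldl_cons]

theorem RTerm_cart (A : Aut) (s : ℕ) {j : ℕ} (hj : j < p) :
    ∃ s', s' < A.length + 1 ∧ ∃ c : ZMod p,
      cart 1 j (RTerm_ser p A s) = RTerm_ser p A s' + HahnSeries.single 0 c := by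
  refine ⟨min ((A.getD s (0, [])).2.getD j 0) A.length, Nat.lt_succ_of_le (min_le_right _ _),
    (autOut p A s j : ZMod p) - autOut p A (min ((A.getD s (0, [])).2.getD j 0) A.length) 0, ?_⟩
  ext m
  rw [coeff_cart, HahnSeries.coeff_add, pow_one]
  have hj' : (j : ℤ) < p := by exact_mod_cast hj
  rcases lt_trichotomy m 0 with h | h | h
  · rw [RTerm_ge A s _ (by nlinarith), RTerm_ge A _ _ h, HahnSeries.coeff_single_of_ne h.ne,
      add_zero]
  · subst h
    have h1 := RTerm_coeff (p := p) A (min ((A.getD s (0, [])).2.getD j 0) A.length) 0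
    rw [Nat.cast_zero] at h1
    rw [mul_zero, zero_add, RTerm_coeff, h1, HahnSeries.coeff_single_same, add_sub_cancel]
  · obtain ⟨m, rfl⟩ := Int.eq_ofNat_of_zero_le h.le
    have hm : m ≠ 0 := by omega
    have h1 : (p : ℤ) * m + j = ((j + p * m : ℕ) : ℤ) := by push_cast; ring
    rw [h1, RTerm_coeff, RTerm_coeff, HahnSeries.coeff_single_of_ne h.ne', add_zero,
      RTerm_out_step A s hj hm, ← RTerm_out_min]

theorem coeff_autSeries (A : Aut) (m : ℕ) :
    (autSeries p A).coeff (m : ℤ) = (autOut p A 0 m : ZMod p) := by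
  exact RTerm_coeff A 0 m

theorem ge_autSeries (A : Aut) : Ge 0 (autSeries p A) := by
  exact RTerm_ge A 0

theorem exists_filt_aut (L : List Aut) :
    ∃ Φ : Filt p, Φ.w = (L.map fun A => A.length + 1).sum ∧ ∀ A ∈ L, autSeries p A ∈ Φ.R 1 := by
  obtain ⟨Φ, h1, h2⟩ := exists_filt (p := p)
    (L.flatMap fun A => (List.range (A.length + 1)).map fun s => RTerm_ser p A s)
    (fun x hx => by
      obtain ⟨A, -, hA⟩ := List.mem_flatMap.1 hx
      obtain ⟨s, -, rfl⟩ := List.mem_map.1 hA
      exact RTerm_ge A s)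
    (fun x hx j hj => by
      obtain ⟨A, hL, hA⟩ := List.mem_flatMap.1 hx
      obtain ⟨s, -, rfl⟩ := List.mem_map.1 hA
      obtain ⟨s', h3, c, h4⟩ := RTerm_cart A s hj
      exact ⟨RTerm_ser p A s', List.mem_flatMap.2
        ⟨A, hL, List.mem_map.2 ⟨s', List.mem_range.2 h3, rfl⟩⟩, c, h4⟩)
  refine ⟨Φ, ?_, fun A hA => h2 _ (List.mem_flatMap.2
    ⟨A, hA, List.mem_map.2 ⟨0, List.mem_range.2 (Nat.succ_pos _), rfl⟩⟩)⟩
  rw [h1, List.length_flatMap]
  simp only [List.length_map, List.length_range]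

theorem ev_congr {k : ℕ} {t : List Sy} (h : Vars k t) {y y' : ℕ → KK p}
    (e : ∀ v, v < k → y v = y' v) : ev y t = ev y' t := by
  refine stk_rel (opsK p) (opsK p) y y' (fun _ a b => a = b) t (fun _ _ _ h => h) rfl
    ?_ ?_ ?_ ?_ (fun s hs h4 => e _ (by have := h s hs; omega)) 0
  · rintro l a _ b _ - rfl rfl
    rfl
  · rintro l a _ b _ - rfl rfl
    rfl
  · rintro l a _ - rfl
    rfl
  · rintro s - l a _ - rfl
    rfl

/-- The operations on functions with values in the Laurent series. -/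
noncomputable def RTerm_ops (p : ℕ) [Fact p.Prime] (X : Type) : Ops (X → KK p) :=
  ⟨fun a b x => a x + b x, fun a b x => a x - b x, fun a x => a x ^ p,
    fun A a x => autSeries p A * a x, fun _ => 0⟩

theorem RTerm_ev {X : Type} (y : ℕ → X → KK p) (t : List Sy) (x : X) :
    (stk (RTerm_ops p X) y t).getD 0 (fun _ => 0) x = ev (fun v => y v x) t := by
  refine stk_rel (RTerm_ops p X) (opsK p) y (fun v => y v x) (fun _ a b => a x = b) t
    (fun _ _ _ h => h) rfl ?_ ?_ ?_ ?_ (fun s _ _ => rfl) 0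
  · rintro l a _ b _ - rfl rfl
    rfl
  · rintro l a _ b _ - rfl rfl
    rfl
  · rintro l a _ - rfl
    rfl
  · rintro s - l a _ - rfl
    rfl

theorem ev_add (y y' : ℕ → KK p) (t : List Sy) : ev (y + y') t = ev y t + ev y' t := by
  let Y : ℕ → Fin 3 → KK p := fun v => ![y v, y' v, y v + y' v]
  have h := stk_rel (RTerm_ops p (Fin 3)) (RTerm_ops p (Fin 3)) Y Y
    (fun _ a _ => a 2 = a 0 + a 1) t (fun _ _ _ h => h) (add_zero _).symm
    (fun l a _ b _ _ ha hb => by
      change a 2 + b 2 = (a 0 + b 0) + (a 1 + b 1)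
      rw [ha, hb]
      ring)
    (fun l a _ b _ _ ha hb => by
      change a 2 - b 2 = (a 0 - b 0) + (a 1 - b 1)
      rw [ha, hb]
      ring)
    (fun l a _ _ ha => by
      change a 2 ^ p = a 0 ^ p + a 1 ^ p
      rw [ha, frob_add])
    (fun s _ l a _ _ ha => by
      change autSeries p s.2 * a 2 = autSeries p s.2 * a 0 + autSeries p s.2 * a 1
      rw [ha, mul_add])
    (fun s _ _ => rfl) 0
  have h0 := RTerm_ev Y t 0
  have h1 := RTerm_ev Y t 1
  have h2 := RTerm_ev Y t 2
  exact h2.symm.trans (h.trans (congrArg₂ (· + ·) h0 h1))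

theorem ev_zero (t : List Sy) : ev (0 : ℕ → KK p) t = 0 := by
  have h := ev_add (0 : ℕ → KK p) 0 t
  rw [add_zero] at h
  exact left_eq_add.1 h

theorem ev_sub (y y' : ℕ → KK p) (t : List Sy) : ev (y - y') t = ev y t - ev y' t := by
  rw [eq_sub_iff_add_eq, ← ev_add, sub_add_cancel]

theorem isGrp_GS (sh : List (List Sy)) (k : ℕ) : IsGrp (GS p sh k) := by
  refine ⟨⟨0, fun _ _ => rfl, funext fun i => (ev_zero _).symm⟩, ?_, ?_⟩
  · rintro _ _ ⟨y, hy, rfl⟩ ⟨y', hy', rfl⟩
    exact ⟨y + y', fun v hv => by rw [Pi.add_apply, hy v hv, hy' v hv, add_zero],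
      funext fun i => (ev_add y y' _).symm⟩
  · rintro _ _ ⟨y, hy, rfl⟩ ⟨y', hy', rfl⟩
    exact ⟨y - y', fun v hv => by rw [Pi.sub_apply, hy v hv, hy' v hv, sub_zero],
      funext fun i => (ev_sub y y' _).symm⟩

theorem GS_apply_eq_zero {sh : List (List Sy)} {k : ℕ} {i : Fin sh.length}
    (h : Vars k (sh.getD i [])) : ∀ g ∈ GS p sh k, g i = 0 := by
  rintro _ ⟨y, hy, rfl⟩
  exact (ev_congr (y' := 0) h hy).trans (ev_zero _)

theorem val_iff_env (sh : List (List Sy)) (k n : ℕ) (a : ℕ → KK p) (c : Pb p) :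
    Val (GS p sh k) n (evV sh a) c ↔ ∃ y, (∀ v, v < k → y v = a v) ∧ Win n c (evV sh y) := by
  have hadd : ∀ y y' : ℕ → KK p, evV sh y + evV sh y' = evV sh (y + y') := fun y y' =>
    funext fun i => (ev_add y y' _).symm
  constructor
  · rintro ⟨_, ⟨y, hy, rfl⟩, h⟩
    exact ⟨a + y, fun v hv => by rw [Pi.add_apply, hy v hv, add_zero], hadd a y ▸ h⟩
  · rintro ⟨y, hy, h⟩
    refine ⟨evV sh (y - a), ⟨y - a, fun v hv => by rw [Pi.sub_apply, hy v hv, sub_self], rfl⟩, ?_⟩
    rwa [hadd, add_sub_cancel]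

theorem RTerm_next (sh : List (List Sy)) (k N : ℕ) (y : ℕ → KK p) {j : ℕ} (hj : j < N)
    (i : Fin sh.length) (i' : Fin (nextSh sh k N).length) (e : (i' : ℕ) = j * sh.length + i) :
    evV (nextSh sh k N) y i' = evV sh (fun v => y (if v < k then v else v * N + j)) i := by
  unfold evV ev
  rw [e, getD_nextSh sh k N hj i.2, stk_ren]

theorem val_next (sh : List (List Sy)) (k n N : ℕ) (a : ℕ → KK p) (C : Pb p) :
    Val (GS p (nextSh sh (k + 1) N) k) n (evV (nextSh sh (k + 1) N) a) C ↔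
      ∃ x, ∀ j, j < N →
        Val (GS p sh (k + 1)) n (evV sh (Function.update a k x)) (C.sub (j * sh.length)) := by
  simp only [val_iff_env]
  constructor
  · rintro ⟨y, hy, h⟩
    refine ⟨y k, fun j hj => ⟨fun v => y (if v < k + 1 then v else v * N + j), fun v hv => ?_,
      fun i => ?_⟩⟩
    · beta_reduce
      rw [if_pos hv]
      rcases (Nat.lt_succ_iff.1 hv).lt_or_eq with e | e
      · rw [Function.update_of_ne e.ne, hy v e]
      · rw [e, Function.update_self]
    · have hi : j * sh.length + i < (nextSh sh (k + 1) N).length := by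
        rw [length_nextSh]
        calc j * sh.length + i < j * sh.length + sh.length := Nat.add_lt_add_left i.2 _
          _ = (j + 1) * sh.length := (Nat.succ_mul _ _).symm
          _ ≤ N * sh.length := Nat.mul_le_mul_right _ hj
      have h1 := h ⟨_, hi⟩
      rw [RTerm_next sh (k + 1) N y hj i _ rfl] at h1
      exact h1
  · rintro ⟨x, h⟩
    have h' : ∀ j, ∃ y : ℕ → KK p, j < N → (∀ v, v < k + 1 → y v = Function.update a k x v) ∧
        Win n (C.sub (j * sh.length)) (evV sh y) := fun j => by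
      by_cases hj : j < N
      · obtain ⟨y, hy⟩ := h j hj
        exact ⟨y, fun _ => hy⟩
      · exact ⟨0, fun e => absurd e hj⟩
    choose y hy using h'
    refine ⟨fun w => if w < k + 1 then Function.update a k x w else y (w % N) (w / N),
      fun v hv => ?_, fun i' => ?_⟩
    · beta_reduce
      rw [if_pos (by omega), Function.update_of_ne hv.ne]
    · have hi : (i' : ℕ) < N * sh.length := length_nextSh sh (k + 1) N ▸ i'.2
      have hr : 0 < sh.length := Nat.pos_of_mul_pos_left (Nat.zero_lt_of_lt hi)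
      have hj : (i' : ℕ) / sh.length < N := Nat.div_lt_of_lt_mul (by rwa [mul_comm])
      obtain ⟨i, e⟩ : ∃ i : Fin sh.length, (i' : ℕ) = (i' : ℕ) / sh.length * sh.length + i :=
        ⟨⟨(i' : ℕ) % sh.length, Nat.mod_lt _ hr⟩, (Nat.div_add_mod' _ _).symm⟩
      generalize (i' : ℕ) / sh.length = j at hj e
      have hN : 0 < N := Nat.zero_lt_of_lt hj
      have h1 := (hy j hj).2 i
      rw [RTerm_next sh (k + 1) N _ hj i i' e]
      have h2 : (fun v => if (if v < k + 1 then v else v * N + j) < k + 1 then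
          Function.update a k x (if v < k + 1 then v else v * N + j) else
          y ((if v < k + 1 then v else v * N + j) % N) ((if v < k + 1 then v else v * N + j) / N))
          = y j := by
        funext v
        by_cases hv : v < k + 1
        · rw [if_pos hv, if_pos hv, (hy j hj).1 v hv]
        · have h3 : v ≤ v * N := Nat.le_mul_of_pos_right v hN
          rw [if_neg hv, if_neg (by omega), Nat.mul_add_mod_of_lt hj, add_comm,
            Nat.add_mul_div_right _ _ hN, Nat.div_eq_of_lt hj, zero_add]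
      rw [h2, e]
      exact h1

theorem exists_ap : ∃ f : ℕ → ℕ, Cm f ∧ ∀ sh : List (List Sy), ∃ Φ : Filt p, Φ.w ≤ f (sz sh) ∧
    ∀ t ∈ sh, ∀ k, APs Φ (f (sz sh)) (fun z : Fin (sz sh) → KK p => ev (extZ k z) t) := by
  obtain ⟨f, hf, h1⟩ := exists_cm (g := fun a => a + 1 + (p + 1) ^ a) (by fun_prop)
  refine ⟨f, hf, fun sh => ?_⟩
  obtain ⟨Φ, hw, hΦ⟩ := exists_filt_aut (p := p) (sh.flatten.map fun s => s.2)
  refine ⟨Φ, ?_, fun t ht k => ?_⟩
  · rw [hw, List.map_map]
    exact (sum_aut_le_sz sh).trans (hf.le _)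
  · have hpos := hp.out.pos
    have hm : ∀ (l : ℕ) (a : (Fin (sz sh) → KK p) → KK p),
        IsAP Φ (fun _ => l + 1) ((p + 1) ^ l) a →
          IsAP Φ (fun _ => l + 1 + 1) ((p + 1) ^ (l + 1)) a := fun l a h =>
      h.mono (fun _ => Nat.le_succ _) (Nat.pow_le_pow_right (Nat.succ_pos _) (Nat.le_succ _))
    have h := stk_rel (RTerm_ops p (Fin (sz sh) → KK p)) (RTerm_ops p (Fin (sz sh) → KK p))
      (fun v z => extZ k z v) (fun v z => extZ k z v)
      (fun l a _ => IsAP Φ (fun _ => l + 1) ((p + 1) ^ l) a) t (fun l a _ h => hm l a h) IsAP.zero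
      (fun l a _ b _ _ ha hb => hm l _ (ha.add hb))
      (fun l a _ b _ _ ha hb => hm l _ (ha.sub hb))
      (fun l a _ _ ha => ((ha.pow 1).mono (fun _ => le_rfl) (by
          rw [pow_one, pow_succ']
          exact Nat.mul_le_mul_right _ (Nat.le_succ p))).congr fun x => by
        rw [pow_one]
        rfl)
      (fun s hs l a _ _ ha => (ha.smul (hΦ s.2 (List.mem_map.2
          ⟨s, List.mem_flatten.2 ⟨t, ht, hs⟩, rfl⟩))).mono (fun _ => Nat.le_succ _) (by
        have h2 : 0 < (p + 1) ^ l := pow_pos (Nat.succ_pos p) l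
        rw [pow_succ]
        nlinarith))
      (fun s _ _ => by
        by_cases e : k ≤ s.1 - 4 ∧ s.1 - 4 < sz sh
        · exact (IsAP.coord (⟨s.1 - 4, e.2⟩ : Fin (sz sh)) (Nat.succ_pos 0)).congr fun z => by
            rw [extZ, dif_pos e]
        · exact IsAP.zero.congr fun z => by rw [extZ, dif_neg e]) 0
    have h2 := h1 t.length (sz sh) (length_le_sz_of_mem ht)
    exact (h.mono (fun _ => by omega) (by omega)).congr fun z => RTerm_ev _ t z

theorem ev_extZ {sh : List (List Sy)} {t : List Sy} (ht : t ∈ sh) {k : ℕ} {y : ℕ → KK p}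
    (hy : ∀ v, v < k → y v = 0) : ev (extZ k (fun v : Fin (sz sh) => y v)) t = ev y t := by
  refine ev_congr (vars_sz ht) fun v hv => ?_
  by_cases e : k ≤ v
  · rw [extZ, dif_pos ⟨e, hv⟩]
  · rw [extZ, dif_neg fun h => e h.1, hy v (not_le.1 e)]

theorem gs_pp : ∃ f : ℕ → ℕ, Cm f ∧ ∀ (sh : List (List Sy)) (k : ℕ), ∃ Φ : Filt p,
    PP Φ (f (sz sh)) (GS p sh k) := by
  obtain ⟨f, hf, h⟩ := exists_ap (p := p)
  refine ⟨f, hf, fun sh k => ?_⟩
  obtain ⟨Φ, hw, hΦ⟩ := h sh
  have hl : Fintype.card (Fin sh.length) ≤ f (sz sh) := by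
    rw [Fintype.card_fin]
    exact (length_le_sz sh).trans (hf.le _)
  have hm : ∀ j : Fin sh.length, sh.getD j [] ∈ sh := fun j => by
    rw [List.getD_eq_getElem _ _ j.2]
    exact List.getElem_mem _
  refine ⟨Φ, hw, hl, Fin (sz sh), Fin sh.length, inferInstance, inferInstance,
    fun j z => ev (extZ k z) (sh.getD j []), fun j x => x j, ?_, hl, fun j => hΦ _ (hm j) k,
    fun j => IsAP.coord j (hf.pos _), fun x => ⟨?_, ?_⟩⟩
  · rw [Fintype.card_fin]
    exact hf.le _
  · rintro ⟨y, hy, rfl⟩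
    exact ⟨fun v => y v, fun j => ev_extZ (hm j) hy⟩
  · rintro ⟨z, hz⟩
    exact ⟨extZ k z, fun v hv => by rw [extZ, dif_neg fun h => absurd h.1 (not_le.2 hv)],
      funext fun j => (hz j).symm⟩

end Pool.Agent.Work.MP_db9079_lc
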